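import Pool.Agent.Lib.MP_7d449a_al.GP.Spec

/-!
# Module AVA: formal properties of `avg`, first part
-/

set_option autoImplicit false

open Filter Topology

namespace Pool.Agent.Lib.MP7d449a.GP

universe u

namespace AVAM

variable {H : Type u} [Group H]

/-- A right invariant function at the chosen representative. -/
theorem out_eq (A : Subgroup H) (ψ : H → ℝ) (hψ : ∀ k, ∀ a ∈ A, ψ (k * a) = ψ k) (g : H) :
    ψ (Quotient.out (g : H ⧸ A)) = ψ g := by
  obtain ⟨h, hh⟩ := QuotientGroup.mk_out_eq_mul A g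
  have h1 : (Quotient.out (g : H ⧸ A)) = g * h := hh
  rw [h1]
  exact hψ g h h.2

/-- The average over a quotient. -/
noncomputable def av (A : Subgroup H) (ψ : H → ℝ) : ℝ :=
  (∑ᶠ q : H ⧸ A, ψ (Quotient.out q)) / (A.index : ℝ)

theorem fin_index {L : Type u} [Group L] {A : Subgroup L} (hA : A.index ≠ 0) : Finite (L ⧸ A) := by
  have : A.FiniteIndex := ⟨hA⟩
  exact Subgroup.finite_quotient_of_finiteIndex

theorem av_le {A B : Subgroup H} (hBA : B ≤ A) (hB : B.index ≠ 0) (ψ : H → ℝ)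
    (hψ : ∀ k, ∀ a ∈ A, ψ (k * a) = ψ k) : av B ψ = av A ψ := by
  have hmul := Subgroup.relIndex_mul_index hBA
  have hA : A.index ≠ 0 := by
    intro h
    rw [h, mul_zero] at hmul
    exact hB hmul.symm
  have hr : B.relIndex A ≠ 0 := by
    intro h
    rw [h, zero_mul] at hmul
    exact hB hmul.symm
  have : Finite (H ⧸ A) := fin_index hA
  have : Finite (H ⧸ B) := fin_index hB
  have : Finite (A ⧸ B.subgroupOf A) := fin_index (A := B.subgroupOf A) hr
  have := Fintype.ofFinite (H ⧸ A)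
  have := Fintype.ofFinite (H ⧸ B)
  have := Fintype.ofFinite (A ⧸ B.subgroupOf A)
  let e := Subgroup.quotientEquivProdOfLE hBA
  have hF : ∀ p : (H ⧸ A) × (A ⧸ B.subgroupOf A),
      ψ (Quotient.out (e.symm p)) = ψ (Quotient.out p.1) := by
    intro p
    obtain ⟨g, hg⟩ := QuotientGroup.mk_surjective (e.symm p)
    have h1 : e (g : H ⧸ B) = p := by
      rw [hg, Equiv.apply_symm_apply]
    have h2 : ((g : H) : H ⧸ A) = p.1 := by
      rw [← h1]
      rfl
    rw [← hg, ← h2, out_eq A ψ hψ g, out_eq B ψ (fun k a ha => hψ k a (hBA ha)) g]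
  unfold av
  rw [finsum_eq_sum_of_fintype, finsum_eq_sum_of_fintype]
  have h1 : ∑ q : H ⧸ B, ψ (Quotient.out q) =
      (B.relIndex A : ℝ) * ∑ q : H ⧸ A, ψ (Quotient.out q) := by
    rw [← Equiv.sum_comp e.symm (fun q : H ⧸ B => ψ (Quotient.out q))]
    rw [Finset.sum_congr rfl fun p _ => hF p, Fintype.sum_prod_type]
    have hc : (B.relIndex A : ℝ) = (Fintype.card (A ⧸ B.subgroupOf A) : ℝ) := by
      rw [← Nat.card_eq_fintype_card]
      rfl
    rw [hc, Finset.mul_sum]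
    refine Finset.sum_congr rfl fun a _ => ?_
    show ∑ y : A ⧸ B.subgroupOf A, ψ (Quotient.out a) = _
    rw [Finset.sum_const, Finset.card_univ, nsmul_eq_mul]
  rw [h1, ← hmul]
  push_cast
  have hr' : (B.relIndex A : ℝ) ≠ 0 := by exact_mod_cast hr
  have hA' : (A.index : ℝ) ≠ 0 := by exact_mod_cast hA
  field_simp

theorem av_eq {A B : Subgroup H} (hA : A.index ≠ 0) (hB : B.index ≠ 0) (ψ : H → ℝ)
    (hψA : ∀ k, ∀ a ∈ A, ψ (k * a) = ψ k) (hψB : ∀ k, ∀ a ∈ B, ψ (k * a) = ψ k) :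
    av A ψ = av B ψ := by
  have h : (A ⊓ B).index ≠ 0 := Subgroup.index_inf_ne_zero hA hB
  rw [← av_le inf_le_left h ψ hψA, ← av_le inf_le_right h ψ hψB]

variable {G : Type u} [Group G]

theorem inv_of (K V : Subgroup G) (φ : G → ℝ) (hφ : ∀ k ∈ K, ∀ v ∈ V, φ (k * v) = φ k) :
    ∀ k : K, ∀ a ∈ V.subgroupOf K, (fun k : K => φ (k : G)) (k * a) = (fun k : K => φ (k : G)) k :=
  fun k a ha => hφ k k.2 a (Subgroup.mem_subgroupOf.1 ha)

theorem form (K V : Subgroup G) (φ : G → ℝ) (hV : V ≤ K) (hi : V.relIndex K ≠ 0)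
    (hφ : ∀ k ∈ K, ∀ v ∈ V, φ (k * v) = φ k) :
    avg K φ = (∑ᶠ q : K ⧸ (V.subgroupOf K), φ ((Quotient.out q : K) : G)) / (V.relIndex K : ℝ) := by
  have h : FI K φ := ⟨V, hV, hi, hφ⟩
  unfold avg
  rw [dif_pos h]
  obtain ⟨h1, h2, h3⟩ := h.choose_spec
  exact av_eq (H := K) (A := h.choose.subgroupOf K) (B := V.subgroupOf K) h2 hi
    (fun k : K => φ (k : G)) (inv_of K _ φ h3) (inv_of K V φ hφ)

theorem fin_of {K V : Subgroup G} (hi : V.relIndex K ≠ 0) : Finite (K ⧸ (V.subgroupOf K)) :=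
  fin_index (A := V.subgroupOf K) hi

theorem pos_of {K V : Subgroup G} (hi : V.relIndex K ≠ 0) : (0 : ℝ) < (V.relIndex K : ℝ) := by
  exact_mod_cast Nat.pos_of_ne_zero hi

/-- Two functions of the class are invariant under one subgroup. -/
theorem two {K : Subgroup G} {φ ψ : G → ℝ} (h1 : FI K φ) (h2 : FI K ψ) :
    ∃ V : Subgroup G, V ≤ K ∧ V.relIndex K ≠ 0 ∧ (∀ k ∈ K, ∀ v ∈ V, φ (k * v) = φ k) ∧
      ∀ k ∈ K, ∀ v ∈ V, ψ (k * v) = ψ k := by
  obtain ⟨V, hV, hi, hφ⟩ := h1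
  obtain ⟨W, hW, hj, hψ⟩ := h2
  exact ⟨V ⊓ W, inf_le_left.trans hV, Subgroup.relIndex_inf_ne_zero hi hj,
    fun k hk v hv => hφ k hk v hv.1, fun k hk v hv => hψ k hk v hv.2⟩

theorem const (K : Subgroup G) (c : ℝ) : avg K (fun _ => c) = c := by
  have hi : K.relIndex K ≠ 0 := by
    rw [Subgroup.relIndex_self]
    exact one_ne_zero
  rw [form K K (fun _ => c) le_rfl hi fun k _ v _ => rfl]
  have := fin_of hi
  have := Fintype.ofFinite (K ⧸ (K.subgroupOf K))
  rw [finsum_eq_sum_of_fintype, Finset.sum_const, Finset.card_univ, nsmul_eq_mul]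
  have hc : (K.relIndex K : ℝ) = (Fintype.card (K ⧸ (K.subgroupOf K)) : ℝ) := by
    rw [← Nat.card_eq_fintype_card]
    rfl
  have hp := pos_of hi
  rw [← hc]
  field_simp

theorem fi_const (K : Subgroup G) (c : ℝ) : FI K (fun _ => c) := by
  refine ⟨K, le_rfl, ?_, fun k _ v _ => rfl⟩
  rw [Subgroup.relIndex_self]
  exact one_ne_zero

theorem addf {K : Subgroup G} {φ ψ : G → ℝ} (h1 : FI K φ) (h2 : FI K ψ) :
    FI K (fun k => φ k + ψ k) := by
  obtain ⟨V, hV, hi, ha, hb⟩ := two h1 h2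
  refine ⟨V, hV, hi, fun k hk v hv => ?_⟩
  show φ (k * v) + ψ (k * v) = φ k + ψ k
  rw [ha k hk v hv, hb k hk v hv]

theorem add {K : Subgroup G} {φ ψ : G → ℝ} (h1 : FI K φ) (h2 : FI K ψ) :
    avg K (fun k => φ k + ψ k) = avg K φ + avg K ψ := by
  obtain ⟨V, hV, hi, ha, hb⟩ := two h1 h2
  rw [form K V φ hV hi ha, form K V ψ hV hi hb, form K V _ hV hi ?_]
  · have := fin_of hi
    rw [finsum_add_distrib (Set.toFinite _) (Set.toFinite _), add_div]
  · intro k hk v hv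
    show φ (k * v) + ψ (k * v) = φ k + ψ k
    rw [ha k hk v hv, hb k hk v hv]

theorem sum (K : Subgroup G) (ι : Type u) (s : Finset ι) (φ : ι → G → ℝ) :
    (∀ i ∈ s, FI K (φ i)) → FI K (fun k => ∑ i ∈ s, φ i k) ∧
      avg K (fun k => ∑ i ∈ s, φ i k) = ∑ i ∈ s, avg K (φ i) := by
  classical
  induction s using Finset.induction_on with
  | empty =>
    intro _
    simp only [Finset.sum_empty]
    exact ⟨fi_const K 0, const K 0⟩
  | insert a s ha ih =>
    intro h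
    obtain ⟨h1, h2⟩ := ih fun i hi => h i (Finset.mem_insert_of_mem hi)
    have h3 := h a (Finset.mem_insert_self a s)
    simp only [Finset.sum_insert ha]
    exact ⟨addf h3 h1, by rw [add h3 h1, h2]⟩

theorem mono {K : Subgroup G} {φ ψ : G → ℝ} (h1 : FI K φ) (h2 : FI K ψ)
    (hle : ∀ k ∈ K, φ k ≤ ψ k) : avg K φ ≤ avg K ψ := by
  obtain ⟨V, hV, hi, ha, hb⟩ := two h1 h2
  rw [form K V φ hV hi ha, form K V ψ hV hi hb]
  have := fin_of hi
  have := Fintype.ofFinite (K ⧸ (V.subgroupOf K))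
  rw [finsum_eq_sum_of_fintype, finsum_eq_sum_of_fintype]
  exact div_le_div_of_nonneg_right
    (Finset.sum_le_sum fun q _ => hle _ (Quotient.out q : K).2) (pos_of hi).le

end AVAM

open AVAM in
theorem specAVA : SpecAVA.{u} where
  form := fun G _ K V φ hV hi hφ => AVAM.form K V φ hV hi hφ
  congr := by
    intro G _ K φ ψ h
    have key : ∀ φ ψ : G → ℝ, (∀ k ∈ K, φ k = ψ k) → FI K φ → FI K ψ := by
      rintro φ ψ h ⟨V, hV, hi, hφ⟩
      refine ⟨V, hV, hi, fun k hk v hv => ?_⟩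
      rw [← h k hk, ← h (k * v) (K.mul_mem hk (hV hv)), hφ k hk v hv]
    have hiff : FI K φ ↔ FI K ψ := ⟨key φ ψ h, key ψ φ fun k hk => (h k hk).symm⟩
    refine ⟨hiff, ?_⟩
    by_cases h1 : FI K φ
    · obtain ⟨V, hV, hi, ha, hb⟩ := two h1 (hiff.1 h1)
      rw [AVAM.form K V φ hV hi ha, AVAM.form K V ψ hV hi hb]
      congr 1
      exact finsum_congr fun q => h _ (Quotient.out q : K).2
    · have h2 : ¬ FI K ψ := fun h3 => h1 (hiff.2 h3)
      unfold avg
      rw [dif_neg h1, dif_neg h2]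
  addf := fun G _ K φ ψ h1 h2 => AVAM.addf h1 h2
  add := fun G _ K φ ψ h1 h2 => AVAM.add h1 h2
  sum := fun G _ K ι s φ h => AVAM.sum K ι s φ h
  smul := by
    intro G _ K φ c h
    obtain ⟨V, hV, hi, ha⟩ := h
    rw [AVAM.form K V φ hV hi ha, AVAM.form K V _ hV hi ?_]
    · have h1 : (∑ᶠ q : K ⧸ (V.subgroupOf K), c * φ ((Quotient.out q : K) : G)) =
          c * ∑ᶠ q : K ⧸ (V.subgroupOf K), φ ((Quotient.out q : K) : G) := by
        have := fin_of hi
        exact (mul_finsum' _ c (Set.toFinite _)).symm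
      rw [h1, mul_div_assoc]
    · intro k hk v hv
      show c * φ (k * v) = c * φ k
      rw [ha k hk v hv]
  mono := fun G _ K φ ψ h1 h2 h3 => AVAM.mono h1 h2 h3
  const := fun G _ K c => AVAM.const K c
  lower := by
    intro G _ K V φ hV hi hφ h0 k hk
    rw [AVAM.form K V φ hV hi hφ]
    have hp := pos_of hi
    rw [mul_div_cancel₀ _ hp.ne']
    have := fin_of hi
    have := Fintype.ofFinite (K ⧸ (V.subgroupOf K))
    rw [finsum_eq_sum_of_fintype]
    have h1 := out_eq (V.subgroupOf K) (fun k : K => φ (k : G)) (inv_of K V φ hφ) ⟨k, hk⟩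
    have h2 := Finset.single_le_sum (f := fun q : K ⧸ (V.subgroupOf K) =>
      φ ((Quotient.out q : K) : G)) (fun q _ => h0 _ (Quotient.out q : K).2)
      (Finset.mem_univ ((⟨k, hk⟩ : K) : K ⧸ (V.subgroupOf K)))
    exact h1.symm.le.trans h2

end Pool.Agent.Lib.MP7d449a.GP
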