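import Pool.Agent.Lib.MP_7d449a_al.GP.Spec

/-!
# GP, module AVB: formal properties of averages, second part
-/

set_option autoImplicit false

open Filter Topology

namespace Pool.Agent.Lib.MP7d449a.GP

universe u

namespace AVBM

variable {G : Type u} [Group G]

/-- the formula with a subgroup of the group `K` -/
theorem form' (h : SpecAVA.{u}) (K : Subgroup G) (φ : G → ℝ) (A : Subgroup K) (hA : A.index ≠ 0)
    (hinv : ∀ k : K, ∀ a ∈ A, φ ((k * a : K) : G) = φ (k : G)) :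
    avg K φ = (∑ᶠ q : K ⧸ A, φ ((Quotient.out q : K) : G)) / (A.index : ℝ) := by
  have e : (A.map K.subtype).subgroupOf K = A := by
    unfold Subgroup.subgroupOf
    exact Subgroup.comap_map_eq_self_of_injective K.subtype_injective A
  have h1 := h.form G K (A.map K.subtype) φ (Subgroup.map_subtype_le A)
    (by unfold Subgroup.relIndex; rw [e]; exact hA)
    (by
      rintro k hk v ⟨a, ha, rfl⟩
      exact hinv ⟨k, hk⟩ a ha)
  unfold Subgroup.relIndex at h1
  rw [e] at h1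
  exact h1

/-- a normal subgroup of finite index under which `φ` is invariant -/
theorem exists_normal {K : Subgroup G} {φ : G → ℝ} (h : FI K φ) :
    ∃ A : Subgroup K, A.Normal ∧ A.index ≠ 0 ∧ ∀ k : K, ∀ a ∈ A, φ ((k * a : K) : G) = φ (k : G) := by
  obtain ⟨V, _, hV, hinv⟩ := h
  have hfi : (V.subgroupOf K).FiniteIndex := ⟨hV⟩
  refine ⟨(V.subgroupOf K).normalCore, inferInstance, ?_, ?_⟩
  · have : ((V.subgroupOf K).normalCore).FiniteIndex := inferInstance
    exact this.index_ne_zero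
  · intro k a ha
    have h1 : a ∈ V.subgroupOf K := Subgroup.normalCore_le _ ha
    exact hinv k k.2 a h1

/-- the value of an invariant function at the representative of a coset -/
theorem out_eq {K : Subgroup G} {φ : G → ℝ} {A : Subgroup K}
    (hinv : ∀ k : K, ∀ a ∈ A, φ ((k * a : K) : G) = φ (k : G)) (k : K) :
    φ (((Quotient.out (QuotientGroup.mk k : K ⧸ A)) : K) : G) = φ (k : G) := by
  obtain ⟨a, ha⟩ := QuotientGroup.mk_out_eq_mul A k
  rw [ha]
  exact hinv k a a.2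

/-- membership in the class `FI` -/
theorem fi_of {K : Subgroup G} {φ : G → ℝ} {A : Subgroup K} (hA : A.index ≠ 0)
    (hinv : ∀ k : K, ∀ a ∈ A, φ ((k * a : K) : G) = φ (k : G)) : FI K φ := by
  have e : (A.map K.subtype).subgroupOf K = A := by
    unfold Subgroup.subgroupOf
    exact Subgroup.comap_map_eq_self_of_injective K.subtype_injective A
  refine ⟨A.map K.subtype, Subgroup.map_subtype_le A, ?_, ?_⟩
  · unfold Subgroup.relIndex
    rw [e]
    exact hA
  · rintro k hk v ⟨a, ha, rfl⟩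
    exact hinv ⟨k, hk⟩ a ha

theorem left (h : SpecAVA.{u}) (K : Subgroup G) (φ : G → ℝ) (hφ : FI K φ) (k₀ : G) (hk₀ : k₀ ∈ K) :
    FI K (fun k => φ (k₀ * k)) ∧ avg K (fun k => φ (k₀ * k)) = avg K φ := by
  obtain ⟨A, hn, hA, hinv⟩ := exists_normal hφ
  have hinv' : ∀ k : K, ∀ a ∈ A, (fun k => φ (k₀ * k)) ((k * a : K) : G)
      = (fun k => φ (k₀ * k)) (k : G) := by
    intro k a ha
    have := hinv (⟨k₀, hk₀⟩ * k) a ha
    simp only [Subgroup.coe_mul] at this ⊢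
    rw [← mul_assoc]
    exact this
  refine ⟨fi_of hA hinv', ?_⟩
  rw [form' h K _ A hA hinv', form' h K φ A hA hinv]
  congr 1
  rw [← finsum_comp_equiv (Equiv.mulLeft (QuotientGroup.mk (⟨k₀, hk₀⟩ : K) : K ⧸ A))
    (f := fun q : K ⧸ A => φ ((Quotient.out q : K) : G))]
  apply finsum_congr
  intro q
  obtain ⟨k, rfl⟩ := QuotientGroup.mk_surjective q
  have e1 := out_eq (φ := fun k => φ (k₀ * k)) hinv' k
  have e2 := out_eq hinv ((⟨k₀, hk₀⟩ : K) * k)
  exact e1.trans e2.symm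

theorem right (h : SpecAVA.{u}) (K : Subgroup G) (φ : G → ℝ) (hφ : FI K φ) (k₀ : G) (hk₀ : k₀ ∈ K) :
    FI K (fun k => φ (k * k₀)) ∧ avg K (fun k => φ (k * k₀)) = avg K φ := by
  obtain ⟨A, hn, hA, hinv⟩ := exists_normal hφ
  have hinv' : ∀ k : K, ∀ a ∈ A, (fun k => φ (k * k₀)) ((k * a : K) : G)
      = (fun k => φ (k * k₀)) (k : G) := by
    intro k a ha
    have h1 := hinv (k * ⟨k₀, hk₀⟩) ((⟨k₀, hk₀⟩ : K)⁻¹ * a * ⟨k₀, hk₀⟩)
      (by simpa using hn.conj_mem a ha (⟨k₀, hk₀⟩ : K)⁻¹)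
    have h2 : k * ⟨k₀, hk₀⟩ * ((⟨k₀, hk₀⟩ : K)⁻¹ * a * ⟨k₀, hk₀⟩) = k * a * ⟨k₀, hk₀⟩ := by group
    rw [h2] at h1
    exact h1
  refine ⟨fi_of hA hinv', ?_⟩
  rw [form' h K _ A hA hinv', form' h K φ A hA hinv]
  congr 1
  rw [← finsum_comp_equiv (Equiv.mulRight (QuotientGroup.mk (⟨k₀, hk₀⟩ : K) : K ⧸ A))
    (f := fun q : K ⧸ A => φ ((Quotient.out q : K) : G))]
  apply finsum_congr
  intro q
  obtain ⟨k, rfl⟩ := QuotientGroup.mk_surjective q
  have e1 := out_eq (φ := fun k => φ (k * k₀)) hinv' k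
  have e2 := out_eq hinv (k * (⟨k₀, hk₀⟩ : K))
  exact e1.trans e2.symm

theorem inv (h : SpecAVA.{u}) (K : Subgroup G) (φ : G → ℝ) (hφ : FI K φ) :
    FI K (fun k => φ k⁻¹) ∧ avg K (fun k => φ k⁻¹) = avg K φ := by
  obtain ⟨A, hn, hA, hinv⟩ := exists_normal hφ
  have hinv' : ∀ k : K, ∀ a ∈ A, (fun k : G => φ k⁻¹) ((k * a : K) : G)
      = (fun k : G => φ k⁻¹) (k : G) := by
    intro k a ha
    have h1 := hinv k⁻¹ (k * a⁻¹ * k⁻¹) (hn.conj_mem _ (A.inv_mem ha) k)
    have h2 : k⁻¹ * (k * a⁻¹ * k⁻¹) = (k * a)⁻¹ := by group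
    rw [h2] at h1
    exact h1
  refine ⟨fi_of hA hinv', ?_⟩
  rw [form' h K _ A hA hinv', form' h K φ A hA hinv]
  congr 1
  rw [← finsum_comp_equiv (Equiv.inv (K ⧸ A))
    (f := fun q : K ⧸ A => φ ((Quotient.out q : K) : G))]
  apply finsum_congr
  intro q
  obtain ⟨k, rfl⟩ := QuotientGroup.mk_surjective q
  have e1 := out_eq (φ := fun k => φ k⁻¹) hinv' k
  have e2 := out_eq hinv k⁻¹
  exact e1.trans e2.symm

theorem fub (h : SpecAVA.{u}) (K U V W : Subgroup G) (φ : G → G → ℝ) (hV : V ≤ K)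
    (hV0 : V.relIndex K ≠ 0) (hW : W ≤ U) (hW0 : W.relIndex U ≠ 0)
    (hinv : ∀ k ∈ K, ∀ v ∈ V, ∀ u ∈ U, ∀ w ∈ W, φ (k * v) (u * w) = φ k u) :
    avg K (fun k => avg U (fun u => φ k u)) = avg U (fun u => avg K (fun k => φ k u)) := by
  have fK : Finite (K ⧸ V.subgroupOf K) := by
    have : (V.subgroupOf K).FiniteIndex := ⟨hV0⟩
    infer_instance
  have fU : Finite (U ⧸ W.subgroupOf U) := by
    have : (W.subgroupOf U).FiniteIndex := ⟨hW0⟩
    infer_instance
  have : Fintype (K ⧸ V.subgroupOf K) := Fintype.ofFinite _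
  have : Fintype (U ⧸ W.subgroupOf U) := Fintype.ofFinite _
  have e1 : ∀ k ∈ K, avg U (fun u => φ k u) =
      (∑ᶠ p : U ⧸ (W.subgroupOf U), φ k ((Quotient.out p : U) : G)) / (W.relIndex U : ℝ) := by
    intro k hk
    refine h.form G U W (fun u => φ k u) hW hW0 ?_
    intro u hu w hw
    have := hinv k hk 1 V.one_mem u hu w hw
    rwa [mul_one] at this
  have e2 : ∀ u ∈ U, avg K (fun k => φ k u) =
      (∑ᶠ q : K ⧸ (V.subgroupOf K), φ ((Quotient.out q : K) : G) u) / (V.relIndex K : ℝ) := by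
    intro u hu
    refine h.form G K V (fun k => φ k u) hV hV0 ?_
    intro k hk v hv
    have := hinv k hk v hv u hu 1 W.one_mem
    rwa [mul_one] at this
  rw [(h.congr G K _ _ e1).2, (h.congr G U _ _ e2).2]
  rw [h.form G K V _ hV hV0, h.form G U W _ hW hW0]
  · simp only [finsum_eq_sum_of_fintype, ← Finset.sum_div]
    rw [Finset.sum_comm, div_div, div_div, mul_comm]
  · intro u hu w hw
    congr 1
    apply finsum_congr
    intro q
    have := hinv _ (Quotient.out q : K).2 1 V.one_mem u hu w hw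
    rwa [mul_one] at this
  · intro k hk v hv
    congr 1
    apply finsum_congr
    intro p
    have := hinv k hk v hv _ (Quotient.out p : U).2 1 W.one_mem
    rwa [mul_one] at this

/-- a subgroup of `G` of finite index in `K` and normal in `K`, under which `φ` is invariant -/
theorem exists_normal' {K : Subgroup G} {φ : G → ℝ} (h : FI K φ) :
    ∃ N : Subgroup G, N ≤ K ∧ N.relIndex K ≠ 0 ∧ (∀ k ∈ K, ∀ n ∈ N, k * n * k⁻¹ ∈ N) ∧
      ∀ k ∈ K, ∀ n ∈ N, φ (k * n) = φ k := by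
  obtain ⟨A, hn, hA, hinv⟩ := exists_normal h
  have e : (A.map K.subtype).subgroupOf K = A := by
    unfold Subgroup.subgroupOf
    exact Subgroup.comap_map_eq_self_of_injective K.subtype_injective A
  refine ⟨A.map K.subtype, Subgroup.map_subtype_le A, ?_, ?_, ?_⟩
  · unfold Subgroup.relIndex
    rw [e]
    exact hA
  · rintro k hk v ⟨a, ha, rfl⟩
    exact ⟨⟨k, hk⟩ * a * ⟨k, hk⟩⁻¹, hn.conj_mem a ha _, rfl⟩
  · rintro k hk v ⟨a, ha, rfl⟩
    exact hinv ⟨k, hk⟩ a ha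

theorem relIndex_inf {N U K : Subgroup G} (hU : U ≤ K) (hN : N.relIndex K ≠ 0) :
    (N ⊓ U).relIndex U ≠ 0 := by
  rw [Subgroup.inf_relIndex_right]
  intro h0
  exact hN (Subgroup.relIndex_eq_zero_of_le_right hU h0)

theorem sub1 (h : SpecAVA.{u}) (K U : Subgroup G) (φ : G → ℝ) (hφ : FI K φ) (hU : U ≤ K)
    (_ : U.relIndex K ≠ 0) : avg K (fun k => avg U (fun u => φ (k * u))) = avg K φ := by
  obtain ⟨N, hN, hN0, hn, hinv⟩ := exists_normal' hφ
  rw [fub h K U N (N ⊓ U) (fun k u => φ (k * u)) hN hN0 inf_le_right (relIndex_inf hU hN0) ?_]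
  · have e : ∀ u ∈ U, avg K (fun k => φ (k * u)) = avg K φ := fun u hu =>
      (right h K φ hφ u (hU hu)).2
    rw [(h.congr G U _ _ e).2, h.const]
  · intro k hk v hv u hu w hw
    have h1 : k * v * (u * w) = k * u * ((u⁻¹ * v * u⁻¹⁻¹) * w) := by group
    rw [h1]
    refine hinv _ (K.mul_mem hk (hU hu)) _ (N.mul_mem (hn _ (K.inv_mem (hU hu)) v hv) hw.1)

theorem sub2 (h : SpecAVA.{u}) (K U : Subgroup G) (φ : G → ℝ) (hφ : FI K φ) (hU : U ≤ K)
    (_ : U.relIndex K ≠ 0) : avg K (fun k => avg U (fun u => φ (u * k))) = avg K φ := by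
  obtain ⟨N, hN, hN0, hn, hinv⟩ := exists_normal' hφ
  rw [fub h K U N (N ⊓ U) (fun k u => φ (u * k)) hN hN0 inf_le_right (relIndex_inf hU hN0) ?_]
  · have e : ∀ u ∈ U, avg K (fun k => φ (u * k)) = avg K φ := fun u hu =>
      (left h K φ hφ u (hU hu)).2
    rw [(h.congr G U _ _ e).2, h.const]
  · intro k hk v hv u hu w hw
    have h1 : u * w * (k * v) = u * k * ((k⁻¹ * w * k⁻¹⁻¹) * v) := by group
    rw [h1]
    refine hinv _ (K.mul_mem (hU hu) hk) _ (N.mul_mem (hn _ (K.inv_mem hk) w hw.1) hv)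

theorem map (h : SpecAVA.{u}) {H : Type u} [Group H] (π : G →* H) (K : Subgroup G) (ψ : H → ℝ)
    (hψ : FI (K.map π) ψ) :
    FI K (fun k => ψ (π k)) ∧ avg K (fun k => ψ (π k)) = avg (K.map π) ψ := by
  obtain ⟨B, hn, hB, hinv⟩ := exists_normal hψ
  obtain ⟨f, hf⟩ : ∃ f : K →* (K.map π), f = π.subgroupMap K := ⟨_, rfl⟩
  have hfs : Function.Surjective f := by
    rw [hf]
    exact π.subgroupMap_surjective K
  have hfv : ∀ k : K, ((f k : K.map π) : H) = π (k : G) := by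
    intro k
    rw [hf]
    rfl
  have hA : (B.comap f).index ≠ 0 := by
    rw [Subgroup.index_comap_of_surjective B hfs]
    exact hB
  have hinv' : ∀ k : K, ∀ a ∈ B.comap f, (fun k : G => ψ (π k)) ((k * a : K) : G)
      = (fun k : G => ψ (π k)) (k : G) := by
    intro k a ha
    have h1 := hinv (f k) (f a) ha
    rw [← map_mul, hfv, hfv] at h1
    exact h1
  refine ⟨fi_of hA hinv', ?_⟩
  rw [form' h K _ (B.comap f) hA hinv', form' h (K.map π) ψ B hB hinv,
    Subgroup.index_comap_of_surjective B hfs]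
  congr 1
  obtain ⟨g, hg⟩ : ∃ g : K ⧸ B.comap f → (K.map π) ⧸ B, ∀ k : K,
      g (QuotientGroup.mk k) = QuotientGroup.mk (f k) :=
    ⟨QuotientGroup.map (B.comap f) B f le_rfl, fun k => rfl⟩
  have hbij : Function.Bijective g := by
    constructor
    · intro p q hpq
      obtain ⟨a, rfl⟩ := QuotientGroup.mk_surjective p
      obtain ⟨b, rfl⟩ := QuotientGroup.mk_surjective q
      rw [hg, hg, QuotientGroup.eq] at hpq
      rw [QuotientGroup.eq, Subgroup.mem_comap, map_mul, map_inv]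
      exact hpq
    · intro p
      obtain ⟨b, rfl⟩ := QuotientGroup.mk_surjective p
      obtain ⟨a, rfl⟩ := hfs b
      exact ⟨QuotientGroup.mk a, hg a⟩
  rw [← finsum_comp_equiv (Equiv.ofBijective g hbij)
    (f := fun q : (K.map π) ⧸ B => ψ ((Quotient.out q : K.map π) : H))]
  apply finsum_congr
  intro q
  obtain ⟨k, rfl⟩ := QuotientGroup.mk_surjective q
  rw [Equiv.ofBijective_apply, hg, out_eq hinv (f k), hfv]
  exact out_eq (φ := fun k => ψ (π k)) hinv' k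

end AVBM

/-- module AVB -/
theorem specAVB (h : SpecAVA.{u}) : SpecAVB.{u} where
  left := fun _ _ K φ hφ k₀ hk₀ => AVBM.left h K φ hφ k₀ hk₀
  right := fun _ _ K φ hφ k₀ hk₀ => AVBM.right h K φ hφ k₀ hk₀
  inv := fun _ _ K φ hφ => AVBM.inv h K φ hφ
  fub := fun _ _ K U V W φ hV hV0 hW hW0 hinv => AVBM.fub h K U V W φ hV hV0 hW hW0 hinv
  sub1 := fun _ _ K U φ hφ hU hU0 => AVBM.sub1 h K U φ hφ hU hU0
  sub2 := fun _ _ K U φ hφ hU hU0 => AVBM.sub2 h K U φ hφ hU hU0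
  map := fun _ _ _ _ π K ψ hψ => AVBM.map h π K ψ hψ

end Pool.Agent.Lib.MP7d449a.GP
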