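import Pool.Agent.Lib.MP_7d449a_al.GP.Spec

/-!
# AVE: averages of extreme rays are extreme rays (helper85)
-/

set_option autoImplicit false

open Filter Topology

namespace Pool.Agent.Lib.MP7d449a.GP

universe u

namespace AVEM

theorem co_conj {G : Type u} [Group G] [TopologicalSpace G] [IsTopologicalGroup G]
    {V : Subgroup G} (hV : CO V) (g : G) : CO (V.map (MulAut.conj g).toMonoidHom) := by
  have hset : ((V.map (MulAut.conj g).toMonoidHom : Subgroup G) : Set G) =
      (fun x => g * x * g⁻¹) '' (V : Set G) := by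
    rw [Subgroup.coe_map]
    rfl
  have hset2 : ((V.map (MulAut.conj g).toMonoidHom : Subgroup G) : Set G) =
      (fun x => g⁻¹ * x * g) ⁻¹' (V : Set G) := by
    rw [hset]
    ext x
    simp only [Set.mem_image, Set.mem_preimage]
    constructor
    · rintro ⟨y, hy, rfl⟩
      have : g⁻¹ * (g * y * g⁻¹) * g = y := by group
      rw [this]; exact hy
    · intro hx
      exact ⟨_, hx, by group⟩
  constructor
  · rw [hset2]
    exact hV.1.preimage (by fun_prop)
  · rw [hset]
    exact hV.2.image (by fun_prop)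

end AVEM

open AVEM in
theorem specAVE (avgh : SpecAVG.{u}) (lfa : SpecLFA.{u}) (cnf : SpecCNF.{u}) (rie : SpecRIE.{u})
    (trv : SpecTRV.{u}) : SpecAVE.{u} := by
  classical
  intro G _ _ _ K S l χ hK hS U V w hU hV hVU hw
  have hwr : RInv K w := hw.cn.rinv
  obtain ⟨hidx, hform⟩ := lfa.lform G K U V hK hU hV hVU w hwr hw.linv
  have hwpos : ∀ x, 0 < w x := cnf.pos G K χ w hK hw.cn hw.pos
  have hfin : Finite (U ⧸ (V.subgroupOf U)) := by
    apply Nat.finite_of_card_ne_zero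
    exact hidx
  have hft : Fintype (U ⧸ (V.subgroupOf U)) := Fintype.ofFinite _
  have hne : Nonempty (U ⧸ (V.subgroupOf U)) := ⟨((1 : U) : U ⧸ (V.subgroupOf U))⟩
  set m : ℝ := (V.relIndex U : ℝ) with hmdef
  have hm0 : 0 < m := by
    rw [hmdef]
    exact_mod_cast Nat.pos_of_ne_zero hidx
  have hform' : ∀ x, LAv U w x =
      (∑ q : U ⧸ (V.subgroupOf U), w (((Quotient.out q : U) : G)⁻¹ * x)) / m := by
    intro x
    rw [hform x, finsum_eq_sum_of_fintype]
  have hposall : 0 < LAv U w 1 := by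
    rw [hform' 1]
    apply div_pos _ hm0
    exact Finset.sum_pos (fun q _ => hwpos _) Finset.univ_nonempty
  refine ⟨cnf.lav G K U χ w hK hU hw.cn, lfa.linv G K U hK hU w hwr, hposall, ?_⟩
  intro a ha haU hale
  -- the Riesz decomposition
  have hbC : ∀ q : U ⧸ (V.subgroupOf U),
      Cn K χ (fun x => m⁻¹ * w (((Quotient.out q : U) : G)⁻¹ * x)) := by
    intro q
    exact cnf.smul G K χ _ m⁻¹ hK (cnf.trans G K χ w hw.cn _) (inv_nonneg.2 hm0.le)
  obtain ⟨c, hc1, hc2⟩ := rie G K S l χ hK hS (U ⧸ (V.subgroupOf U)) Finset.univ a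
    (fun q x => m⁻¹ * w (((Quotient.out q : U) : G)⁻¹ * x)) ha (fun q _ => hbC q) (by
      intro x
      refine le_trans (hale x) ?_
      rw [hform' x, ← Finset.mul_sum, div_eq_inv_mul])
  -- every summand
  have hkey : ∀ q : U ⧸ (V.subgroupOf U), ∃ d : ℝ, ∀ x, LAv U (c q) x = d * LAv U w x := by
    intro q
    set g : G := ((Quotient.out q : U) : G) with hg
    have hgU : g ∈ U := (Quotient.out q : U).2
    obtain ⟨hcC, hcle⟩ := hc1 q (Finset.mem_univ q)
    set Vq : Subgroup G := V.map (MulAut.conj g).toMonoidHom with hVq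
    have hVqCO : CO Vq := co_conj hV g
    have hVqU : Vq ≤ U := by
      rw [hVq]
      rintro _ ⟨v, hv, rfl⟩
      exact U.mul_mem (U.mul_mem hgU (hVU hv)) (U.inv_mem hgU)
    have hERq : ER K χ Vq (fun x => w (g⁻¹ * x)) := (trv G K V χ w hK hw).1 g
    have hERq' : ER K χ Vq (fun x => m⁻¹ * w (g⁻¹ * x)) :=
      (trv G K Vq χ _ hK hERq).2 m⁻¹ (inv_pos.2 hm0)
    have hle : ∀ x, LAv Vq (c q) x ≤ m⁻¹ * w (g⁻¹ * x) := by
      intro x
      refine le_trans (lfa.mono G K Vq hK hVqCO (c q) _ hcC.rinv hERq'.cn.rinv hcle x) ?_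
      exact (lfa.fix G Vq _ hERq'.linv x).le
    obtain ⟨d, hd⟩ := hERq'.ext (LAv Vq (c q)) (cnf.lav G K Vq χ _ hK hVqCO hcC)
      (lfa.linv G K Vq hK hVqCO _ hcC.rinv) hle
    refine ⟨d * m⁻¹, fun x => ?_⟩
    have h1 : LAv U (c q) x = LAv U (LAv Vq (c q)) x :=
      ((lfa.sub G K U Vq hK hU hVqCO hVqU (c q) hcC.rinv x).1).symm
    have h2 : LAv Vq (c q) = fun x => (d * m⁻¹) * w (g⁻¹ * x) := by
      funext y
      rw [hd y]; ring
    rw [h1, h2, lfa.smul G K U hK hU (fun x => w (g⁻¹ * x)) hERq.cn.rinv]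
    congr 1
    -- LAv U w_q = LAv U w
    have hfi := lfa.fi G K U hK hU w hwr x
    have h3 := (avgh.left G U (fun u => w (u * x)) hfi g⁻¹ (U.inv_mem hgU)).2
    have h4 : LAv U (fun x => w (g⁻¹ * x)) x = avg U (fun k => w (g⁻¹ * k * x)) := by
      unfold LAv
      congr 1
      funext k
      rw [mul_assoc]
    rw [h4, h3]
    rfl
  choose d hd using hkey
  refine ⟨∑ q, d q, fun x => ?_⟩
  have h5 : a x = LAv U a x := (lfa.fix G U a haU x).symm
  have h6 : a = fun y => ∑ q, c q y := funext hc2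
  have h7 : LAv U a x = ∑ q, LAv U (c q) x := by
    rw [h6]
    exact lfa.sum G K U hK hU (U ⧸ (V.subgroupOf U)) Finset.univ c
      (fun q hq => (hc1 q hq).1.rinv) x
  rw [h5, h7, Finset.sum_mul]
  exact Finset.sum_congr rfl fun q _ => hd q x

end Pool.Agent.Lib.MP7d449a.GP
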