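import Pool.Agent.Lib.MP_7d449a_al.GP.Spec2

/-!
# BGM: bounded generation modulo `N` (helper85)
-/

set_option autoImplicit false

open Filter Topology
open scoped Pointwise

namespace Pool.Agent.Lib.MP7d449a.GP

universe u

namespace BGMM

variable {G : Type u} [Group G] [TopologicalSpace G] [IsTopologicalGroup G]

/-- The conclusion of one step. -/
def St (N O : Subgroup G) (Y : Set G) : Prop :=
  ∃ O' : Subgroup G, IsOpen (O' : Set G) ∧ N ≤ O' ∧ O' ≤ O ∧
    ∀ y ∈ Y, ∀ x ∈ O', y * x * y⁻¹ ∈ O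

theorem St.mono {N O : Subgroup G} {Y Y' : Set G} (h : St N O Y') (hY : Y ⊆ Y') : St N O Y := by
  obtain ⟨O', h1, h2, h3, h4⟩ := h
  exact ⟨O', h1, h2, h3, fun y hy => h4 y (hY hy)⟩

theorem St.union {N O : Subgroup G} {Y Y' : Set G} (h : St N O Y) (h' : St N O Y') :
    St N O (Y ∪ Y') := by
  obtain ⟨O₁, h1, h2, h3, h4⟩ := h
  obtain ⟨O₂, g1, g2, g3, g4⟩ := h'
  refine ⟨O₁ ⊓ O₂, h1.inter g1, le_inf h2 g2, inf_le_left.trans h3, ?_⟩
  rintro y (hy | hy) x hx
  · exact h4 y hy x hx.1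
  · exact g4 y hy x hx.2

theorem step_compact {N O : Subgroup G} (hN : N.Normal) (hO : IsOpen (O : Set G)) (hNO : N ≤ O)
    {Y : Set G} (hY : IsCompact Y) : St N O Y := by
  refine hY.induction_on (p := fun S => St N O S) ?_ ?_ ?_ ?_
  · exact ⟨O, hO, hNO, le_refl _, fun y hy => absurd hy (Set.notMem_empty y)⟩
  · intro S T hST h
    exact h.mono hST
  · intro S T h h'
    exact h.union h'
  · intro c _
    refine ⟨{y | y * c⁻¹ ∈ O}, ?_, O ⊓ O.comap (MulAut.conj c).toMonoidHom, ?_, ?_, inf_le_left, ?_⟩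
    · refine mem_nhdsWithin_of_mem_nhds ?_
      have hop : IsOpen {y : G | y * c⁻¹ ∈ O} := hO.preimage (by fun_prop : Continuous fun y : G => y * c⁻¹)
      refine hop.mem_nhds ?_
      show c * c⁻¹ ∈ O
      rw [mul_inv_cancel]
      exact O.one_mem
    · exact hO.inter (hO.preimage (by fun_prop : Continuous fun x : G => c * x * c⁻¹))
    · refine le_inf hNO ?_
      intro n hn
      exact hNO (hN.conj_mem n hn c)
    · intro y hy x hx
      have h1 : c * x * c⁻¹ ∈ O := hx.2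
      have hy' : y * c⁻¹ ∈ O := hy
      have e : y * x * y⁻¹ = (y * c⁻¹) * (c * x * c⁻¹) * (y * c⁻¹)⁻¹ := by group
      rw [e]
      exact O.mul_mem (O.mul_mem hy' h1) (O.inv_mem hy')

theorem step_pw {N O : Subgroup G} (hT : TPm N) (hO : IsOpen (O : Set G)) (hNO : N ≤ O)
    {C : Set G} (hC : IsCompact C) : St N O (Pw C) := by
  refine hC.induction_on (p := fun S => St N O (Pw S)) ?_ ?_ ?_ ?_
  · refine ⟨O, hO, hNO, le_refl _, ?_⟩
    rintro y ⟨c, hc, -⟩
    exact absurd hc (Set.notMem_empty c)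
  · intro S T hST h
    refine h.mono ?_
    rintro y ⟨c, hc, n, hn⟩
    exact ⟨c, hST hc, n, hn⟩
  · intro S T h h'
    refine (h.union h').mono ?_
    rintro y ⟨c, hc | hc, n, hn⟩
    · exact Or.inl ⟨c, hc, n, hn⟩
    · exact Or.inr ⟨c, hc, n, hn⟩
  · intro c _
    obtain ⟨V, hVo, hNV, hVO, hV⟩ := hT c O hO hNO
    have hcn : c ∈ Subgroup.normalizer (V : Set G) := by
      rw [Subgroup.mem_normalizer_iff]
      intro y
      constructor
      · intro hy
        exact (hV y hy).1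
      · intro hy
        have := (hV _ hy).2
        have e : c⁻¹ * (c * y * c⁻¹) * c = y := by group
        rwa [e] at this
    refine ⟨{y | c⁻¹ * y ∈ V}, ?_, V, hVo, hNV, hVO, ?_⟩
    · refine mem_nhdsWithin_of_mem_nhds ?_
      have hop : IsOpen {y : G | c⁻¹ * y ∈ V} := hVo.preimage (by fun_prop : Continuous fun y : G => c⁻¹ * y)
      refine hop.mem_nhds ?_
      show c⁻¹ * c ∈ V
      rw [inv_mul_cancel]
      exact V.one_mem
    · rintro y ⟨d, hd, k, rfl⟩ x hx
      have hd : c⁻¹ * d ∈ V := hd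
      have hdn : d ∈ Subgroup.normalizer (V : Set G) := by
        have e : d = c * (c⁻¹ * d) := by group
        rw [e]
        exact Subgroup.mul_mem _ hcn (Subgroup.le_normalizer hd)
      have hdk := Subgroup.zpow_mem _ hdn k
      rw [Subgroup.mem_normalizer_iff] at hdk
      exact hVO ((hdk x).1 hx)

theorem step_list {N : Subgroup G} (hN : N.Normal) (hT : TPm N) (l : List (Set G)) :
    Good l → ∀ O : Subgroup G, IsOpen (O : Set G) → N ≤ O → St N O l.prod := by
  induction l with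
  | nil =>
    intro _ O hO hNO
    refine ⟨O, hO, hNO, le_refl _, ?_⟩
    intro y hy x hx
    rw [List.prod_nil, Set.mem_one] at hy
    rw [hy]
    simpa using hx
  | cons Y l ih =>
    intro hl O hO hNO
    have h1 : St N O Y := by
      rcases hl Y (List.mem_cons_self ..) with h | ⟨C, hC, rfl⟩
      · exact step_compact hN hO hNO h
      · exact step_pw hT hO hNO hC
    obtain ⟨O₁, a1, a2, a3, a4⟩ := h1
    obtain ⟨O₂, b1, b2, b3, b4⟩ := ih (fun Z hZ => hl Z (List.mem_cons_of_mem _ hZ)) O₁ a1 a2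
    refine ⟨O₂, b1, b2, b3.trans a3, ?_⟩
    intro p hp x hx
    rw [List.prod_cons, Set.mem_mul] at hp
    obtain ⟨y, hy, q, hq, rfl⟩ := hp
    have e : y * q * x * (y * q)⁻¹ = y * (q * x * q⁻¹) * y⁻¹ := by group
    rw [e]
    exact a4 y hy _ (b4 q hq x hx)

theorem core {N : Subgroup G} {l : List (Set G)} (hN : N.Normal) (hT : TPm N) (hl : Good l)
    (hd : Dense (l.prod * (N : Set G))) (O : Subgroup G) (hO : IsOpen (O : Set G)) (hNO : N ≤ O) :
    IsOpen (O.normalCore : Set G) := by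
  obtain ⟨O', h1, h2, h3, h4⟩ := step_list hN hT l hl O hO hNO
  refine Subgroup.isOpen_mono (H₁ := O') ?_ h1
  intro x hx b
  have hop : IsOpen {g : G | g * b⁻¹ ∈ O} := hO.preimage (by fun_prop : Continuous fun g : G => g * b⁻¹)
  obtain ⟨g, hg, hgd⟩ := hd.inter_open_nonempty _ hop ⟨b, by
    show b * b⁻¹ ∈ O
    rw [mul_inv_cancel]
    exact O.one_mem⟩
  obtain ⟨p, hp, n, hn, rfl⟩ := Set.mem_mul.1 hgd
  have hg' : p * n * b⁻¹ ∈ O := hg
  have h5 : n * x * n⁻¹ ∈ O' := O'.mul_mem (O'.mul_mem (h2 hn) hx) (O'.inv_mem (h2 hn))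
  have h6 := h4 p hp _ h5
  have e : b * x * b⁻¹ = (p * n * b⁻¹)⁻¹ * (p * (n * x * n⁻¹) * p⁻¹) * (p * n * b⁻¹) := by group
  rw [e]
  exact O.mul_mem (O.mul_mem (O.inv_mem hg') h6) hg'

end BGMM

open BGMM in
theorem specBGM : SpecBGM.{u} where
  core := by
    intro G _ _ _ N l hN hT hl hd O hO hNO
    exact core hN hT hl hd O hO hNO
  res := by
    intro G _ _ _ N l hN hNc hbase hT hl hd x hx
    by_contra hxN
    have hW : {v : G | v⁻¹ * x ∉ N} ∈ 𝓝 (1 : G) := by
      have hop : IsOpen {v : G | v⁻¹ * x ∉ N} :=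
        hNc.isOpen_compl.preimage (by fun_prop : Continuous fun v : G => v⁻¹ * x)
      refine hop.mem_nhds ?_
      show (1 : G)⁻¹ * x ∉ N
      rwa [inv_one, one_mul]
    obtain ⟨V, hV, hVW⟩ := hbase _ hW
    have hO : IsOpen ((V ⊔ N : Subgroup G) : Set G) := Subgroup.isOpen_mono le_sup_left hV.1
    have hcore := core hN hT hl hd (V ⊔ N) hO le_sup_right
    have hmem : x ∈ (V ⊔ N).normalCore :=
      Subgroup.mem_sInf.1 hx _ ⟨hcore, Subgroup.normalCore_normal _⟩
    have h1 : x ∈ V ⊔ N := Subgroup.normalCore_le _ hmem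
    rw [← SetLike.mem_coe, Subgroup.mul_normal, Set.mem_mul] at h1
    obtain ⟨v, hv, n, hn, rfl⟩ := h1
    apply hVW hv
    rw [inv_mul_cancel_left]
    exact hn

end Pool.Agent.Lib.MP7d449a.GP
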