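import Pool.Agent.Lib.MP_7d449a_al.GP.Spec2

/-!
# MP_7d449a_al, Gelfand pairs: module BGQ

Bounded generation modulo a normal subgroup with virtually abelian quotient.
-/

set_option autoImplicit false

open Filter Topology
open scoped Pointwise

namespace Pool.Agent.Lib.MP7d449a.GP

universe u

namespace BGQM

lemma ofAdd_eq_prod {r : ℕ} (m : Multiplicative (Fin r → ℤ)) :
    m = (List.ofFn fun i : Fin r =>
      (Multiplicative.ofAdd (Pi.single i (1 : ℤ) : Fin r → ℤ)) ^ (Multiplicative.toAdd m i)).prod := by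
  rw [List.prod_ofFn]
  apply Multiplicative.toAdd.injective
  rw [toAdd_prod]
  funext j
  simp only [toAdd_zpow, toAdd_ofAdd, Finset.sum_apply, Pi.smul_apply, smul_eq_mul]
  rw [Finset.sum_eq_single j]
  · simp
  · intro b _ hb
    rw [Pi.single_eq_of_ne (Ne.symm hb), mul_zero]
  · intro h
    exact absurd (Finset.mem_univ j) h

end BGQM

open BGQM

theorem specBGQ : SpecBGQ.{u} := by
  classical
  intro G _ _ _ N _ hVA
  obtain ⟨r, φ, -, -, hfin⟩ := hVA
  -- lifts of the generators
  choose z hz using fun i : Fin r =>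
    QuotientGroup.mk'_surjective N (φ (Multiplicative.ofAdd (Pi.single i (1 : ℤ) : Fin r → ℤ)))
  -- representatives of the cosets
  have hrep : ∀ q : (G ⧸ N) ⧸ φ.range, ∃ g : G, (QuotientGroup.mk (QuotientGroup.mk' N g) :
      (G ⧸ N) ⧸ φ.range) = q := by
    intro q
    obtain ⟨a, ha⟩ := QuotientGroup.mk_surjective q
    obtain ⟨g, hg⟩ := QuotientGroup.mk'_surjective N a
    exact ⟨g, by rw [hg, ha]⟩
  choose rep hrep using hrep
  have : Finite ((G ⧸ N) ⧸ φ.range) := Subgroup.finite_quotient_of_finiteIndex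
  refine ⟨Set.range rep :: List.ofFn (fun i : Fin r => Pw {z i}), ?_, ?_⟩
  · intro Y hY
    rw [List.mem_cons] at hY
    rcases hY with rfl | hY
    · exact Or.inl (Set.finite_range rep).isCompact
    · rw [List.mem_ofFn] at hY
      obtain ⟨i, rfl⟩ := hY
      exact Or.inr ⟨{z i}, isCompact_singleton, rfl⟩
  · intro g _
    set q : (G ⧸ N) ⧸ φ.range := QuotientGroup.mk (QuotientGroup.mk' N g) with hq
    have h1 : (QuotientGroup.mk' N (rep q))⁻¹ * QuotientGroup.mk' N g ∈ φ.range := by
      rw [← QuotientGroup.eq, hrep q]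
    obtain ⟨m, hm⟩ := h1
    set w : G := (List.ofFn fun i : Fin r => z i ^ (Multiplicative.toAdd m i)).prod with hw
    have hwm : QuotientGroup.mk' N w = φ m := by
      rw [hw, map_list_prod, List.map_ofFn]
      conv_rhs => rw [ofAdd_eq_prod m, map_list_prod, List.map_ofFn]
      congr 2
      funext i
      simp only [Function.comp_apply, map_zpow]
      rw [hz i]
    have hw' : w ∈ (List.ofFn (fun i : Fin r => Pw {z i})).prod := by
      rw [Set.mem_prod_list_ofFn]
      refine ⟨fun i => ⟨z i ^ (Multiplicative.toAdd m i), z i, rfl, _, rfl⟩, ?_⟩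
      rfl
    rw [List.prod_cons]
    refine ⟨rep q * w, ⟨rep q, ⟨q, rfl⟩, w, hw', rfl⟩, (rep q * w)⁻¹ * g, ?_, ?_⟩
    · rw [SetLike.mem_coe, ← QuotientGroup.ker_mk' N, MonoidHom.mem_ker, map_mul, map_inv, map_mul,
        hwm, hm]
      group
    · change rep q * w * ((rep q * w)⁻¹ * g) = g
      group

end Pool.Agent.Lib.MP7d449a.GP
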