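import Pool.Agent.Lib.MP_7d449a_al.GP.Spec3

/-!
# MP_7d449a_al, Gelfand pairs: module BM2

Open normal cores from a dense product of sets which are compact or consist of powers.
-/

set_option autoImplicit false

open Filter Topology
open scoped Pointwise

namespace Pool.Agent.Lib.MP7d449a.GP

universe u

namespace BM2M

variable {G : Type u} [Group G] [TopologicalSpace G] [IsTopologicalGroup G]

/-- conjugation by a compact set -/
theorem comp_step {N : Subgroup G} (hN : N.Normal) {Y : Set G} (hY : IsCompact Y) {O : Subgroup G}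
    (hO : IsOpen (O : Set G)) (hNO : N ≤ O) :
    ∃ O' : Subgroup G, IsOpen (O' : Set G) ∧ N ≤ O' ∧ O' ≤ O ∧
      ∀ y ∈ Y, ∀ x ∈ O', y * x * y⁻¹ ∈ O := by
  refine hY.induction_on (p := fun S => ∃ O' : Subgroup G, IsOpen (O' : Set G) ∧ N ≤ O' ∧
    O' ≤ O ∧ ∀ y ∈ S, ∀ x ∈ O', y * x * y⁻¹ ∈ O) ?_ ?_ ?_ ?_
  · exact ⟨O, hO, hNO, le_refl _, fun c hc => absurd hc (Set.notMem_empty c)⟩
  · rintro S T hST ⟨O', h1, h2, h3, h4⟩
    exact ⟨O', h1, h2, h3, fun c hc => h4 c (hST hc)⟩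
  · rintro S T ⟨O₁, h1, h2, h3, h4⟩ ⟨O₂, g1, g2, g3, g4⟩
    refine ⟨O₁ ⊓ O₂, h1.inter g1, le_inf h2 g2, inf_le_left.trans h3, ?_⟩
    rintro c (hc | hc) x hx
    · exact h4 c hc x hx.1
    · exact g4 c hc x hx.2
  · intro c _
    refine ⟨(fun o => o * c⁻¹) ⁻¹' (O : Set G), ?_,
      O ⊓ O.comap (MulAut.conj c).toMonoidHom, ?_, ?_, inf_le_left, ?_⟩
    · refine mem_nhdsWithin_of_mem_nhds ((hO.preimage (by fun_prop)).mem_nhds ?_)
      show c * c⁻¹ ∈ O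
      rw [mul_inv_cancel]
      exact O.one_mem
    · refine hO.inter ?_
      have : Continuous (fun x : G => c * x * c⁻¹) := by fun_prop
      exact hO.preimage this
    · refine le_inf hNO fun x hx => ?_
      show c * x * c⁻¹ ∈ O
      exact hNO (hN.conj_mem x hx c)
    · intro d hd x hx
      have hd : d * c⁻¹ ∈ O := hd
      have hx2 : c * x * c⁻¹ ∈ O := hx.2
      have e : d * x * d⁻¹ = (d * c⁻¹) * (c * x * c⁻¹) * (d * c⁻¹)⁻¹ := by group
      rw [e]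
      exact O.mul_mem (O.mul_mem hd hx2) (O.inv_mem hd)

theorem list_step [LocallyCompactSpace G] [TotallyDisconnectedSpace G] [T2Space G]
    {N : Subgroup G} (hN : N.Normal) {l : List (Set G)}
    (hl : GoodN N l) {O : Subgroup G} (hO : IsOpen (O : Set G)) (hNO : N ≤ O) :
    ∃ O' : Subgroup G, IsOpen (O' : Set G) ∧ N ≤ O' ∧
      ∀ p ∈ l.prod, ∀ x ∈ O', p * x * p⁻¹ ∈ O := by
  induction l generalizing O with
  | nil =>
    refine ⟨O, hO, hNO, ?_⟩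
    intro p hp x hx
    rw [List.prod_nil, Set.mem_one] at hp
    subst hp
    simpa using hx
  | cons Y l ih =>
    have hstep : ∃ O₁ : Subgroup G, IsOpen (O₁ : Set G) ∧ N ≤ O₁ ∧
        ∀ y ∈ Y, ∀ x ∈ O₁, y * x * y⁻¹ ∈ O := by
      rcases hl Y List.mem_cons_self with hY | ⟨C, hC, hcon, rfl⟩
      · obtain ⟨O₁, h1, h2, -, h4⟩ := comp_step hN hY hO hNO
        exact ⟨O₁, h1, h2, h4⟩
      · have : N.Normal := hN
        obtain ⟨O₁, h1, h2, -, h4⟩ := one_step hC hcon hO hNO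
        refine ⟨O₁, h1, h2, ?_⟩
        rintro y ⟨c, hc, n, rfl⟩ x hx
        exact h4 c hc n x hx
    obtain ⟨O₁, h1, h2, h3⟩ := hstep
    obtain ⟨O₂, g1, g2, g3⟩ := ih (fun Z hZ => hl Z (List.mem_cons_of_mem _ hZ)) h1 h2
    refine ⟨O₂, g1, g2, ?_⟩
    intro p hp x hx
    rw [List.prod_cons] at hp
    obtain ⟨y, hy, q, hq, rfl⟩ := hp
    have h4 := h3 y hy _ (g3 q hq x hx)
    have e : y * q * x * (y * q)⁻¹ = y * (q * x * q⁻¹) * y⁻¹ := by group
    show y * q * x * (y * q)⁻¹ ∈ O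
    rw [e]
    exact h4

end BM2M

open BM2M in
/-- BM2. -/
theorem specBM2 : SpecBM2.{u} := by
  intro G _ _ _ _ _ _ N l hN hl hd O hO hNO
  obtain ⟨O', h1, h2, h3⟩ := list_step hN hl hO hNO
  refine Subgroup.isOpen_mono (H₁ := O') ?_ h1
  intro x hx
  show ∀ b : G, b * x * b⁻¹ ∈ O
  intro b
  have ho : IsOpen ((fun y => y * b⁻¹) ⁻¹' (O : Set G)) := hO.preimage (by fun_prop)
  obtain ⟨y, hy, hyd⟩ := hd.inter_open_nonempty _ ho ⟨b, by
    show b * b⁻¹ ∈ O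
    rw [mul_inv_cancel]
    exact O.one_mem⟩
  have hy : y * b⁻¹ ∈ O := hy
  obtain ⟨p, hp, n, hn, rfl⟩ := hyd
  have hn : n ∈ N := hn
  have h4 : n * x * n⁻¹ ∈ O' := O'.mul_mem (O'.mul_mem (h2 hn) hx) (O'.inv_mem (h2 hn))
  have h5 := h3 p hp _ h4
  have hy' : p * n * b⁻¹ ∈ O := hy
  have e : b * x * b⁻¹ = (p * n * b⁻¹)⁻¹ * (p * (n * x * n⁻¹) * p⁻¹) * (p * n * b⁻¹) := by group
  rw [e]
  exact O.mul_mem (O.mul_mem (O.inv_mem hy') h5) hy'

end Pool.Agent.Lib.MP7d449a.GP
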