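import Pool.Agent.Lib.MP_7d449a_al.GP.Spec

set_option autoImplicit false

namespace Pool.Agent.Lib.MP7d449a.GP

universe u

namespace HOMM

/-- `stab f` as a subgroup. -/
def P {G : Type u} [Group G] {K : Subgroup G} {f : G → ℝ} (hf : Iwa K f) : Subgroup G where
  carrier := stab f
  one_mem' := by
    intro x
    rw [one_mul, hf.one, one_mul]
  mul_mem' := by
    intro p q hp hq x
    have h1 : f (p * q) = f p * f q := hp q
    rw [mul_assoc, hp (q * x), hq x, h1, mul_assoc]
  inv_mem' := by
    intro p hp x
    have key : ∀ y, f (p⁻¹ * y) = f y / f p := by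
      intro y
      have h1 := hp (p⁻¹ * y)
      rw [mul_inv_cancel_left] at h1
      rw [h1]
      have := (hf.pos p).ne'
      field_simp
    have h2 := key 1
    rw [mul_one, hf.one] at h2
    rw [key x, h2]
    ring

end HOMM

theorem specHOM (hA : SpecAVG.{u}) (hM : SpecMFA.{u}) (hI : SpecINV.{u}) : SpecHOM.{u} := by
  intro G _ _ _ K f hTP hK hf
  have hk1 : ∀ k ∈ K, f k = 1 := by
    intro k hk
    have h := hf.rinv 1 k hk
    rwa [one_mul, hf.one] at h
  refine ⟨fun g h => ?_, fun k' hk' => ?_⟩
  · -- the class `FI`
    have hlog : RInv K (fun x => Real.log (f x)) := fun x k hk => by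
      change Real.log (f (x * k)) = Real.log (f x)
      rw [hf.rinv x k hk]
    have hnlog : RInv K (fun x => -Real.log (f x)) := fun x k hk => by
      change -Real.log (f (x * k)) = -Real.log (f x)
      rw [hf.rinv x k hk]
    have hFI : ∀ y : G, FI K (fun k => Real.log (f (k * y))) := by
      intro y
      have h1 := hM.fi G K K hK hK _ hlog 1 y
      simpa using h1
    have hFIn : ∀ y : G, FI K (fun k => -Real.log (f (k * y))) := by
      intro y
      have h1 := hM.fi G K K hK hK _ hnlog 1 y
      simpa using h1
    have hpos := hf.pos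
    -- the invariant function
    have hinv := hI G (HOMM.P hf) K (Vg K K h) hTP hK (fun y => hf.dec y)
      (hM.idx G K K hK hK h).2.1 (fun x => Real.log (f (x * h)) - Real.log (f x))
      (fun p hp x => by
        have h1 : f (p * x * h) = f p * f (x * h) := by
          rw [mul_assoc]
          exact hp (x * h)
        have h2 : f (p * x) = f p * f x := hp x
        change Real.log (f (p * x * h)) - Real.log (f (p * x)) = _
        rw [h1, h2, Real.log_mul (hpos p).ne' (hpos _).ne', Real.log_mul (hpos p).ne' (hpos x).ne']
        ring)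
      (fun x u hu => by
        obtain ⟨hu1, hu2⟩ := Subgroup.mem_inf.1 hu
        obtain ⟨k, hk, hku⟩ := Subgroup.mem_map.1 hu2
        have h1 : f (x * u) = f x := hf.rinv x u hu1
        have h2 : x * u * h = x * h * k := by
          rw [← hku]
          simp [MulAut.conj_apply, mul_assoc]
        have h3 : f (x * u * h) = f (x * h) := by
          rw [h2]
          exact hf.rinv (x * h) k hk
        change Real.log (f (x * u * h)) - Real.log (f (x * u)) = _
        rw [h1, h3]) g
    have hφ : avg K (fun x => Real.log (f (x * h)) - Real.log (f x)) =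
        avg K (fun k => Real.log (f (k * h))) := by
      refine (hA.congr G K _ _ fun k hk => ?_).2
      rw [hk1 k hk, Real.log_one, sub_zero]
    have hFIA : FI K (fun k => Real.log (f (k * g * h)) - Real.log (f (k * g))) := by
      have h1 := hA.addf G K _ _ (hFI (g * h)) (hFIn g)
      simpa [mul_assoc, sub_eq_add_neg] using h1
    have hadd := hA.add G K _ _ hFIA (hFI g)
    have e1 : (fun k => Real.log (f (k * g * h)) - Real.log (f (k * g)) + Real.log (f (k * g))) =
        (fun k => Real.log (f (k * (g * h)))) := by
      funext k
      rw [sub_add_cancel, mul_assoc]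
    rw [e1] at hadd
    rw [hadd]
    have e2 : avg K (fun k => Real.log (f (k * g * h)) - Real.log (f (k * g))) =
        avg K (fun k => Real.log (f (k * h))) := hinv.trans hφ
    rw [e2, add_comm]
  · have h1 : avg K (fun k => Real.log (f (k * k'))) = avg K (fun _ => (0 : ℝ)) := by
      refine (hA.congr G K _ _ fun k hk => ?_).2
      rw [hf.rinv k k' hk', hk1 k hk, Real.log_one]
    rw [h1]
    exact hA.const G K 0

end Pool.Agent.Lib.MP7d449a.GP
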