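import Pool.Agent.Lib.MP_7d449a_al.GP.Spec

/-!
# MP_7d449a_al, module LSF: the bounded elements form an open subgroup of finite index
-/

set_option autoImplicit false

open Filter Topology

namespace Pool.Agent.Lib.MP7d449a.GP

universe u

namespace LSFM

open Pointwise

/-- the subgroup of bounded elements -/
def LL {G : Type u} [Group G] [TopologicalSpace G] [IsTopologicalGroup G] (s : G) :
    Subgroup G where
  carrier := Lv s
  one_mem' := ⟨{1}, isCompact_singleton, fun n => by simp⟩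
  mul_mem' := by
    rintro x y ⟨Q, hQ, hx⟩ ⟨R, hR, hy⟩
    refine ⟨Q * R, hQ.mul hR, fun n => ?_⟩
    have h : s ^ n * (x * y) * (s ^ n)⁻¹ = (s ^ n * x * (s ^ n)⁻¹) * (s ^ n * y * (s ^ n)⁻¹) := by
      group
    rw [h]
    exact Set.mul_mem_mul (hx n) (hy n)
  inv_mem' := by
    rintro x ⟨Q, hQ, hx⟩
    refine ⟨Q⁻¹, hQ.inv, fun n => ?_⟩
    have h : s ^ n * x⁻¹ * (s ^ n)⁻¹ = (s ^ n * x * (s ^ n)⁻¹)⁻¹ := by group
    rw [h]
    exact Set.inv_mem_inv.mpr (hx n)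

theorem zconj {G : Type u} [Group G] (W : Subgroup G) (s : G)
    (h : ∀ x ∈ W, s * x * s⁻¹ ∈ W ∧ s⁻¹ * x * s ∈ W) (n : ℤ) :
    ∀ x ∈ W, s ^ n * x * (s ^ n)⁻¹ ∈ W := by
  induction n using Int.induction_on with
  | zero => intro x hx; simpa using hx
  | succ n ih =>
    intro x hx
    have h1 := (h _ (ih x hx)).1
    have h2 : s ^ ((n : ℤ) + 1) * x * (s ^ ((n : ℤ) + 1))⁻¹ =
        s * (s ^ (n : ℤ) * x * (s ^ (n : ℤ))⁻¹) * s⁻¹ := by
      rw [add_comm, zpow_add, zpow_one]; group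
    rw [h2]; exact h1
  | pred n ih =>
    intro x hx
    have h1 := (h _ (ih x hx)).2
    have h2 : s ^ (-(n : ℤ) - 1) * x * (s ^ (-(n : ℤ) - 1))⁻¹ =
        s⁻¹ * (s ^ (-(n : ℤ)) * x * (s ^ (-(n : ℤ)))⁻¹) * s := by
      rw [sub_eq_neg_add, zpow_add, zpow_neg_one]; group
    rw [h2]; exact h1

theorem finite_image {G : Type u} [Group G] [TopologicalSpace G] [IsTopologicalGroup G]
    (W : Subgroup G) (hW : IsOpen (W : Set G)) (C : Set G) (hC : IsCompact C) :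
    ((fun x : G => (x : G ⧸ W)) '' C).Finite := by
  have : DiscreteTopology (G ⧸ W) := QuotientGroup.discreteTopology hW
  have h1 : IsCompact ((fun x : G => (x : G ⧸ W)) '' C) :=
    hC.image QuotientGroup.continuous_mk
  exact h1.finite_of_discrete

/-- an element which is almost fixed by a power of `s` is bounded -/
theorem bounded {G : Type u} [Group G] [TopologicalSpace G] [IsTopologicalGroup G]
    (W : Subgroup G) (hW : IsCompact (W : Set G)) (s y : G)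
    (hc : ∀ (n : ℤ), ∀ x ∈ W, s ^ n * x * (s ^ n)⁻¹ ∈ W) (d : ℕ) (hd : 0 < d)
    (h : y⁻¹ * ((s ^ (d : ℤ))⁻¹ * y * s ^ (d : ℤ)) ∈ W) : y ∈ Lv s := by
  have hper : Function.Periodic (fun n : ℤ => ((s ^ n * y * (s ^ n)⁻¹ : G) : G ⧸ W)) (d : ℤ) := by
    intro n
    show ((s ^ (n + (d : ℤ)) * y * (s ^ (n + (d : ℤ)))⁻¹ : G) : G ⧸ W) =
      ((s ^ n * y * (s ^ n)⁻¹ : G) : G ⧸ W)
    rw [QuotientGroup.eq]
    have h1 := hc (n + d) _ h
    have h2 : s ^ (n + (d : ℤ)) * (y⁻¹ * ((s ^ (d : ℤ))⁻¹ * y * s ^ (d : ℤ))) *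
        (s ^ (n + (d : ℤ)))⁻¹ =
        (s ^ (n + (d : ℤ)) * y * (s ^ (n + (d : ℤ)))⁻¹)⁻¹ * (s ^ n * y * (s ^ n)⁻¹) := by
      rw [zpow_add]; group
    rw [← h2]
    exact h1
  refine ⟨⋃ r ∈ Finset.range d, (fun w => (s ^ (r : ℤ) * y * (s ^ (r : ℤ))⁻¹) * w) '' (W : Set G),
    ?_, fun n => ?_⟩
  · refine (Finset.range d).isCompact_biUnion fun r _ => ?_
    exact hW.image (continuous_const_mul _)
  · have hd' : (d : ℤ) ≠ 0 := by exact_mod_cast hd.ne'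
    have h1 := (hper.int_mul (n / (d : ℤ))) (n % (d : ℤ))
    have h0 : n % (d : ℤ) + (((n / (d : ℤ) : ℤ) : ℤ)) * (d : ℤ) = n := by
      have := Int.emod_add_mul_ediv n (d : ℤ)
      linarith
    simp only [Int.cast_id] at h1
    rw [h0] at h1
    have h2 : 0 ≤ n % (d : ℤ) := Int.emod_nonneg _ hd'
    have h3 : n % (d : ℤ) < d := Int.emod_lt_of_pos _ (by exact_mod_cast hd)
    obtain ⟨r, hr⟩ := Int.eq_ofNat_of_zero_le h2
    have h4 : ((s ^ (r : ℤ) * y * (s ^ (r : ℤ))⁻¹ : G) : G ⧸ W) =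
        ((s ^ n * y * (s ^ n)⁻¹ : G) : G ⧸ W) := by
      rw [hr] at h1
      exact h1.symm
    rw [QuotientGroup.eq] at h4
    refine Set.mem_iUnion₂.mpr ⟨r, Finset.mem_range.mpr (by omega), _, h4, ?_⟩
    show _ * (_⁻¹ * _) = _
    rw [mul_inv_cancel_left]

/-- every `h` becomes bounded after multiplication with elements of `K` on both sides -/
theorem main {G : Type u} [Group G] [TopologicalSpace G] [IsTopologicalGroup G]
    (K W : Subgroup G) (hK : CO K) (hW : CO W) (s : G)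
    (hc : ∀ (n : ℤ), ∀ x ∈ W, s ^ n * x * (s ^ n)⁻¹ ∈ W)
    (H : ∀ g h : G, ∃ k₁ ∈ K, ∃ k₂ ∈ K, ∃ k₃ ∈ K, g * h = k₁ * h * k₂ * g * k₃) (h : G) :
    ∃ k₁ ∈ K, ∃ k₂ ∈ K, k₁ * h * k₂ ∈ Lv s := by
  choose k1 hk1 k2 hk2 k3 hk3 heq using fun m : ℕ => H (s ^ (m : ℤ)) h
  set y : ℕ → G := fun m => k1 m * h * k2 m with hy
  set z : ℕ → G := fun m => (s ^ (m : ℤ))⁻¹ * y m * s ^ (m : ℤ) with hz
  have hzK : ∀ m, z m = h * (k3 m)⁻¹ := by
    intro m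
    have h1 := heq m
    have h2 : h = (s ^ (m : ℤ))⁻¹ * (s ^ (m : ℤ) * h) := by group
    show (s ^ (m : ℤ))⁻¹ * (k1 m * h * k2 m) * s ^ (m : ℤ) = h * (k3 m)⁻¹
    conv_rhs => rw [h2, h1]
    group
  have hfin1 := finite_image W hW.1 ((K : Set G) * {h} * (K : Set G))
    ((hK.2.mul isCompact_singleton).mul hK.2)
  have hfin2 := finite_image W hW.1 ({h} * (K : Set G)) (isCompact_singleton.mul hK.2)
  have hy1 : ∀ m, ((y m : G) : G ⧸ W) ∈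
      (fun x : G => (x : G ⧸ W)) '' ((K : Set G) * {h} * (K : Set G)) := by
    intro m
    exact ⟨y m, Set.mul_mem_mul (Set.mul_mem_mul (hk1 m) (Set.mem_singleton h)) (hk2 m), rfl⟩
  have hz1 : ∀ m, ((z m : G) : G ⧸ W) ∈
      (fun x : G => (x : G ⧸ W)) '' ({h} * (K : Set G)) := by
    intro m
    refine ⟨z m, ?_, rfl⟩
    rw [hzK]
    exact Set.mul_mem_mul (Set.mem_singleton h) (K.inv_mem (hk3 m))
  have := hfin1.to_subtype
  have := hfin2.to_subtype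
  obtain ⟨m, m', hne, hmm⟩ := Finite.exists_ne_map_eq_of_infinite
    (fun m : ℕ => ((⟨_, hy1 m⟩, ⟨_, hz1 m⟩) :
      ((fun x : G => (x : G ⧸ W)) '' ((K : Set G) * {h} * (K : Set G))) ×
      ((fun x : G => (x : G ⧸ W)) '' ({h} * (K : Set G)))))
  have hp1 : ((y m : G) : G ⧸ W) = (y m' : G) := congrArg (fun p => (p.1 : G ⧸ W)) hmm
  have hp2 : ((z m : G) : G ⧸ W) = (z m' : G) := congrArg (fun p => (p.2 : G ⧸ W)) hmm
  -- the symmetric statement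
  have key : ∀ m m' : ℕ, m < m' → ((y m : G) : G ⧸ W) = (y m' : G) →
      ((z m : G) : G ⧸ W) = (z m' : G) → y m ∈ Lv s := by
    intro m m' hlt h1 h2
    rw [QuotientGroup.eq] at h1 h2
    obtain ⟨d, hd⟩ := Nat.exists_eq_add_of_lt hlt
    refine bounded W hW.2 s (y m) hc (d + 1) (Nat.succ_pos d) ?_
    -- `z m⁻¹ * (s^-m' y m s^m') ∈ W`
    have h3 := hc (-(m' : ℤ)) _ (W.inv_mem h1)
    have h4 := W.mul_mem h2 h3
    have h5 := hc (m : ℤ) _ h4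
    have hm' : (m' : ℤ) = (m : ℤ) + ((d + 1 : ℕ) : ℤ) := by rw [hd]; push_cast; ring
    have h6 : s ^ (m : ℤ) * ((z m)⁻¹ * z m' * (s ^ (-(m' : ℤ)) * ((y m)⁻¹ * y m')⁻¹ *
        (s ^ (-(m' : ℤ)))⁻¹)) * (s ^ (m : ℤ))⁻¹ =
        (y m)⁻¹ * ((s ^ ((d + 1 : ℕ) : ℤ))⁻¹ * y m * s ^ ((d + 1 : ℕ) : ℤ)) := by
      show s ^ (m : ℤ) * (((s ^ (m : ℤ))⁻¹ * y m * s ^ (m : ℤ))⁻¹ *
        ((s ^ (m' : ℤ))⁻¹ * y m' * s ^ (m' : ℤ)) * (s ^ (-(m' : ℤ)) * ((y m)⁻¹ * y m')⁻¹ *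
        (s ^ (-(m' : ℤ)))⁻¹)) * (s ^ (m : ℤ))⁻¹ = _
      rw [hm']
      generalize ((d + 1 : ℕ) : ℤ) = e
      rw [zpow_neg, zpow_add]
      group
    rw [← h6]
    exact h5
  rcases lt_or_gt_of_ne hne with hlt | hlt
  · exact ⟨k1 m, hk1 m, k2 m, hk2 m, key m m' hlt hp1 hp2⟩
  · exact ⟨k1 m', hk1 m', k2 m', hk2 m', key m' m hlt hp1.symm hp2.symm⟩

theorem cosid {G : Type u} [Group G] (k1 h k2 c e : G) :
    e * ((c⁻¹ * k1⁻¹) * (k1 * h * k2) * (e⁻¹ * k2)⁻¹) * e⁻¹ = (c * e⁻¹)⁻¹ * h := by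
  group

end LSFM

open LSFM Pointwise in
theorem specLSF : SpecLSF.{u} := by
  intro G _ _ _ K hK hTP H s
  obtain ⟨W, hW, hWK, hWs⟩ := hTP s (K : Set G) (hK.1.mem_nhds K.one_mem)
  have hc : ∀ (n : ℤ), ∀ x ∈ W, s ^ n * x * (s ^ n)⁻¹ ∈ W := fun n => zconj W s hWs n
  have hWL : W ≤ LL s := fun x hx => ⟨(W : Set G), hW.2, fun n => hc n x hx⟩
  refine ⟨LL s, rfl, Subgroup.isOpen_mono hWL hW.1, ?_⟩
  have hfin := finite_image W hW.1 (K : Set G) hK.2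
  have hcov : ⋃ i ∈ hfin.toFinset ×ˢ hfin.toFinset,
      ((fun i : (G ⧸ W) × (G ⧸ W) => (Quotient.out i.1 : G) * (Quotient.out i.2 : G)⁻¹) i) •
      (((fun i : (G ⧸ W) × (G ⧸ W) => (LL s).map (MulAut.conj (Quotient.out i.2 : G)).toMonoidHom) i :
        Subgroup G) : Set G) = Set.univ := by
    rw [Set.eq_univ_iff_forall]
    intro h
    obtain ⟨k1, hk1, k2, hk2, hy⟩ := main K W hK hW s hc H h
    have e1 : ((k1⁻¹ : G) : G ⧸ W) ∈ hfin.toFinset := by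
      rw [Set.Finite.mem_toFinset]
      exact ⟨k1⁻¹, K.inv_mem hk1, rfl⟩
    have e2 : ((k2 : G) : G ⧸ W) ∈ hfin.toFinset := by
      rw [Set.Finite.mem_toFinset]
      exact ⟨k2, hk2, rfl⟩
    refine Set.mem_iUnion₂.mpr ⟨(((k1⁻¹ : G) : G ⧸ W), ((k2 : G) : G ⧸ W)),
      Finset.mk_mem_product e1 e2, ?_⟩
    have w1 : (Quotient.out ((k1⁻¹ : G) : G ⧸ W) : G)⁻¹ * k1⁻¹ ∈ W := by
      rw [← QuotientGroup.eq]
      exact QuotientGroup.out_eq' _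
    have w2 : (Quotient.out ((k2 : G) : G ⧸ W) : G)⁻¹ * k2 ∈ W := by
      rw [← QuotientGroup.eq]
      exact QuotientGroup.out_eq' _
    rw [Set.mem_smul_set_iff_inv_smul_mem]
    exact ⟨_, (LL s).mul_mem ((LL s).mul_mem (hWL w1) hy) ((LL s).inv_mem (hWL w2)),
      cosid k1 h k2 _ _⟩
  obtain ⟨i, _, hi⟩ := Subgroup.exists_finiteIndex_of_leftCoset_cover hcov
  have h1 : ((LL s).map (MulAut.conj (Quotient.out i.2 : G)).toMonoidHom).index =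
      (LL s).index := Subgroup.index_map_equiv (LL s) (MulAut.conj (Quotient.out i.2 : G))
  exact ⟨by rw [← h1]; exact hi.index_ne_zero⟩

end Pool.Agent.Lib.MP7d449a.GP
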