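import Pool.Agent.Lib.MP_7d449a_al.GP.Spec2
import Pool.Agent.Lib.MP_7d449a_al.GP.HOM
import Pool.Agent.Lib.MP_7d449a_al.GP.LSF

/-!
# MP_7d449a_al, module BPS: a closed normal subgroup with bounded conjugation orbits lies in `stab f`
-/

set_option autoImplicit false

open Filter Topology
open scoped Pointwise

namespace Pool.Agent.Lib.MP7d449a.GP

universe u

namespace BPSM

variable {G : Type u} [Group G] [TopologicalSpace G] [IsTopologicalGroup G] {K : Subgroup G}
  {f : G → ℝ}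

theorem cont_f (hK : CO K) (hf : Iwa K f) : Continuous f := by
  apply continuous_iff_continuousAt.2
  intro x
  have h1 : (fun y : G => x⁻¹ * y) ⁻¹' (K : Set G) ∈ 𝓝 x := by
    apply (hK.1.preimage (continuous_const.mul continuous_id)).mem_nhds
    show x⁻¹ * x ∈ K
    rw [inv_mul_cancel]
    exact K.one_mem
  have h2 : ∀ᶠ y in 𝓝 x, f y = f x := by
    filter_upwards [h1] with y hy
    have h3 := hf.rinv x (x⁻¹ * y) hy
    rwa [mul_inv_cancel_left] at h3
  exact (continuousAt_const (y := f x)).congr (h2.mono fun y hy => hy.symm)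

theorem cont_F (hK : CO K) (hf : Iwa K f) : Continuous (fun x => Real.log (f x)) :=
  (cont_f hK hf).log fun x => (hf.pos x).ne'

/-- Harnack's inequality -/
theorem harnack (hK : CO K) (hf : Iwa K f) {R : Set G} (hR : IsCompact R) :
    ∃ C : ℝ, ∀ x : G, ∀ r ∈ R, |Real.log (f (x * r)) - Real.log (f x)| ≤ C := by
  obtain ⟨C, hC⟩ := (hK.2.mul hR).exists_bound_of_continuousOn (cont_F hK hf).continuousOn
  refine ⟨C, fun x r hr => ?_⟩
  obtain ⟨k, hk, hp⟩ := hf.dec x
  have h1 : f (x * r) = f (x * k) * f (k⁻¹ * r) := by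
    rw [← hp (k⁻¹ * r)]
    congr 1
    group
  have h2 : f (x * k) = f x := hf.rinv x k hk
  rw [h1, h2, Real.log_mul (hf.pos x).ne' (hf.pos _).ne', add_sub_cancel_left]
  have h3 := hC (k⁻¹ * r) (Set.mul_mem_mul (K.inv_mem hk) hr)
  rwa [Real.norm_eq_abs] at h3

/-- powers in the stabiliser -/
theorem log_pow (hf : Iwa K f) {q p : G} (hq : q ∈ HOMM.P hf) (hp : p ∈ HOMM.P hf) (n : ℕ) :
    Real.log (f (q * p ^ n)) = Real.log (f q) + n * Real.log (f p) := by
  induction n generalizing q with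
  | zero => simp
  | succ n ih =>
    have h1 : q * p ^ (n + 1) = (q * p) * p ^ n := by rw [pow_succ']; group
    rw [h1, ih ((HOMM.P hf).mul_mem hq hp)]
    have h2 : f (q * p) = f q * f p := hq p
    rw [h2, Real.log_mul (hf.pos q).ne' (hf.pos p).ne']
    push_cast
    ring

/-- uniform boundedness of conjugation orbits of elements of `Lv p ∩ K` -/
theorem uni (hK : CO K) (hTP : TP G) (p : G) {L : Subgroup G} (hL : (L : Set G) = Lv p)
    (hLo : IsOpen (L : Set G)) :
    ∃ R : Set G, IsCompact R ∧ ∀ l ∈ L, l ∈ K → ∀ n : ℤ, p ^ n * l * (p ^ n)⁻¹ ∈ R := by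
  obtain ⟨W, hW, -, hWp⟩ := hTP p Set.univ univ_mem
  have hLc : IsClosed (L : Set G) := Subgroup.isClosed_of_isOpen L hLo
  have hc : IsCompact ((K : Set G) ∩ (L : Set G)) := hK.2.inter_right hLc
  obtain ⟨t, ht⟩ := hc.elim_finite_subcover
    (fun d : {d : G // d ∈ L} => (fun y : G => (d : G)⁻¹ * y) ⁻¹' (W : Set G))
    (fun d => hW.1.preimage (continuous_const.mul continuous_id)) (by
      intro x hx
      refine Set.mem_iUnion.2 ⟨⟨x, hx.2⟩, ?_⟩
      show x⁻¹ * x ∈ W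
      rw [inv_mul_cancel]
      exact W.one_mem)
  have hQ : ∀ d : {d : G // d ∈ L}, ∃ Q : Set G, IsCompact Q ∧
      ∀ n : ℤ, p ^ n * (d : G) * (p ^ n)⁻¹ ∈ Q := by
    intro d
    have : (d : G) ∈ Lv p := by rw [← hL]; exact d.2
    exact this
  choose Q hQc hQm using hQ
  refine ⟨⋃ d ∈ t, Q d * (W : Set G), t.isCompact_biUnion fun d _ => (hQc d).mul hW.2,
    fun l hl hlK n => ?_⟩
  obtain ⟨d, hd, hx⟩ := Set.mem_iUnion₂.1 (ht ⟨hlK, hl⟩)
  refine Set.mem_iUnion₂.2 ⟨d, hd, ?_⟩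
  have h1 : p ^ n * l * (p ^ n)⁻¹ = (p ^ n * (d : G) * (p ^ n)⁻¹) *
      (p ^ n * ((d : G)⁻¹ * l) * (p ^ n)⁻¹) := by group
  rw [h1]
  exact Set.mul_mem_mul (hQm d n) (LSFM.zconj W p hWp n _ hx)

/-- the growth of `F` along the powers of an element of the stabiliser -/
theorem claim (hK : CO K) (hTP : TP G) (hf : Iwa K f) (B : Subgroup G) (hB : B.Normal)
    (hLs : ∀ s : G, ∃ L : Subgroup G, (L : Set G) = Lv s ∧ IsOpen (L : Set G) ∧ L.FiniteIndex)
    (hBL : ∀ s : G, (B : Set G) ⊆ Lv s) {p : G} (hp : p ∈ HOMM.P hf) :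
    ∃ C : ℝ, ∀ k ∈ K, k ∈ (B ⊔ HOMM.P hf).topologicalClosure → ∀ n : ℕ,
      |Real.log (f (k * p ^ n)) - n * Real.log (f p)| ≤ C := by
  obtain ⟨L, hL, hLo, -⟩ := hLs p
  obtain ⟨R, hRc, hR⟩ := uni hK hTP p hL hLo
  obtain ⟨C₀, hC₀⟩ := harnack hK hf hRc
  -- representatives
  have hcl : IsClosed (((B ⊔ HOMM.P hf).topologicalClosure : Subgroup G) : Set G) :=
    Subgroup.isClosed_topologicalClosure _
  have hK1 : IsCompact ((K : Set G) ∩
      (((B ⊔ HOMM.P hf).topologicalClosure : Subgroup G) : Set G)) := hK.2.inter_right hcl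
  have hO : IsOpen (((L ⊓ K : Subgroup G)) : Set G) := hLo.inter hK.1
  obtain ⟨t, ht⟩ := hK1.elim_finite_subcover
    (fun c : {c : G // c ∈ B ⊔ HOMM.P hf} =>
      (fun y : G => (c : G)⁻¹ * y) ⁻¹' ((L ⊓ K : Subgroup G) : Set G))
    (fun c => hO.preimage (continuous_const.mul continuous_id)) (by
      rintro x ⟨-, hx⟩
      have hx' : x ∈ closure ((B ⊔ HOMM.P hf : Subgroup G) : Set G) := hx
      have h1 : (fun y : G => y⁻¹ * x) ⁻¹' ((L ⊓ K : Subgroup G) : Set G) ∈ 𝓝 x := by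
        apply (hO.preimage (continuous_inv.mul continuous_const)).mem_nhds
        show x⁻¹ * x ∈ (L ⊓ K : Subgroup G)
        rw [inv_mul_cancel]
        exact Subgroup.one_mem _
      obtain ⟨c, hc1, hc2⟩ := mem_closure_iff_nhds.1 hx' _ h1
      exact Set.mem_iUnion.2 ⟨⟨c, hc2⟩, hc1⟩)
  have hc : ∀ c : {c : G // c ∈ B ⊔ HOMM.P hf}, ∃ C : ℝ, ∀ n : ℕ,
      |Real.log (f ((c : G) * p ^ n)) - n * Real.log (f p)| ≤ C := by
    rintro ⟨c, hcBP⟩
    obtain ⟨b, hb, q, hq, rfl⟩ := Subgroup.mem_sup_of_normal_left.1 hcBP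
    have hb' : q⁻¹ * b * q ∈ Lv p := by
      apply hBL p
      have := hB.conj_mem b hb q⁻¹
      rwa [inv_inv] at this
    obtain ⟨Q, hQc, hQ⟩ := hb'
    obtain ⟨C', hC'⟩ := harnack hK hf hQc
    refine ⟨C' + |Real.log (f q)|, fun n => ?_⟩
    have h1 : b * q * p ^ n = (q * p ^ n) * (p ^ (-(n : ℤ)) * (q⁻¹ * b * q) *
        (p ^ (-(n : ℤ)))⁻¹) := by
      rw [zpow_neg, zpow_natCast]
      group
    have h2 := hC' (q * p ^ n) _ (hQ (-(n : ℤ)))
    rw [← h1, log_pow hf hq hp n] at h2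
    have h3 : Real.log (f (b * q * p ^ n)) - n * Real.log (f p) =
        (Real.log (f (b * q * p ^ n)) - (Real.log (f q) + n * Real.log (f p))) +
          Real.log (f q) := by ring
    show |Real.log (f (b * q * p ^ n)) - n * Real.log (f p)| ≤ _
    rw [h3]
    exact (abs_add_le _ _).trans (by linarith)
  choose Cc hCc using hc
  refine ⟨C₀ + ∑ c ∈ t, |Cc c|, fun k hk hkN n => ?_⟩
  obtain ⟨c, hct, hx⟩ := Set.mem_iUnion₂.1 (ht ⟨hk, hkN⟩)
  have hx' : (c : G)⁻¹ * k ∈ L ⊓ K := hx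
  obtain ⟨hl1, hl2⟩ := Subgroup.mem_inf.1 hx'
  have h1 : k * p ^ n = ((c : G) * p ^ n) * (p ^ (-(n : ℤ)) * ((c : G)⁻¹ * k) *
      (p ^ (-(n : ℤ)))⁻¹) := by
    rw [zpow_neg, zpow_natCast]
    group
  have h2 := hC₀ ((c : G) * p ^ n) _ (hR _ hl1 hl2 (-(n : ℤ)))
  rw [← h1] at h2
  have h3 := hCc c n
  have h4 : |Cc c| ≤ ∑ c ∈ t, |Cc c| :=
    Finset.single_le_sum (f := fun c => |Cc c|) (fun _ _ => abs_nonneg _) hct
  have h5 := le_abs_self (Cc c)
  have h6 : Real.log (f (k * p ^ n)) - n * Real.log (f p) =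
      (Real.log (f (k * p ^ n)) - Real.log (f ((c : G) * p ^ n))) +
        (Real.log (f ((c : G) * p ^ n)) - n * Real.log (f p)) := by ring
  rw [h6]
  exact (abs_add_le _ _).trans (by linarith)

theorem tp_sub (hTP : TP G) (N : Subgroup G) (hN : IsClosed (N : Set G)) : TP N := by
  intro g W hW
  obtain ⟨W', hW', hsub⟩ := mem_nhds_subtype _ _ _ |>.1 hW
  obtain ⟨V, hV, hVW, hVg⟩ := hTP (g : G) W' hW'
  refine ⟨V.subgroupOf N, ⟨?_, ?_⟩, ?_, ?_⟩
  · exact hV.1.preimage continuous_subtype_val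
  · exact hN.isClosedEmbedding_subtypeVal.isCompact_preimage hV.2
  · intro x hx
    exact hsub (hVW hx)
  · intro x hx
    rw [Subgroup.mem_subgroupOf] at hx
    obtain ⟨h1, h2⟩ := hVg _ hx
    rw [Subgroup.mem_subgroupOf, Subgroup.mem_subgroupOf]
    exact ⟨h1, h2⟩

theorem co_sub (hK : CO K) (N : Subgroup G) (hN : IsClosed (N : Set G)) :
    CO (K.subgroupOf N) :=
  ⟨hK.1.preimage continuous_subtype_val,
    hN.isClosedEmbedding_subtypeVal.isCompact_preimage hK.2⟩

theorem iwa_sub (hf : Iwa K f) (N : Subgroup G) (hN : HOMM.P hf ≤ N) :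
    Iwa (K.subgroupOf N) (fun x : N => f (x : G)) where
  pos := fun x => hf.pos _
  rinv := by
    intro x k hk
    exact hf.rinv _ _ (Subgroup.mem_subgroupOf.1 hk)
  one := hf.one
  dec := by
    intro g
    obtain ⟨k, hk, hp⟩ := hf.dec (g : G)
    have h1 : (g : G) * k ∈ HOMM.P hf := hp
    have h2 : k ∈ N := by
      have := N.mul_mem (N.inv_mem g.2) (hN h1)
      rwa [inv_mul_cancel_left] at this
    exact ⟨⟨k, h2⟩, Subgroup.mem_subgroupOf.2 hk, fun x => hp x⟩
  big := by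
    obtain ⟨g, hg⟩ := hf.big
    obtain ⟨k, hk, hp⟩ := hf.dec g
    refine ⟨⟨g * k, hN hp⟩, ?_⟩
    show 1 < f (g * k)
    rw [hf.rinv g k hk]
    exact hg

theorem fi_const (K : Subgroup G) (c : ℝ) : FI K (fun _ => c) :=
  ⟨K, le_rfl, by rw [Subgroup.relIndex_self]; exact one_ne_zero, fun _ _ _ _ => rfl⟩

end BPSM

open BPSM in
theorem specBPS (hA : SpecAVG.{u}) (hM : SpecMFA.{u}) (hH : SpecHOM.{u}) : SpecBPS.{u} := by
  intro G _ _ _ K B f hK hTP hf hB _hBc hLs hBL b hb x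
  obtain ⟨N, hNdef⟩ : ∃ N : Subgroup G, N = (B ⊔ HOMM.P hf).topologicalClosure := ⟨_, rfl⟩
  have hNc : IsClosed (N : Set G) := by rw [hNdef]; exact Subgroup.isClosed_topologicalClosure _
  have hsupN : B ⊔ HOMM.P hf ≤ N := by rw [hNdef]; exact Subgroup.le_topologicalClosure _
  have hPN : HOMM.P hf ≤ N := le_sup_right.trans hsupN
  have hBN : B ≤ N := le_sup_left.trans hsupN
  have hTPN := tp_sub hTP N hNc
  have hKN := co_sub hK N hNc
  have hfN := iwa_sub hf N hPN
  obtain ⟨hom, hker⟩ := hH N (K.subgroupOf N) (fun x : N => f (x : G)) hTPN hKN hfN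
  -- the homomorphism
  obtain ⟨A, hAdef⟩ : ∃ A : N → ℝ, ∀ g, A g = avg (K.subgroupOf N)
    (fun k => Real.log (f ((k * g : N) : G))) := ⟨_, fun _ => rfl⟩
  have hAmul : ∀ g h, A (g * h) = A g + A h := by
    intro g h
    rw [hAdef, hAdef, hAdef]
    exact hom g h
  have hAK : ∀ k ∈ K.subgroupOf N, A k = 0 := by
    intro k hk
    rw [hAdef]
    exact hker k hk
  have hA1 : A 1 = 0 := hAK 1 (Subgroup.one_mem _)
  have hApow : ∀ (g : N) (n : ℕ), A (g ^ n) = n * A g := by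
    intro g n
    induction n with
    | zero => simp [hA1]
    | succ n ih => rw [pow_succ, hAmul, ih]; push_cast; ring
  have hFI : ∀ g : N, FI (K.subgroupOf N) (fun k => Real.log (f ((k * g : N) : G))) := by
    intro g
    have h1 := hM.fi N (K.subgroupOf N) (K.subgroupOf N) hKN hKN
      (fun x : N => Real.log (f (x : G))) (fun x k hk => by
        show Real.log (f ((x * k : N) : G)) = Real.log (f (x : G))
        have := hfN.rinv x k hk
        exact congrArg Real.log this) 1 g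
    simpa using h1
  -- the value on the stabiliser
  have hAP : ∀ p : N, (p : G) ∈ HOMM.P hf → A p = Real.log (f (p : G)) := by
    intro p hp
    obtain ⟨C, hC⟩ := claim hK hTP hf B hB hLs hBL hp
    rw [← hNdef] at hC
    have hb : ∀ n : ℕ, |(n : ℝ) * (A p - Real.log (f (p : G)))| ≤ C := by
      intro n
      have h1 : (n : ℝ) * (A p - Real.log (f (p : G))) =
          A (p ^ n) - n * Real.log (f (p : G)) := by
        rw [hApow]; ring
      rw [h1, hAdef]
      have hk : ∀ k ∈ K.subgroupOf N,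
          |Real.log (f ((k * p ^ n : N) : G)) - n * Real.log (f (p : G))| ≤ C := by
        intro k hk
        have := hC (k : G) (Subgroup.mem_subgroupOf.1 hk) k.2 n
        simpa using this
      have h2 : avg (K.subgroupOf N) (fun k => Real.log (f ((k * p ^ n : N) : G))) ≤
          n * Real.log (f (p : G)) + C := by
        have h3 := hA.mono N (K.subgroupOf N) _ (fun _ => n * Real.log (f (p : G)) + C)
          (hFI (p ^ n)) (fi_const _ _) (fun k hk' => by
            have := (abs_le.1 (hk k hk')).2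
            linarith)
        rwa [hA.const] at h3
      have h4 : n * Real.log (f (p : G)) - C ≤
          avg (K.subgroupOf N) (fun k => Real.log (f ((k * p ^ n : N) : G))) := by
        have h3 := hA.mono N (K.subgroupOf N) (fun _ => n * Real.log (f (p : G)) - C) _
          (fi_const _ _) (hFI (p ^ n)) (fun k hk' => by
            have := (abs_le.1 (hk k hk')).1
            linarith)
        rwa [hA.const] at h3
      rw [abs_le]
      constructor <;> linarith
    by_contra hne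
    have hd : 0 < |A p - Real.log (f (p : G))| := abs_pos.2 (sub_ne_zero.2 hne)
    obtain ⟨n, hn⟩ := exists_nat_gt (C / |A p - Real.log (f (p : G))|)
    rw [div_lt_iff₀ hd] at hn
    have := hb n
    rw [abs_mul, Nat.abs_cast] at this
    linarith
  -- the value on `N`
  have hAN : ∀ g : N, A g = Real.log (f (g : G)) := by
    intro g
    obtain ⟨k, hk, hp⟩ := hf.dec (g : G)
    have h1 : (g : G) * k ∈ HOMM.P hf := hp
    have h2 : k ∈ N := by
      have := N.mul_mem (N.inv_mem g.2) (hPN h1)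
      rwa [inv_mul_cancel_left] at this
    have h3 : A (g * ⟨k, h2⟩) = A g := by
      rw [hAmul, hAK ⟨k, h2⟩ (Subgroup.mem_subgroupOf.2 hk), add_zero]
    have h4 := hAP (g * ⟨k, h2⟩) h1
    rw [← h3, h4]
    show Real.log (f ((g : G) * k)) = _
    rw [hf.rinv _ k hk]
  -- the conclusion
  obtain ⟨k, hk, hp⟩ := hf.dec x
  have h1 : x * k ∈ HOMM.P hf := hp
  have h2 := hAmul ⟨b, hBN hb⟩ ⟨x * k, hPN h1⟩
  rw [hAN, hAN, hAN] at h2
  have h3 : Real.log (f (b * (x * k))) = Real.log (f b) + Real.log (f (x * k)) := h2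
  rw [← mul_assoc, hf.rinv _ k hk, hf.rinv _ k hk,
    ← Real.log_mul (hf.pos b).ne' (hf.pos x).ne'] at h3
  exact Real.log_injOn_pos (Set.mem_Ioi.2 (hf.pos _))
    (Set.mem_Ioi.2 (mul_pos (hf.pos _) (hf.pos _))) h3

end Pool.Agent.Lib.MP7d449a.GP
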