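import Pool.Agent.Lib.MP_7d449a_al.GP.Spec2

/-!
# MP_7d449a_al, GP, module CGB (helper53): closed cocompact subgroups are compactly generated
-/

set_option autoImplicit false

open Filter Topology
open scoped Pointwise

namespace Pool.Agent.Lib.MP7d449a.GP

universe u

theorem specCGB : SpecCGB.{u} := by
  intro G _ _ _ B Q hCG hB hQ hdec
  obtain ⟨C, hC, hgen⟩ := hCG
  set C₀ : Set G := C ∪ C⁻¹ ∪ {1} with hC₀
  set Q' : Set G := Q ∪ {1} with hQ'
  have hC₀c : IsCompact C₀ := (hC.union hC.inv).union isCompact_singleton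
  have hQ'c : IsCompact Q' := hQ.union isCompact_singleton
  refine ⟨(Q' * C₀ * Q'⁻¹) ∩ B, ((hQ'c.mul hC₀c).mul hQ'c.inv).inter_right hB, Set.inter_subset_right, ?_⟩
  set D : Set G := (Q' * C₀ * Q'⁻¹) ∩ B with hD
  have h1Q : (1 : G) ∈ Q' := Or.inr rfl
  have h1C : (1 : G) ∈ C₀ := Or.inr rfl
  have hDB : Subgroup.closure D ≤ B := by
    rw [Subgroup.closure_le]
    exact Set.inter_subset_right
  -- the step
  have step : ∀ g : G, (∃ b ∈ Subgroup.closure D, ∃ q ∈ Q', g = b * q) → ∀ c ∈ C₀,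
      ∃ b ∈ Subgroup.closure D, ∃ q ∈ Q', g * c = b * q := by
    rintro g ⟨b, hb, q, hq, rfl⟩ c hc
    obtain ⟨b₁, hb₁, q₁, hq₁, h⟩ := hdec (q * c)
    have hb₁' : b₁ = q * c * q₁⁻¹ := by
      rw [h, mul_assoc, mul_inv_cancel, mul_one]
    have hmem : b₁ ∈ D := by
      refine ⟨?_, hb₁⟩
      rw [hb₁']
      exact Set.mul_mem_mul (Set.mul_mem_mul hq hc) (Set.inv_mem_inv.2 (Or.inl hq₁))
    refine ⟨b * b₁, mul_mem hb (Subgroup.subset_closure hmem), q₁, Or.inl hq₁, ?_⟩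
    rw [mul_assoc, h, mul_assoc]
  have hall : ∀ g : G, ∃ b ∈ Subgroup.closure D, ∃ q ∈ Q', g = b * q := by
    intro g
    have hg : g ∈ Subgroup.closure C := by
      rw [hgen]
      exact Subgroup.mem_top g
    refine Subgroup.closure_induction_right
      (p := fun x _ => ∃ b ∈ Subgroup.closure D, ∃ q ∈ Q', x = b * q) ?_ ?_ ?_ hg
    · exact ⟨1, one_mem _, 1, h1Q, by rw [mul_one]⟩
    · intro x _ y hy hx
      exact step x hx y (Or.inl (Or.inl hy))
    · intro x _ y hy hx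
      exact step x hx y⁻¹ (Or.inl (Or.inr (Set.inv_mem_inv.2 hy)))
  apply le_antisymm hDB
  intro b hb
  obtain ⟨b', hb', q, hq, h⟩ := hall b
  have hqB : q ∈ B := by
    have : q = b'⁻¹ * b := by rw [h, inv_mul_cancel_left]
    rw [this]
    exact mul_mem (inv_mem (hDB hb')) hb
  have hqD : q ∈ D := by
    refine ⟨?_, hqB⟩
    have : q = q * 1 * (1 : G)⁻¹ := by rw [mul_one, inv_one, mul_one]
    rw [this]
    exact Set.mul_mem_mul (Set.mul_mem_mul hq h1C) (Set.inv_mem_inv.2 h1Q)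
  rw [h]
  exact mul_mem hb' (Subgroup.subset_closure hqD)

end Pool.Agent.Lib.MP7d449a.GP
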