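import Pool.Agent.Lib.MP_7d449a_al.GP.Spec2

/-!
# CGU: compact generation of an open normal subgroup
-/

set_option autoImplicit false

open Filter Topology
open scoped Pointwise

namespace Pool.Agent.Lib.MP7d449a.GP

universe u

namespace CGUM

variable {G : Type u} [Group G]

/-- the conjugates of `C` under the powers of `y` -/
def E (y : G) (C : Set G) : Set G := {z | ∃ n : ℤ, ∃ c ∈ C, y ^ n * c * (y ^ n)⁻¹ = z}

lemma zpow_conj_mem {y : G} {W : Set G} (h1 : ∀ x ∈ W, y * x * y⁻¹ ∈ W)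
    (h2 : ∀ x ∈ W, y⁻¹ * x * y ∈ W) (n : ℤ) : ∀ w ∈ W, y ^ n * w * (y ^ n)⁻¹ ∈ W := by
  induction n using Int.induction_on with
  | zero => intro w hw; simpa using hw
  | succ n ih =>
    intro w hw
    have h3 := h1 _ (ih w hw)
    have h4 : y ^ ((n : ℤ) + 1) * w * (y ^ ((n : ℤ) + 1))⁻¹ =
        y * (y ^ (n : ℤ) * w * (y ^ (n : ℤ))⁻¹) * y⁻¹ := by
      rw [add_comm, zpow_add, zpow_one]
      group
    rw [h4]
    exact h3
  | pred n ih =>
    intro w hw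
    have h3 := h2 _ (ih w hw)
    have h4 : y ^ (-(n : ℤ) - 1) * w * (y ^ (-(n : ℤ) - 1))⁻¹ =
        y⁻¹ * (y ^ (-(n : ℤ)) * w * (y ^ (-(n : ℤ)))⁻¹) * y := by
      rw [sub_eq_add_neg, add_comm, zpow_add, zpow_neg_one]
      group
    rw [h4]
    exact h3

lemma subset_E (y : G) (C : Set G) : C ⊆ E y C := fun c hc => ⟨0, c, hc, by simp⟩

lemma E_conj {y a : G} (C : Set G) (ha : a = y ∨ a = y⁻¹) :
    Set.MapsTo (fun x => a * x * a⁻¹) (E y C) (E y C) := by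
  rintro _ ⟨n, c, hc, rfl⟩
  rcases ha with rfl | rfl
  · refine ⟨1 + n, c, hc, ?_⟩
    simp only
    rw [zpow_add, zpow_one]
    group
  · refine ⟨-1 + n, c, hc, ?_⟩
    simp only
    rw [zpow_add, zpow_neg_one]
    group

variable [TopologicalSpace G] [IsTopologicalGroup G]

lemma closure_E_sub {U : Subgroup G} [U.Normal] (hU : IsOpen (U : Set G)) (y : G) {C : Set G}
    (hCU : C ⊆ U) : closure (E y C) ⊆ U := by
  refine closure_minimal ?_ (U.isClosed_of_isOpen hU)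
  rintro _ ⟨n, c, hc, rfl⟩
  exact Subgroup.Normal.conj_mem inferInstance c (hCU hc) _

lemma compact_closure_E (hTP : TP G) {U : Subgroup G} (hU : IsOpen (U : Set G)) (y : G)
    (hy : (U : Set G) ⊆ Lv y) {C : Set G} (hC : IsCompact C) (hCU : C ⊆ U) :
    IsCompact (closure (E y C)) := by
  obtain ⟨W, ⟨hWo, hWc⟩, -, hW⟩ := hTP y U (hU.mem_nhds (one_mem U))
  have hconj := zpow_conj_mem (W := (W : Set G)) (fun x hx => (hW x hx).1) (fun x hx => (hW x hx).2)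
  have hQ : ∀ c : G, ∃ Q : Set G, IsCompact Q ∧ (c ∈ U → ∀ n : ℤ, y ^ n * c * (y ^ n)⁻¹ ∈ Q) := by
    intro c
    by_cases hc : c ∈ U
    · obtain ⟨Q, hQ1, hQ2⟩ := hy hc
      exact ⟨Q, hQ1, fun _ => hQ2⟩
    · exact ⟨∅, isCompact_empty, fun h => absurd h hc⟩
  choose Q hQ1 hQ2 using hQ
  obtain ⟨t, ht, hcov⟩ := hC.elim_nhds_subcover (fun c => c • (W : Set G)) (fun c _ => by
    refine (hWo.smul c).mem_nhds ?_
    exact ⟨1, one_mem W, by simp⟩)
  have hK : IsCompact (⋃ c ∈ t, Q c * (W : Set G)) :=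
    t.isCompact_biUnion fun c _ => (hQ1 c).mul hWc
  refine hK.closure_of_subset ?_
  rintro _ ⟨n, c', hc', rfl⟩
  have h1 := hcov hc'
  simp only [Set.mem_iUnion] at h1
  obtain ⟨c, hc, w, hw, rfl⟩ := h1
  simp only [Set.mem_iUnion]
  refine ⟨c, hc, ?_⟩
  have h2 : y ^ n * (c • w) * (y ^ n)⁻¹ = (y ^ n * c * (y ^ n)⁻¹) * (y ^ n * w * (y ^ n)⁻¹) := by
    rw [smul_eq_mul]
    group
  change y ^ n * (c • w) * (y ^ n)⁻¹ ∈ _
  rw [h2]
  exact Set.mul_mem_mul (hQ2 c (hCU (ht c hc)) n) (hconj n w hw)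

/-- conjugation of the generated subgroup -/
lemma conj_closure {a : G} {D : Set G} {H : Subgroup G} (h : ∀ x ∈ D, a * x * a⁻¹ ∈ H) :
    ∀ x ∈ Subgroup.closure D, a * x * a⁻¹ ∈ H := by
  intro x hx
  induction hx using Subgroup.closure_induction with
  | mem x hx => exact h x hx
  | one => simp
  | mul x y _ _ ihx ihy =>
    have : a * (x * y) * a⁻¹ = (a * x * a⁻¹) * (a * y * a⁻¹) := by group
    rw [this]
    exact mul_mem ihx ihy
  | inv x _ ih =>
    have : a * x⁻¹ * a⁻¹ = (a * x * a⁻¹)⁻¹ := by group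
    rw [this]
    exact inv_mem ih

/-- the inductive step: the conjugation by an element which normalises `⟨D⟩` -/
lemma step_conj {D : Set G} {z a : G} (hH : IsClosed (Subgroup.closure (closure (E z D)) : Set G))
    (hc1 : a * z * a⁻¹ * z⁻¹ ∈ D) (hc2 : a * z⁻¹ * a⁻¹ * z⁻¹⁻¹ ∈ D)
    (ha : ∀ x ∈ Subgroup.closure D, a * x * a⁻¹ ∈ Subgroup.closure D) :
    ∀ x ∈ Subgroup.closure (closure (E z D)),
      a * x * a⁻¹ ∈ Subgroup.closure (closure (E z D)) := by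
  set H' := Subgroup.closure (closure (E z D)) with hH'
  have hsub : ∀ (n : ℤ), ∀ d ∈ D, z ^ n * d * (z ^ n)⁻¹ ∈ H' := fun n d hd =>
    Subgroup.subset_closure (subset_closure ⟨n, d, hd, rfl⟩)
  have hsub2 : ∀ n : ℤ, ∀ d ∈ Subgroup.closure D, z ^ n * d * (z ^ n)⁻¹ ∈ H' := fun n =>
    conj_closure fun d hd => hsub n d hd
  have hu : ∀ n : ℤ, a * z ^ n * a⁻¹ * (z ^ n)⁻¹ ∈ H' := by
    intro n
    induction n using Int.induction_on with
    | zero => simp
    | succ n ih =>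
      have h1 : a * z ^ ((n : ℤ) + 1) * a⁻¹ * (z ^ ((n : ℤ) + 1))⁻¹ =
          (a * z ^ (n : ℤ) * a⁻¹ * (z ^ (n : ℤ))⁻¹) *
            (z ^ (n : ℤ) * (a * z * a⁻¹ * z⁻¹) * (z ^ (n : ℤ))⁻¹) := by
        rw [zpow_add, zpow_one]
        group
      rw [h1]
      exact mul_mem ih (hsub _ _ hc1)
    | pred n ih =>
      have h1 : a * z ^ (-(n : ℤ) - 1) * a⁻¹ * (z ^ (-(n : ℤ) - 1))⁻¹ =
          (a * z ^ (-(n : ℤ)) * a⁻¹ * (z ^ (-(n : ℤ)))⁻¹) *
            (z ^ (-(n : ℤ)) * (a * z⁻¹ * a⁻¹ * z⁻¹⁻¹) * (z ^ (-(n : ℤ)))⁻¹) := by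
        rw [sub_eq_add_neg, zpow_add, zpow_neg_one]
        group
      rw [h1]
      exact mul_mem ih (hsub _ _ hc2)
  refine conj_closure fun x hx => ?_
  have hcl : IsClosed {x : G | a * x * a⁻¹ ∈ H'} := by
    have hcont : Continuous fun x : G => a * x * a⁻¹ := by fun_prop
    exact hH.preimage hcont
  refine closure_minimal ?_ hcl hx
  rintro _ ⟨n, d, hd, rfl⟩
  change a * (z ^ n * d * (z ^ n)⁻¹) * a⁻¹ ∈ H'
  have h1 : a * (z ^ n * d * (z ^ n)⁻¹) * a⁻¹ = (a * z ^ n * a⁻¹ * (z ^ n)⁻¹) *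
      (z ^ n * (a * d * a⁻¹) * (z ^ n)⁻¹) * (a * z ^ n * a⁻¹ * (z ^ n)⁻¹)⁻¹ := by
    group
  rw [h1]
  exact mul_mem (mul_mem (hu n) (hsub2 n _ (ha d (Subgroup.subset_closure hd)))) (inv_mem (hu n))

/-- all generators in turn -/
lemma iterate (hTP : TP G) {U : Subgroup G} [U.Normal] (hU : IsOpen (U : Set G)) {r : ℕ}
    (y : Fin r → G) (hy : ∀ i, (U : Set G) ⊆ Lv (y i)) {V : Subgroup G}
    (hV : IsOpen (V : Set G)) {C₀ : Set G} (hC₀ : IsCompact C₀) (hVC : (V : Set G) ⊆ C₀)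
    (hCU : C₀ ⊆ U)
    (hcomm : ∀ i j a b, (a = y i ∨ a = (y i)⁻¹) → (b = y j ∨ b = (y j)⁻¹) →
      a * b * a⁻¹ * b⁻¹ ∈ C₀) (j : ℕ) (hj : j ≤ r) :
    ∃ D : Set G, IsCompact D ∧ C₀ ⊆ D ∧ D ⊆ U ∧ ∀ i : Fin r, (i : ℕ) < j → ∀ a,
      (a = y i ∨ a = (y i)⁻¹) → ∀ x ∈ Subgroup.closure D, a * x * a⁻¹ ∈ Subgroup.closure D := by
  induction j with
  | zero => exact ⟨C₀, hC₀, le_rfl, hCU, fun i hi => absurd hi (Nat.not_lt_zero _)⟩
  | succ j ih =>
    obtain ⟨D, hD1, hD2, hD3, hD4⟩ := ih (by omega)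
    set jj : Fin r := ⟨j, by omega⟩ with hjj
    have hsub : D ⊆ closure (E (y jj) D) := (subset_E _ _).trans subset_closure
    have hopen : IsOpen (Subgroup.closure (closure (E (y jj) D)) : Set G) := by
      refine Subgroup.isOpen_mono (H₁ := V) ?_ hV
      intro v hv
      exact Subgroup.subset_closure (hsub (hD2 (hVC hv)))
    have hclosed := Subgroup.isClosed_of_isOpen _ hopen
    refine ⟨closure (E (y jj) D), compact_closure_E hTP hU _ (hy jj) hD1 hD3, hD2.trans hsub,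
      closure_E_sub hU _ hD3, fun i hi a ha => ?_⟩
    by_cases hij : (i : ℕ) < j
    · refine step_conj hclosed ?_ ?_ (hD4 i hij a ha)
      · exact hD2 (hcomm i jj a (y jj) ha (Or.inl rfl))
      · exact hD2 (hcomm i jj a (y jj)⁻¹ ha (Or.inr rfl))
    · have hij' : i = jj := Fin.ext (by simp only [hjj]; omega)
      subst hij'
      refine conj_closure fun x hx => Subgroup.subset_closure ?_
      have hcont : Continuous fun x : G => a * x * a⁻¹ := by fun_prop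
      exact map_mem_closure (f := fun x : G => a * x * a⁻¹) hcont hx (E_conj D ha)

end CGUM

open CGUM in
theorem specCGU (hCGB : SpecCGB.{u}) : SpecCGU.{u} := by
  classical
  intro G _ _ _ U _ r φ y hTP hCG hU hφ hfin hφy hLv
  have hUc : IsClosed (U : Set G) := U.isClosed_of_isOpen hU
  -- the preimage of the range
  obtain ⟨G₃, hG₃⟩ : ∃ G₃ : Subgroup G, G₃ = φ.range.comap (QuotientGroup.mk' U) := ⟨_, rfl⟩
  have hUG : U ≤ G₃ := by
    intro u hu
    rw [hG₃, Subgroup.mem_comap]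
    have h1 : QuotientGroup.mk' U u = 1 := (QuotientGroup.eq_one_iff u).2 hu
    rw [h1]
    exact one_mem _
  have hG₃o : IsOpen (G₃ : Set G) := Subgroup.isOpen_mono hUG hU
  have hG₃c : IsClosed (G₃ : Set G) := G₃.isClosed_of_isOpen hG₃o
  have hG₃f : G₃.FiniteIndex := by
    refine ⟨?_⟩
    rw [hG₃, Subgroup.index_comap_of_surjective _ (QuotientGroup.mk'_surjective U)]
    exact hfin.index_ne_zero
  -- compact generation of `G₃`
  have hcos : ∃ Q : Set G, IsCompact Q ∧ ∀ g : G, ∃ b ∈ G₃, ∃ q ∈ Q, g = b * q := by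
    have hf : Finite (G ⧸ G₃) := inferInstance
    refine ⟨Set.range fun c : G ⧸ G₃ => (Quotient.out c)⁻¹, (Set.finite_range _).isCompact,
      fun g => ?_⟩
    have h1 : ((Quotient.out ((g⁻¹ : G) : G ⧸ G₃) : G) : G ⧸ G₃) = ((g⁻¹ : G) : G ⧸ G₃) :=
      QuotientGroup.out_eq' _
    have h2 := QuotientGroup.eq.1 h1
    refine ⟨g * Quotient.out ((g⁻¹ : G) : G ⧸ G₃), ?_,
      (Quotient.out ((g⁻¹ : G) : G ⧸ G₃))⁻¹, ⟨_, rfl⟩, by group⟩
    have h3 := inv_mem h2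
    have h4 : ((Quotient.out ((g⁻¹ : G) : G ⧸ G₃))⁻¹ * g⁻¹)⁻¹ =
        g * Quotient.out ((g⁻¹ : G) : G ⧸ G₃) := by group
    rw [h4] at h3
    exact h3
  obtain ⟨Q, hQ1, hQ2⟩ := hcos
  obtain ⟨C₃, hC₃, hC₃G, hC₃g⟩ := hCGB G G₃ Q hCG hG₃c hQ1 hQ2
  -- lifts in the group generated by the `y i`
  have hlift : ∀ m : Multiplicative (Fin r → ℤ), ∃ w ∈ Subgroup.closure (Set.range y),
      (w : G ⧸ U) = φ m := by
    intro m
    have h1 : ∀ m : Multiplicative (Fin r → ℤ), m ∈ Subgroup.closure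
        (Set.range fun i : Fin r => Multiplicative.ofAdd (Pi.single i (1 : ℤ) : Fin r → ℤ)) := by
      intro m
      have h2 : m = ∏ i : Fin r, (Multiplicative.ofAdd (Pi.single i (1 : ℤ) : Fin r → ℤ)) ^
          (Multiplicative.toAdd m i) := by
        apply Multiplicative.toAdd.injective
        rw [toAdd_prod]
        funext k
        rw [Finset.sum_apply]
        simp only [toAdd_zpow, toAdd_ofAdd, Pi.smul_apply, smul_eq_mul, Pi.single_apply]
        simp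
      rw [h2]
      refine Subgroup.prod_mem _ fun i _ => Subgroup.zpow_mem _ (Subgroup.subset_closure ?_) _
      exact ⟨i, rfl⟩
    have h2 := h1 m
    induction h2 using Subgroup.closure_induction with
    | mem x hx =>
      obtain ⟨i, rfl⟩ := hx
      exact ⟨y i, Subgroup.subset_closure ⟨i, rfl⟩, (hφy i).symm⟩
    | one => exact ⟨1, one_mem _, by rw [map_one]; rfl⟩
    | mul a b _ _ iha ihb =>
      obtain ⟨w, hw, hwa⟩ := iha
      obtain ⟨w', hw', hwb⟩ := ihb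
      exact ⟨w * w', mul_mem hw hw', by rw [map_mul, ← hwa, ← hwb]; rfl⟩
    | inv a _ ih =>
      obtain ⟨w, hw, hwa⟩ := ih
      exact ⟨w⁻¹, inv_mem hw, by rw [map_inv, ← hwa]; rfl⟩
  have hlift' : ∀ c ∈ G₃, ∃ w ∈ Subgroup.closure (Set.range y), w⁻¹ * c ∈ U := by
    intro c hc
    rw [hG₃, Subgroup.mem_comap] at hc
    obtain ⟨m, hm⟩ := hc
    obtain ⟨w, hw, hwm⟩ := hlift m
    refine ⟨w, hw, QuotientGroup.eq.1 ?_⟩
    rw [hwm, hm]
    rfl
  -- the compact set `C₁`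
  have hcov : ∃ W : Finset G, (∀ w ∈ W, w ∈ Subgroup.closure (Set.range y)) ∧
      ∀ c ∈ C₃, ∃ w ∈ W, w⁻¹ * c ∈ U := by
    choose! wt hwt1 hwt2 using hlift'
    obtain ⟨t, ht, hcov⟩ := hC₃.elim_nhds_subcover (fun c => c • (U : Set G)) (fun c _ => by
      refine (hU.smul c).mem_nhds ?_
      exact ⟨1, one_mem U, by simp⟩)
    refine ⟨t.image wt, fun w hw => ?_, fun c hc => ?_⟩
    · obtain ⟨c, hc, rfl⟩ := Finset.mem_image.1 hw
      exact hwt1 c (hC₃G (ht c hc))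
    · have h1 := hcov hc
      simp only [Set.mem_iUnion] at h1
      obtain ⟨c', hc', u, hu, rfl⟩ := h1
      refine ⟨wt c', Finset.mem_image_of_mem _ hc', ?_⟩
      have h2 : (wt c')⁻¹ * (fun x => c' • x) u = ((wt c')⁻¹ * c') * u := by
        simp only [smul_eq_mul, mul_assoc]
      rw [h2]
      exact mul_mem (hwt2 c' (hC₃G (ht c' hc'))) hu
  obtain ⟨W, hW1, hW2⟩ := hcov
  obtain ⟨V, ⟨hVo, hVc⟩, hVU, -⟩ := hTP 1 U (hU.mem_nhds (one_mem U))
  obtain ⟨C₁, hC₁⟩ : ∃ C₁ : Set G, C₁ = (⋃ w ∈ W, w⁻¹ • C₃) ∩ U := ⟨_, rfl⟩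
  have hC₁c : IsCompact C₁ := by
    rw [hC₁]
    exact (W.isCompact_biUnion fun w _ => hC₃.smul _).inter_right hUc
  obtain ⟨Z, hZ⟩ : ∃ Z : Set G, Z = Set.range y ∪ Set.range fun i => (y i)⁻¹ := ⟨_, rfl⟩
  have hZf : Z.Finite := by
    rw [hZ]
    exact (Set.finite_range _).union (Set.finite_range _)
  have hZφ : ∀ a ∈ Z, ∃ m, φ m = (a : G ⧸ U) := by
    intro a ha
    rw [hZ] at ha
    rcases ha with ⟨i, rfl⟩ | ⟨i, rfl⟩
    · exact ⟨_, hφy i⟩
    · exact ⟨(Multiplicative.ofAdd (Pi.single i 1))⁻¹, by rw [map_inv, hφy i]; rfl⟩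
  obtain ⟨Cm, hCm⟩ : ∃ Cm : Set G, Cm = Set.image2 (fun a b => a * b * a⁻¹ * b⁻¹) Z Z := ⟨_, rfl⟩
  have hCmU : Cm ⊆ U := by
    rw [hCm]
    rintro _ ⟨a, ha, b, hb, rfl⟩
    obtain ⟨m, hm⟩ := hZφ a ha
    obtain ⟨m', hm'⟩ := hZφ b hb
    have h1 : ((a * b * a⁻¹ * b⁻¹ : G) : G ⧸ U) = φ (m * m' * m⁻¹ * m'⁻¹) := by
      rw [map_mul, map_mul, map_mul, map_inv, map_inv, hm, hm']
      rfl
    have h2 : m * m' * m⁻¹ * m'⁻¹ = 1 := by
      rw [mul_comm m m', mul_assoc, mul_assoc, ← mul_assoc m, mul_inv_cancel, one_mul,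
        mul_inv_cancel]
    rw [h2, map_one] at h1
    exact (QuotientGroup.eq_one_iff _).1 h1
  obtain ⟨C₀, hC₀⟩ : ∃ C₀ : Set G, C₀ = C₁ ∪ (V : Set G) ∪ Cm := ⟨_, rfl⟩
  have hC₀c : IsCompact C₀ := by
    rw [hC₀, hCm]
    exact (hC₁c.union hVc).union (hZf.image2 _ hZf).isCompact
  have hC₀U : C₀ ⊆ U := by
    rw [hC₀]
    refine Set.union_subset (Set.union_subset ?_ hVU) hCmU
    rw [hC₁]
    exact Set.inter_subset_right
  have hmemZ : ∀ i a, (a = y i ∨ a = (y i)⁻¹) → a ∈ Z := by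
    intro i a ha
    rw [hZ]
    rcases ha with rfl | rfl
    · exact Or.inl ⟨i, rfl⟩
    · exact Or.inr ⟨i, rfl⟩
  have hcomm : ∀ i j a b, (a = y i ∨ a = (y i)⁻¹) → (b = y j ∨ b = (y j)⁻¹) →
      a * b * a⁻¹ * b⁻¹ ∈ C₀ := by
    intro i j a b ha hb
    rw [hC₀, hCm]
    exact Or.inr ⟨a, hmemZ i a ha, b, hmemZ j b hb, rfl⟩
  obtain ⟨D, hD1, hD2, hD3, hD4⟩ := iterate hTP hU y hLv hVo hC₀c
    (by rw [hC₀]; exact fun v hv => Or.inl (Or.inr hv)) hC₀U hcomm r le_rfl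
  refine ⟨D, hD1, hD3, le_antisymm ((Subgroup.closure_le U).2 hD3) ?_⟩
  set H := Subgroup.closure D with hH
  -- the `y i` normalise `H`
  have hyN : ∀ i, y i ∈ Subgroup.normalizer (H : Set G) := by
    intro i
    rw [Subgroup.mem_normalizer_iff]
    intro h
    constructor
    · exact hD4 i i.2 (y i) (Or.inl rfl) h
    · intro h1
      have h2 := hD4 i i.2 (y i)⁻¹ (Or.inr rfl) _ h1
      have h3 : (y i)⁻¹ * (y i * h * (y i)⁻¹) * (y i)⁻¹⁻¹ = h := by group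
      rwa [h3] at h2
  have hHN : H ≤ Subgroup.normalizer (H : Set G) := Subgroup.le_normalizer
  let yy : Fin r → (Subgroup.normalizer (H : Set G)) ⧸
      (H.subgroupOf (Subgroup.normalizer (H : Set G))) := fun i =>
    ((⟨y i, hyN i⟩ : Subgroup.normalizer (H : Set G)) : _ ⧸ _)
  have hyy : ∀ i j, Commute (yy i) (yy j) := by
    intro i j
    have h1 : (((⟨y i, hyN i⟩ * ⟨y j, hyN j⟩ : Subgroup.normalizer (H : Set G))) :
        (Subgroup.normalizer (H : Set G)) ⧸ (H.subgroupOf (Subgroup.normalizer (H : Set G)))) =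
        ((⟨y j, hyN j⟩ * ⟨y i, hyN i⟩ : Subgroup.normalizer (H : Set G))) := by
      rw [QuotientGroup.eq, Subgroup.mem_subgroupOf]
      have h2 := hcomm j i (y j)⁻¹ (y i)⁻¹ (Or.inr rfl) (Or.inr rfl)
      have h3 : (y j)⁻¹ * (y i)⁻¹ * (y j)⁻¹⁻¹ * (y i)⁻¹⁻¹ = (y i * y j)⁻¹ * (y j * y i) := by group
      rw [h3] at h2
      exact Subgroup.subset_closure (hD2 h2)
    exact h1
  let ψ := MonoidHom.noncommPiCoprod (fun i : Fin r => zpowersHom _ (yy i)) (by
    intro i j _ a b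
    rw [zpowersHom_apply, zpowersHom_apply]
    exact (hyy i j).zpow_zpow _ _)
  let φ' : (Fin r → Multiplicative ℤ) →* G ⧸ U :=
    { toFun := fun m => φ (Multiplicative.ofAdd fun i => Multiplicative.toAdd (m i))
      map_one' := by
        rw [← map_one φ]
        rfl
      map_mul' := fun a b => by
        rw [← map_mul φ]
        rfl }
  have hφ'inj : ∀ m, φ' m = 1 → m = 1 := by
    intro m hm
    have h1 : (Multiplicative.ofAdd fun i => Multiplicative.toAdd (m i)) = 1 := by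
      apply hφ
      rw [map_one]
      exact hm
    funext i
    have h2 := congrFun (Multiplicative.ofAdd.injective h1) i
    exact Multiplicative.toAdd.injective h2
  -- the claim on all elements of `G₃`
  have hΓ : ∀ x ∈ Subgroup.closure (C₁ ∪ Set.range y),
      ∃ (hx : x ∈ Subgroup.normalizer (H : Set G)) (m : Fin r → Multiplicative ℤ),
        (((⟨x, hx⟩ : Subgroup.normalizer (H : Set G))) : (Subgroup.normalizer (H : Set G)) ⧸
          (H.subgroupOf (Subgroup.normalizer (H : Set G)))) = ψ m ∧ (x : G ⧸ U) = φ' m := by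
    intro x hx
    induction hx using Subgroup.closure_induction with
    | mem x hx =>
      rcases hx with hx | ⟨i, rfl⟩
      · have h0 : x ∈ H := Subgroup.subset_closure (hD2 (by rw [hC₀]; exact Or.inl (Or.inl hx)))
        refine ⟨hHN h0, 1, ?_, ?_⟩
        · rw [map_one]
          exact (QuotientGroup.eq_one_iff _).2 (Subgroup.mem_subgroupOf.2 h0)
        · rw [map_one]
          refine (QuotientGroup.eq_one_iff _).2 ?_
          rw [hC₁] at hx
          exact hx.2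
      · refine ⟨hyN i, Pi.mulSingle i (Multiplicative.ofAdd 1), ?_, ?_⟩
        · have h1 : ψ (Pi.mulSingle i (Multiplicative.ofAdd 1)) =
              zpowersHom _ (yy i) (Multiplicative.ofAdd 1) :=
            MonoidHom.noncommPiCoprod_mulSingle _ i _
          rw [h1, zpowersHom_apply, toAdd_ofAdd, zpow_one]
        · have h1 : (Multiplicative.ofAdd fun k => Multiplicative.toAdd
              ((Pi.mulSingle i (Multiplicative.ofAdd (1 : ℤ)) : Fin r → Multiplicative ℤ) k)) =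
              Multiplicative.ofAdd (Pi.single i 1 : Fin r → ℤ) := by
            congr 1
          change _ = φ (Multiplicative.ofAdd fun k => Multiplicative.toAdd
              ((Pi.mulSingle i (Multiplicative.ofAdd (1 : ℤ)) : Fin r → Multiplicative ℤ) k))
          rw [h1, hφy i]
    | one => exact ⟨one_mem _, 1, by rw [map_one]; rfl, by rw [map_one]; rfl⟩
    | mul a b _ _ iha ihb =>
      obtain ⟨ha, m, h1, h2⟩ := iha
      obtain ⟨hb, m', h3, h4⟩ := ihb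
      exact ⟨mul_mem ha hb, m * m', by rw [map_mul, ← h1, ← h3]; rfl,
        by rw [map_mul, ← h2, ← h4]; rfl⟩
    | inv a _ ih =>
      obtain ⟨ha, m, h1, h2⟩ := ih
      exact ⟨inv_mem ha, m⁻¹, by rw [map_inv, ← h1]; rfl, by rw [map_inv, ← h2]; rfl⟩
  have hG₃le : G₃ ≤ Subgroup.closure (C₁ ∪ Set.range y) := by
    rw [← hC₃g, Subgroup.closure_le]
    intro c hc
    obtain ⟨w, hw, hwc⟩ := hW2 c hc
    have h1 : w ∈ Subgroup.closure (C₁ ∪ Set.range y) :=
      Subgroup.closure_mono Set.subset_union_right (hW1 w hw)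
    have h2 : w⁻¹ * c ∈ Subgroup.closure (C₁ ∪ Set.range y) := by
      refine Subgroup.subset_closure (Or.inl ?_)
      rw [hC₁]
      refine ⟨?_, hwc⟩
      simp only [Set.mem_iUnion]
      exact ⟨w, hw, c, hc, rfl⟩
    have h3 := mul_mem h1 h2
    rwa [mul_inv_cancel_left] at h3
  intro u hu
  obtain ⟨hx, m, h1, h2⟩ := hΓ u (hG₃le (hUG hu))
  have h3 : (u : G ⧸ U) = 1 := (QuotientGroup.eq_one_iff u).2 hu
  have h4 : m = 1 := hφ'inj m (by rw [← h2, h3])
  rw [h4, map_one] at h1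
  exact Subgroup.mem_subgroupOf.1 ((QuotientGroup.eq_one_iff _).1 h1)

end Pool.Agent.Lib.MP7d449a.GP
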