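import Pool.Agent.Lib.MP_7d449a_al.GP.Spec

/-! # CNF: formal properties of the cone (helper94) -/

set_option autoImplicit false

namespace Pool.Agent.Lib.MP7d449a.GP

universe u

namespace CNFM

lemma bound (h : SpecMFA.{u}) (G : Type u) [Group G] [TopologicalSpace G] [IsTopologicalGroup G]
    (K : Subgroup G) (χ v : G → ℝ) (hK : CO K) (hv : Cn K χ v) (x : G) :
    v x ≤ ((Vg K K x).relIndex K : ℝ) * (χ x * v 1) := by
  have h1 := h.lower G K hK v hv.rinv hv.nonneg x 1 1 K.one_mem
  rw [hv.eig x 1] at h1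
  simpa using h1

lemma smul (h : SpecMFA.{u}) (G : Type u) [Group G] [TopologicalSpace G] [IsTopologicalGroup G]
    (K : Subgroup G) (χ v : G → ℝ) (c : ℝ) (hK : CO K) (hv : Cn K χ v) (hc : 0 ≤ c) :
    Cn K χ (fun x => c * v x) := by
  refine ⟨fun x => mul_nonneg hc (hv.nonneg x), fun x k hk => ?_, fun g x => ?_⟩
  · show c * v (x * k) = c * v x
    rw [hv.rinv x k hk]
  · rw [h.smul G K hK v hv.rinv c g x, hv.eig g x]
    ring

end CNFM

theorem specCNF (h : SpecMFA.{u}) (hL : SpecLFA.{u}) : SpecCNF.{u} where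
  bound := fun G _ _ _ K χ v hK hv x => CNFM.bound h G K χ v hK hv x
  zero := by
    intro G _ _ _ K χ v hK hv h1 x
    have h2 := CNFM.bound h G K χ v hK hv x
    rw [h1, mul_zero, mul_zero] at h2
    exact le_antisymm h2 (hv.nonneg x)
  pos := by
    intro G _ _ _ K χ v hK hv h1 x
    by_contra hcon
    have h0 : v x = 0 := le_antisymm (not_lt.mp hcon) (hv.nonneg x)
    have h2 := h.lower G K hK v hv.rinv hv.nonneg x⁻¹ x 1 K.one_mem
    rw [hv.eig x⁻¹ x, h0, mul_zero, mul_zero, mul_one, mul_inv_cancel] at h2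
    exact absurd h1 (not_lt.mpr h2)
  self := by
    intro G _ K S l χ hχ
    exact ⟨fun x => (hχ.pos x).le, hχ.rinv, hχ.mul⟩
  add := by
    intro G _ _ _ K χ v w hK hv hw
    refine ⟨fun x => add_nonneg (hv.nonneg x) (hw.nonneg x), fun x k hk => ?_, fun g x => ?_⟩
    · show v (x * k) + w (x * k) = v x + w x
      rw [hv.rinv x k hk, hw.rinv x k hk]
    · rw [h.add G K hK v w hv.rinv hw.rinv g x, hv.eig g x, hw.eig g x]
      ring
  sub := by
    intro G _ _ _ K χ v w hK hv hw hle
    have hw' : RInv K (fun x => (-1 : ℝ) * w x) := fun x k hk => by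
      show (-1 : ℝ) * w (x * k) = (-1 : ℝ) * w x
      rw [hw.rinv x k hk]
    have he : (fun x => v x - w x) = fun x => v x + (-1 : ℝ) * w x := by
      funext x
      ring
    refine ⟨fun x => sub_nonneg.mpr (hle x), fun x k hk => ?_, fun g x => ?_⟩
    · show v (x * k) - w (x * k) = v x - w x
      rw [hv.rinv x k hk, hw.rinv x k hk]
    · rw [he, h.add G K hK v (fun x => (-1 : ℝ) * w x) hv.rinv hw' g x,
        h.smul G K hK w hw.rinv (-1) g x, hv.eig g x, hw.eig g x]
      ring
  smul := fun G _ _ _ K χ v c hK hv hc => CNFM.smul h G K χ v c hK hv hc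
  sum := by
    intro G _ _ _ K χ ι s v hK hv
    refine ⟨fun x => Finset.sum_nonneg fun i hi => (hv i hi).nonneg x, fun x k hk => ?_,
      fun g x => ?_⟩
    · exact Finset.sum_congr rfl fun i hi => (hv i hi).rinv x k hk
    · rw [h.sum G K hK ι s v (fun i hi => (hv i hi).rinv) g x, Finset.mul_sum]
      exact Finset.sum_congr rfl fun i hi => (hv i hi).eig g x
  trans := by
    intro G _ K χ v hv g
    refine ⟨fun x => hv.nonneg _, fun x k hk => ?_, fun g' x => ?_⟩
    · show v (g * (x * k)) = v (g * x)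
      rw [← mul_assoc, hv.rinv _ k hk]
    · rw [h.shift G K v g g' x, hv.eig g' (g * x)]
  lav := by
    intro G _ _ _ K U χ v hK hU hv
    refine ⟨fun x => ?_, hL.rinv G K U v hv.rinv, fun g x => ?_⟩
    · have h1 := hL.mono G K U hK hU (fun _ => (0 : ℝ)) v (fun _ _ _ => rfl) hv.rinv hv.nonneg x
      rw [hL.fix G U (fun _ => (0 : ℝ)) (fun _ _ _ => rfl) x] at h1
      exact h1
    · have h1 : M K g v = fun y => χ g * v y := by
        funext y
        exact hv.eig g y
      rw [hL.comm G K U hK hU v hv.rinv g x, h1, hL.smul G K U hK hU v hv.rinv (χ g) x]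
  kav := by
    intro G _ K χ v hv x
    rw [hL.kav G K v x, hv.eig x 1]
  teig := by
    intro G _ K S l χ v hχ hv x
    have h1 : T K S χ 1 = ∑ s ∈ S, χ s := by
      show ∑ s ∈ S, M K s χ 1 = _
      refine Finset.sum_congr rfl fun s _ => ?_
      rw [hχ.mul s 1, hχ.one, mul_one]
    have h2 := hχ.eig 1
    rw [h1, hχ.one, mul_one] at h2
    show ∑ s ∈ S, M K s v x = l * v x
    rw [← h2, Finset.sum_mul]
    exact Finset.sum_congr rfl fun s _ => hv.eig s x

end Pool.Agent.Lib.MP7d449a.GP
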