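import Pool.Agent.Lib.MP_7d449a_al.GP.Spec

/-!
# Module COK: a compact subgroup is contained in a compact open one
-/

set_option autoImplicit false

open Filter Topology Pointwise

namespace Pool.Agent.Lib.MP7d449a.GP

universe u

namespace COKM

/-- the elements all of whose conjugates by elements of `K` are in `U` -/
def cap {G : Type u} [Group G] (K U : Subgroup G) : Subgroup G where
  carrier := {u | ∀ k ∈ K, k * u * k⁻¹ ∈ U}
  mul_mem' := by
    intro a b ha hb k hk
    have h := U.mul_mem (ha k hk) (hb k hk)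
    have e : k * (a * b) * k⁻¹ = k * a * k⁻¹ * (k * b * k⁻¹) := by group
    rw [e]
    exact h
  one_mem' := by
    intro k _
    simp [U.one_mem]
  inv_mem' := by
    intro a ha k hk
    have h := U.inv_mem (ha k hk)
    have e : k * a⁻¹ * k⁻¹ = (k * a * k⁻¹)⁻¹ := by group
    rw [e]
    exact h

lemma cap_conj {G : Type u} [Group G] {K U : Subgroup G} {k u : G} (hk : k ∈ K)
    (hu : u ∈ cap K U) : k * u * k⁻¹ ∈ cap K U := by
  intro l hl
  have h := hu (l * k) (K.mul_mem hl hk)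
  have e : l * (k * u * k⁻¹) * l⁻¹ = l * k * u * (l * k)⁻¹ := by group
  rw [e]
  exact h

lemma cap_le {G : Type u} [Group G] {K U : Subgroup G} : cap K U ≤ U := by
  intro u hu
  have h := hu 1 K.one_mem
  simpa using h

/-- the product -/
def prod {G : Type u} [Group G] (K U : Subgroup G) : Subgroup G where
  carrier := {x | ∃ k ∈ K, ∃ u ∈ cap K U, k * u = x}
  mul_mem' := by
    rintro _ _ ⟨k, hk, u, hu, rfl⟩ ⟨k', hk', u', hu', rfl⟩
    refine ⟨k * k', K.mul_mem hk hk', k'⁻¹ * u * k' * u', ?_, by group⟩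
    refine (cap K U).mul_mem ?_ hu'
    have h := cap_conj (K.inv_mem hk') hu
    rwa [inv_inv] at h
  one_mem' := ⟨1, K.one_mem, 1, (cap K U).one_mem, by simp⟩
  inv_mem' := by
    rintro _ ⟨k, hk, u, hu, rfl⟩
    refine ⟨k⁻¹, K.inv_mem hk, k * u⁻¹ * k⁻¹, cap_conj hk ((cap K U).inv_mem hu), by group⟩

lemma cap_open {G : Type u} [Group G] [TopologicalSpace G] [IsTopologicalGroup G]
    {K U : Subgroup G} (hK : IsCompact (K : Set G)) (hU : IsOpen (U : Set G)) :
    IsOpen (cap K U : Set G) := by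
  have hc : Continuous (fun p : G × G => p.1 * p.2 * p.1⁻¹) := by fun_prop
  have ho : IsOpen ((fun p : G × G => p.1 * p.2 * p.1⁻¹) ⁻¹' (U : Set G)) := hU.preimage hc
  have hsub : (K : Set G) ×ˢ ({1} : Set G) ⊆
      (fun p : G × G => p.1 * p.2 * p.1⁻¹) ⁻¹' (U : Set G) := by
    rintro ⟨k, u⟩ ⟨-, hu⟩
    have h1 : u = 1 := hu
    show k * u * k⁻¹ ∈ (U : Set G)
    rw [h1]
    simp
  obtain ⟨A, B, -, hB, hKA, h1B, hAB⟩ := generalized_tube_lemma hK isCompact_singleton ho hsub
  refine Subgroup.isOpen_of_mem_nhds (cap K U) (g := 1) ?_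
  refine mem_of_superset (hB.mem_nhds (h1B rfl)) ?_
  intro u hu k hk
  exact hAB (show (k, u) ∈ A ×ˢ B from ⟨hKA hk, hu⟩)

end COKM

open COKM

theorem specCOK : SpecCOK.{u} := by
  intro G _ _ _ _ _ _ K hK
  obtain ⟨U, hUo, hUc, -⟩ := vanDantzig (G := G) (W := Set.univ) Filter.univ_mem
  have ho := cap_open hK hUo
  have hc : IsCompact (cap K U : Set G) :=
    hUc.of_isClosed_subset ((cap K U).isClosed_of_isOpen ho) cap_le
  refine ⟨prod K U, ⟨?_, ?_⟩, fun k hk => ⟨k, hk, 1, (cap K U).one_mem, by simp⟩⟩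
  · exact Subgroup.isOpen_mono (fun u hu => ⟨1, K.one_mem, u, hu, by simp⟩) ho
  · have h := hK.mul hc
    have e : (prod K U : Set G) = (K : Set G) * (cap K U : Set G) := by
      ext x
      rw [Set.mem_mul]
      rfl
    rw [e]
    exact h

end Pool.Agent.Lib.MP7d449a.GP
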