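import Pool.Agent.Lib.MP_7d449a_al.GP.Spec

/-! # CON: the contradiction (helper10) -/

set_option autoImplicit false

open Filter Topology

namespace Pool.Agent.Lib.MP7d449a.GP

universe u

theorem specCON (ha : SpecAVG.{u}) (hm : SpecMFA.{u}) : SpecCON.{u} := by
  intro G _ _ _ K f hK hI havg hR
  obtain ⟨g, hg⟩ := hI.big
  obtain ⟨k₀, hk₀, hdec⟩ := hI.dec g
  set p : G := g * k₀ with hp
  have hfp : f p = f g := hI.rinv g k₀ hk₀
  have hp1 : 1 < f p := by rw [hfp]; exact hg
  have hpow : ∀ (n : ℕ) (x : G), f (p ^ n * x) = f p ^ n * f x := by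
    intro n
    induction n with
    | zero => intro x; simp
    | succ n ih =>
      intro x
      rw [pow_succ', mul_assoc, hdec, ih, pow_succ']
      ring
  have hcont : Continuous f := by
    apply IsLocallyConstant.continuous
    rw [IsLocallyConstant.iff_exists_open]
    intro x
    refine ⟨(fun y => x⁻¹ * y) ⁻¹' (K : Set G), hK.1.preimage (continuous_const_mul x⁻¹), ?_, ?_⟩
    · show x⁻¹ * x ∈ K
      rw [inv_mul_cancel]
      exact K.one_mem
    · intro y hy
      have h1 := hI.rinv x (x⁻¹ * y) hy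
      rwa [mul_inv_cancel_left] at h1
  obtain ⟨R, hRc, hRm⟩ := hR p
  have hne : R.Nonempty := ⟨_, hRm 1 K.one_mem 0⟩
  obtain ⟨x₀, hx₀, hmin⟩ := hRc.exists_isMinOn hne hcont.continuousOn
  have hc0 : 0 < f x₀ := hI.pos x₀
  have hbound : ∀ (n : ℕ) (k : G), k ∈ K →
      n * Real.log (f p) + Real.log (f x₀) ≤ Real.log (f (k * p ^ n)) := by
    intro n k hk
    have h1 : k * p ^ n = p ^ n * (p ^ (-(n : ℤ)) * k * (p ^ (-(n : ℤ)))⁻¹) := by
      rw [zpow_neg, zpow_natCast, inv_inv]
      group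
    have h2 : f x₀ ≤ f (p ^ (-(n : ℤ)) * k * (p ^ (-(n : ℤ)))⁻¹) := hmin (hRm k hk _)
    rw [h1, hpow, Real.log_mul (pow_pos (hI.pos p) n).ne' (hI.pos _).ne', Real.log_pow]
    have h3 := Real.log_le_log hc0 h2
    linarith
  have hFc : ∀ c : ℝ, FI K (fun _ => c) := fun c =>
    ⟨K, le_refl K, by rw [Subgroup.relIndex_self]; exact one_ne_zero, fun _ _ _ _ => rfl⟩
  have hlr : RInv K (fun x => Real.log (f x)) := fun x k hk => by
    show Real.log (f (x * k)) = Real.log (f x)
    rw [hI.rinv x k hk]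
  have hFl : ∀ g : G, FI K (fun k => Real.log (f (k * g))) := by
    intro g
    have h1 := hm.fi G K K hK hK (fun x => Real.log (f x)) hlr 1 g
    simpa using h1
  have hall : ∀ n : ℕ, n * Real.log (f p) + Real.log (f x₀) ≤ 0 := by
    intro n
    have h1 := ha.mono G K (fun _ => n * Real.log (f p) + Real.log (f x₀))
      (fun k => Real.log (f (k * p ^ n))) (hFc _) (hFl _) (hbound n)
    rw [ha.const, havg] at h1
    exact h1
  have hlog : 0 < Real.log (f p) := Real.log_pos hp1
  obtain ⟨n, hn⟩ := exists_nat_gt ((1 - Real.log (f x₀)) / Real.log (f p))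
  rw [div_lt_iff₀ hlog] at hn
  have := hall n
  linarith

end Pool.Agent.Lib.MP7d449a.GP
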