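import Pool.Agent.Lib.MP_7d449a_al.GP.Spec

set_option autoImplicit false

namespace Pool.Agent.Lib.MP7d449a.GP

universe u

theorem specCOR : SpecCOR.{u} := by
  intro G _ _ _ K O hK hO
  have : CompactSpace K := isCompact_iff_compactSpace.1 hK.2
  have hH : IsOpen ((O.subgroupOf K : Subgroup K) : Set K) :=
    hO.preimage continuous_subtype_val
  have hHc : IsClosed ((O.subgroupOf K : Subgroup K) : Set K) :=
    Subgroup.isClosed_of_isOpen _ hH
  have hfin : Finite (K ⧸ O.subgroupOf K) := Subgroup.quotient_finite_of_isOpen _ hH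
  have hfi : (O.subgroupOf K).FiniteIndex := Subgroup.finiteIndex_of_finite_quotient
  have hNc : IsClosed (((O.subgroupOf K).normalCore : Subgroup K) : Set K) :=
    Subgroup.normalCore_isClosed _ hHc
  have hNo : IsOpen (((O.subgroupOf K).normalCore : Subgroup K) : Set K) :=
    Subgroup.isOpen_of_isClosed_of_finiteIndex _ hNc
  have hcoe : ((((O.subgroupOf K).normalCore).map K.subtype : Subgroup G) : Set G) =
      (fun x : K => (x : G)) '' (((O.subgroupOf K).normalCore : Subgroup K) : Set K) := by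
    ext x
    simp
  refine ⟨((O.subgroupOf K).normalCore).map K.subtype, ⟨?_, ?_⟩, ?_, ?_, ?_⟩
  · rw [hcoe]
    exact hK.1.isOpenMap_subtype_val _ hNo
  · rw [hcoe]
    exact hNc.isCompact.image continuous_subtype_val
  · rintro x ⟨y, _, rfl⟩
    exact y.2
  · rintro x ⟨y, hy, rfl⟩
    exact Subgroup.mem_subgroupOf.1 (Subgroup.normalCore_le _ hy)
  · rintro k hk x ⟨y, hy, rfl⟩
    exact ⟨⟨k, hk⟩ * y * ⟨k, hk⟩⁻¹, (Subgroup.normalCore_normal _).conj_mem y hy ⟨k, hk⟩, rfl⟩

end Pool.Agent.Lib.MP7d449a.GP
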