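import Pool.Agent.Lib.MP_7d449a_al.GP.Spec2

/-!
# Module DIS: a finitely generated group with a finite subgroup whose double cosets commute
is virtually abelian
-/

set_option autoImplicit false

open Filter Topology
open scoped Pointwise

namespace Pool.Agent.Lib.MP7d449a.GP

universe u

namespace DISM

variable {Γ : Type u} [Group Γ]

/-- the FC centre -/
def FC (Γ : Type u) [Group Γ] : Subgroup Γ where
  carrier := {x | (Subgroup.centralizer ({x} : Set Γ)).FiniteIndex}
  one_mem' := by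
    have h : Subgroup.centralizer ({1} : Set Γ) = ⊤ := by
      rw [eq_top_iff]
      intro y _
      rw [Subgroup.mem_centralizer_singleton_iff]
      simp
    show (Subgroup.centralizer ({1} : Set Γ)).FiniteIndex
    rw [h]
    infer_instance
  mul_mem' := by
    intro x y hx hy
    have hx' : (Subgroup.centralizer ({x} : Set Γ)).FiniteIndex := hx
    have hy' : (Subgroup.centralizer ({y} : Set Γ)).FiniteIndex := hy
    have h : Subgroup.centralizer ({x} : Set Γ) ⊓ Subgroup.centralizer ({y} : Set Γ) ≤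
        Subgroup.centralizer ({x * y} : Set Γ) := by
      intro z hz
      rw [Subgroup.mem_inf, Subgroup.mem_centralizer_singleton_iff,
        Subgroup.mem_centralizer_singleton_iff] at hz
      rw [Subgroup.mem_centralizer_singleton_iff, ← mul_assoc, hz.1, mul_assoc, hz.2, ← mul_assoc]
    exact Subgroup.finiteIndex_of_le h
  inv_mem' := by
    intro x hx
    have hx' : (Subgroup.centralizer ({x} : Set Γ)).FiniteIndex := hx
    have h : Subgroup.centralizer ({x} : Set Γ) ≤ Subgroup.centralizer ({x⁻¹} : Set Γ) := by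
      intro z hz
      rw [Subgroup.mem_centralizer_singleton_iff] at hz ⊢
      have hc : Commute z x := hz
      exact hc.inv_right
    exact Subgroup.finiteIndex_of_le h

lemma mem_FC (x : Γ) : x ∈ FC Γ ↔ (Subgroup.centralizer ({x} : Set Γ)).FiniteIndex := Iff.rfl

/-- every coset `h K` meets the FC centre -/
lemma exists_mem (K : Subgroup Γ) (hK : Finite K) (hSC : SC K) (h : Γ) :
    ∃ k ∈ K, h * k ∈ FC Γ := by
  classical
  haveI : Fintype K := Fintype.ofFinite K
  set H : K × K × K → Subgroup Γ := fun t => Subgroup.centralizer ({h * (t.2.2 : Γ)⁻¹} : Set Γ)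
    with hH
  set P : K × K × K → Γ → Prop := fun t g =>
    g * h = (t.1 : Γ) * h * (t.2.1 : Γ) * g * (t.2.2 : Γ) with hP
  set g : K × K × K → Γ := fun t => if ht : ∃ g, P t g then ht.choose else 1 with hg
  have hcov : ⋃ t ∈ (Finset.univ : Finset (K × K × K)), g t • (H t : Set Γ) = Set.univ := by
    rw [Set.eq_univ_iff_forall]
    intro x
    obtain ⟨k₁, hk₁, k₂, hk₂, k₃, hk₃, hx⟩ := hSC x h
    set t : K × K × K := (⟨k₁, hk₁⟩, ⟨k₂, hk₂⟩, ⟨k₃, hk₃⟩) with ht
    have hPx : P t x := hx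
    have hex : ∃ g, P t g := ⟨x, hPx⟩
    have hgt : P t (g t) := by
      simp only [hg]
      rw [dif_pos hex]
      exact hex.choose_spec
    simp only [Finset.mem_univ, Set.iUnion_true, Set.mem_iUnion]
    refine ⟨t, ?_⟩
    rw [Set.mem_smul_set_iff_inv_smul_mem, smul_eq_mul, SetLike.mem_coe]
    simp only [hH]
    rw [Subgroup.mem_centralizer_singleton_iff]
    have e1 : x * h * k₃⁻¹ = k₁ * h * k₂ * x := by
      rw [hx]
      group
    have e2 : g t * h * k₃⁻¹ = k₁ * h * k₂ * g t := by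
      have h1 : g t * h = k₁ * h * k₂ * g t * k₃ := hgt
      rw [h1]
      group
    show (g t)⁻¹ * x * (h * k₃⁻¹) = h * k₃⁻¹ * ((g t)⁻¹ * x)
    have e3 : h * k₃⁻¹ * (g t)⁻¹ = (g t)⁻¹ * (k₁ * h * k₂) := by
      have h1 : h * k₃⁻¹ = (g t)⁻¹ * (k₁ * h * k₂ * g t) := by
        rw [← e2]
        group
      rw [h1]
      group
    calc (g t)⁻¹ * x * (h * k₃⁻¹) = (g t)⁻¹ * (x * h * k₃⁻¹) := by group
      _ = (g t)⁻¹ * (k₁ * h * k₂) * x := by rw [e1]; group
      _ = h * k₃⁻¹ * ((g t)⁻¹ * x) := by rw [← e3]; group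
  obtain ⟨t, -, ht⟩ := Subgroup.exists_finiteIndex_of_leftCoset_cover hcov
  exact ⟨(t.2.2 : Γ)⁻¹, K.inv_mem t.2.2.2, ht⟩

lemma FC_finiteIndex (K : Subgroup Γ) (hK : Finite K) (hSC : SC K) : (FC Γ).FiniteIndex := by
  have hsurj : Function.Surjective (fun k : K => (QuotientGroup.mk (k : Γ) : Γ ⧸ FC Γ)) := by
    intro q
    obtain ⟨x, rfl⟩ := QuotientGroup.mk_surjective q
    obtain ⟨k, hk, hxk⟩ := exists_mem K hK hSC x⁻¹
    refine ⟨⟨k, hk⟩, ?_⟩
    show (QuotientGroup.mk k : Γ ⧸ FC Γ) = QuotientGroup.mk x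
    apply Eq.symm
    rw [QuotientGroup.eq]
    exact hxk
  haveI : Finite (Γ ⧸ FC Γ) := Finite.of_surjective _ hsurj
  exact Subgroup.finiteIndex_of_finite_quotient

end DISM

open DISM in
/-- a finitely generated group with a finite subgroup whose double cosets commute is virtually
abelian -/
theorem specDIS : SpecDIS.{u} := by
  classical
  intro Γ _ K hK hSC hFG
  haveI := FC_finiteIndex K hK hSC
  haveI := hFG
  have hD : Group.FG (FC Γ) := Subgroup.fg_of_index_ne_zero (FC Γ)
  rw [Group.fg_iff_subgroup_fg] at hD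
  obtain ⟨S, hS⟩ := hD
  have hSm : ∀ s ∈ S, s ∈ FC Γ := by
    intro s hs
    rw [← hS]
    exact Subgroup.subset_closure hs
  have hfin : (⨅ s : S, Subgroup.centralizer ({(s : Γ)} : Set Γ)).FiniteIndex :=
    Subgroup.finiteIndex_iInf fun s => hSm s s.2
  refine ⟨FC Γ ⊓ ⨅ s : S, Subgroup.centralizer ({(s : Γ)} : Set Γ), inferInstance, ?_⟩
  intro a ha b hb
  have ha2 : ∀ s ∈ S, a * s = s * a := by
    intro s hs
    have h1 := (Subgroup.mem_iInf.mp ha.2) ⟨s, hs⟩
    exact Subgroup.mem_centralizer_singleton_iff.mp h1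
  have h2 : FC Γ ≤ Subgroup.centralizer ({a} : Set Γ) := by
    rw [← hS, Subgroup.closure_le]
    intro s hs
    rw [SetLike.mem_coe, Subgroup.mem_centralizer_singleton_iff]
    exact (ha2 s hs).symm
  have h3 := h2 hb.1
  rw [Subgroup.mem_centralizer_singleton_iff] at h3
  exact h3.symm

end Pool.Agent.Lib.MP7d449a.GP
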