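import Mathlib

/-!
# MP_7d449a_al, Gelfand pairs: definitions

`G` is a group, `K` a subgroup.  All averages are finite averages over `K / V`.
-/

set_option autoImplicit false

open Filter Topology

namespace Pool.Agent.Lib.MP7d449a.GP

universe u

/-- `φ` is right invariant on `K` under a subgroup of finite index of `K`. -/
def FI {G : Type u} [Group G] (K : Subgroup G) (φ : G → ℝ) : Prop :=
  ∃ V : Subgroup G, V ≤ K ∧ V.relIndex K ≠ 0 ∧ ∀ k ∈ K, ∀ v ∈ V, φ (k * v) = φ k

open Classical in
/-- The average of `φ` over `K` (zero if `φ` is not in the class `FI K`). -/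
noncomputable def avg {G : Type u} [Group G] (K : Subgroup G) (φ : G → ℝ) : ℝ :=
  if h : FI K φ then
    (∑ᶠ q : K ⧸ (h.choose.subgroupOf K), φ ((Quotient.out q : K) : G)) /
      ((h.choose.subgroupOf K).index : ℝ)
  else 0

/-- Right invariance under `K`. -/
def RInv {G : Type u} [Group G] (K : Subgroup G) (f : G → ℝ) : Prop :=
  ∀ x : G, ∀ k ∈ K, f (x * k) = f x

/-- Left invariance under `K`. -/
def LInv {G : Type u} [Group G] (K : Subgroup G) (f : G → ℝ) : Prop :=
  ∀ x : G, ∀ k ∈ K, f (k * x) = f x

/-- The Hecke operator: `(M_g f)(x)` is the average of `f (x k g)` over `k ∈ K`. -/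
noncomputable def M {G : Type u} [Group G] (K : Subgroup G) (g : G) (f : G → ℝ) (x : G) : ℝ :=
  avg K (fun k => f (x * k * g))

/-- The left average over `U`. -/
noncomputable def LAv {G : Type u} [Group G] (U : Subgroup G) (f : G → ℝ) (x : G) : ℝ :=
  avg U (fun u => f (u * x))

/-- The sum of the Hecke operators of the elements of a finite set. -/
noncomputable def T {G : Type u} [Group G] (K : Subgroup G) (S : Finset G) (f : G → ℝ) (x : G) :
    ℝ := ∑ s ∈ S, M K s f x

/-- The Hecke operators commute. -/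
def GC {G : Type u} [Group G] (K : Subgroup G) : Prop :=
  ∀ (g h : G) (f : G → ℝ), RInv K f → ∀ x, M K g (M K h f) x = M K h (M K g f) x

/-- Compact open subgroups. -/
def CO {G : Type u} [Group G] [TopologicalSpace G] (K : Subgroup G) : Prop :=
  IsOpen (K : Set G) ∧ IsCompact (K : Set G)

/-- Every element normalises arbitrarily small compact open subgroups. -/
def TP (G : Type u) [Group G] [TopologicalSpace G] : Prop :=
  ∀ g : G, ∀ W ∈ 𝓝 (1 : G), ∃ V : Subgroup G, CO V ∧ (V : Set G) ⊆ W ∧
    ∀ x ∈ V, g * x * g⁻¹ ∈ V ∧ g⁻¹ * x * g ∈ V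

/-- The set of elements with relatively compact orbit under conjugation by the powers of `s`. -/
def Lv {G : Type u} [Group G] [TopologicalSpace G] (s : G) : Set G :=
  {x | ∃ Q : Set G, IsCompact Q ∧ ∀ n : ℤ, s ^ n * x * (s ^ n)⁻¹ ∈ Q}

/-- `χ` is a positive spherical function which is extreme among the positive bi-`K`-invariant
eigenfunctions of `T` for `l`. -/
structure Spher {G : Type u} [Group G] (K : Subgroup G) (S : Finset G) (l : ℝ) (χ : G → ℝ) :
    Prop where
  rinv : RInv K χ
  linv : LInv K χ
  pos : ∀ x, 0 < χ x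
  one : χ 1 = 1
  eig : ∀ x, T K S χ x = l * χ x
  mul : ∀ g x, M K g χ x = χ g * χ x
  ext : ∀ w : G → ℝ, RInv K w → LInv K w → (∀ x, 0 ≤ w x) → (∀ x, T K S w x = l * w x) →
    (∃ c : ℝ, ∀ x, w x ≤ c * χ x) → ∀ x, w x = w 1 * χ x

/-- The cone of nonnegative joint eigenfunctions with eigenvalues `χ g`. -/
structure Cn {G : Type u} [Group G] (K : Subgroup G) (χ : G → ℝ) (v : G → ℝ) : Prop where
  nonneg : ∀ x, 0 ≤ v x
  rinv : RInv K v
  eig : ∀ g x, M K g v x = χ g * v x

/-- `w` spans an extreme ray of the cone of left `U`-invariant elements of `Cn K χ`. -/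
structure ER {G : Type u} [Group G] (K : Subgroup G) (χ : G → ℝ) (U : Subgroup G) (w : G → ℝ) :
    Prop where
  cn : Cn K χ w
  linv : LInv U w
  pos : 0 < w 1
  ext : ∀ a : G → ℝ, Cn K χ a → LInv U a → (∀ x, a x ≤ w x) → ∃ c : ℝ, ∀ x, a x = c * w x

/-- The output of the Iwasawa-type decomposition: `f` is positive, right `K`-invariant, and every
left coset of `K` contains an element `p` with `f (p x) = f p * f x` for all `x`. -/
structure Iwa {G : Type u} [Group G] (K : Subgroup G) (f : G → ℝ) : Prop where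
  pos : ∀ x, 0 < f x
  rinv : RInv K f
  one : f 1 = 1
  dec : ∀ g : G, ∃ k ∈ K, ∀ x, f (g * k * x) = f (g * k) * f x
  big : ∃ g : G, 1 < f g

/-- The group of the elements `p` with `f (p x) = f p * f x` for all `x`. -/
def stab {G : Type u} [Group G] (f : G → ℝ) : Set G := {p | ∀ x, f (p * x) = f p * f x}

/-- `(G, K)` is a Gelfand pair: `K` is compact and the continuous compactly supported functions
which are invariant under `K` on both sides commute under convolution. -/
def IsGel {G : Type u} [Group G] [TopologicalSpace G] [IsTopologicalGroup G]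
    [LocallyCompactSpace G] [MeasurableSpace G] [BorelSpace G] (K : Subgroup G) : Prop :=
  IsCompact (K : Set G) ∧ ∀ f h : G → ℝ, Continuous f → HasCompactSupport f → Continuous h →
    HasCompactSupport h → RInv K f → LInv K f → RInv K h → LInv K h → ∀ x : G,
      ∫ y, f y * h (y⁻¹ * x) ∂MeasureTheory.Measure.haar =
        ∫ y, h y * f (y⁻¹ * x) ∂MeasureTheory.Measure.haar

end Pool.Agent.Lib.MP7d449a.GP
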