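import Pool.Agent.Lib.MP_7d449a_al.GP.Spec

/-!
# Module EXT: an extreme positive spherical function
-/

set_option autoImplicit false

open Filter Topology

namespace Pool.Agent.Lib.MP7d449a.GP

universe u

namespace EXTM

variable {G : Type u} [Group G] [TopologicalSpace G] [IsTopologicalGroup G]

/-- The Hecke operator is a finite linear combination of evaluations. -/
theorem m_form (hAVG : SpecAVG.{u}) (hMFA : SpecMFA.{u}) {K : Subgroup G} (hK : CO K)
    {w : G → ℝ} (hw : RInv K w) (s x : G) :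
    M K s w x = (∑ᶠ q : K ⧸ ((Vg K K s).subgroupOf K), w (x * ((Quotient.out q : K) : G) * s)) /
      ((Vg K K s).relIndex K : ℝ) := by
  have h := hAVG.form G K (Vg K K s) (fun k => w (x * k * s)) inf_le_left
    (hMFA.idx G K K hK hK s).1 (fun k hk v hv => hMFA.inva G K K w hw x s k hk v hv)
  exact h

/-- the combination is continuous in the function -/
theorem cont_form (hMFA : SpecMFA.{u}) {K : Subgroup G} (hK : CO K) (s x : G) :
    Continuous (fun w : G → ℝ => (∑ᶠ q : K ⧸ ((Vg K K s).subgroupOf K),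
      w (x * ((Quotient.out q : K) : G) * s)) / ((Vg K K s).relIndex K : ℝ)) := by
  have h1 : ((Vg K K s).subgroupOf K).FiniteIndex := ⟨(hMFA.idx G K K hK hK s).1⟩
  have h2 : Finite (K ⧸ ((Vg K K s).subgroupOf K)) := inferInstance
  have h3 : Fintype (K ⧸ ((Vg K K s).subgroupOf K)) := Fintype.ofFinite _
  refine Continuous.div_const ?_ _
  have h4 : (fun w : G → ℝ => ∑ᶠ q : K ⧸ ((Vg K K s).subgroupOf K),
      w (x * ((Quotient.out q : K) : G) * s)) =
      fun w : G → ℝ => ∑ q : K ⧸ ((Vg K K s).subgroupOf K),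
        w (x * ((Quotient.out q : K) : G) * s) := by
    funext w
    exact finsum_eq_sum_of_fintype _
  rw [h4]
  exact continuous_finset_sum _ fun q _ => continuous_apply _

/-- `T` is linear. -/
theorem t_lin (hMFA : SpecMFA.{u}) {K : Subgroup G} (hK : CO K) (S : Finset G) {f f' : G → ℝ}
    (hf : RInv K f) (hf' : RInv K f') (a b : ℝ) (x : G) :
    T K S (fun y => a * f y + b * f' y) x = a * T K S f x + b * T K S f' x := by
  unfold T
  rw [Finset.mul_sum, Finset.mul_sum, ← Finset.sum_add_distrib]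
  refine Finset.sum_congr rfl fun s _ => ?_
  have h1 : RInv K (fun y => a * f y) := fun x k hk => by
    show a * f (x * k) = a * f x
    rw [hf x k hk]
  have h2 : RInv K (fun y => b * f' y) := fun x k hk => by
    show b * f' (x * k) = b * f' x
    rw [hf' x k hk]
  rw [hMFA.add G K hK _ _ h1 h2, hMFA.smul G K hK f hf, hMFA.smul G K hK f' hf']

theorem t_smul (hMFA : SpecMFA.{u}) {K : Subgroup G} (hK : CO K) (S : Finset G) {f : G → ℝ}
    (hf : RInv K f) (a : ℝ) (x : G) :
    T K S (fun y => a * f y) x = a * T K S f x := by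
  unfold T
  rw [Finset.mul_sum]
  exact Finset.sum_congr rfl fun s _ => hMFA.smul G K hK f hf a s x

/-- the convex set of the normalised eigenfunctions -/
def Q (K : Subgroup G) (S : Finset G) (l : ℝ) : Set (G → ℝ) :=
  {w | RInv K w ∧ LInv K w ∧ (∀ x, 0 ≤ w x) ∧ w 1 = 1 ∧ ∀ x, T K S w x = l * w x}

theorem q_closed (hAVG : SpecAVG.{u}) (hMFA : SpecMFA.{u}) {K : Subgroup G} (hK : CO K)
    (S : Finset G) (l : ℝ) : IsClosed (Q K S l) := by
  have h1 : Q K S l = {w | RInv K w} ∩ ({w | LInv K w} ∩ ({w | ∀ x, 0 ≤ w x} ∩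
      ({w | w 1 = 1} ∩ {w | ∀ x, ∑ s ∈ S, (∑ᶠ q : K ⧸ ((Vg K K s).subgroupOf K),
        w (x * ((Quotient.out q : K) : G) * s)) / ((Vg K K s).relIndex K : ℝ) = l * w x}))) := by
    ext w
    constructor
    · rintro ⟨a1, a2, a3, a4, a5⟩
      refine ⟨a1, a2, a3, a4, fun x => ?_⟩
      rw [← a5 x]
      exact Finset.sum_congr rfl fun s _ => (m_form hAVG hMFA hK a1 s x).symm
    · rintro ⟨a1, a2, a3, a4, a5⟩
      refine ⟨a1, a2, a3, a4, fun x => ?_⟩
      rw [← a5 x]
      exact Finset.sum_congr rfl fun s _ => m_form hAVG hMFA hK a1 s x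
  rw [h1]
  refine IsClosed.inter ?_ (IsClosed.inter ?_ (IsClosed.inter ?_ (IsClosed.inter ?_ ?_)))
  · have : {w : G → ℝ | RInv K w} = ⋂ (x : G), ⋂ (k : G), ⋂ (_ : k ∈ K), {w | w (x * k) = w x} := by
      ext w
      simp only [Set.mem_setOf_eq, Set.mem_iInter, RInv]
    rw [this]
    exact isClosed_iInter fun x => isClosed_iInter fun k => isClosed_iInter fun _ =>
      isClosed_eq (continuous_apply _) (continuous_apply _)
  · have : {w : G → ℝ | LInv K w} = ⋂ (x : G), ⋂ (k : G), ⋂ (_ : k ∈ K), {w | w (k * x) = w x} := by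
      ext w
      simp only [Set.mem_setOf_eq, Set.mem_iInter, LInv]
    rw [this]
    exact isClosed_iInter fun x => isClosed_iInter fun k => isClosed_iInter fun _ =>
      isClosed_eq (continuous_apply _) (continuous_apply _)
  · have : {w : G → ℝ | ∀ x, 0 ≤ w x} = ⋂ (x : G), {w | 0 ≤ w x} := by
      ext w
      simp only [Set.mem_setOf_eq, Set.mem_iInter]
    rw [this]
    exact isClosed_iInter fun x => isClosed_le continuous_const (continuous_apply _)
  · exact isClosed_eq (continuous_apply _) continuous_const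
  · have : {w : G → ℝ | ∀ x, ∑ s ∈ S, (∑ᶠ q : K ⧸ ((Vg K K s).subgroupOf K),
        w (x * ((Quotient.out q : K) : G) * s)) / ((Vg K K s).relIndex K : ℝ) = l * w x} =
        ⋂ (x : G), {w | ∑ s ∈ S, (∑ᶠ q : K ⧸ ((Vg K K s).subgroupOf K),
        w (x * ((Quotient.out q : K) : G) * s)) / ((Vg K K s).relIndex K : ℝ) = l * w x} := by
      ext w
      simp only [Set.mem_setOf_eq, Set.mem_iInter]
    rw [this]
    exact isClosed_iInter fun x => isClosed_eq
      (continuous_finset_sum _ fun s _ => cont_form hMFA hK s x)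
      (continuous_const.mul (continuous_apply _))

end EXTM

open EXTM in
/-- **EXT**: existence of a positive spherical function which is extreme. -/
theorem specEXT (hAVG : SpecAVG.{u}) (hMFA : SpecMFA.{u}) (hHAR : SpecHAR.{u})
    (hGRN : SpecGRN.{u}) : SpecEXT.{u} := by
  intro G _ _ _ K S l hK hGC hnc hSinv hgen hl
  have hl0 : 0 < l := lt_of_le_of_lt (Nat.cast_nonneg _) hl
  have hH := hHAR G K S l hK hSinv hgen hl0
  choose C hC0 hC using hH
  have hHar : ∀ w : G → ℝ, RInv K w → (∀ x, 0 ≤ w x) → (∀ x, T K S w x = l * w x) →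
      ∀ x y, w (x * y) ≤ C y * w x := fun w h1 h2 h3 x y =>
    hC y w h1 h2 (fun x => (h3 x).le) x
  -- compactness
  have hcpt : IsCompact (Q K S l) := by
    refine (isCompact_univ_pi fun y : G => (isCompact_Icc : IsCompact (Set.Icc 0 (C y)))).of_isClosed_subset
      (q_closed hAVG hMFA hK S l) ?_
    rintro w ⟨a1, a2, a3, a4, a5⟩ y -
    refine ⟨a3 y, ?_⟩
    have h := hHar w a1 a3 a5 1 y
    rw [one_mul, a4, mul_one] at h
    exact h
  have hne : (Q K S l).Nonempty := by
    obtain ⟨w, a1, a2, a3, a4, a5⟩ := hGRN G K S l hK hnc hSinv hgen hl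
    exact ⟨w, a1, a2, a3, a4, a5⟩
  obtain ⟨χ, hχ⟩ := hcpt.extremePoints_nonempty hne
  rw [mem_extremePoints] at hχ
  obtain ⟨⟨b1, b2, b3, b4, b5⟩, hext⟩ := hχ
  have hpos : ∀ x, 0 < χ x := by
    intro x
    have h := hHar χ b1 b3 b5 x x⁻¹
    rw [mul_inv_cancel, b4] at h
    by_contra h2
    have h3 : χ x = 0 := le_antisymm (not_lt.1 h2) (b3 x)
    rw [h3, mul_zero] at h
    linarith
  -- the extremality
  have hE : ∀ w : G → ℝ, RInv K w → LInv K w → (∀ x, 0 ≤ w x) → (∀ x, T K S w x = l * w x) →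
      (∃ c : ℝ, ∀ x, w x ≤ c * χ x) → ∀ x, w x = w 1 * χ x := by
    rintro w a1 a2 a3 a5 ⟨c, hc⟩ x
    rcases (a3 1).eq_or_lt with h0 | h0
    · have h := hHar w a1 a3 a5 1 x
      rw [one_mul, ← h0, mul_zero] at h
      rw [← h0, zero_mul]
      exact le_antisymm h (a3 x)
    · have hc1 : w 1 ≤ c := by
        have h := hc 1
        rwa [b4, mul_one] at h
      have hc0 : 0 < c := h0.trans_le hc1
      obtain ⟨t, ht⟩ : ∃ t, t = w 1 / (2 * c) := ⟨_, rfl⟩
      have ht0 : 0 < t := by rw [ht]; positivity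
      have ht1 : t ≤ 1 / 2 := by
        rw [ht, div_le_div_iff₀ (by positivity) (by norm_num)]
        linarith
      have ht2 : 0 < 1 - t := by linarith
      obtain ⟨w', hw'⟩ : ∃ w' : G → ℝ, w' = fun y => (w 1)⁻¹ * w y := ⟨_, rfl⟩
      have hw'R : RInv K w' := by
        rw [hw']
        intro y k hk
        show (w 1)⁻¹ * w (y * k) = (w 1)⁻¹ * w y
        rw [a1 y k hk]
      have hw'T : ∀ y, T K S w' y = l * w' y := by
        intro y
        rw [hw', t_smul hMFA hK S a1, a5 y]
        ring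
      have hw'Q : w' ∈ Q K S l := by
        refine ⟨hw'R, ?_, ?_, ?_, hw'T⟩
        · rw [hw']
          intro y k hk
          show (w 1)⁻¹ * w (k * y) = (w 1)⁻¹ * w y
          rw [a2 y k hk]
        · intro y
          rw [hw']
          exact mul_nonneg (inv_nonneg.2 h0.le) (a3 y)
        · rw [hw']
          exact inv_mul_cancel₀ h0.ne'
      obtain ⟨χ', hχ'⟩ : ∃ χ' : G → ℝ, χ' = fun y => (1 - t)⁻¹ * χ y + (-(t / (1 - t))) * w' y :=
        ⟨_, rfl⟩
      have htw : ∀ y, t * w' y ≤ χ y := by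
        intro y
        have e1 : t * w' y = w y / (2 * c) := by
          rw [ht, hw']
          field_simp
        rw [e1, div_le_iff₀ (by positivity)]
        have := hc y
        have := b3 y
        nlinarith
      have hχ'Q : χ' ∈ Q K S l := by
        refine ⟨?_, ?_, ?_, ?_, ?_⟩
        · rw [hχ']
          intro y k hk
          show (1 - t)⁻¹ * χ (y * k) + (-(t / (1 - t))) * w' (y * k) =
            (1 - t)⁻¹ * χ y + (-(t / (1 - t))) * w' y
          rw [b1 y k hk, hw'R y k hk]
        · rw [hχ']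
          intro y k hk
          show (1 - t)⁻¹ * χ (k * y) + (-(t / (1 - t))) * w' (k * y) =
            (1 - t)⁻¹ * χ y + (-(t / (1 - t))) * w' y
          rw [b2 y k hk, hw'Q.2.1 y k hk]
        · intro y
          have e1 : χ' y = (1 - t)⁻¹ * (χ y - t * w' y) := by
            rw [hχ']
            show (1 - t)⁻¹ * χ y + (-(t / (1 - t))) * w' y = (1 - t)⁻¹ * (χ y - t * w' y)
            field_simp
            ring
          rw [e1]
          exact mul_nonneg (inv_nonneg.2 ht2.le) (by linarith [htw y])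
        · rw [hχ']
          show (1 - t)⁻¹ * χ 1 + (-(t / (1 - t))) * w' 1 = 1
          rw [b4, hw'Q.2.2.2.1]
          field_simp
          ring
        · intro y
          rw [hχ', t_lin hMFA hK S b1 hw'R, b5 y, hw'T y]
          ring
      have hseg : χ ∈ openSegment ℝ w' χ' := by
        refine ⟨t, 1 - t, ht0, ht2, by ring, ?_⟩
        funext y
        rw [hχ']
        show t * w' y + (1 - t) * ((1 - t)⁻¹ * χ y + (-(t / (1 - t))) * w' y) = χ y
        field_simp
        ring
      have h2 : w' = χ := (hext w' hw'Q χ' hχ'Q hseg).1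
      have h3 : w' x = χ x := by rw [h2]
      rw [← h3, hw']
      show w x = w 1 * ((w 1)⁻¹ * w x)
      rw [← mul_assoc, mul_inv_cancel₀ h0.ne', one_mul]
  refine ⟨χ, ⟨b1, b2, hpos, b4, b5, ?_, hE⟩⟩
  -- the functional equation
  intro g x
  have c1 : RInv K (M K g χ) := hMFA.rinv G K hK χ b1 g
  have c2 : LInv K (M K g χ) := hMFA.linv G K K hK χ b1 b2 g
  have c3 : ∀ y, 0 ≤ M K g χ y := by
    intro y
    have e1 : RInv K (fun y => 0 * χ y) := fun z k hk => by
      show 0 * χ (z * k) = 0 * χ z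
      rw [b1 z k hk]
    have e2 := hMFA.mono G K hK (fun y => 0 * χ y) χ e1 b1
      (fun z => by show 0 * χ z ≤ χ z; rw [zero_mul]; exact b3 z) g y
    rw [hMFA.smul G K hK χ b1, zero_mul] at e2
    exact e2
  have c4 : ∀ y, T K S (M K g χ) y = l * M K g χ y := by
    intro y
    have e1 : T K S (M K g χ) y = ∑ s ∈ S, M K g (M K s χ) y :=
      Finset.sum_congr rfl fun s _ => hGC s g χ b1 y
    have e2 := hMFA.sum G K hK G S (fun s => M K s χ) (fun s _ => hMFA.rinv G K hK χ b1 s) g y
    have e3 : (fun z => ∑ s ∈ S, M K s χ z) = fun z => l * χ z := by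
      funext z
      exact b5 z
    rw [e1, ← e2, e3, hMFA.smul G K hK χ b1]
  have c5 : ∃ c : ℝ, ∀ y, M K g χ y ≤ c * χ y := by
    refine ⟨C g, fun y => ?_⟩
    have e1 : FI K (fun k => χ (y * k * g)) := hMFA.fi G K K hK hK χ b1 y g
    have e2 : FI K (fun _ : G => C g * χ y) :=
      ⟨K, le_rfl, by rw [Subgroup.relIndex_self]; exact one_ne_zero, fun _ _ _ _ => rfl⟩
    have e3 := hAVG.mono G K _ _ e1 e2 (fun k hk => by
      have h := hHar χ b1 b3 b5 (y * k) g
      rw [b1 y k hk] at h
      exact h)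
    rw [hAVG.const G K] at e3
    exact e3
  have h := hE (M K g χ) c1 c2 c3 c4 c5 x
  have h1 : M K g χ 1 = χ g := by
    have e1 := (hAVG.congr G K (fun k => χ (1 * k * g)) (fun _ => χ g) (fun k hk => by
      show χ (1 * k * g) = χ g
      rw [one_mul]
      exact b2 g k hk)).2
    rw [hAVG.const G K] at e1
    exact e1
  rw [h, h1]

end Pool.Agent.Lib.MP7d449a.GP
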