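import Pool.Agent.Lib.MP_7d449a_al.GP.Spec

/-!
# MP_7d449a_al, Gelfand pairs: the theorem (module FIN)
-/

set_option autoImplicit false

open Filter Topology

namespace Pool.Agent.Lib.MP7d449a.GP

universe u

namespace FINM

/-- A compact Hausdorff group without proper open normal subgroups, in which every neighbourhood
of `1` contains a compact open subgroup, is trivial. -/
theorem trivial {Q : Type u} [Group Q] [TopologicalSpace Q] [IsTopologicalGroup Q] [T2Space Q]
    [CompactSpace Q] (hTP : TP Q)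
    (hno : ∀ H : Subgroup Q, IsOpen (H : Set Q) → H.Normal → H = ⊤) (x : Q) : x = 1 := by
  by_contra hx
  have hW : ({x}ᶜ : Set Q) ∈ 𝓝 (1 : Q) :=
    isOpen_compl_singleton.mem_nhds (fun h => hx (Set.mem_singleton_iff.mp h).symm)
  obtain ⟨V, hV, hVW, -⟩ := hTP 1 _ hW
  have hfin : Finite (Q ⧸ V) := Subgroup.quotient_finite_of_isOpen V hV.1
  have hVf : V.FiniteIndex := Subgroup.finiteIndex_of_finite_quotient
  have hcl : IsClosed (V.normalCore : Set Q) := by
    have h1 : (V.normalCore : Set Q) = ⋂ g : Q, (fun y => g * y * g⁻¹) ⁻¹' (V : Set Q) := by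
      ext y
      simp only [Set.mem_iInter, Set.mem_preimage, SetLike.mem_coe]
      rfl
    rw [h1]
    refine isClosed_iInter fun g => ?_
    exact (Subgroup.isClosed_of_isOpen V hV.1).preimage (by fun_prop)
  have hop : IsOpen (V.normalCore : Set Q) :=
    Subgroup.isOpen_of_isClosed_of_finiteIndex V.normalCore hcl
  have htop := hno _ hop (Subgroup.normalCore_normal V)
  have h2 : x ∈ V := Subgroup.normalCore_le V (by rw [htop]; exact Subgroup.mem_top x)
  exact hVW h2 (Set.mem_singleton x)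

end FINM

theorem specFIN (h1 : SpecNOC.{u}) (h2 : SpecCOK.{u}) (h3 : SpecGEL.{u}) (h4 : SpecGCQ.{u})
    (h5 : SpecQUO.{u}) : SpecFIN.{u} := by
  intro G _ _ _ _ _ _ _ _ K hgen hno hgel
  have hTn : (titsCore G).Normal := titsCore_normal
  let N : Subgroup G := (titsCore G).topologicalClosure
  have hN : N.Normal := Subgroup.is_normal_topologicalClosure (titsCore G)
  have hNc : IsClosed (N : Set G) := Subgroup.isClosed_topologicalClosure _
  obtain ⟨K', hK', hKK'⟩ := h2 G K hgel.1
  have hGC := h3 G K K' hgel hK' hKK'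
  obtain ⟨hCOq, hGCq⟩ := h4 G N K' hK' hGC
  have hcon : ∀ g : G, con g ⊆ N := fun g x hx =>
    Subgroup.le_topologicalClosure _ (Subgroup.subset_closure (Set.mem_iUnion.2 ⟨g, hx⟩))
  have hTP : TP (G ⧸ N) := h5 G N hcon
  have hnoq : ∀ H : Subgroup (G ⧸ N), IsOpen (H : Set (G ⧸ N)) → H.Normal → H = ⊤ := by
    intro H hH hHn
    have h6 : IsOpen ((H.comap (QuotientGroup.mk' N) : Subgroup G) : Set G) :=
      hH.preimage QuotientGroup.continuous_mk
    have h7 := hno _ h6 (hHn.comap _)
    rw [eq_top_iff]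
    intro q _
    obtain ⟨g, rfl⟩ := QuotientGroup.mk'_surjective N q
    have h8 : g ∈ H.comap (QuotientGroup.mk' N) := by
      rw [h7]
      exact Subgroup.mem_top g
    exact h8
  have hgenq : ∃ C : Set (G ⧸ N), IsCompact C ∧ Subgroup.closure C = ⊤ := by
    obtain ⟨C, hC, hCt⟩ := hgen
    refine ⟨(QuotientGroup.mk' N) '' C, hC.image QuotientGroup.continuous_mk, ?_⟩
    rw [← MonoidHom.map_closure, hCt, ← MonoidHom.range_eq_map]
    exact MonoidHom.range_eq_top.mpr (QuotientGroup.mk'_surjective N)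
  have hcomp : CompactSpace (G ⧸ N) := h1 (G ⧸ N) _ hCOq hGCq hTP hnoq hgenq
  have hNtop : ∀ g : G, g ∈ N := by
    intro g
    have h6 := FINM.trivial hTP hnoq (QuotientGroup.mk' N g)
    rwa [← MonoidHom.mem_ker, QuotientGroup.ker_mk'] at h6
  intro g
  exact hNtop g

end Pool.Agent.Lib.MP7d449a.GP
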