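import Pool.Agent.Lib.MP_7d449a_al.GP.Spec2

/-!
# MP_7d449a_al, Gelfand pairs: Theorem B (module FN2)
-/

set_option autoImplicit false

open Filter Topology
open scoped Pointwise

namespace Pool.Agent.Lib.MP7d449a.GP

universe u

namespace FN2M

theorem good_append {G : Type u} [Group G] [TopologicalSpace G] {l l' : List (Set G)}
    (h : Good l) (h' : Good l') : Good (l ++ l') := by
  intro Y hY
  rcases List.mem_append.1 hY with hY | hY
  · exact h Y hY
  · exact h' Y hY

theorem bg_single {G : Type u} [Group G] [TopologicalSpace G] (N : Subgroup G) {X : Set G}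
    (h : IsCompact X ∨ ∃ C : Set G, IsCompact C ∧ X = Pw C) : BG N X := by
  refine ⟨[X], ?_, ?_⟩
  · intro Y hY
    rw [List.mem_singleton] at hY
    rw [hY]
    exact h
  · rw [List.prod_singleton]
    intro x hx
    exact Set.mem_mul.2 ⟨x, hx, 1, N.one_mem, mul_one x⟩

theorem bg_mul {G : Type u} [Group G] [TopologicalSpace G] (N : Subgroup G) [N.Normal]
    {X Y : Set G} (hX : BG N X) (hY : BG N Y) : BG N (X * Y) := by
  obtain ⟨l, hl, hXl⟩ := hX
  obtain ⟨l', hl', hYl⟩ := hY
  refine ⟨l ++ l', good_append hl hl', ?_⟩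
  rintro z hz
  obtain ⟨x, hx, y, hy, rfl⟩ := Set.mem_mul.1 hz
  obtain ⟨a, ha, n, hn, rfl⟩ := Set.mem_mul.1 (hXl hx)
  obtain ⟨b, hb, n', hn', rfl⟩ := Set.mem_mul.1 (hYl hy)
  rw [List.prod_append]
  have h1 : b⁻¹ * n * b ∈ N := by
    have := (inferInstance : N.Normal).conj_mem n hn b⁻¹
    simpa using this
  refine Set.mem_mul.2 ⟨a * b, Set.mul_mem_mul ha hb, b⁻¹ * n * b * n', N.mul_mem h1 hn', ?_⟩
  group

theorem bg_prod {G : Type u} [Group G] [TopologicalSpace G] (N : Subgroup G) [N.Normal] :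
    ∀ l : List (Set G), (∀ X ∈ l, BG N X) → BG N (l.prod : Set G) := by
  intro l
  induction l with
  | nil =>
    intro _
    refine ⟨[], fun Y hY => absurd hY (List.not_mem_nil), ?_⟩
    intro x hx
    exact Set.mem_mul.2 ⟨x, hx, 1, N.one_mem, mul_one x⟩
  | cons X l ih =>
    intro h
    rw [List.prod_cons]
    exact bg_mul N (h X (List.mem_cons_self ..)) (ih fun Y hY => h Y (List.mem_cons_of_mem _ hY))

end FN2M

open FN2M

theorem specFN2 (hBGM : SpecBGM.{u}) (hHBG : SpecHBG.{u}) : SpecFN2.{u} := by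
  intro G _ _ _ _ _ _ _ _ l hl hdense
  have hTn : (titsCore G).Normal := titsCore_normal
  let N : Subgroup G := (titsCore G).topologicalClosure
  have hN : N.Normal := Subgroup.is_normal_topologicalClosure (titsCore G)
  have hNc : IsClosed (N : Set G) := Subgroup.isClosed_topologicalClosure _
  have hcon : ∀ g : G, con g ⊆ N := fun g x hx =>
    Subgroup.le_topologicalClosure _ (Subgroup.subset_closure (Set.mem_iUnion.2 ⟨g, hx⟩))
  have hTPm : TPm N := by
    intro g O hO hNO
    obtain ⟨U, hUo, hUc, hUO⟩ := vanDantzig (hO.mem_nhds (O.one_mem))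
    obtain ⟨V, hVU, hVo, hV⟩ := normalised (N := N) (hcon g) (hcon g⁻¹) hUc hUo
    refine ⟨V ⊔ N, Subgroup.isOpen_mono le_sup_left hVo, le_sup_right,
      sup_le (hVU.trans hUO) hNO, fun x hx => ⟨?_, ?_⟩⟩
    · simpa using hV 1 x hx
    · simpa using hV (-1) x hx
  have hsmall : ∀ W ∈ 𝓝 (1 : G), ∃ V : Subgroup G, CO V ∧ (V : Set G) ⊆ W := by
    intro W hW
    obtain ⟨U, hUo, hUc, hUW⟩ := vanDantzig hW
    exact ⟨U, ⟨hUo, hUc⟩, hUW⟩
  have hBG : BG N (l.prod : Set G) := by
    refine bg_prod N l fun X hX => ?_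
    rcases hl X hX with h | h | ⟨H, rfl, hH⟩
    · exact bg_single N (Or.inl h)
    · exact bg_single N (Or.inr h)
    · exact hHBG G N H hN hNc hcon hH
  obtain ⟨L, hL, hlL⟩ := hBG
  have hdense' : Dense (L.prod * (N : Set G)) := hdense.mono hlL
  have hres : discreteResidual G ≤ N := hBGM.res G N L hN hNc hsmall hTPm hL hdense'
  have hNcl : (N : Set G) = closure (titsCore G : Set G) := rfl
  have heq : (discreteResidual G : Set G) = closure (titsCore G : Set G) := by
    apply Set.Subset.antisymm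
    · rw [← hNcl]; exact hres
    · exact closure_minimal titsCore_le_residual residual_closed
  refine ⟨heq, ?_⟩
  intro W hW
  obtain ⟨V, hV, hVW⟩ := hsmall W hW
  have hO : IsOpen ((V ⊔ N : Subgroup G) : Set G) := Subgroup.isOpen_mono le_sup_left hV.1
  refine ⟨(V ⊔ N).normalCore, Subgroup.normalCore_normal _,
    hBGM.core G N L hN hTPm hL hdense' (V ⊔ N) hO le_sup_right, ?_⟩
  intro x hx
  have h1 : x ∈ ((V ⊔ N : Subgroup G) : Set G) := Subgroup.normalCore_le _ hx
  rw [Subgroup.mul_normal V N] at h1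
  rw [heq, ← hNcl]
  exact Set.mul_subset_mul_right hVW h1

end Pool.Agent.Lib.MP7d449a.GP
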