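import Pool.Agent.Lib.MP_7d449a_al.GP.Spec2

/-!
# MP_7d449a_al, GP, module FN3 (helper53): Theorem A for groups with trivial contraction groups
-/

set_option autoImplicit false

open Filter Topology
open scoped Pointwise

namespace Pool.Agent.Lib.MP7d449a.GP

universe u

namespace FN3M

theorem tp (G : Type u) [Group G] [TopologicalSpace G] [IsTopologicalGroup G] [LocallyCompactSpace G]
    [TotallyDisconnectedSpace G] [T2Space G] (hcon : ∀ g x : G, x ∈ con g → x = 1) : TP G := by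
  intro g W hW
  obtain ⟨H, hHo, hHc, hHW⟩ := vanDantzig hW
  have hb : ∀ g : G, con g ⊆ ((⊥ : Subgroup G) : Set G) := by
    intro g x hx
    rw [SetLike.mem_coe, Subgroup.mem_bot]
    exact hcon g x hx
  obtain ⟨V, hVH, hVo, hV⟩ := normalised (N := (⊥ : Subgroup G)) (hb g) (hb g⁻¹) hHc hHo
  rw [sup_bot_eq] at hV
  have hVc : IsCompact (V : Set G) :=
    hHc.of_isClosed_subset (V.isClosed_of_isOpen hVo) hVH
  refine ⟨V, ⟨hVo, hVc⟩, fun x hx => hHW (hVH hx), fun x hx => ⟨?_, ?_⟩⟩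
  · have h1 := hV 1 x hx
    rwa [zpow_one] at h1
  · have h1 := hV (-1) x hx
    rwa [zpow_neg, zpow_one, inv_inv] at h1

end FN3M

open FN3M in
theorem specFN3 (hCOK : SpecCOK.{u}) (hGEL : SpecGEL.{u}) (hSTR : SpecSTR.{u}) : SpecFN3.{u} := by
  intro G _ _ _ _ _ _ _ _ K hCG hK hcon
  obtain ⟨K', hK', hle⟩ := hCOK G K hK.1
  exact hSTR G K' hK' (hGEL G K K' hK hK' hle) (tp G hcon) hCG

end Pool.Agent.Lib.MP7d449a.GP
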