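import Pool.Agent.Lib.MP_7d449a_al.GP.Spec3

/-!
# MP_7d449a_al, Gelfand pairs: Theorem B, final form (module FN4)
-/

set_option autoImplicit false

open Filter Topology
open scoped Pointwise

namespace Pool.Agent.Lib.MP7d449a.GP

universe u

namespace FN4M

/-- `X` is boundedly generated modulo `N`, with contraction groups in `N`. -/
def BGN {G : Type u} [Group G] [TopologicalSpace G] (N : Subgroup G) (X : Set G) : Prop :=
  ∃ l : List (Set G), GoodN N l ∧ X ⊆ l.prod * (N : Set G)

theorem good_append {G : Type u} [Group G] [TopologicalSpace G] {N : Subgroup G}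
    {l l' : List (Set G)} (h : GoodN N l) (h' : GoodN N l') : GoodN N (l ++ l') := by
  intro Y hY
  rcases List.mem_append.1 hY with hY | hY
  · exact h Y hY
  · exact h' Y hY

theorem bg_single {G : Type u} [Group G] [TopologicalSpace G] (N : Subgroup G) {X : Set G}
    (h : IsCompact X ∨ ∃ C : Set G, IsCompact C ∧ (∀ c ∈ C, con c ⊆ N ∧ con c⁻¹ ⊆ N) ∧ X = Pw C) :
    BGN N X := by
  refine ⟨[X], ?_, ?_⟩
  · intro Y hY
    rw [List.mem_singleton] at hY
    rw [hY]
    exact h
  · rw [List.prod_singleton]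
    intro x hx
    exact Set.mem_mul.2 ⟨x, hx, 1, N.one_mem, mul_one x⟩

theorem bg_mul {G : Type u} [Group G] [TopologicalSpace G] (N : Subgroup G) [N.Normal]
    {X Y : Set G} (hX : BGN N X) (hY : BGN N Y) : BGN N (X * Y) := by
  obtain ⟨l, hl, hXl⟩ := hX
  obtain ⟨l', hl', hYl⟩ := hY
  refine ⟨l ++ l', good_append hl hl', ?_⟩
  rintro z hz
  obtain ⟨x, hx, y, hy, rfl⟩ := Set.mem_mul.1 hz
  obtain ⟨a, ha, n, hn, rfl⟩ := Set.mem_mul.1 (hXl hx)
  obtain ⟨b, hb, n', hn', rfl⟩ := Set.mem_mul.1 (hYl hy)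
  rw [List.prod_append]
  have h1 : b⁻¹ * n * b ∈ N := by
    have := (inferInstance : N.Normal).conj_mem n hn b⁻¹
    simpa using this
  refine Set.mem_mul.2 ⟨a * b, Set.mul_mem_mul ha hb, b⁻¹ * n * b * n', N.mul_mem h1 hn', ?_⟩
  group

theorem bg_prod {G : Type u} [Group G] [TopologicalSpace G] (N : Subgroup G) [N.Normal] :
    ∀ l : List (Set G), (∀ X ∈ l, BGN N X) → BGN N (l.prod : Set G) := by
  intro l
  induction l with
  | nil =>
    intro _
    refine ⟨[], fun Y hY => absurd hY (List.not_mem_nil), ?_⟩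
    intro x hx
    exact Set.mem_mul.2 ⟨x, hx, 1, N.one_mem, mul_one x⟩
  | cons X l ih =>
    intro h
    rw [List.prod_cons]
    exact bg_mul N (h X (List.mem_cons_self ..)) (ih fun Y hY => h Y (List.mem_cons_of_mem _ hY))

/-- STEP. -/
theorem step (hBM2 : SpecBM2.{u}) (hHB2 : SpecHB2.{u}) {G : Type u} [Group G] [TopologicalSpace G]
    [IsTopologicalGroup G] [LocallyCompactSpace G] [TotallyDisconnectedSpace G] [T2Space G]
    [MeasurableSpace G] [BorelSpace G] {l : List (Set G)}
    (hl : ∀ X ∈ l, IsCompact X ∨ (∃ C : Set G, IsCompact C ∧ X = Pw C) ∨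
      ∃ H : Subgroup G, X = (H : Set G) ∧ GelSub H) (hdense : Dense (l.prod : Set G))
    {N : Subgroup G} (hN : N.Normal) (hNc : IsClosed (N : Set G))
    (hcon : ∀ X ∈ l, IsCompact X ∨ ∀ x ∈ X, con x ⊆ N) (O : Subgroup G) (hO : IsOpen (O : Set G))
    (hNO : N ≤ O) : IsOpen (O.normalCore : Set G) := by
  have hBG : BGN N (l.prod : Set G) := by
    refine bg_prod N l fun X hX => ?_
    rcases hcon X hX with hc | hc
    · exact bg_single N (Or.inl hc)
    · rcases hl X hX with h | ⟨C, hC, rfl⟩ | ⟨H, rfl, hH⟩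
      · exact bg_single N (Or.inl h)
      · refine bg_single N (Or.inr ⟨C, hC, fun c hcC => ⟨hc c ⟨c, hcC, 1, zpow_one c⟩,
          hc c⁻¹ ⟨c, hcC, -1, zpow_neg_one c⟩⟩, rfl⟩)
      · exact hHB2 G N H hN hNc hc hH
  obtain ⟨L, hL, hlL⟩ := hBG
  exact hBM2 G N L hN hL (hdense.mono hlL) O hO hNO

end FN4M

open FN4M

theorem specFN4 (hBM2 : SpecBM2.{u}) (hHB2 : SpecHB2.{u}) : SpecFN4.{u} := by
  intro G _ _ _ _ _ _ _ _ l hl hdense
  have second : ∀ N : Subgroup G, N.Normal → IsClosed (N : Set G) →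
      (∀ X ∈ l, IsCompact X ∨ ∀ x ∈ X, con x ⊆ N) → discreteResidual G ≤ N := by
    intro N hN hNc hcon x hx
    by_contra hxN
    have hW : {y : G | y⁻¹ * x ∈ (N : Set G)ᶜ} ∈ 𝓝 (1 : G) := by
      have h1 : Continuous fun y : G => y⁻¹ * x := by fun_prop
      apply h1.continuousAt.preimage_mem_nhds
      apply hNc.isOpen_compl.mem_nhds
      simpa using hxN
    obtain ⟨V, hVo, hVc, hVW⟩ := vanDantzig hW
    have hO : IsOpen ((V ⊔ N : Subgroup G) : Set G) := Subgroup.isOpen_mono le_sup_left hVo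
    have hcore := step hBM2 hHB2 hl hdense hN hNc hcon (V ⊔ N) hO le_sup_right
    have hx' : x ∈ (V ⊔ N).normalCore := by
      have h2 : x ∈ sInf {H : Subgroup G | IsOpen (H : Set G) ∧ H.Normal} := hx
      exact (Subgroup.mem_sInf.1 h2) _ ⟨hcore, Subgroup.normalCore_normal _⟩
    have h3 : x ∈ ((V ⊔ N : Subgroup G) : Set G) := Subgroup.normalCore_le _ hx'
    rw [Subgroup.mul_normal V N] at h3
    obtain ⟨v, hv, n, hn, hvn⟩ := Set.mem_mul.1 h3
    apply hVW hv
    rw [← hvn]
    simpa using hn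
  have hTn : (titsCore G).Normal := titsCore_normal
  have heq : (discreteResidual G : Set G) = closure (titsCore G : Set G) := by
    apply Set.Subset.antisymm
    · have h1 := second (titsCore G).topologicalClosure
        (Subgroup.is_normal_topologicalClosure (titsCore G)) (Subgroup.isClosed_topologicalClosure _)
        (fun X _ => Or.inr fun g _ x hx => Subgroup.le_topologicalClosure _
          (Subgroup.subset_closure (Set.mem_iUnion.2 ⟨g, hx⟩)))
      exact h1
    · exact closure_minimal titsCore_le_residual residual_closed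
  refine ⟨heq, second, ?_⟩
  intro W hW
  obtain ⟨V, hVo, hVc, hVW⟩ := vanDantzig hW
  have hRn : (discreteResidual G).Normal := residual_normal
  have hO : IsOpen ((V ⊔ discreteResidual G : Subgroup G) : Set G) :=
    Subgroup.isOpen_mono le_sup_left hVo
  refine ⟨(V ⊔ discreteResidual G).normalCore, Subgroup.normalCore_normal _,
    step hBM2 hHB2 hl hdense hRn residual_closed
      (fun X _ => Or.inr fun g _ => con_sub_residual g) _ hO le_sup_right, ?_⟩
  intro x hx
  have h1 : x ∈ ((V ⊔ discreteResidual G : Subgroup G) : Set G) := Subgroup.normalCore_le _ hx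
  rw [Subgroup.mul_normal V (discreteResidual G)] at h1
  exact Set.mul_subset_mul_right hVW h1

end Pool.Agent.Lib.MP7d449a.GP
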