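import Pool.Agent.Lib.MP_7d449a_al.GP.Spec3

/-!
# MP_7d449a_al, Gelfand pairs: Theorem A with small subgroups (module FN5)
-/

set_option autoImplicit false

open Filter Topology
open scoped Pointwise

namespace Pool.Agent.Lib.MP7d449a.GP

universe u

namespace FN5M

/-- `TP` for groups with trivial contraction groups. -/
theorem tp {G : Type u} [Group G] [TopologicalSpace G] [IsTopologicalGroup G]
    [LocallyCompactSpace G] [TotallyDisconnectedSpace G] [T2Space G]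
    (h : ∀ g x : G, x ∈ con g → x = 1) : TP G := by
  intro g W hW
  obtain ⟨U, hUo, hUc, hUW⟩ := vanDantzig hW
  have h1 : ∀ g : G, con g ⊆ ((⊥ : Subgroup G) : Set G) := fun g x hx => by
    rw [h g x hx]
    exact Subgroup.one_mem _
  obtain ⟨V, hVU, hVo, hV⟩ := normalised (N := (⊥ : Subgroup G)) (h1 g) (h1 g⁻¹) hUc hUo
  rw [sup_bot_eq] at hV
  refine ⟨V, ⟨hVo, hUc.of_isClosed_subset (Subgroup.isClosed_of_isOpen V hVo) hVU⟩,
    fun x hx => hUW (hVU hx), fun x hx => ⟨?_, ?_⟩⟩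
  · simpa using hV 1 x hx
  · simpa using hV (-1) x hx

/-- Virtual abelianity, in terms of commutators. -/
theorem va {G : Type u} [Group G] (U : Subgroup G) [U.Normal] (h : VA U) :
    ∃ A : Subgroup G, U ≤ A ∧ A.FiniteIndex ∧ ∀ a ∈ A, ∀ b ∈ A, a * b * a⁻¹ * b⁻¹ ∈ U := by
  obtain ⟨r, φ, -, -, hfi⟩ := h
  refine ⟨φ.range.comap (QuotientGroup.mk' U), ?_, ?_, ?_⟩
  · intro x hx
    refine ⟨1, ?_⟩
    rw [map_one]
    exact ((QuotientGroup.eq_one_iff x).2 hx).symm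
  · constructor
    rw [Subgroup.index_comap_of_surjective _ (QuotientGroup.mk'_surjective U)]
    exact hfi.index_ne_zero
  · rintro a ⟨m, hm⟩ b ⟨n, hn⟩
    rw [← QuotientGroup.eq_one_iff]
    have e : ((a * b * a⁻¹ * b⁻¹ : G) : G ⧸ U)
        = (a : G ⧸ U) * (b : G ⧸ U) * (a : G ⧸ U)⁻¹ * (b : G ⧸ U)⁻¹ := rfl
    have hm : φ m = (a : G ⧸ U) := hm
    have hn : φ n = (b : G ⧸ U) := hn
    rw [e, ← hm, ← hn, ← map_mul, mul_comm m n, map_mul]
    group

end FN5M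

open FN5M

/-- Theorem A: arbitrarily small compact open normal subgroups with virtually abelian quotient. -/
def SpecFN5 : Prop :=
  ∀ (G : Type u) [Group G] [TopologicalSpace G] [IsTopologicalGroup G] [LocallyCompactSpace G]
    [TotallyDisconnectedSpace G] [T2Space G] [MeasurableSpace G] [BorelSpace G] (K : Subgroup G),
    CG G → IsGel K → (∀ g x : G, x ∈ con g → x = 1) → ∀ W ∈ 𝓝 (1 : G),
    ∃ U A : Subgroup G, CO U ∧ U.Normal ∧ (U : Set G) ⊆ W ∧ U ≤ A ∧ A.FiniteIndex ∧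
      ∀ a ∈ A, ∀ b ∈ A, a * b * a⁻¹ * b⁻¹ ∈ U

theorem specFN5 (hSCM : SpecSCM.{u}) (hCOK : SpecCOK.{u}) (hGEL : SpecGEL.{u})
    (hVAQ : SpecVAQ.{u}) (hBGQ : SpecBGQ.{u}) (hGCS : SpecGCS.{u}) (hBGM : SpecBGM.{u})
    (hSTR : SpecSTR.{u}) : SpecFN5.{u} := by
  intro G _ _ _ _ _ _ _ _ K hC hK hcon W hW
  have hT : TP G := tp hcon
  obtain ⟨K', hK', hKK'⟩ := hCOK G K hK.1
  have hG : GC K' := hGEL G K K' hK hK' hKK'
  have hS : SC K' := hSCM G K' hK' hG
  obtain ⟨U₀, -, hU₀, hU₀n, -⟩ := hSTR G K' hK' hG hT hC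
  obtain ⟨l, hl, hlu⟩ := hBGQ G U₀ (hVAQ G K' U₀ hK' hS hC hU₀.1)
  obtain ⟨O, hOo, hOc, hOW⟩ := vanDantzig hW
  have hl' : Good (l ++ [(U₀ : Set G)]) := by
    intro Y hY
    rw [List.mem_append, List.mem_singleton] at hY
    rcases hY with hY | rfl
    · exact hl Y hY
    · exact Or.inl hU₀.2
  have hdense : Dense ((l ++ [(U₀ : Set G)]).prod * ((⊥ : Subgroup G) : Set G)) := by
    have : (l ++ [(U₀ : Set G)]).prod * ((⊥ : Subgroup G) : Set G) = Set.univ := by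
      rw [List.prod_append, List.prod_singleton, Set.eq_univ_iff_forall]
      intro x
      exact ⟨x, hlu (Set.mem_univ x), 1, Subgroup.one_mem _, mul_one x⟩
    rw [this]
    exact dense_univ
  have hcore := hBGM.core G ⊥ (l ++ [(U₀ : Set G)]) inferInstance
    (hGCS.tpm G ⊥ inferInstance hT) hl' hdense O hOo bot_le
  have hcn : O.normalCore.Normal := Subgroup.normalCore_normal O
  obtain ⟨A, hUA, hA, hAc⟩ := va O.normalCore
    (hVAQ G K' O.normalCore hK' hS hC hcore)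
  refine ⟨O.normalCore, A, ⟨hcore, hOc.of_isClosed_subset
    (Subgroup.isClosed_of_isOpen _ hcore) (Subgroup.normalCore_le O)⟩, hcn,
    fun x hx => hOW (Subgroup.normalCore_le O hx), hUA, hA, hAc⟩

end Pool.Agent.Lib.MP7d449a.GP
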