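import Pool.Agent.Lib.MP_7d449a_al.GP.FN5

/-!
# MP_7d449a_al, Gelfand pairs: Theorem A modulo a closed normal subgroup (module FN7)

A compactly generated totally disconnected locally compact group which has a Gelfand pair has, modulo
every closed normal subgroup `N` which contains all contraction groups (for instance the discrete
residual), arbitrarily small compact open normal subgroups with virtually abelian quotient.
-/

set_option autoImplicit false

open Filter Topology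
open scoped Pointwise

namespace Pool.Agent.Lib.MP7d449a.GP

universe u

/-- FN7: Theorem A modulo `N`. -/
def SpecFN7 : Prop :=
  ∀ (G : Type u) [Group G] [TopologicalSpace G] [IsTopologicalGroup G] [LocallyCompactSpace G]
    [TotallyDisconnectedSpace G] [T2Space G] [MeasurableSpace G] [BorelSpace G]
    (K N : Subgroup G), CG G → IsGel K → N.Normal → (∀ g : G, con g ⊆ N) → ∀ W ∈ 𝓝 (1 : G),
    ∃ U A : Subgroup G, U.Normal ∧ IsOpen (U : Set G) ∧
      (∃ Q ⊆ W, IsCompact Q ∧ (U : Set G) = Q * (N : Set G)) ∧ U ≤ A ∧ A.FiniteIndex ∧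
      ∀ a ∈ A, ∀ b ∈ A, a * b * a⁻¹ * b⁻¹ ∈ U

namespace FN7M

/-- The abstract form of Theorem A. -/
theorem small (hSCM : SpecSCM.{u}) (hVAQ : SpecVAQ.{u}) (hBGQ : SpecBGQ.{u}) (hGCS : SpecGCS.{u})
    (hBGM : SpecBGM.{u}) (hSTR : SpecSTR.{u}) {G : Type u} [Group G] [TopologicalSpace G]
    [IsTopologicalGroup G] {K' : Subgroup G} (hK' : CO K') (hG : GC K') (hT : TP G) (hC : CG G)
    {W : Set G} (hW : W ∈ 𝓝 (1 : G)) :
    ∃ U A : Subgroup G, CO U ∧ U.Normal ∧ (U : Set G) ⊆ W ∧ U ≤ A ∧ A.FiniteIndex ∧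
      ∀ a ∈ A, ∀ b ∈ A, a * b * a⁻¹ * b⁻¹ ∈ U := by
  have hS : SC K' := hSCM G K' hK' hG
  obtain ⟨U₀, -, hU₀, hU₀n, -⟩ := hSTR G K' hK' hG hT hC
  obtain ⟨l, hl, hlu⟩ := hBGQ G U₀ (hVAQ G K' U₀ hK' hS hC hU₀.1)
  obtain ⟨O, hO, hOW, -⟩ := hT 1 W hW
  have hl' : Good (l ++ [(U₀ : Set G)]) := by
    intro Y hY
    rw [List.mem_append, List.mem_singleton] at hY
    rcases hY with hY | rfl
    · exact hl Y hY
    · exact Or.inl hU₀.2
  have hdense : Dense ((l ++ [(U₀ : Set G)]).prod * ((⊥ : Subgroup G) : Set G)) := by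
    have : (l ++ [(U₀ : Set G)]).prod * ((⊥ : Subgroup G) : Set G) = Set.univ := by
      rw [List.prod_append, List.prod_singleton, Set.eq_univ_iff_forall]
      intro x
      exact ⟨x, hlu (Set.mem_univ x), 1, Subgroup.one_mem _, mul_one x⟩
    rw [this]
    exact dense_univ
  have hcore := hBGM.core G ⊥ (l ++ [(U₀ : Set G)]) inferInstance
    (hGCS.tpm G ⊥ inferInstance hT) hl' hdense O hO.1 bot_le
  have hcn : O.normalCore.Normal := Subgroup.normalCore_normal O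
  obtain ⟨A, hUA, hA, hAc⟩ := FN5M.va O.normalCore (hVAQ G K' O.normalCore hK' hS hC hcore)
  refine ⟨O.normalCore, A, ⟨hcore, hO.2.of_isClosed_subset
    (Subgroup.isClosed_of_isOpen _ hcore) (Subgroup.normalCore_le O)⟩, hcn,
    fun x hx => hOW (Subgroup.normalCore_le O hx), hUA, hA, hAc⟩

end FN7M

open FN7M

theorem specFN7 (hSCM : SpecSCM.{u}) (hCOK : SpecCOK.{u}) (hGEL : SpecGEL.{u})
    (hGCQ : SpecGCQ.{u}) (hQUO : SpecQUO.{u}) (hVAQ : SpecVAQ.{u}) (hBGQ : SpecBGQ.{u})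
    (hGCS : SpecGCS.{u}) (hBGM : SpecBGM.{u}) (hSTR : SpecSTR.{u}) : SpecFN7.{u} := by
  intro G _ _ _ _ _ _ _ _ K N hgen hK hN hcon W hW
  obtain ⟨K', hK', hKK'⟩ := hCOK G K hK.1
  have hGC : GC K' := hGEL G K K' hK hK' hKK'
  obtain ⟨hCOq, hGCq⟩ := hGCQ G N K' hK' hGC
  have hTP : TP (G ⧸ N) := hQUO G N hcon
  have hgenq : CG (G ⧸ N) := by
    obtain ⟨C, hC, hCt⟩ := hgen
    refine ⟨(QuotientGroup.mk' N) '' C, hC.image QuotientGroup.continuous_mk, ?_⟩
    rw [← MonoidHom.map_closure, hCt, ← MonoidHom.range_eq_map]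
    exact MonoidHom.range_eq_top.mpr (QuotientGroup.mk'_surjective N)
  obtain ⟨V, hVo, hVc, hVW⟩ := vanDantzig hW
  have hVm : ((V.map (QuotientGroup.mk' N) : Subgroup (G ⧸ N)) : Set (G ⧸ N)) ∈
      𝓝 (1 : G ⧸ N) := by
    have h1 : IsOpen ((V.map (QuotientGroup.mk' N) : Subgroup (G ⧸ N)) : Set (G ⧸ N)) := by
      rw [Subgroup.coe_map]
      exact QuotientGroup.isOpenMap_coe _ hVo
    exact h1.mem_nhds (Subgroup.one_mem _)
  obtain ⟨U', A', hU', hU'n, hU'V, hU'A, hA', hA'c⟩ :=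
    small hSCM hVAQ hBGQ hGCS hBGM hSTR hCOq hGCq hTP hgenq hVm
  have hUo : IsOpen ((U'.comap (QuotientGroup.mk' N) : Subgroup G) : Set G) :=
    hU'.1.preimage QuotientGroup.continuous_mk
  refine ⟨U'.comap (QuotientGroup.mk' N), A'.comap (QuotientGroup.mk' N), hU'n.comap _, hUo,
    ⟨(V : Set G) ∩ (U'.comap (QuotientGroup.mk' N) : Subgroup G),
      fun x hx => hVW hx.1, hVc.inter_right (Subgroup.isClosed_of_isOpen _ hUo), ?_⟩,
    Subgroup.comap_mono hU'A, ?_, ?_⟩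
  · apply Set.Subset.antisymm
    · intro x hx
      have h1 : QuotientGroup.mk' N x ∈ V.map (QuotientGroup.mk' N) := hU'V hx
      obtain ⟨v, hv, hvx⟩ := Subgroup.mem_map.1 h1
      have h2 : v⁻¹ * x ∈ N := QuotientGroup.eq.1 hvx
      refine Set.mem_mul.2 ⟨v, ⟨hv, ?_⟩, v⁻¹ * x, h2, by group⟩
      show QuotientGroup.mk' N v ∈ U'
      rw [hvx]
      exact hx
    · intro x hx
      obtain ⟨v, hv, n, hn, rfl⟩ := Set.mem_mul.1 hx
      have h2 : QuotientGroup.mk' N n = 1 := (QuotientGroup.eq_one_iff n).2 hn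
      show QuotientGroup.mk' N (v * n) ∈ U'
      rw [map_mul, h2, mul_one]
      exact hv.2
  · constructor
    rw [Subgroup.index_comap_of_surjective _ (QuotientGroup.mk'_surjective N)]
    exact hA'.index_ne_zero
  · intro a ha b hb
    show QuotientGroup.mk' N (a * b * a⁻¹ * b⁻¹) ∈ U'
    rw [map_mul, map_mul, map_mul, map_inv, map_inv]
    exact hA'c _ ha _ hb

end Pool.Agent.Lib.MP7d449a.GP
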