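import Pool.Agent.Lib.MP_7d449a_al.GP.Spec

/-!
# GCQ: commuting Hecke operators pass to a quotient
-/

set_option autoImplicit false

namespace Pool.Agent.Lib.MP7d449a.GP

universe u

namespace GCQM

/-- The Hecke operator on the quotient lifts to the Hecke operator on the group. -/
theorem key (hAVG : SpecAVG.{u}) (hMFA : SpecMFA.{u}) (G : Type u) [Group G]
    [TopologicalSpace G] [IsTopologicalGroup G] (N K : Subgroup G) [N.Normal]
    (hL : CO (K.map (QuotientGroup.mk' N))) (f : G ⧸ N → ℝ)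
    (hf : RInv (K.map (QuotientGroup.mk' N)) f) (g x : G) :
    M (K.map (QuotientGroup.mk' N)) (QuotientGroup.mk' N g) f (QuotientGroup.mk' N x) =
      M K g (fun y => f (QuotientGroup.mk' N y)) x := by
  have hfi := hMFA.fi (G ⧸ N) (K.map (QuotientGroup.mk' N)) (K.map (QuotientGroup.mk' N)) hL hL f
    hf (QuotientGroup.mk' N x) (QuotientGroup.mk' N g)
  have h := (hAVG.map G (G ⧸ N) (QuotientGroup.mk' N) K _ hfi).2
  simp only [M]
  rw [← h]
  simp only [map_mul]

end GCQM

/-- GCQ: passage to a quotient. -/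
theorem specGCQ (hAVG : SpecAVG.{u}) (hMFA : SpecMFA.{u}) : SpecGCQ.{u} := by
  intro G _ _ _ N K _ hK hGC
  have hL : CO (K.map (QuotientGroup.mk' N)) := by
    refine ⟨?_, ?_⟩
    · rw [Subgroup.coe_map]
      exact QuotientGroup.isOpenMap_coe _ hK.1
    · rw [Subgroup.coe_map]
      exact hK.2.image QuotientGroup.continuous_mk
  refine ⟨hL, ?_⟩
  intro g' h' f hf x'
  obtain ⟨g, rfl⟩ := QuotientGroup.mk'_surjective N g'
  obtain ⟨h, rfl⟩ := QuotientGroup.mk'_surjective N h'
  obtain ⟨x, rfl⟩ := QuotientGroup.mk'_surjective N x'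
  have hfK : RInv K (fun y => f (QuotientGroup.mk' N y)) := by
    intro y k hk
    simp only [map_mul]
    exact hf _ _ (Subgroup.mem_map_of_mem _ hk)
  have e1 := GCQM.key hAVG hMFA G N K hL _
    (hMFA.rinv (G ⧸ N) _ hL f hf (QuotientGroup.mk' N h)) g x
  have e2 := GCQM.key hAVG hMFA G N K hL _
    (hMFA.rinv (G ⧸ N) _ hL f hf (QuotientGroup.mk' N g)) h x
  have e3 : (fun y => M (K.map (QuotientGroup.mk' N)) (QuotientGroup.mk' N h) f
      (QuotientGroup.mk' N y)) = M K h (fun y => f (QuotientGroup.mk' N y)) := by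
    funext y
    exact GCQM.key hAVG hMFA G N K hL f hf h y
  have e4 : (fun y => M (K.map (QuotientGroup.mk' N)) (QuotientGroup.mk' N g) f
      (QuotientGroup.mk' N y)) = M K g (fun y => f (QuotientGroup.mk' N y)) := by
    funext y
    exact GCQM.key hAVG hMFA G N K hL f hf g y
  rw [e1, e2, e3, e4]
  exact hGC g h _ hfK x

end Pool.Agent.Lib.MP7d449a.GP
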