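import Pool.Agent.Lib.MP_7d449a_al.GP.Spec2

/-! # GCS: passage to subgroups (helper94) -/

set_option autoImplicit false

open Filter Topology
open scoped Pointwise

namespace Pool.Agent.Lib.MP7d449a.GP

universe u

namespace GCSM

open Classical in
/-- extension by zero -/
noncomputable def ext {G : Type u} [Group G] (H : Subgroup G) (f : H → ℝ) (y : G) : ℝ :=
  if hy : y ∈ H then f ⟨y, hy⟩ else 0

lemma ext_mem {G : Type u} [Group G] (H : Subgroup G) (f : H → ℝ) (y : H) : ext H f (y : G) = f y := by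
  rw [ext, dif_pos y.2]

lemma ext_not {G : Type u} [Group G] (H : Subgroup G) (f : H → ℝ) {y : G} (hy : y ∉ H) :
    ext H f y = 0 := by
  rw [ext, dif_neg hy]

lemma ext_rinv {G : Type u} [Group G] {K H : Subgroup G} (hKH : K ≤ H) {f : H → ℝ}
    (hf : RInv (K.subgroupOf H) f) : RInv K (ext H f) := by
  intro x k hk
  have hkH : k ∈ H := hKH hk
  by_cases hx : x ∈ H
  · have h1 : ext H f (x * k) = f (⟨x, hx⟩ * ⟨k, hkH⟩) := ext_mem H f (⟨x, hx⟩ * ⟨k, hkH⟩)
    have h2 : ext H f x = f ⟨x, hx⟩ := ext_mem H f ⟨x, hx⟩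
    rw [h1, h2]
    exact hf _ _ (Subgroup.mem_subgroupOf.mpr hk)
  · have hxk : x * k ∉ H := fun h => hx (by
      have := H.mul_mem h (H.inv_mem hkH)
      simpa [mul_assoc] using this)
    rw [ext_not H f hx, ext_not H f hxk]

lemma co_sub {G : Type u} [Group G] [TopologicalSpace G] {K H : Subgroup G} (hK : CO K)
    (hH : IsClosed (H : Set G)) : CO (K.subgroupOf H) := by
  have h1 : ((K.subgroupOf H : Subgroup H) : Set H) = Subtype.val ⁻¹' (K : Set G) := rfl
  refine ⟨?_, ?_⟩
  · rw [h1]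
    exact hK.1.preimage continuous_subtype_val
  · rw [h1, Subtype.isCompact_iff]
    have h2 : (Subtype.val '' (Subtype.val ⁻¹' (K : Set G) : Set H) : Set G) =
        (K : Set G) ∩ (H : Set G) := by
      ext y
      constructor
      · rintro ⟨z, hz, rfl⟩
        exact ⟨hz, z.2⟩
      · rintro ⟨hy, hyH⟩
        exact ⟨⟨y, hyH⟩, hy, rfl⟩
    rw [h2]
    exact hK.2.inter_right hH

/-- the Hecke operator and the extension by zero -/
lemma M_ext (hA : SpecAVG.{u}) (hM : SpecMFA.{u}) {G : Type u} [Group G] [TopologicalSpace G]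
    [IsTopologicalGroup G] {K H : Subgroup G} (hK : CO K) (hKH : K ≤ H) {f : H → ℝ}
    (hf : RInv (K.subgroupOf H) f) (g : H) (y : G) :
    M K (g : G) (ext H f) y = ext H (M (K.subgroupOf H) g f) y := by
  by_cases hy : y ∈ H
  · have h0 : ext H (M (K.subgroupOf H) g f) y = M (K.subgroupOf H) g f ⟨y, hy⟩ :=
      ext_mem H _ ⟨y, hy⟩
    rw [h0]
    have hmap : (K.subgroupOf H).map H.subtype = K := by
      rw [Subgroup.subgroupOf_map_subtype, inf_eq_left.mpr hKH]
    have hFI : FI K (fun k => ext H f (y * k * g)) :=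
      hM.fi G K K hK hK (ext H f) (ext_rinv hKH hf) y g
    have h1 := (hA.map H G H.subtype (K.subgroupOf H) (fun k => ext H f (y * k * g))
      (by rw [hmap]; exact hFI)).2
    rw [hmap] at h1
    show avg K (fun k => ext H f (y * k * g)) =
      avg (K.subgroupOf H) (fun k => f (⟨y, hy⟩ * k * g))
    rw [← h1]
    congr 1
    funext k
    exact ext_mem H f (⟨y, hy⟩ * k * g)
  · rw [ext_not H _ hy]
    show avg K (fun k => ext H f (y * k * g)) = 0
    rw [← hA.const G K 0]
    refine (hA.congr G K _ _ fun k hk => ?_).2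
    refine ext_not H f fun h => hy ?_
    have h2 := H.mul_mem (H.mul_mem h (H.inv_mem g.2)) (H.inv_mem (hKH hk))
    simpa [mul_assoc] using h2

end GCSM

open GCSM in
theorem specGCS (hA : SpecAVG.{u}) (hM : SpecMFA.{u}) : SpecGCS.{u} where
  op := by
    intro G _ _ _ K H hK hH hKH
    have hco : CO (K.subgroupOf H) := co_sub hK (H.isClosed_of_isOpen hH)
    refine ⟨hco, fun hGC => ?_⟩
    intro g h f hf x
    have key : ∀ (g h : H) (x : H), M K (g : G) (M K (h : G) (ext H f)) (x : G) =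
        M (K.subgroupOf H) g (M (K.subgroupOf H) h f) x := by
      intro g h x
      have e1 : M K (h : G) (ext H f) = ext H (M (K.subgroupOf H) h f) := by
        funext y
        exact M_ext hA hM hK hKH hf h y
      rw [e1, M_ext hA hM hK hKH (hM.rinv H (K.subgroupOf H) hco f hf h) g x, ext_mem]
    rw [← key g h x, ← key h g x]
    exact hGC g h (ext H f) (ext_rinv hKH hf) x
  tp := by
    intro G _ _ _ H hH hTP g W hW
    rw [nhds_subtype_eq_comap, Filter.mem_comap] at hW
    obtain ⟨W', hW', hsub⟩ := hW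
    obtain ⟨V, hV, hVW, hVg⟩ := hTP (g : G) W' hW'
    refine ⟨V.subgroupOf H, co_sub hV hH, ?_, ?_⟩
    · intro x hx
      exact hsub (hVW (Subgroup.mem_subgroupOf.mp hx))
    · intro x hx
      have h1 := hVg (x : G) (Subgroup.mem_subgroupOf.mp hx)
      exact ⟨Subgroup.mem_subgroupOf.mpr h1.1, Subgroup.mem_subgroupOf.mpr h1.2⟩
  tpm := by
    intro G _ _ _ N hN hTP g O hO hNO
    obtain ⟨V, hV, hVO, hVg⟩ := hTP g (O : Set G) (hO.mem_nhds O.one_mem)
    refine ⟨V ⊔ N, Subgroup.isOpen_mono le_sup_left hV.1, le_sup_right, sup_le hVO hNO, ?_⟩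
    have key : ∀ a : G, (∀ x ∈ V, a * x * a⁻¹ ∈ V) → ∀ x ∈ V ⊔ N, a * x * a⁻¹ ∈ V ⊔ N := by
      intro a ha x hx
      have hle : V ⊔ N ≤ (V ⊔ N).comap (MulAut.conj a).toMonoidHom := by
        refine sup_le ?_ ?_
        · intro v hv
          exact Subgroup.mem_comap.mpr (le_sup_left (a := V) (ha v hv))
        · intro n hn
          exact Subgroup.mem_comap.mpr (le_sup_right (b := N) (hN.conj_mem n hn a))
      exact Subgroup.mem_comap.mp (hle hx)
    intro x hx
    refine ⟨key g (fun v hv => (hVg v hv).1) x hx, ?_⟩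
    have h2 := key g⁻¹ (fun v hv => by
      rw [inv_inv]
      exact (hVg v hv).2) x hx
    rwa [inv_inv] at h2

end Pool.Agent.Lib.MP7d449a.GP
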