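import Pool.Agent.Lib.MP_7d449a_al.GP.Spec

/-!
# Module GEL: the Hecke operators of a compact open subgroup containing a Gelfand subgroup commute

The average `M L a f x` is written as an integral of `f (x y)` over the double coset `L a L`; then
the commutation follows from Fubini's theorem for compactly supported continuous functions.
-/

set_option autoImplicit false

open Filter Topology MeasureTheory

namespace Pool.Agent.Lib.MP7d449a.GP

universe u

set_option linter.unusedSectionVars false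

namespace GELM

variable {G : Type u} [Group G]

/-- the double coset -/
def dc (L : Subgroup G) (a : G) : Set G := {y | ∃ k ∈ L, ∃ k' ∈ L, y = k * a * k'}

theorem dc_right {L : Subgroup G} {a y k : G} (hk : k ∈ L) : y * k ∈ dc L a ↔ y ∈ dc L a := by
  constructor
  · rintro ⟨k₁, h₁, k₂, h₂, h⟩
    refine ⟨k₁, h₁, k₂ * k⁻¹, L.mul_mem h₂ (L.inv_mem hk), ?_⟩
    rw [← mul_assoc, ← h]
    group
  · rintro ⟨k₁, h₁, k₂, h₂, rfl⟩
    exact ⟨k₁, h₁, k₂ * k, L.mul_mem h₂ hk, by group⟩

theorem dc_left {L : Subgroup G} {a y k : G} (hk : k ∈ L) : k * y ∈ dc L a ↔ y ∈ dc L a := by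
  constructor
  · rintro ⟨k₁, h₁, k₂, h₂, h⟩
    refine ⟨k⁻¹ * k₁, L.mul_mem (L.inv_mem hk) h₁, k₂, h₂, ?_⟩
    have h3 : k⁻¹ * k₁ * a * k₂ = k⁻¹ * (k₁ * a * k₂) := by group
    rw [h3, ← h]
    group
  · rintro ⟨k₁, h₁, k₂, h₂, rfl⟩
    exact ⟨k * k₁, L.mul_mem hk h₁, k₂, h₂, by group⟩

variable [TopologicalSpace G] [IsTopologicalGroup G]

theorem dc_compact {L : Subgroup G} (hL : CO L) (a : G) : IsCompact (dc L a) := by
  have h : dc L a = (fun p : G × G => p.1 * a * p.2) '' ((L : Set G) ×ˢ (L : Set G)) := by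
    ext y
    constructor
    · rintro ⟨k, hk, k', hk', rfl⟩
      exact ⟨(k, k'), ⟨hk, hk'⟩, rfl⟩
    · rintro ⟨⟨k, k'⟩, ⟨hk, hk'⟩, rfl⟩
      exact ⟨k, hk, k', hk', rfl⟩
  rw [h]
  exact (hL.2.prod hL.2).image (by fun_prop)

/-- a set which is invariant under right multiplication by an open subgroup is clopen -/
theorem clopen_of_right {L : Subgroup G} (hL : IsOpen (L : Set G)) (D : Set G)
    (hD : ∀ y, ∀ k ∈ L, (y * k ∈ D ↔ y ∈ D)) : IsClopen D := by
  have hop : ∀ D' : Set G, (∀ y, ∀ k ∈ L, (y * k ∈ D' ↔ y ∈ D')) → IsOpen D' := by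
    intro D' hD'
    rw [isOpen_iff_mem_nhds]
    intro y hy
    have h1 : (fun x => y⁻¹ * x) ⁻¹' (L : Set G) ∈ 𝓝 y := by
      refine (hL.preimage (by fun_prop)).mem_nhds ?_
      show y⁻¹ * y ∈ L
      rw [inv_mul_cancel]
      exact L.one_mem
    refine Filter.mem_of_superset h1 ?_
    intro x hx
    have h2 := hD' y (y⁻¹ * x) hx
    rw [← mul_assoc, mul_inv_cancel, one_mul] at h2
    exact h2.2 hy
  refine ⟨?_, hop D hD⟩
  rw [← isOpen_compl_iff]
  exact hop Dᶜ fun y k hk => not_congr (hD y k hk)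

open Classical in
/-- the indicator function -/
noncomputable def ind (D : Set G) (y : G) : ℝ := if y ∈ D then 1 else 0

theorem ind_congr {D : Set G} {y z : G} (h : y ∈ D ↔ z ∈ D) : ind D y = ind D z := by
  unfold ind
  by_cases hz : z ∈ D
  · rw [if_pos hz, if_pos (h.2 hz)]
  · rw [if_neg hz, if_neg fun h' => hz (h.1 h')]

theorem ind_cont {D : Set G} (hD : IsClopen D) : Continuous (ind D) := by
  classical
  have h : ind D = D.indicator (fun _ => (1 : ℝ)) := by
    funext y
    unfold ind
    by_cases hy : y ∈ D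
    · rw [if_pos hy, Set.indicator_of_mem hy]
    · rw [if_neg hy, Set.indicator_of_notMem hy]
  rw [h]
  exact hD.continuous_indicator continuous_const

theorem ind_supp {D : Set G} (hD : IsCompact D) (hD' : IsClosed D) : HasCompactSupport (ind D) := by
  refine HasCompactSupport.intro' hD hD' ?_
  intro x hx
  unfold ind
  rw [if_neg hx]

theorem rinv_cont {L : Subgroup G} (hL : IsOpen (L : Set G)) {f : G → ℝ} (hf : RInv L f) :
    Continuous f := by
  rw [continuous_iff_continuousAt]
  intro y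
  have h1 : (fun x => y⁻¹ * x) ⁻¹' (L : Set G) ∈ 𝓝 y := by
    refine (hL.preimage (by fun_prop)).mem_nhds ?_
    show y⁻¹ * y ∈ L
    rw [inv_mul_cancel]
    exact L.one_mem
  have h2 : f =ᶠ[𝓝 y] fun _ => f y := by
    refine Filter.mem_of_superset h1 ?_
    intro x hx
    have h3 := hf y (y⁻¹ * x) hx
    rw [← mul_assoc, mul_inv_cancel, one_mul] at h3
    exact h3
  exact (continuousAt_const).congr h2.symm

variable [LocallyCompactSpace G] [T2Space G] [MeasurableSpace G] [BorelSpace G]

/-- the average as an integral over the double coset -/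
theorem mean (hAVG : SpecAVG.{u}) (hMFA : SpecMFA.{u}) {L : Subgroup G} (hL : CO L) (a : G) :
    ∃ c : ℝ, 0 < c ∧ ∀ φ : G → ℝ, RInv L φ →
      ∫ y, ind (dc L a) y * φ y ∂Measure.haar = c * avg L (fun k => φ (k * a)) := by
  classical
  obtain ⟨hidx, -⟩ := hMFA.idx G L L hL hL a
  have hVL : Vg L L a ≤ L := inf_le_left
  have hFI : ((Vg L L a).subgroupOf L).FiniteIndex := ⟨hidx⟩
  have hfin : Finite (L ⧸ (Vg L L a).subgroupOf L) := Subgroup.finite_quotient_of_finiteIndex
  have hft : Fintype (L ⧸ (Vg L L a).subgroupOf L) := Fintype.ofFinite _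
  have hLind : Continuous (ind (L : Set G)) :=
    ind_cont ⟨L.isClosed_of_isOpen hL.1, hL.1⟩
  have hLsupp : HasCompactSupport (ind (L : Set G)) := ind_supp hL.2 (L.isClosed_of_isOpen hL.1)
  obtain ⟨c₀, hc₀⟩ : ∃ c₀ : ℝ, c₀ = ∫ y, ind (L : Set G) y ∂Measure.haar := ⟨_, rfl⟩
  have hc₀pos : 0 < c₀ := by
    rw [hc₀]
    refine hLind.integral_pos_of_hasCompactSupport_nonneg_nonzero (x := 1) hLsupp ?_ ?_
    · intro y
      unfold ind
      split_ifs <;> norm_num
    · have e : ind (L : Set G) 1 = 1 := if_pos L.one_mem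
      rw [e]
      exact one_ne_zero
  refine ⟨c₀ * (Vg L L a).relIndex L, ?_, ?_⟩
  · have : (0 : ℝ) < (Vg L L a).relIndex L := by
      exact_mod_cast Nat.pos_of_ne_zero hidx
    positivity
  intro φ hφ
  have hform := hAVG.form G L (Vg L L a) (fun k => φ (k * a)) hVL hidx (by
    intro k hk v hv
    have := hMFA.inva G L L φ hφ 1 a k hk v hv
    rwa [one_mul, one_mul] at this)
  rw [hform, finsum_eq_sum_of_fintype]
  -- pointwise
  have hpt : ∀ y, ind (dc L a) y * φ y = ∑ q : L ⧸ (Vg L L a).subgroupOf L,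
      φ (((Quotient.out q : L) : G) * a) *
        ind (L : Set G) ((((Quotient.out q : L) : G) * a)⁻¹ * y) := by
    intro y
    by_cases hy : y ∈ dc L a
    · obtain ⟨k, hk, k', hk', rfl⟩ := hy
      let q₀ : L ⧸ (Vg L L a).subgroupOf L := QuotientGroup.mk (⟨k, hk⟩ : L)
      have hq₀ : ((⟨k, hk⟩ : L)⁻¹ * Quotient.out q₀) ∈ (Vg L L a).subgroupOf L := by
        rw [← QuotientGroup.eq]
        exact (Quotient.out_eq q₀).symm
      have hmem : ∀ q : L ⧸ (Vg L L a).subgroupOf L,
          ((((Quotient.out q : L) : G) * a)⁻¹ * (k * a * k')) ∈ L → q = q₀ := by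
        intro q hq
        have h1 : ((Quotient.out q : L)⁻¹ * (⟨k, hk⟩ : L)) ∈ (Vg L L a).subgroupOf L := by
          rw [Subgroup.mem_subgroupOf]
          refine ⟨((Quotient.out q : L)⁻¹ * (⟨k, hk⟩ : L)).2, ?_⟩
          refine ⟨a⁻¹ * (((Quotient.out q : L) : G)⁻¹ * k) * a, ?_, ?_⟩
          · have h2 : a⁻¹ * (((Quotient.out q : L) : G)⁻¹ * k) * a =
                ((((Quotient.out q : L) : G) * a)⁻¹ * (k * a * k')) * k'⁻¹ := by group
            rw [h2]
            exact L.mul_mem hq (L.inv_mem hk')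
          · show a * (a⁻¹ * (((Quotient.out q : L) : G)⁻¹ * k) * a) * a⁻¹ =
              ((Quotient.out q : L) : G)⁻¹ * k
            group
        rw [← QuotientGroup.eq] at h1
        rw [← Quotient.out_eq q]
        exact h1
      have hq₀' : ((((Quotient.out q₀ : L) : G) * a)⁻¹ * (k * a * k')) ∈ L := by
        rw [Subgroup.mem_subgroupOf] at hq₀
        obtain ⟨v, hv, hv'⟩ := hq₀.2
        have h2 : a * v * a⁻¹ = k⁻¹ * ((Quotient.out q₀ : L) : G) := hv'
        have h3 : (((Quotient.out q₀ : L) : G) * a)⁻¹ * (k * a * k') = v⁻¹ * k' := by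
          have h4 : ((Quotient.out q₀ : L) : G) = k * (a * v * a⁻¹) := by rw [h2]; group
          rw [h4]
          group
        rw [h3]
        exact L.mul_mem (L.inv_mem hv) hk'
      rw [Finset.sum_eq_single q₀]
      · have e1 : ind (dc L a) (k * a * k') = 1 := if_pos ⟨k, hk, k', hk', rfl⟩
        have e2 : ind (L : Set G) ((((Quotient.out q₀ : L) : G) * a)⁻¹ * (k * a * k')) = 1 :=
          if_pos hq₀'
        rw [e1, e2, one_mul, mul_one]
        have h5 := hφ (((Quotient.out q₀ : L) : G) * a) _ hq₀'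
        rw [← h5]
        congr 1
        group
      · intro q _ hq
        have e2 : ind (L : Set G) ((((Quotient.out q : L) : G) * a)⁻¹ * (k * a * k')) = 0 :=
          if_neg fun h => hq (hmem q h)
        rw [e2, mul_zero]
      · intro h
        exact absurd (Finset.mem_univ _) h
    · have e1 : ind (dc L a) y = 0 := if_neg hy
      rw [e1, zero_mul]
      symm
      refine Finset.sum_eq_zero fun q _ => ?_
      have e2 : ind (L : Set G) ((((Quotient.out q : L) : G) * a)⁻¹ * y) = 0 := by
        refine if_neg fun h => hy ?_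
        refine ⟨_, (Quotient.out q : L).2, _, h, ?_⟩
        group
      rw [e2, mul_zero]
  simp_rw [hpt]
  have hint : ∀ q ∈ (Finset.univ : Finset (L ⧸ (Vg L L a).subgroupOf L)),
      Integrable (fun y => φ (((Quotient.out q : L) : G) * a) *
        ind (L : Set G) ((((Quotient.out q : L) : G) * a)⁻¹ * y)) Measure.haar := by
    intro q _
    refine Integrable.const_mul ?_ _
    refine Continuous.integrable_of_hasCompactSupport (hLind.comp (continuous_const_mul _)) ?_
    exact hLsupp.comp_homeomorph (Homeomorph.mulLeft _)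
  rw [integral_finsetSum _ hint]
  have hone : ∀ q : L ⧸ (Vg L L a).subgroupOf L, ∫ y, φ (((Quotient.out q : L) : G) * a) *
        ind (L : Set G) ((((Quotient.out q : L) : G) * a)⁻¹ * y) ∂Measure.haar =
      φ (((Quotient.out q : L) : G) * a) * c₀ := by
    intro q
    rw [integral_const_mul, integral_mul_left_eq_self (ind (L : Set G)), hc₀]
  simp_rw [hone]
  rw [← Finset.sum_mul]
  have hne : ((Vg L L a).relIndex L : ℝ) ≠ 0 := by exact_mod_cast hidx
  field_simp

end GELM

open GELM

theorem specGEL (hAVG : SpecAVG.{u}) (hMFA : SpecMFA.{u}) : SpecGEL.{u} := by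
  intro G _ _ _ _ _ _ _ K L hK hL hKL a b f hf x
  obtain ⟨ca, hca, hma⟩ := mean hAVG hMFA hL a
  obtain ⟨cb, hcb, hmb⟩ := mean hAVG hMFA hL b
  have hcl : ∀ a : G, IsClopen (dc L a) := fun a => clopen_of_right hL.1 _ fun y k hk => dc_right hk
  have hc : ∀ a : G, Continuous (ind (dc L a)) := fun a => ind_cont (hcl a)
  have hs : ∀ a : G, HasCompactSupport (ind (dc L a)) := fun a =>
    ind_supp (dc_compact hL a) (hcl a).1
  have hR : ∀ a : G, RInv K (ind (dc L a)) := by
    intro a y k hk
    exact ind_congr (dc_right (hKL hk))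
  have hLI : ∀ a : G, LInv K (ind (dc L a)) := by
    intro a y k hk
    exact ind_congr (dc_left (hKL hk))
  -- the operators as integrals
  have hM : ∀ (a : G) (c : ℝ), (∀ φ : G → ℝ, RInv L φ →
      ∫ y, ind (dc L a) y * φ y ∂Measure.haar = c * avg L (fun k => φ (k * a))) →
      ∀ (ψ : G → ℝ), RInv L ψ → ∀ z : G,
        c * M L a ψ z = ∫ y, ind (dc L a) y * ψ (z * y) ∂Measure.haar := by
    intro a c h ψ hψ z
    rw [h (fun y => ψ (z * y)) (fun y k hk => by
      show ψ (z * (y * k)) = ψ (z * y)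
      rw [← mul_assoc]
      exact hψ _ k hk)]
    unfold M
    congr 2
    funext k
    rw [mul_assoc]
  have hdouble : ∀ (a b : G) (ca cb : ℝ), (∀ φ : G → ℝ, RInv L φ →
      ∫ y, ind (dc L a) y * φ y ∂Measure.haar = ca * avg L (fun k => φ (k * a))) →
      (∀ φ : G → ℝ, RInv L φ →
      ∫ y, ind (dc L b) y * φ y ∂Measure.haar = cb * avg L (fun k => φ (k * b))) →
      ca * (cb * M L a (M L b f) x) = ∫ w, (∫ y, ind (dc L a) y *
        ind (dc L b) (y⁻¹ * w) ∂Measure.haar) * f (x * w) ∂Measure.haar := by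
    intro a b ca cb ha hb
    have h1 : ca * (cb * M L a (M L b f) x) = cb * (ca * M L a (M L b f) x) := by ring
    rw [h1, hM a ca ha _ (hMFA.rinv G L hL f hf b), ← integral_const_mul]
    have h2 : ∀ y, cb * (ind (dc L a) y * M L b f (x * y)) =
        ∫ w, ind (dc L a) y * ind (dc L b) (y⁻¹ * w) * f (x * w) ∂Measure.haar := by
      intro y
      have h3 : cb * (ind (dc L a) y * M L b f (x * y)) =
          ind (dc L a) y * (cb * M L b f (x * y)) := by ring
      rw [h3, hM b cb hb f hf (x * y)]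
      have h4 := integral_mul_left_eq_self (μ := Measure.haar)
        (fun w => ind (dc L b) (y⁻¹ * w) * f (x * w)) y
      have h5 : (fun w => ind (dc L b) (y⁻¹ * (y * w)) * f (x * (y * w))) =
          fun w => ind (dc L b) w * f (x * y * w) := by
        funext w
        rw [← mul_assoc y⁻¹, inv_mul_cancel, one_mul, mul_assoc x]
      rw [h5] at h4
      rw [h4, ← integral_const_mul]
      congr 1
      funext w
      ring
    simp_rw [h2]
    rw [integral_integral_swap_of_hasCompactSupport]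
    · congr 1
      funext w
      rw [← integral_mul_const]
    · have hfc : Continuous f := rinv_cont hL.1 hf
      have h6 : Continuous fun p : G × G =>
          ind (dc L a) p.1 * ind (dc L b) (p.1⁻¹ * p.2) * f (x * p.2) :=
        (((hc a).comp continuous_fst).mul ((hc b).comp (by fun_prop))).mul
          (hfc.comp (by fun_prop))
      exact h6
    · have h7 : IsCompact ((fun p : G × G => (p.1, p.1 * p.2)) '' (dc L a ×ˢ dc L b)) :=
        ((dc_compact hL a).prod (dc_compact hL b)).image (by fun_prop)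
      refine HasCompactSupport.intro h7 ?_
      rintro ⟨y, w⟩ hyw
      show ind (dc L a) y * ind (dc L b) (y⁻¹ * w) * f (x * w) = 0
      by_cases hy : y ∈ dc L a
      · by_cases hw : y⁻¹ * w ∈ dc L b
        · refine absurd ⟨(y, y⁻¹ * w), ⟨hy, hw⟩, ?_⟩ hyw
          show (y, y * (y⁻¹ * w)) = (y, w)
          rw [← mul_assoc, mul_inv_cancel, one_mul]
        · have e : ind (dc L b) (y⁻¹ * w) = 0 := if_neg hw
          rw [e, mul_zero, zero_mul]
      · have e : ind (dc L a) y = 0 := if_neg hy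
        rw [e, zero_mul, zero_mul]
  have e1 := hdouble a b ca cb hma hmb
  have e2 := hdouble b a cb ca hmb hma
  have e3 : ∀ w, ∫ y, ind (dc L a) y * ind (dc L b) (y⁻¹ * w) ∂Measure.haar =
      ∫ y, ind (dc L b) y * ind (dc L a) (y⁻¹ * w) ∂Measure.haar := fun w =>
    hK.2 _ _ (hc a) (hs a) (hc b) (hs b) (hR a) (hLI a) (hR b) (hLI b) w
  simp_rw [e3] at e1
  rw [← e2] at e1
  have h8 : ca * cb * M L a (M L b f) x = ca * cb * M L b (M L a f) x := by
    linarith
  exact mul_left_cancel₀ (mul_pos hca hcb).ne' h8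

end Pool.Agent.Lib.MP7d449a.GP
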