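import Pool.Agent.Lib.MP_7d449a_al.GP.Spec

/-!
# Module GRN: a bi-`K`-invariant positive eigenfunction
-/

set_option autoImplicit false

open Filter Topology Pointwise

namespace Pool.Agent.Lib.MP7d449a.GP

universe u

namespace GRNM

variable {G : Type u} [Group G] [TopologicalSpace G] [IsTopologicalGroup G] {K : Subgroup G}

/-- `M_g f (x)` as a finite sum -/
theorem Mform (hAVG : SpecAVG.{u}) (hMFA : SpecMFA.{u}) (hK : CO K) (g : G) :
    ∃ (ι : Type u) (_ : Fintype ι) (p : ι → G) (c : ℝ), 0 ≤ c ∧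
      ∀ f : G → ℝ, RInv K f → ∀ x, M K g f x = c * ∑ i, f (x * p i) := by
  classical
  have hidx := (hMFA.idx G K K hK hK g).1
  have hVK : Vg K K g ≤ K := inf_le_left
  have hi : ((Vg K K g).subgroupOf K).index ≠ 0 := hidx
  let _ : Fintype (K ⧸ (Vg K K g).subgroupOf K) := Subgroup.fintypeOfIndexNeZero hi
  refine ⟨K ⧸ (Vg K K g).subgroupOf K, inferInstance,
    fun q => ((Quotient.out q : K) : G) * g, ((Vg K K g).relIndex K : ℝ)⁻¹, by positivity,
    fun f hf x => ?_⟩
  have h := hAVG.form G K (Vg K K g) (fun k => f (x * k * g)) hVK hidx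
    (fun k hk v hv => hMFA.inva G K K f hf x g k hk v hv)
  unfold M
  rw [h, finsum_eq_sum_of_fintype, div_eq_inv_mul]
  congr 1
  exact Finset.sum_congr rfl fun q _ => by rw [mul_assoc]

theorem Mtendsto (hAVG : SpecAVG.{u}) (hMFA : SpecMFA.{u}) (hK : CO K) (g : G) {α : Type*}
    (F : Filter α) (f : α → G → ℝ) (f₀ : G → ℝ) (hf : ∀ a, RInv K (f a)) (hf₀ : RInv K f₀)
    (h : ∀ x, Tendsto (fun a => f a x) F (𝓝 (f₀ x))) (x : G) :
    Tendsto (fun a => M K g (f a) x) F (𝓝 (M K g f₀ x)) := by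
  obtain ⟨ι, _, p, c, -, hM⟩ := Mform hAVG hMFA hK g
  rw [hM f₀ hf₀ x]
  have : (fun a => M K g (f a) x) = fun a => c * ∑ i, f a (x * p i) :=
    funext fun a => hM (f a) (hf a) x
  rw [this]
  exact (tendsto_finsetSum _ fun i _ => h _).const_mul c

theorem Ttendsto (hAVG : SpecAVG.{u}) (hMFA : SpecMFA.{u}) (hK : CO K) (S : Finset G) {α : Type*}
    (F : Filter α) (f : α → G → ℝ) (f₀ : G → ℝ) (hf : ∀ a, RInv K (f a)) (hf₀ : RInv K f₀)
    (h : ∀ x, Tendsto (fun a => f a x) F (𝓝 (f₀ x))) (x : G) :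
    Tendsto (fun a => T K S (f a) x) F (𝓝 (T K S f₀ x)) := by
  unfold T
  exact tendsto_finsetSum _ fun s _ => Mtendsto hAVG hMFA hK s F f f₀ hf hf₀ h x

theorem M_nonneg (hAVG : SpecAVG.{u}) (hMFA : SpecMFA.{u}) (hK : CO K) (g : G) {f : G → ℝ}
    (hf : RInv K f) (h : ∀ x, 0 ≤ f x) (x : G) : 0 ≤ M K g f x := by
  obtain ⟨ι, _, p, c, hc, hM⟩ := Mform hAVG hMFA hK g
  rw [hM f hf x]
  exact mul_nonneg hc (Finset.sum_nonneg fun i _ => h _)

theorem T_rinv (hMFA : SpecMFA.{u}) (hK : CO K) (S : Finset G) {f : G → ℝ} (hf : RInv K f) :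
    RInv K (T K S f) := by
  intro x k hk
  unfold T
  exact Finset.sum_congr rfl fun s _ => hMFA.rinv G K hK f hf s x k hk

theorem T_linv (hMFA : SpecMFA.{u}) (hK : CO K) (S : Finset G) {f : G → ℝ} (hf : RInv K f)
    (hf' : LInv K f) : LInv K (T K S f) := by
  intro x k hk
  unfold T
  exact Finset.sum_congr rfl fun s _ => hMFA.linv G K K hK f hf hf' s x k hk

theorem M_le (hAVG : SpecAVG.{u}) (hMFA : SpecMFA.{u}) (hK : CO K) (g : G) {f : G → ℝ}
    (hf : RInv K f) (x : G) (B : ℝ) (h : ∀ k ∈ K, f (x * k * g) ≤ B) : M K g f x ≤ B := by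
  have h1 := hAVG.mono G K (fun k => f (x * k * g)) (fun _ => B) (hMFA.fi G K K hK hK f hf x g)
    ⟨K, le_rfl, by rw [Subgroup.relIndex_self]; exact one_ne_zero, fun _ _ _ _ => rfl⟩ h
  rwa [hAVG.const G K B] at h1

end GRNM

open GRNM

theorem specGRN (hAVG : SpecAVG.{u}) (hMFA : SpecMFA.{u}) (hHAR : SpecHAR.{u}) : SpecGRN.{u} := by
  classical
  intro G _ _ _ K S l hK hnc hS hcl hl
  have hc0 : (0 : ℝ) ≤ S.card := Nat.cast_nonneg _
  have hl0 : 0 < l := by linarith
  -- the powers
  let e : ℕ → G → ℝ := fun n => Nat.rec (fun x => if x ∈ K then (1 : ℝ) else 0)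
    (fun _ f => T K S f) n
  have e0 : ∀ x, e 0 x = if x ∈ K then (1 : ℝ) else 0 := fun x => rfl
  have eS : ∀ n, e (n + 1) = T K S (e n) := fun n => rfl
  have e_rinv : ∀ n, RInv K (e n) := by
    intro n
    induction n with
    | zero =>
      intro x k hk
      rw [e0, e0]
      simp only [K.mul_mem_cancel_right hk]
    | succ n ih =>
      rw [eS]
      exact T_rinv hMFA hK S ih
  have e_linv : ∀ n, LInv K (e n) := by
    intro n
    induction n with
    | zero =>
      intro x k hk
      rw [e0, e0]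
      simp only [K.mul_mem_cancel_left hk]
    | succ n ih =>
      rw [eS]
      exact T_linv hMFA hK S (e_rinv n) ih
  have e_nonneg : ∀ n x, 0 ≤ e n x := by
    intro n
    induction n with
    | zero =>
      intro x
      rw [e0]
      split_ifs <;> norm_num
    | succ n ih =>
      intro x
      rw [eS]
      exact Finset.sum_nonneg fun s _ => M_nonneg hAVG hMFA hK s (e_rinv n) ih x
  have e_le : ∀ n x, e n x ≤ (S.card : ℝ) ^ n := by
    intro n
    induction n with
    | zero =>
      intro x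
      rw [e0, pow_zero]
      split_ifs <;> norm_num
    | succ n ih =>
      intro x
      rw [eS]
      calc T K S (e n) x ≤ ∑ s ∈ S, (S.card : ℝ) ^ n := by
            unfold T
            exact Finset.sum_le_sum fun s _ =>
              M_le hAVG hMFA hK s (e_rinv n) x _ fun k _ => ih _
        _ = (S.card : ℝ) ^ (n + 1) := by
            rw [Finset.sum_const, nsmul_eq_mul, pow_succ]
            ring
  -- the Green function
  have hsum : ∀ x, Summable fun n => l⁻¹ ^ n * e n x := by
    intro x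
    have hr : Summable fun n : ℕ => ((S.card : ℝ) / l) ^ n :=
      summable_geometric_of_lt_one (by positivity) ((div_lt_one hl0).2 hl)
    refine Summable.of_nonneg_of_le (fun n => mul_nonneg (by positivity) (e_nonneg n x))
      (fun n => ?_) hr
    rw [div_pow, div_eq_inv_mul, inv_pow]
    exact mul_le_mul_of_nonneg_left (e_le n x) (by positivity)
  let g : G → ℝ := fun x => ∑' n, l⁻¹ ^ n * e n x
  let gN : ℕ → G → ℝ := fun N x => ∑ n ∈ Finset.range N, l⁻¹ ^ n * e n x
  have hg : ∀ x, Tendsto (fun N => gN N x) atTop (𝓝 (g x)) := fun x =>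
    (hsum x).hasSum.tendsto_sum_nat
  have g_rinv : RInv K g := fun x k hk => tsum_congr fun n => by rw [e_rinv n x k hk]
  have g_linv : LInv K g := fun x k hk => tsum_congr fun n => by rw [e_linv n x k hk]
  have gN_rinv : ∀ N, RInv K (gN N) := fun N x k hk =>
    Finset.sum_congr rfl fun n _ => by rw [e_rinv n x k hk]
  have g_nonneg : ∀ x, 0 ≤ g x := fun x =>
    tsum_nonneg fun n => mul_nonneg (by positivity) (e_nonneg n x)
  have g_one : 1 ≤ g 1 := by
    have h := (hsum 1).le_tsum 0 fun n _ => mul_nonneg (by positivity) (e_nonneg n 1)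
    rw [pow_zero, one_mul, e0, if_pos K.one_mem] at h
    exact h
  have T_gN : ∀ N x, T K S (gN N) x = l * (gN (N + 1) x - e 0 x) := by
    intro N x
    have h1 : ∀ s, M K s (gN N) x = ∑ n ∈ Finset.range N, l⁻¹ ^ n * M K s (e n) x := by
      intro s
      obtain ⟨ι, _, p, c, -, hM⟩ := Mform hAVG hMFA hK s
      have h2 : ∀ n, M K s (e n) x = c * ∑ i, e n (x * p i) := fun n => hM _ (e_rinv n) x
      rw [hM _ (gN_rinv N) x]
      simp only [h2, gN]
      rw [Finset.sum_comm, Finset.mul_sum]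
      refine Finset.sum_congr rfl fun n _ => ?_
      rw [← Finset.mul_sum]
      ring
    unfold T
    rw [Finset.sum_congr rfl fun s _ => h1 s, Finset.sum_comm]
    simp only [gN]
    rw [Finset.sum_range_succ' (fun n => l⁻¹ ^ n * e n x) N, pow_zero, one_mul, add_sub_cancel_right,
      Finset.mul_sum]
    refine Finset.sum_congr rfl fun n _ => ?_
    rw [← Finset.mul_sum, eS, pow_succ]
    unfold T
    field_simp
  have T_g : ∀ x, T K S g x = l * (g x - e 0 x) := by
    intro x
    have h1 := Ttendsto hAVG hMFA hK S atTop gN g gN_rinv g_rinv hg x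
    have h2 : Tendsto (fun N => l * (gN (N + 1) x - e 0 x)) atTop (𝓝 (l * (g x - e 0 x))) :=
      (((hg x).comp (tendsto_add_atTop_nat 1)).sub_const _).const_mul l
    have h3 : (fun N => T K S (gN N) x) = fun N => l * (gN (N + 1) x - e 0 x) :=
      funext fun N => T_gN N x
    rw [h3] at h1
    exact tendsto_nhds_unique h1 h2
  choose C hC0 hC using hHAR G K S l hK hS hcl hl0
  have hCg : ∀ y x, g (x * y) ≤ C y * g x := fun y x =>
    hC y g g_rinv g_nonneg (fun x => by
      rw [T_g x]
      nlinarith [e_nonneg 0 x, mul_nonneg hl0.le (e_nonneg 0 x)]) x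
  have g_pos : ∀ x, 0 < g x := by
    intro x
    have h := hCg x⁻¹ x
    rw [mul_inv_cancel] at h
    by_contra hcon
    have h0 : g x = 0 := le_antisymm (not_lt.1 hcon) (g_nonneg x)
    rw [h0, mul_zero] at h
    linarith
  -- the functions `Φ_z`
  let Φ : G → G → ℝ := fun z x => M K x g z / g z
  have Φ_nonneg : ∀ z x, 0 ≤ Φ z x := fun z x =>
    div_nonneg (M_nonneg hAVG hMFA hK x g_rinv g_nonneg z) (g_nonneg z)
  have Φ_rinv : ∀ z, RInv K (Φ z) := by
    intro z x k hk
    have h := hMFA.bi G K hK g g_rinv x z 1 K.one_mem k hk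
    rw [one_mul] at h
    simp only [Φ, h]
  have Φ_linv : ∀ z, LInv K (Φ z) := by
    intro z x k hk
    have h := hMFA.bi G K hK g g_rinv x z k hk 1 K.one_mem
    rw [mul_one] at h
    simp only [Φ, h]
  have Φ_one : ∀ z, Φ z 1 = 1 := by
    intro z
    simp only [Φ]
    rw [hMFA.one G K hK g g_rinv z, div_self (g_pos z).ne']
  have Φ_le : ∀ z x, Φ z x ≤ C x := by
    intro z x
    simp only [Φ]
    rw [div_le_iff₀ (g_pos z)]
    apply M_le hAVG hMFA hK x g_rinv z
    intro k hk
    refine (hCg x (z * k)).trans (le_of_eq ?_)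
    rw [g_rinv z k hk]
  have Φ_eig : ∀ z x, (∀ k ∈ K, z * k * x ∉ K) → T K S (Φ z) x = l * Φ z x := by
    intro z x hzx
    have h1 : ∀ s, M K s (Φ z) x = (g z)⁻¹ * M K x (M K s g) z := by
      intro s
      rw [hMFA.fub G K hK g g_rinv x s z]
      have h2 : M K s (Φ z) x = avg K (fun k => (g z)⁻¹ * M K (x * k * s) g z) := by
        unfold M
        congr 1
        funext k
        simp only [Φ]
        rw [div_eq_inv_mul]
        rfl
      rw [h2]
      apply hAVG.smul
      have h3 := hMFA.fi G K K hK hK (Φ z) (Φ_rinv z) x s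
      have h4 : (fun k => M K (x * k * s) g z) = fun k => (g z) * Φ z (x * k * s) := by
        funext k
        simp only [Φ]
        rw [mul_div_cancel₀ _ (g_pos z).ne']
      rw [h4]
      obtain ⟨V, a1, a2, a3⟩ := h3
      refine ⟨V, a1, a2, fun k hk v hv => ?_⟩
      have h9 := a3 k hk v hv
      dsimp only at h9 ⊢
      rw [h9]
    have h5 : T K S (Φ z) x = (g z)⁻¹ * M K x (T K S g) z := by
      have h6 := hMFA.sum G K hK G S (fun s => M K s g)
        (fun s _ => hMFA.rinv G K hK g g_rinv s) x z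
      unfold T
      rw [h6, Finset.mul_sum]
      exact Finset.sum_congr rfl fun s _ => h1 s
    have h7 : M K x (T K S g) z = l * M K x g z := by
      obtain ⟨ι, _, p, c, -, hM⟩ := Mform hAVG hMFA hK x
      have h8 : M K x (e 0) z = 0 := by
        apply le_antisymm
        · apply M_le hAVG hMFA hK x (e_rinv 0) z
          intro k hk
          rw [e0, if_neg (hzx k hk)]
        · exact M_nonneg hAVG hMFA hK x (e_rinv 0) (e_nonneg 0) z
      rw [hM _ (e_rinv 0) z] at h8
      rw [hM _ (T_rinv hMFA hK S g_rinv) z, hM _ g_rinv z]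
      simp only [T_g]
      rw [← Finset.mul_sum, Finset.sum_sub_distrib]
      have : c * (l * (∑ i, g (z * p i) - ∑ i, e 0 (z * p i))) =
          l * (c * ∑ i, g (z * p i)) - l * (c * ∑ i, e 0 (z * p i)) := by ring
      rw [this, h8]
      ring
    rw [h5, h7]
    simp only [Φ]
    rw [div_eq_inv_mul]
    ring
  -- the limit
  have : NoncompactSpace G := not_compactSpace_iff.1 hnc
  let F : Ultrafilter G := Ultrafilter.of (cocompact G)
  have hF : (F : Filter G) ≤ cocompact G := Ultrafilter.of_le _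
  have hlim : ∀ x, ∃ y : ℝ, Tendsto (fun z => Φ z x) F (𝓝 y) := by
    intro x
    obtain ⟨y, -, hy⟩ := (isCompact_Icc (a := (0 : ℝ)) (b := C x)).ultrafilter_le_nhds'
      (F.map fun z => Φ z x) (by
        rw [Ultrafilter.mem_map]
        have : (fun z => Φ z x) ⁻¹' Set.Icc 0 (C x) = Set.univ :=
          Set.eq_univ_of_forall fun z => ⟨Φ_nonneg z x, Φ_le z x⟩
        rw [this]
        exact univ_mem)
    exact ⟨y, hy⟩
  choose w hw using hlim
  have w_rinv : RInv K w := by
    intro x k hk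
    have h1 := hw (x * k)
    have h2 : (fun z => Φ z (x * k)) = fun z => Φ z x := funext fun z => Φ_rinv z x k hk
    rw [h2] at h1
    exact tendsto_nhds_unique h1 (hw x)
  refine ⟨w, w_rinv, ?_, ?_, ?_, ?_⟩
  · intro x k hk
    have h1 := hw (k * x)
    have h2 : (fun z => Φ z (k * x)) = fun z => Φ z x := funext fun z => Φ_linv z x k hk
    rw [h2] at h1
    exact tendsto_nhds_unique h1 (hw x)
  · intro x
    exact ge_of_tendsto' (hw x) fun z => Φ_nonneg z x
  · have h1 := hw 1
    have h2 : (fun z => Φ z 1) = fun _ => (1 : ℝ) := funext fun z => Φ_one z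
    rw [h2] at h1
    exact tendsto_nhds_unique h1 tendsto_const_nhds
  · intro x
    have h1 := Ttendsto hAVG hMFA hK S (F : Filter G) Φ w Φ_rinv w_rinv hw x
    have h2 : Tendsto (fun z => l * Φ z x) F (𝓝 (l * w x)) := (hw x).const_mul l
    have hcomp : IsCompact ((K : Set G) * {x⁻¹} * (K : Set G)) :=
      (hK.2.mul isCompact_singleton).mul hK.2
    have h3 : (fun z => T K S (Φ z) x) =ᶠ[(F : Filter G)] fun z => l * Φ z x := by
      filter_upwards [hF hcomp.compl_mem_cocompact] with z hz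
      apply Φ_eig
      intro k hk hmem
      apply hz
      refine ⟨z * k * x * x⁻¹, ⟨z * k * x, hmem, x⁻¹, rfl, rfl⟩, k⁻¹, K.inv_mem hk, ?_⟩
      simp
    exact tendsto_nhds_unique (h1.congr' h3) h2

end Pool.Agent.Lib.MP7d449a.GP
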