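import Pool.Agent.Lib.MP_7d449a_al.GP.Spec

/-! # HER: the cone is hereditary (helper94) -/

set_option autoImplicit false

namespace Pool.Agent.Lib.MP7d449a.GP

universe u

theorem specHER (h : SpecMFA.{u}) : SpecHER.{u} := by
  intro G _ _ _ K S l χ hK hχ u v hu hv hv0 hvu hT
  refine ⟨hv0, hv, fun g x => ?_⟩
  have hmono : ∀ g x, 0 ≤ M K g v x := by
    intro g x
    have h1 := h.mono G K hK (fun y => 0 * v y) v
      (fun y k hk => by show 0 * v (y * k) = 0 * v y; rw [zero_mul, zero_mul]) hv
      (fun y => by rw [zero_mul]; exact hv0 y) g x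
    rw [h.smul G K hK v hv 0 g x, zero_mul] at h1
    exact h1
  have key := hχ.ext (fun g => M K g v x) ?_ ?_ (fun g => hmono g x) ?_ ⟨u x, ?_⟩ g
  · beta_reduce at key
    rw [h.one G K hK v hv x, mul_comm] at key
    exact key
  · intro g k hk
    have h1 := h.bi G K hK v hv g x 1 K.one_mem k hk
    rw [one_mul] at h1
    exact h1
  · intro g k hk
    have h1 := h.bi G K hK v hv g x k hk 1 K.one_mem
    rw [mul_one] at h1
    exact h1
  · intro g
    have h1 : ∀ s, M K s (fun g => M K g v x) g = M K g (M K s v) x := fun s =>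
      (h.fub G K hK v hv g s x).symm
    have h2 := h.sum G K hK G S (fun s => M K s v) (fun s _ => h.rinv G K hK v hv s) g x
    have h3 : (fun y => ∑ s ∈ S, M K s v y) = fun y => l * v y := by
      funext y
      exact hT y
    rw [h3, h.smul G K hK v hv l g x] at h2
    show ∑ s ∈ S, M K s (fun g => M K g v x) g = l * M K g v x
    rw [Finset.sum_congr rfl fun s _ => h1 s]
    exact h2.symm
  · intro g
    have h1 := h.mono G K hK v u hv hu.rinv hvu g x
    rw [hu.eig g x, mul_comm] at h1
    exact h1

end Pool.Agent.Lib.MP7d449a.GP
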