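import Pool.Agent.Lib.MP_7d449a_al.GP.Spec2

/-!
# MP_7d449a_al, Gelfand pairs: module HM2

If the closed cocompact normal subgroup `B` lies in `stab f` then there is an open normal subgroup of
infinite index.
-/

set_option autoImplicit false

open Filter Topology
open scoped Pointwise

namespace Pool.Agent.Lib.MP7d449a.GP

universe u

namespace HM2M

/-- An open subgroup containing `B` has finitely many right cosets, `G = B Q` with `Q` compact. -/
theorem cosets {G : Type u} [Group G] [TopologicalSpace G] [IsTopologicalGroup G]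
    {B O : Subgroup G} {Q : Set G} (hQ : IsCompact Q) (hBQ : ∀ g : G, ∃ b ∈ B, ∃ q ∈ Q, g = b * q)
    (hO : IsOpen (O : Set G)) (hBO : B ≤ O) : ∃ t : Finset G, ∀ g : G, ∃ s ∈ t, g * s⁻¹ ∈ O := by
  obtain ⟨t, ht⟩ := hQ.elim_finite_subcover (fun s : G => {x : G | x * s⁻¹ ∈ O})
    (fun s => hO.preimage (continuous_id.mul continuous_const))
    (fun c _ => Set.mem_iUnion.2 ⟨c, by simp⟩)
  refine ⟨t, fun g => ?_⟩
  obtain ⟨b, hb, q, hq, rfl⟩ := hBQ g
  obtain ⟨s, hs, h⟩ := Set.mem_iUnion₂.1 (ht hq)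
  refine ⟨s, hs, ?_⟩
  rw [mul_assoc]
  exact O.mul_mem (hBO hb) h

theorem finIdx {G : Type u} [Group G] {O : Subgroup G} {t : Finset G}
    (ht : ∀ g : G, ∃ s ∈ t, g * s⁻¹ ∈ O) : O.FiniteIndex := by
  have h1 : Finite (G ⧸ O) := by
    refine Finite.of_surjective (fun s : t => (QuotientGroup.mk (s.1⁻¹) : G ⧸ O)) fun q => ?_
    obtain ⟨g, rfl⟩ := QuotientGroup.mk_surjective q
    obtain ⟨s, hs, h⟩ := ht g⁻¹
    refine ⟨⟨s, hs⟩, ?_⟩
    rw [QuotientGroup.eq]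
    have h2 : (s⁻¹)⁻¹ * g = (g⁻¹ * s⁻¹)⁻¹ := by group
    change (s⁻¹)⁻¹ * g ∈ O
    rw [h2]
    exact O.inv_mem h
  exact Subgroup.finiteIndex_of_finite_quotient

section

variable {G : Type u} [Group G] {f : G → ℝ}

theorem pow_eq {p : G} (h1 : f 1 = 1) (hp : ∀ x, f (p * x) = f p * f x) (n : ℕ) :
    f (p ^ n) = f p ^ n := by
  induction n with
  | zero => simp [h1]
  | succ n ih => rw [pow_succ', hp, ih, pow_succ']

/-- The subgroup of the elements which preserve `f` on `B`. -/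
def G2 (B : Subgroup G) [hB : B.Normal] (f : G → ℝ) : Subgroup G where
  carrier := {g | ∀ b ∈ B, f (g * b * g⁻¹) = f b}
  mul_mem' := by
    intro g h hg hh b hb
    have e : g * h * b * (g * h)⁻¹ = g * (h * b * h⁻¹) * g⁻¹ := by group
    rw [e, hg _ (hB.conj_mem b hb h), hh b hb]
  one_mem' := by
    intro b _
    simp
  inv_mem' := by
    intro g hg b hb
    have h1 := hg (g⁻¹ * b * g⁻¹⁻¹) (hB.conj_mem b hb g⁻¹)
    rw [← h1]
    congr 1
    group

theorem mem_G2 {B : Subgroup G} [B.Normal] {f : G → ℝ} {g : G} :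
    g ∈ G2 B f ↔ ∀ b ∈ B, f (g * b * g⁻¹) = f b := Iff.rfl

end

/-- The cocycle. -/
noncomputable def ph {G : Type u} [Group G] (f : G → ℝ) (g x : G) : ℝ :=
  Real.log (f (x * g)) - Real.log (f x)

end HM2M

open HM2M in
theorem specHM2 (hAVG : SpecAVG.{u}) (_ : SpecMFA.{u}) (hCGB : SpecCGB.{u}) :
    SpecHM2.{u} := by
  classical
  intro G _ _ _ K B f Q hK hf hBn hBc hfB hCG hQ hBQ
  have hpos := hf.pos
  have hne : ∀ x, f x ≠ 0 := fun x => (hpos x).ne'
  -- an element of `stab f`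
  obtain ⟨g₀, hg₀⟩ := hf.big
  obtain ⟨k₀, hk₀, hp⟩ := hf.dec g₀
  have hfp : 1 < f (g₀ * k₀) := by rw [hf.rinv g₀ k₀ hk₀]; exact hg₀
  have hBK : IsOpen ((B ⊔ K : Subgroup G) : Set G) := Subgroup.isOpen_mono le_sup_right hK.1
  obtain ⟨t₁, ht₁⟩ := cosets hQ hBQ hBK le_sup_left
  have hfi₁ : (B ⊔ K).FiniteIndex := finIdx ht₁
  obtain ⟨m, hm, _, hmem⟩ := Subgroup.exists_pow_mem_of_index_ne_zero hfi₁.index_ne_zero (g₀ * k₀)
  have hmem2 : (g₀ * k₀) ^ m ∈ ((B ⊔ K : Subgroup G) : Set G) := hmem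
  rw [Subgroup.normal_mul] at hmem2
  obtain ⟨b₀, hb₀, k, hk, hbk⟩ := hmem2
  have hfb₀ : 1 < f b₀ := by
    have h1 : f (b₀ * k) = f b₀ := hf.rinv b₀ k hk
    rw [← h1]
    change 1 < f ((fun x1 x2 => x1 * x2) b₀ k)
    rw [hbk, pow_eq hf.one hp]
    exact one_lt_pow₀ hfp hm.ne'
  have hinvB : ∀ b ∈ B, f b⁻¹ = (f b)⁻¹ := by
    intro b hb
    have h1 := hfB b hb b⁻¹
    rw [mul_inv_cancel, hf.one] at h1
    exact eq_inv_of_mul_eq_one_right h1.symm
  -- `G₂` is open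
  have hBG2 : B ≤ G2 B f := by
    intro a ha b hb
    rw [mul_assoc, hfB a ha, hfB b hb, hinvB a ha]
    have := hne a
    field_simp
  obtain ⟨D, hD, hDB, hDcl⟩ := hCGB G B Q hCG hBc hQ hBQ
  have hG2o : IsOpen ((G2 B f : Subgroup G) : Set G) := by
    obtain ⟨t, ht⟩ := hD.elim_finite_subcover (fun s : G => {x : G | s⁻¹ * x ∈ K})
      (fun s => hK.1.preimage (continuous_const.mul continuous_id))
      (fun c _ => Set.mem_iUnion.2 ⟨c, by simp⟩)
    refine Subgroup.isOpen_of_mem_nhds (g := 1) _ ?_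
    have h1 : (⋂ s ∈ t, {v : G | s⁻¹ * v * s ∈ K}) ∈ 𝓝 (1 : G) := by
      refine (Filter.biInter_finset_mem t).2 fun s _ => ?_
      refine IsOpen.mem_nhds (hK.1.preimage
        ((continuous_const.mul continuous_id).mul continuous_const)) ?_
      change s⁻¹ * 1 * s ∈ K
      simp
    have h2 : (K : Set G) ∈ 𝓝 (1 : G) := hK.1.mem_nhds K.one_mem
    filter_upwards [h1, h2] with v hv hvK
    change v ∈ G2 B f
    rw [mem_G2]
    have hv' : ∀ s ∈ t, s⁻¹ * v * s ∈ K := fun s hs => Set.mem_iInter₂.1 hv s hs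
    intro b hb
    rw [← hDcl] at hb
    have key : b ∈ B ∧ f (v * b * v⁻¹) = f b := by
      induction hb using Subgroup.closure_induction with
      | mem d hd =>
        refine ⟨hDB hd, ?_⟩
        obtain ⟨s, hs, h⟩ := Set.mem_iUnion₂.1 (ht hd)
        have h : s⁻¹ * d ∈ K := h
        rw [hf.rinv (v * d) v⁻¹ (K.inv_mem hvK)]
        have e : v * d = d * ((s⁻¹ * d)⁻¹ * (s⁻¹ * v * s) * (s⁻¹ * d)) := by group
        rw [e]
        exact hf.rinv d _ (K.mul_mem (K.mul_mem (K.inv_mem h) (hv' s hs)) h)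
      | one => exact ⟨B.one_mem, by simp⟩
      | mul a c _ _ ha hc =>
        refine ⟨B.mul_mem ha.1 hc.1, ?_⟩
        have e : v * (a * c) * v⁻¹ = (v * a * v⁻¹) * (v * c * v⁻¹) := by group
        rw [e, hfB _ (hBn.conj_mem a ha.1 v), ha.2, hc.2, hfB a ha.1]
      | inv a _ ha =>
        refine ⟨B.inv_mem ha.1, ?_⟩
        have e : v * a⁻¹ * v⁻¹ = (v * a * v⁻¹)⁻¹ := by group
        rw [e, hinvB _ (hBn.conj_mem a ha.1 v), ha.2, hinvB a ha.1]
    exact key.2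
  obtain ⟨t, ht⟩ := cosets hQ hBQ hG2o hBG2
  -- the cocycle is right invariant
  have hphB : ∀ g x : G, ∀ b ∈ B, ph f g (x * b) = ph f g x := by
    intro g x b hb
    have hc := hBn.conj_mem b hb x
    have e1 : x * b * g = (x * b * x⁻¹) * (x * g) := by group
    have e2 : x * b = (x * b * x⁻¹) * x := by group
    unfold ph
    rw [e1, hfB _ hc, Real.log_mul (hne _) (hne _)]
    rw [show Real.log (f (x * b)) = Real.log (f (x * b * x⁻¹)) + Real.log (f x) from by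
      conv_lhs => rw [e2, hfB _ hc, Real.log_mul (hne _) (hne _)]]
    ring
  have hphV : ∀ g x : G, ∀ v ∈ Vg K K g, ph f g (x * v) = ph f g x := by
    intro g x v hv
    obtain ⟨hvK, hv2⟩ := Subgroup.mem_inf.1 hv
    obtain ⟨c, hc, hcv⟩ := Subgroup.mem_map.1 hv2
    have hcv : g * c * g⁻¹ = v := hcv
    unfold ph
    have e1 : x * v * g = (x * g) * c := by rw [← hcv]; group
    rw [e1, hf.rinv _ c hc, hf.rinv x v hvK]
  have hVgo : ∀ g : G, IsOpen ((Vg K K g : Subgroup G) : Set G) := by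
    intro g
    refine Subgroup.isOpen_of_mem_nhds (g := 1) _ ?_
    have h2 : (K : Set G) ∈ 𝓝 (1 : G) := hK.1.mem_nhds K.one_mem
    have h3 : {v : G | g⁻¹ * v * g ∈ K} ∈ 𝓝 (1 : G) := by
      refine IsOpen.mem_nhds (hK.1.preimage
        ((continuous_const.mul continuous_id).mul continuous_const)) ?_
      change g⁻¹ * 1 * g ∈ K
      simp
    filter_upwards [h2, h3] with v hv1 hv2
    refine Subgroup.mem_inf.2 ⟨hv1, Subgroup.mem_map.2 ⟨g⁻¹ * v * g, hv2, ?_⟩⟩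
    change g * (g⁻¹ * v * g) * g⁻¹ = v
    group
  have hFI : ∀ g : G, FI (G2 B f) (ph f g) := by
    intro g
    have hWo : IsOpen ((B ⊔ (Vg K K g ⊓ G2 B f) : Subgroup G) : Set G) := by
      refine Subgroup.isOpen_mono (H₁ := Vg K K g ⊓ G2 B f) le_sup_right ?_
      rw [Subgroup.coe_inf]
      exact (hVgo g).inter hG2o
    obtain ⟨t', ht'⟩ := cosets hQ hBQ hWo le_sup_left
    have hfi : (B ⊔ (Vg K K g ⊓ G2 B f)).FiniteIndex := finIdx ht'
    refine ⟨B ⊔ (Vg K K g ⊓ G2 B f), sup_le hBG2 inf_le_right, ?_, ?_⟩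
    · exact (inferInstance :
        ((B ⊔ (Vg K K g ⊓ G2 B f)).subgroupOf (G2 B f)).FiniteIndex).index_ne_zero
    · intro x _ w hw
      have hw2 : w ∈ ((B ⊔ (Vg K K g ⊓ G2 B f) : Subgroup G) : Set G) := hw
      rw [Subgroup.normal_mul] at hw2
      obtain ⟨b, hb, v, hv, rfl⟩ := hw2
      change ph f g (x * (b * v)) = ph f g x
      rw [← mul_assoc, hphV g (x * b) v (Subgroup.mem_inf.1 hv).1, hphB g x b hb]
  -- the homomorphism
  have hadd : ∀ g ∈ G2 B f, ∀ h, avg (G2 B f) (ph f (g * h)) =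
      avg (G2 B f) (ph f g) + avg (G2 B f) (ph f h) := by
    intro g hg h
    obtain ⟨h1, h2⟩ := hAVG.right G (G2 B f) (ph f h) (hFI h) g hg
    rw [add_comm, ← h2, ← hAVG.add G (G2 B f) _ _ h1 (hFI g)]
    refine (hAVG.congr G (G2 B f) _ _ fun x _ => ?_).2
    unfold ph
    rw [mul_assoc]
    ring
  have hK0 : ∀ k ∈ K, avg (G2 B f) (ph f k) = 0 := by
    intro k hk
    rw [(hAVG.congr G (G2 B f) (ph f k) (fun _ => 0) fun x _ => ?_).2]
    · exact hAVG.const G _ 0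
    · unfold ph
      rw [hf.rinv x k hk, sub_self]
  have hBlog : ∀ b ∈ B, avg (G2 B f) (ph f b) = Real.log (f b) := by
    intro b hb
    rw [(hAVG.congr G (G2 B f) (ph f b) (fun _ => Real.log (f b)) fun x hx => ?_).2]
    · exact hAVG.const G _ _
    · unfold ph
      have e2 : x * b = (x * b * x⁻¹) * x := by group
      have h3 : f (x * b * x⁻¹) = f b := mem_G2.1 hx b hb
      conv_lhs => rw [e2, hfB _ (hBn.conj_mem b hb x), h3, Real.log_mul (hne _) (hne _)]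
      ring
  let ρ : G2 B f →* Multiplicative ℝ := MonoidHom.mk'
    (fun g => Multiplicative.ofAdd (avg (G2 B f) (ph f (g : G))))
    (fun g h => by rw [← ofAdd_add, Subgroup.coe_mul, hadd g g.2 h])
  let N₂ : Subgroup G := ρ.ker.map (G2 B f).subtype
  have hmemN : ∀ x, x ∈ N₂ ↔ x ∈ G2 B f ∧ avg (G2 B f) (ph f x) = 0 := by
    intro x
    constructor
    · rintro ⟨y, hy, rfl⟩
      refine ⟨y.2, ?_⟩
      have hy : ρ y = 1 := hy
      exact Multiplicative.ofAdd.injective hy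
    · rintro ⟨h1, h2⟩
      refine ⟨⟨x, h1⟩, ?_, rfl⟩
      change Multiplicative.ofAdd (avg (G2 B f) (ph f x)) = 1
      rw [h2]
      rfl
  have hconjN : ∀ h ∈ G2 B f, ∀ x ∈ N₂, h * x * h⁻¹ ∈ N₂ := by
    rintro h hh x ⟨y, hy, rfl⟩
    refine ⟨⟨h, hh⟩ * y * ⟨h, hh⟩⁻¹, ?_, by simp⟩
    exact (inferInstance : ρ.ker.Normal).conj_mem y hy ⟨h, hh⟩
  have hN₂o : IsOpen (N₂ : Set G) := by
    refine Subgroup.isOpen_mono (H₁ := K ⊓ G2 B f) ?_ ?_
    · intro x hx
      obtain ⟨h1, h2⟩ := Subgroup.mem_inf.1 hx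
      exact (hmemN x).2 ⟨h2, hK0 x h1⟩
    · rw [Subgroup.coe_inf]
      exact hK.1.inter hG2o
  refine ⟨N₂.normalCore, inferInstance, ?_, ?_⟩
  · refine Subgroup.isOpen_of_mem_nhds (g := 1) _ ?_
    have h1 : (⋂ s ∈ t, {v : G | s * v * s⁻¹ ∈ N₂}) ∈ 𝓝 (1 : G) := by
      refine (Filter.biInter_finset_mem t).2 fun s _ => ?_
      refine IsOpen.mem_nhds (hN₂o.preimage
        ((continuous_const.mul continuous_id).mul continuous_const)) ?_
      change s * 1 * s⁻¹ ∈ N₂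
      rw [mul_one, mul_inv_cancel]
      exact N₂.one_mem
    filter_upwards [h1] with v hv
    intro g
    obtain ⟨s, hs, h⟩ := ht g
    have h2 : s * v * s⁻¹ ∈ N₂ := Set.mem_iInter₂.1 hv s hs
    have h3 := hconjN _ h _ h2
    have e : g * s⁻¹ * (s * v * s⁻¹) * (g * s⁻¹)⁻¹ = g * v * g⁻¹ := by group
    rwa [e] at h3
  · intro hfi
    obtain ⟨n, hn, _, hmem⟩ := Subgroup.exists_pow_mem_of_index_ne_zero hfi.index_ne_zero b₀
    have h1 := ((hmemN _).1 (Subgroup.normalCore_le N₂ hmem)).2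
    rw [hBlog _ (B.pow_mem hb₀ n), pow_eq hf.one (hfB b₀ hb₀), Real.log_pow] at h1
    have h2 : 0 < Real.log (f b₀) := Real.log_pos hfb₀
    have h3 : (0 : ℝ) < n := by exact_mod_cast hn
    have h4 := mul_pos h3 h2
    linarith

end Pool.Agent.Lib.MP7d449a.GP
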