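import Pool.Agent.Lib.MP_7d449a_al.GP.Spec

/-! # INA: conjugate subgroups of `P ⊓ K` have the same index -/

set_option autoImplicit false

open Filter Topology

namespace Pool.Agent.Lib.MP7d449a.GP

universe u

/-- an open subgroup has finite index relative to a compact one -/
lemma INAM.fin {G : Type u} [Group G] [TopologicalSpace G] [IsTopologicalGroup G]
    (V A : Subgroup G) (hV : IsOpen (V : Set G)) (hA : IsCompact (A : Set G)) :
    V.relIndex A ≠ 0 := by
  have : CompactSpace A := isCompact_iff_compactSpace.mp hA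
  have hopen : IsOpen ((V.subgroupOf A : Subgroup A) : Set A) :=
    hV.preimage continuous_subtype_val
  have : Finite (A ⧸ V.subgroupOf A) := Subgroup.quotient_finite_of_isOpen _ hopen
  have := Subgroup.finiteIndex_of_finite_quotient (H := V.subgroupOf A)
  exact Subgroup.FiniteIndex.index_ne_zero

theorem specINA : SpecINA.{u} := by
  intro G _ _ _ P K A B hTP _ hA _ hAK hBK r hr hB
  obtain ⟨V, hV, hVA, hVr⟩ := hTP r A (hA.1.mem_nhds A.one_mem)
  have hVA' : V ≤ A := hVA
  have hVB : V ≤ B := by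
    intro x hx
    rw [hB]
    refine ⟨r⁻¹ * x * r, hVA' (hVr x hx).2, ?_⟩
    show r * (r⁻¹ * x * r) * r⁻¹ = x
    group
  have hmapP : P.map (MulAut.conj r).toMonoidHom = P := by
    ext x
    constructor
    · rintro ⟨y, hy, rfl⟩
      exact P.mul_mem (P.mul_mem hr hy) (P.inv_mem hr)
    · intro hx
      refine ⟨r⁻¹ * x * r, P.mul_mem (P.mul_mem (P.inv_mem hr) hx) hr, ?_⟩
      show r * (r⁻¹ * x * r) * r⁻¹ = x
      group
  have hmapV : V.map (MulAut.conj r).toMonoidHom = V := by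
    ext x
    constructor
    · rintro ⟨y, hy, rfl⟩
      exact (hVr y hy).1
    · intro hx
      refine ⟨r⁻¹ * x * r, (hVr x hx).2, ?_⟩
      show r * (r⁻¹ * x * r) * r⁻¹ = x
      group
  have hinj : Function.Injective ((MulAut.conj r).toMonoidHom : G →* G) := (MulAut.conj r).injective
  have hPV : (P ⊓ V).map (MulAut.conj r).toMonoidHom = P ⊓ V := by
    rw [Subgroup.map_inf _ _ _ hinj, hmapP, hmapV]
  have hPA : (P ⊓ A).map (MulAut.conj r).toMonoidHom = P ⊓ B := by
    rw [Subgroup.map_inf _ _ _ hinj, hmapP, hB]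
  have h1 : (P ⊓ V).relIndex (P ⊓ B) = (P ⊓ V).relIndex (P ⊓ A) := by
    have := Subgroup.relIndex_map_map_of_injective (P ⊓ V) (P ⊓ A) hinj
    rwa [hPV, hPA] at this
  have h2 := Subgroup.relIndex_mul_relIndex (P ⊓ V) (P ⊓ A) (P ⊓ K)
    (inf_le_inf_left P hVA') (inf_le_inf_left P hAK)
  have h3 := Subgroup.relIndex_mul_relIndex (P ⊓ V) (P ⊓ B) (P ⊓ K)
    (inf_le_inf_left P hVB) (inf_le_inf_left P hBK)
  have h4 : (P ⊓ V).relIndex (P ⊓ A) ≠ 0 := by
    have h5 := INAM.fin V A hV.1 hA.2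
    have h6 : V.relIndex (P ⊓ A) ≠ 0 := fun h0 =>
      h5 (Subgroup.relIndex_eq_zero_of_le_right inf_le_right h0)
    have h7 : (P ⊓ V) ⊓ (P ⊓ A) = V ⊓ (P ⊓ A) := by
      ext x
      simp only [Subgroup.mem_inf]
      tauto
    rwa [← Subgroup.inf_relIndex_right, h7, Subgroup.inf_relIndex_right]
  rw [h1] at h3
  exact Nat.eq_of_mul_eq_mul_left (Nat.pos_of_ne_zero h4) (h2.trans h3.symm)

end Pool.Agent.Lib.MP7d449a.GP
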