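import Pool.Agent.Lib.MP_7d449a_al.GP.Spec2

/-!
# MP_7d449a_al, Gelfand pairs: module INF

A noncompact group with a Gelfand pair all of whose elements normalise small compact open subgroups
has an infinite discrete quotient.
-/

set_option autoImplicit false

open Filter Topology
open scoped Pointwise

namespace Pool.Agent.Lib.MP7d449a.GP

universe u

namespace INFM

/-- A subset of a compact set is covered by finitely many cosets of an open subgroup. -/
theorem cover {G : Type u} [Group G] [TopologicalSpace G] [IsTopologicalGroup G] {K : Subgroup G}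
    (hK : IsOpen (K : Set G)) {C : Set G} (hC : IsCompact C) :
    ∃ S : Finset G, ∀ c ∈ C, ∃ s ∈ S, s⁻¹ * c ∈ K := by
  obtain ⟨t, ht⟩ := hC.elim_finite_subcover (fun s : G => {x : G | s⁻¹ * x ∈ K})
    (fun s => hK.preimage (continuous_const.mul continuous_id))
    (fun c _ => Set.mem_iUnion.2 ⟨c, by simp⟩)
  refine ⟨t, fun c hc => ?_⟩
  obtain ⟨s, hs, h⟩ := Set.mem_iUnion₂.1 (ht hc)
  exact ⟨s, hs, h⟩

/-- The normal core of an open subgroup of finite index is open. -/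
theorem core_open {G : Type u} [Group G] [TopologicalSpace G] [IsTopologicalGroup G]
    (L : Subgroup G) (hL : IsOpen (L : Set G)) [L.FiniteIndex] :
    IsOpen (L.normalCore : Set G) := by
  have hc : IsClosed (L.normalCore : Set G) := by
    have h1 : (L.normalCore : Set G) = ⋂ b : G, {a : G | b * a * b⁻¹ ∈ L} := by
      ext a
      simp only [Set.mem_iInter, Set.mem_ofPred_eq]
      rfl
    rw [h1]
    refine isClosed_iInter fun b => ?_
    exact (L.isClosed_of_isOpen hL).preimage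
      ((continuous_const.mul continuous_id).mul continuous_const)
  exact Subgroup.isOpen_of_isClosed_of_finiteIndex _ hc

/-- A group generated by a compact set is generated by `K` and a finite symmetric set. -/
theorem gen {G : Type u} [Group G] [TopologicalSpace G] [IsTopologicalGroup G] {K : Subgroup G}
    (hK : IsOpen (K : Set G)) (hG : CG G) :
    ∃ S : Finset G, (∀ s ∈ S, s⁻¹ ∈ S) ∧ Subgroup.closure ((K : Set G) ∪ (S : Set G)) = ⊤ := by
  classical
  obtain ⟨C, hC, hcl⟩ := hG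
  obtain ⟨S0, hS0⟩ := cover hK hC
  refine ⟨S0 ∪ S0.image (fun s => s⁻¹), fun s hs => ?_, ?_⟩
  · rcases Finset.mem_union.1 hs with h | h
    · exact Finset.mem_union_right _ (Finset.mem_image_of_mem _ h)
    · obtain ⟨r, hr, rfl⟩ := Finset.mem_image.1 h
      rw [inv_inv]
      exact Finset.mem_union_left _ hr
  · rw [eq_top_iff, ← hcl]
    refine (Subgroup.closure_le _).2 fun c hc => ?_
    obtain ⟨s, hs, h⟩ := hS0 c hc
    have h1 : c = s * (s⁻¹ * c) := by group
    rw [h1]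
    exact Subgroup.mul_mem _
      (Subgroup.subset_closure (Or.inr (Finset.mem_coe.2 (Finset.mem_union_left _ hs))))
      (Subgroup.subset_closure (Or.inl h))

end INFM

theorem specINF (hSCM : SpecSCM.{u}) (hLSF : SpecLSF.{u}) (hEXT : SpecEXT.{u})
    (hIWA : SpecIWA.{u}) (hRSD : SpecRSD.{u}) (hBPS : SpecBPS.{u}) (hHM2 : SpecHM2.{u}) :
    SpecINF.{u} := by
  classical
  intro G _ _ _ K hCO hGC hTP hCG hnc
  by_contra hno
  have hfin : ∀ N : Subgroup G, N.Normal → IsOpen (N : Set G) → N.FiniteIndex := by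
    intro N h1 h2
    by_contra h3
    exact hno ⟨N, h1, h2, h3⟩
  obtain ⟨S, hS2, hcl2⟩ := INFM.gen hCO.1 hCG
  obtain ⟨χ, hχ⟩ := hEXT G K S ((S.card : ℝ) + 1) hCO hGC hnc hS2 hcl2 (by linarith)
  obtain ⟨f, hf⟩ := hIWA G K S ((S.card : ℝ) + 1) χ hCO hχ (by linarith)
  have hLv := hLSF G K hCO hTP (hSCM G K hCO hGC)
  set 𝒩 : Set (Subgroup G) := {N | N.Normal ∧ IsOpen (N : Set G)} with h𝒩
  set B : Subgroup G := sInf 𝒩 with hB
  have hBle : ∀ N : Subgroup G, N.Normal → IsOpen (N : Set G) → B ≤ N := by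
    intro N h1 h2
    exact sInf_le (show N ∈ 𝒩 from ⟨h1, h2⟩)
  have hBn : B.Normal := by
    refine ⟨fun n hn g => ?_⟩
    rw [hB, Subgroup.mem_sInf] at hn ⊢
    intro N hN
    exact hN.1.conj_mem n (hn N hN) g
  have hBc : IsClosed (B : Set G) := by
    rw [hB, Subgroup.coe_sInf]
    exact isClosed_biInter fun N hN => N.isClosed_of_isOpen hN.2
  obtain ⟨N, hN, hU0⟩ := hRSD G K S hCO hS2 hcl2 𝒩
    ⟨⊤, ⟨inferInstance, by rw [Subgroup.coe_top]; exact isOpen_univ⟩⟩
    (fun N hN => ⟨hN.1, N.isClosed_of_isOpen hN.2⟩)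
    (fun N₁ h₁ N₂ h₂ => ⟨N₁ ⊓ N₂, by
      have := h₁.1
      have := h₂.1
      exact ⟨inferInstance, by rw [Subgroup.coe_inf]; exact h₁.2.inter h₂.2⟩, le_rfl⟩)
  have hKB : IsOpen ((K ⊔ B : Subgroup G) : Set G) := Subgroup.isOpen_mono le_sup_left hCO.1
  have hU0o : IsOpen ((N ⊓ (K ⊔ B) : Subgroup G) : Set G) := by
    rw [Subgroup.coe_inf]
    exact hN.2.inter hKB
  have hU0f : (N ⊓ (K ⊔ B)).FiniteIndex := hfin _ hU0 hU0o
  have hQ : IsCompact ((K : Set G) *
      Set.range (fun q : G ⧸ (N ⊓ (K ⊔ B)) => (Quotient.out q : G))) :=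
    hCO.2.mul (Set.finite_range _).isCompact
  have hGQ : ∀ g : G, ∃ b ∈ B, ∃ q ∈ (K : Set G) *
      Set.range (fun q : G ⧸ (N ⊓ (K ⊔ B)) => (Quotient.out q : G)), g = b * q := by
    intro g
    obtain ⟨h, hh⟩ := QuotientGroup.mk_out_eq_mul (N ⊓ (K ⊔ B)) g
    have h1 : g * (h : G)⁻¹ * g⁻¹ ∈ N ⊓ (K ⊔ B) := hU0.conj_mem _ (inv_mem h.2) g
    have h2 : g * (h : G)⁻¹ * g⁻¹ ∈ ((B ⊔ K : Subgroup G) : Set G) := by
      rw [sup_comm]
      exact (Subgroup.mem_inf.1 h1).2
    rw [Subgroup.normal_mul] at h2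
    obtain ⟨b, hb, k, hk, hbk⟩ := h2
    refine ⟨b, hb, k * (Quotient.out (g : G ⧸ (N ⊓ (K ⊔ B))) : G),
      Set.mul_mem_mul hk (Set.mem_range_self _), ?_⟩
    have h3 : b * k = g * (h : G)⁻¹ * g⁻¹ := hbk
    rw [hh, ← mul_assoc, ← mul_assoc, h3]
    group
  have hBL : ∀ s : G, (B : Set G) ⊆ Lv s := by
    intro s
    obtain ⟨L, hL1, hL2, hL3⟩ := hLv s
    rw [← hL1]
    exact fun b hb => Subgroup.normalCore_le L
      (hBle L.normalCore inferInstance (INFM.core_open L hL2) hb)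
  have hst := hBPS G K B f hCO hTP hf hBn hBc hLv hBL
  exact hno (hHM2 G K B f _ hCO hf hBn hBc hst hCG hQ hGQ)

end Pool.Agent.Lib.MP7d449a.GP
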