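import Pool.Agent.Lib.MP_7d449a_al.GP.Spec

set_option autoImplicit false

open Filter Topology

namespace Pool.Agent.Lib.MP7d449a.GP

universe u

namespace INVM

theorem idx {G : Type u} [Group G] [TopologicalSpace G] [IsTopologicalGroup G] {K U : Subgroup G}
    (hK : CO K) (hU : IsOpen (U : Set G)) : U.relIndex K ≠ 0 := by
  have hc : CompactSpace K := isCompact_iff_compactSpace.1 hK.2
  have ho : IsOpen ((U.subgroupOf K : Subgroup K) : Set K) := hU.preimage continuous_subtype_val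
  have : Finite (K ⧸ U.subgroupOf K) := Subgroup.quotient_finite_of_isOpen _ ho
  exact Subgroup.index_ne_zero_of_finite

theorem out_spec {G : Type u} [Group G] {K U : Subgroup G} (q : K ⧸ U.subgroupOf K) (k : K)
    (h : (QuotientGroup.mk k : K ⧸ U.subgroupOf K) = q) :
    ∃ u ∈ U, ((Quotient.out q : K) : G) = (k : G) * u := by
  have h1 : (QuotientGroup.mk (Quotient.out q : K) : K ⧸ U.subgroupOf K) = q := Quotient.out_eq' q
  rw [← h] at h1
  have h2 := QuotientGroup.eq.1 h1.symm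
  rw [h] at h2
  refine ⟨(k : G)⁻¹ * ((Quotient.out q : K) : G), ?_, by group⟩
  have h3 := Subgroup.mem_subgroupOf.1 h2
  simpa using h3

/-- counting the cosets of `U` in `K` in a double coset -/
theorem cnt {G : Type u} [Group G] (P K U : Subgroup G) (hUK : U ≤ K) (k₁ : G) (hk₁ : k₁ ∈ K) :
    Nat.card {q : K ⧸ U.subgroupOf K // ∃ p ∈ P, ∃ u ∈ U, ((Quotient.out q : K) : G) = p * k₁ * u} =
      (P ⊓ U.map (MulAut.conj k₁).toMonoidHom).relIndex (P ⊓ K) := by
  set A := U.map (MulAut.conj k₁).toMonoidHom with hA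
  have memA : ∀ x : G, x ∈ A ↔ k₁⁻¹ * x * k₁ ∈ U := by
    intro x
    rw [hA, Subgroup.mem_map]
    constructor
    · rintro ⟨u, hu, rfl⟩
      simpa [mul_assoc] using hu
    · intro h
      exact ⟨_, h, by simp [mul_assoc]⟩
  have hAK : A ≤ K := by
    intro x hx
    have h1 := hUK ((memA x).1 hx)
    have h2 := K.mul_mem (K.mul_mem hk₁ h1) (K.inv_mem hk₁)
    simpa [mul_assoc] using h2
  let F₀ : ↥(P ⊓ K) → {q : K ⧸ U.subgroupOf K //
      ∃ p ∈ P, ∃ u ∈ U, ((Quotient.out q : K) : G) = p * k₁ * u} := fun p =>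
    ⟨QuotientGroup.mk ⟨(p : G) * k₁, K.mul_mem p.2.2 hk₁⟩, by
      obtain ⟨u, hu, h⟩ := out_spec (U := U) _ (⟨(p : G) * k₁, K.mul_mem p.2.2 hk₁⟩ : K) rfl
      exact ⟨p, p.2.1, u, hu, h⟩⟩
  have key : ∀ p p' : ↥(P ⊓ K), F₀ p = F₀ p' ↔ p⁻¹ * p' ∈ (P ⊓ A).subgroupOf (P ⊓ K) := by
    intro p p'
    rw [Subtype.ext_iff]
    show (QuotientGroup.mk _ : K ⧸ U.subgroupOf K) = QuotientGroup.mk _ ↔ _
    rw [QuotientGroup.eq, Subgroup.mem_subgroupOf, Subgroup.mem_subgroupOf, Subgroup.mem_inf, memA]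
    have h1 : (((⟨(p : G) * k₁, K.mul_mem p.2.2 hk₁⟩ : K)⁻¹ *
        (⟨(p' : G) * k₁, K.mul_mem p'.2.2 hk₁⟩ : K) : K) : G) =
        k₁⁻¹ * ((p⁻¹ * p' : ↥(P ⊓ K)) : G) * k₁ := by
      simp [mul_assoc]
    rw [h1]
    constructor
    · intro h
      exact ⟨(p⁻¹ * p').2.1, h⟩
    · intro h
      exact h.2
  let F : (↥(P ⊓ K) ⧸ (P ⊓ A).subgroupOf (P ⊓ K)) → {q : K ⧸ U.subgroupOf K //
      ∃ p ∈ P, ∃ u ∈ U, ((Quotient.out q : K) : G) = p * k₁ * u} :=
    Quotient.lift F₀ (fun p p' h => (key p p').2 (QuotientGroup.leftRel_apply.1 h))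
  have hF : Function.Bijective F := by
    constructor
    · intro a b
      refine Quotient.inductionOn₂' a b fun p p' h => ?_
      exact QuotientGroup.eq.2 ((key p p').1 h)
    · rintro ⟨q, p, hp, u, hu, h⟩
      have hpK : p ∈ K := by
        have h1 : p = ((Quotient.out q : K) : G) * u⁻¹ * k₁⁻¹ := by rw [h]; group
        rw [h1]
        exact K.mul_mem (K.mul_mem (Quotient.out q : K).2 (K.inv_mem (hUK hu))) (K.inv_mem hk₁)
      refine ⟨QuotientGroup.mk ⟨p, hp, hpK⟩, ?_⟩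
      refine Subtype.ext ?_
      show (QuotientGroup.mk (⟨p * k₁, _⟩ : K) : K ⧸ U.subgroupOf K) = q
      have h1 : (QuotientGroup.mk (Quotient.out q : K) : K ⧸ U.subgroupOf K) = q :=
        Quotient.out_eq' q
      refine Eq.trans ?_ h1
      rw [QuotientGroup.eq, Subgroup.mem_subgroupOf]
      have h2 : (((⟨p * k₁, K.mul_mem hpK hk₁⟩ : K)⁻¹ * (Quotient.out q : K) : K) : G) = u := by
        rw [Subgroup.coe_mul, h]
        simp [mul_assoc]
      rw [h2]
      exact hu
  exact (Nat.card_congr (Equiv.ofBijective F hF)).symm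

theorem main (hINA : SpecINA.{u}) (hAVG : SpecAVG.{u}) (G : Type u) [Group G] [TopologicalSpace G]
    [IsTopologicalGroup G] (P K U : Subgroup G) (hTP : TP G) (hK : CO K)
    (hPK : ∀ g : G, ∃ k ∈ K, g * k ∈ P) (hU : IsOpen (U : Set G)) (φ : G → ℝ)
    (hφ : ∀ p ∈ P, ∀ x, φ (p * x) = φ x) (hφU : ∀ x, ∀ u ∈ U, φ (x * u) = φ x) (g : G)
    (hUK : U ≤ K) (hgU : ∀ u ∈ U, g * u * g⁻¹ ∈ K) :
    avg K (fun k => φ (k * g)) = avg K φ := by
  classical
  set U' := U.map (MulAut.conj g).toMonoidHom with hU'def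
  have memU' : ∀ x : G, x ∈ U' ↔ g⁻¹ * x * g ∈ U := by
    intro x
    rw [hU'def, Subgroup.mem_map]
    constructor
    · rintro ⟨u, hu, rfl⟩
      simpa [mul_assoc] using hu
    · intro h
      exact ⟨_, h, by simp [mul_assoc]⟩
  have hU'K : U' ≤ K := by
    intro x hx
    have := hgU _ ((memU' x).1 hx)
    simpa [mul_assoc] using this
  have hconj : ∀ (V : Subgroup G) (r : G), IsOpen (V : Set G) →
      IsOpen ((V.map (MulAut.conj r).toMonoidHom : Subgroup G) : Set G) := by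
    intro V r hV
    have h1 : ((V.map (MulAut.conj r).toMonoidHom : Subgroup G) : Set G) =
        (fun x => r⁻¹ * x * r) ⁻¹' (V : Set G) := by
      ext x
      simp only [Subgroup.coe_map, Set.mem_image, SetLike.mem_coe, Set.mem_preimage]
      constructor
      · rintro ⟨u, hu, rfl⟩
        simpa [mul_assoc] using hu
      · intro h
        exact ⟨_, h, by simp [mul_assoc]⟩
    rw [h1]
    exact hV.preimage (by fun_prop)
  have hCO : ∀ V : Subgroup G, IsOpen (V : Set G) → V ≤ K → CO V := fun V hV hVK =>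
    ⟨hV, hK.2.of_isClosed_subset (Subgroup.isClosed_of_isOpen V hV) hVK⟩
  have hU'o : IsOpen (U' : Set G) := hconj U g hU
  have hφU' : ∀ k ∈ K, ∀ v ∈ U', φ (k * v * g) = φ (k * g) := by
    intro k _ v hv
    have h1 : k * v * g = k * g * (g⁻¹ * v * g) := by group
    rw [h1, hφU _ _ ((memU' v).1 hv)]
  rw [hAVG.form G K U φ hUK (idx hK hU) (fun k _ v hv => hφU k v hv),
    hAVG.form G K U' (fun k => φ (k * g)) hU'K (idx hK hU'o) hφU']
  -- the classes
  let cls : G → Set G := fun x => {y | ∃ p ∈ P, ∃ u ∈ U, y = p * x * u}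
  have cls_eq : ∀ x y, cls x = cls y ↔ ∃ p ∈ P, ∃ u ∈ U, x = p * y * u := by
    intro x y
    constructor
    · intro h
      have : x ∈ cls x := ⟨1, P.one_mem, 1, U.one_mem, by simp⟩
      rw [h] at this
      exact this
    · rintro ⟨p, hp, u, hu, rfl⟩
      ext z
      constructor
      · rintro ⟨p', hp', u', hu', rfl⟩
        exact ⟨p' * p, P.mul_mem hp' hp, u * u', U.mul_mem hu hu', by group⟩
      · rintro ⟨p', hp', u', hu', rfl⟩
        exact ⟨p' * p⁻¹, P.mul_mem hp' (P.inv_mem hp), u⁻¹ * u',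
          U.mul_mem (U.inv_mem hu) hu', by group⟩
  have hφc : ∀ x y, cls x = cls y → φ x = φ y := by
    intro x y h
    obtain ⟨p, hp, u, hu, rfl⟩ := (cls_eq x y).1 h
    rw [hφU _ u hu, hφ p hp]
  have hfin : Finite (K ⧸ U.subgroupOf K) := by
    have := idx hK hU
    exact (Subgroup.index_ne_zero_iff_finite).1 this
  have hfin' : Finite (K ⧸ U'.subgroupOf K) := by
    have := idx hK hU'o
    exact (Subgroup.index_ne_zero_iff_finite).1 this
  let a : K ⧸ U.subgroupOf K → Set G := fun q => cls ((Quotient.out q : K) : G)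
  let b : K ⧸ U'.subgroupOf K → Set G := fun q => cls (((Quotient.out q : K) : G) * g)
  have hcard : ∀ c : Set G, Nat.card {q // a q = c} = Nat.card {q // b q = c} := by
    intro c
    by_cases hc : ∃ x, c = cls x
    · obtain ⟨x, rfl⟩ := hc
      obtain ⟨k₁, hk₁, hp₁⟩ := hPK x
      obtain ⟨k₂, hk₂, hp₂⟩ := hPK (x * g⁻¹)
      have e1 : cls x = cls k₁⁻¹ := (cls_eq _ _).2 ⟨x * k₁, hp₁, 1, U.one_mem, by group⟩
      have e2 : cls x = cls (k₂⁻¹ * g) :=
        (cls_eq _ _).2 ⟨x * g⁻¹ * k₂, hp₂, 1, U.one_mem, by group⟩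
      have c1 := cnt P K U hUK k₁⁻¹ (K.inv_mem hk₁)
      have c2 := cnt P K U' hU'K k₂⁻¹ (K.inv_mem hk₂)
      have d1 : Nat.card {q // a q = cls x} = Nat.card {q : K ⧸ U.subgroupOf K //
          ∃ p ∈ P, ∃ u ∈ U, ((Quotient.out q : K) : G) = p * k₁⁻¹ * u} := by
        refine Nat.card_congr (Equiv.subtypeEquivRight fun q => ?_)
        show cls _ = cls x ↔ _
        rw [e1, cls_eq]
      have d2 : Nat.card {q // b q = cls x} = Nat.card {q : K ⧸ U'.subgroupOf K //
          ∃ p ∈ P, ∃ u ∈ U', ((Quotient.out q : K) : G) = p * k₂⁻¹ * u} := by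
        refine Nat.card_congr (Equiv.subtypeEquivRight fun q => ?_)
        show cls _ = cls x ↔ _
        rw [e2, cls_eq]
        constructor
        · rintro ⟨p, hp, u, hu, h⟩
          refine ⟨p, hp, g * u * g⁻¹, ?_, ?_⟩
          · rw [memU']
            simpa [mul_assoc] using hu
          · have h1 : ((Quotient.out q : K) : G) = ((Quotient.out q : K) : G) * g * g⁻¹ := by group
            rw [h1, h]
            group
        · rintro ⟨p, hp, u, hu, h⟩
          exact ⟨p, hp, g⁻¹ * u * g, (memU' u).1 hu, by rw [h]; group⟩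
      rw [d1, d2, c1, c2]
      set r : G := (x * g⁻¹ * k₂)⁻¹ * (x * k₁) with hr
      have hrP : r ∈ P := P.mul_mem (P.inv_mem hp₂) hp₁
      have memA : ∀ (V : Subgroup G) (s y : G), y ∈ V.map (MulAut.conj s).toMonoidHom ↔
          s⁻¹ * y * s ∈ V := by
        intro V s y
        rw [Subgroup.mem_map]
        constructor
        · rintro ⟨u, hu, rfl⟩
          simpa [mul_assoc] using hu
        · intro h
          exact ⟨_, h, by simp [mul_assoc]⟩
      have hA1K : U.map (MulAut.conj k₁⁻¹).toMonoidHom ≤ K := by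
        intro y hy
        have h1 := hUK ((memA _ _ _).1 hy)
        have h2 := K.mul_mem (K.mul_mem (K.inv_mem hk₁) h1) hk₁
        simpa [mul_assoc] using h2
      have hB1K : U'.map (MulAut.conj k₂⁻¹).toMonoidHom ≤ K := by
        intro y hy
        have h1 := hU'K ((memA _ _ _).1 hy)
        have h2 := K.mul_mem (K.mul_mem (K.inv_mem hk₂) h1) hk₂
        simpa [mul_assoc] using h2
      refine hINA G P K _ _ hTP hK (hCO _ (hconj _ _ hU) hA1K) (hCO _ (hconj _ _ hU'o) hB1K)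
        hA1K hB1K r hrP ?_
      ext y
      rw [memA, memU', memA, memA]
      have : g⁻¹ * ((k₂⁻¹)⁻¹ * y * k₂⁻¹) * g = k₁⁻¹⁻¹ * (r⁻¹ * y * r) * k₁⁻¹ := by
        rw [hr]
        group
      rw [this]
    · have h1 : IsEmpty {q // a q = c} := ⟨fun q => hc ⟨_, q.2.symm⟩⟩
      have h2 : IsEmpty {q // b q = c} := ⟨fun q => hc ⟨_, q.2.symm⟩⟩
      rw [Nat.card_of_isEmpty, Nat.card_of_isEmpty]
  have hequiv : ∀ c : Set G, Nonempty ({q // b q = c} ≃ {q // a q = c}) := by
    intro c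
    exact (Finite.card_eq (α := {q // b q = c}) (β := {q // a q = c})).1 (hcard c).symm
  let e : ∀ c : Set G, {q // b q = c} ≃ {q // a q = c} := fun c => (hequiv c).some
  let E : (K ⧸ U'.subgroupOf K) ≃ (K ⧸ U.subgroupOf K) := Equiv.ofFiberEquiv e
  have hE : ∀ q, a (E q) = b q := fun q => Equiv.ofFiberEquiv_map e q
  have h1 : U'.relIndex K = U.relIndex K := Nat.card_congr E
  have h2 : (∑ᶠ q : K ⧸ U.subgroupOf K, φ ((Quotient.out q : K) : G)) =
      ∑ᶠ q : K ⧸ U'.subgroupOf K, φ (((Quotient.out q : K) : G) * g) := by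
    rw [← finsum_comp_equiv E]
    exact finsum_congr fun q => hφc _ _ (hE q)
  rw [h1, h2]

end INVM

theorem specINV (hAVG : SpecAVG.{u}) (hINA : SpecINA.{u}) : SpecINV.{u} := by
  intro G _ _ _ P K U hTP hK hPK hU φ hφ hφU g
  let V : Subgroup G := U ⊓ K ⊓ K.map (MulAut.conj g⁻¹).toMonoidHom
  have memg : ∀ x, x ∈ K.map (MulAut.conj g⁻¹).toMonoidHom ↔ g * x * g⁻¹ ∈ K := by
    intro x
    rw [Subgroup.mem_map]
    constructor
    · rintro ⟨u, hu, rfl⟩
      simpa [mul_assoc] using hu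
    · intro h
      exact ⟨_, h, by simp [mul_assoc]⟩
  have hV : IsOpen (V : Set G) := by
    have h1 : ((K.map (MulAut.conj g⁻¹).toMonoidHom : Subgroup G) : Set G) =
        (fun x => g * x * g⁻¹) ⁻¹' (K : Set G) := by
      ext x
      exact memg x
    have h2 : IsOpen ((K.map (MulAut.conj g⁻¹).toMonoidHom : Subgroup G) : Set G) := by
      rw [h1]
      exact hK.1.preimage (by fun_prop)
    exact (hU.inter hK.1).inter h2
  exact INVM.main hINA hAVG G P K V hTP hK hPK hV φ hφ (fun x u hu => hφU x u hu.1.1) g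
    (fun x hx => hx.1.2) (fun x hx => (memg x).1 hx.2)

end Pool.Agent.Lib.MP7d449a.GP
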