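import Pool.Agent.Lib.MP_7d449a_al.GP.Spec

/-!
# Module IWA: the Iwasawa type decomposition
-/

set_option autoImplicit false

open Filter Topology

namespace Pool.Agent.Lib.MP7d449a.GP

universe u

namespace IWAM

variable {G : Type u} [Group G]

theorem coe_conj (V : Subgroup G) (g : G) :
    ((V.map (MulAut.conj g).toMonoidHom : Subgroup G) : Set G) =
      (fun x => g * x * g⁻¹) '' (V : Set G) := by
  rw [Subgroup.coe_map]
  rfl

theorem map_conj_eq (U : Subgroup G) (k : G) (h : ∀ u ∈ U, k * u * k⁻¹ ∈ U)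
    (h' : ∀ u ∈ U, k⁻¹ * u * k ∈ U) : U.map (MulAut.conj k).toMonoidHom = U := by
  ext x
  rw [← SetLike.mem_coe, coe_conj]
  constructor
  · rintro ⟨u, hu, rfl⟩
    exact h u hu
  · intro hx
    refine ⟨k⁻¹ * x * k, h' x hx, ?_⟩
    show k * (k⁻¹ * x * k) * k⁻¹ = x
    group

theorem fi_const (K : Subgroup G) (c : ℝ) : FI K (fun _ => c) :=
  ⟨K, le_rfl, by rw [Subgroup.relIndex_self]; exact one_ne_zero, fun _ _ _ _ => rfl⟩

variable [TopologicalSpace G] [IsTopologicalGroup G]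

theorem co_conj {V : Subgroup G} (hV : CO V) (g : G) :
    CO (V.map (MulAut.conj g).toMonoidHom) := by
  unfold CO
  rw [coe_conj]
  let φ : G ≃ₜ G := (Homeomorph.mulLeft g).trans (Homeomorph.mulRight g⁻¹)
  have h : (fun x => g * x * g⁻¹) '' (V : Set G) = φ '' (V : Set G) := rfl
  rw [h]
  exact ⟨φ.isOpenMap _ hV.1, hV.2.image φ.continuous⟩

theorem open_comap {K : Subgroup G} (hK : IsOpen (K : Set G)) (x : G) :
    IsOpen ((K.comap (MulAut.conj x).toMonoidHom : Subgroup G) : Set G) := by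
  have h : Continuous fun y : G => x * y * x⁻¹ := by fun_prop
  exact hK.preimage h

/-- good subgroups -/
def Gd (K U : Subgroup G) : Prop := CO U ∧ U ≤ K ∧ ∀ k ∈ K, ∀ u ∈ U, k * u * k⁻¹ ∈ U

theorem Gd.inf {K U U' : Subgroup G} (h : Gd K U) (h' : Gd K U') :
    Gd K (U ⊓ U') := by
  refine ⟨⟨?_, ?_⟩, inf_le_left.trans h.2.1, fun k hk u hu =>
    ⟨h.2.2 k hk u hu.1, h'.2.2 k hk u hu.2⟩⟩
  · rw [Subgroup.coe_inf]
    exact h.1.1.inter h'.1.1
  · rw [Subgroup.coe_inf]
    refine h.1.2.inter_right ?_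
    exact U'.isClosed_of_isOpen h'.1.1

end IWAM

open IWAM

theorem specIWA (hAVG : SpecAVG.{u}) (hMFA : SpecMFA.{u}) (hLFA : SpecLFA.{u})
    (hCOR : SpecCOR.{u}) (hCNF : SpecCNF.{u}) (hTRV : SpecTRV.{u}) (hAVE : SpecAVE.{u})
    (hTRN : SpecTRN.{u}) (hLIM : SpecLIM.{u}) : SpecIWA.{u} := by
  intro G _ _ _ K S l χ hK hχ hl
  obtain ⟨f, hf, hf1, hfU⟩ := hLIM G K S l χ hK hχ
  have hpos : ∀ x, 0 < f x := hCNF.pos G K χ f hK hf (by rw [hf1]; exact one_pos)
  have hinv : ∀ (x : G), ∀ k ∈ K, f (x * k) = f x := hf.rinv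
  have hK1 : ∀ k ∈ K, f k = 1 := by
    intro k hk
    have := hinv 1 k hk
    rwa [one_mul, hf1] at this
  refine ⟨f, hpos, hf.rinv, hf1, ?_, ?_⟩
  · -- the decomposition
    intro g
    have hg0 : 0 < f g := hpos g
    obtain ⟨φ, hφ⟩ : ∃ φ : G → ℝ, φ = fun x => f (g * x) := ⟨_, rfl⟩
    obtain ⟨f₁, hf₁⟩ : ∃ f₁ : G → ℝ, f₁ = fun x => (f g)⁻¹ * φ x := ⟨_, rfl⟩
    have hφr : RInv K φ := by
      intro x k hk
      rw [hφ]
      show f (g * (x * k)) = f (g * x)
      rw [← mul_assoc]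
      exact hinv _ k hk
    have hf₁r : RInv K f₁ := by
      intro x k hk
      rw [hf₁]
      show (f g)⁻¹ * φ (x * k) = (f g)⁻¹ * φ x
      rw [hφr x k hk]
    have hf₁K : ∀ k ∈ K, f₁ k = 1 := by
      intro k hk
      rw [hf₁, hφ]
      show (f g)⁻¹ * f (g * k) = 1
      rw [hinv g k hk]
      exact inv_mul_cancel₀ hg0.ne'
    -- averages are extreme rays
    have hER : ∀ U : Subgroup G, Gd K U → ER K χ U (LAv U f₁) := by
      intro U hU
      obtain ⟨V, hV, hVK, hVO, hVn⟩ := hCOR G K (U.comap (MulAut.conj g⁻¹).toMonoidHom) hK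
        (open_comap hU.1.1 g⁻¹)
      have hV' : CO (V.map (MulAut.conj g⁻¹).toMonoidHom) := co_conj hV g⁻¹
      have hV'U : V.map (MulAut.conj g⁻¹).toMonoidHom ≤ U := by
        rw [Subgroup.map_le_iff_le_comap]
        exact hVO
      have h1 : ER K χ V (LAv V f) := hfU V hV hVK hVn
      have h2 := (hTRV G K V χ (LAv V f) hK h1).1 g⁻¹
      have h3 : LAv (V.map (MulAut.conj g⁻¹).toMonoidHom) φ =
          fun x => LAv V f (g⁻¹⁻¹ * x) := by
        funext x
        rw [hLFA.conj G K V hK hV φ hφr g⁻¹ x]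
        unfold LAv
        congr 1
        funext v
        rw [hφ]
        show f (g * (g⁻¹ * v * g⁻¹⁻¹ * x)) = f (v * (g⁻¹⁻¹ * x))
        congr 1
        group
      rw [← h3] at h2
      have h4 := hAVE G K S l χ hK hχ U _ _ hU.1 hV' hV'U h2
      have h5 : LAv U (LAv (V.map (MulAut.conj g⁻¹).toMonoidHom) φ) = LAv U φ := by
        funext x
        exact (hLFA.sub G K U _ hK hU.1 hV' hV'U φ hφr x).1
      rw [h5] at h4
      have h6 := (hTRV G K U χ (LAv U φ) hK h4).2 (f g)⁻¹ (inv_pos.2 hg0)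
      have h7 : LAv U f₁ = fun x => (f g)⁻¹ * LAv U φ x := by
        funext x
        rw [hf₁]
        exact hLFA.smul G K U hK hU.1 φ hφr _ x
      rw [h7]
      exact h6
    have hone : ∀ (ψ : G → ℝ) (U : Subgroup G), U ≤ K → (∀ k ∈ K, ψ k = 1) → LAv U ψ 1 = 1 := by
      intro ψ U hU hψ
      unfold LAv
      rw [(hAVG.congr G U (fun u => ψ (u * 1)) (fun _ => 1) (fun u hu => by
        rw [mul_one]; exact hψ u (hU hu))).2]
      exact hAVG.const G U 1
    let Ξ : {U : Subgroup G // Gd K U} → Set G := fun U =>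
      {k | k ∈ K ∧ ∀ x, LAv U.1 f₁ x = LAv U.1 f (k * x)}
    have hne : ∀ U, (Ξ U).Nonempty := by
      rintro ⟨U, hU⟩
      obtain ⟨k, hk, hk'⟩ := hTRN G K S l χ hK hχ U (LAv U f) (LAv U f₁) hU.1 hU.2.1 hU.2.2
        (hfU U hU.1 hU.2.1 hU.2.2) (hER U hU) (hone f U hU.2.1 hK1) (hone f₁ U hU.2.1 hf₁K)
      exact ⟨k, hk, hk'⟩
    have hclosed : ∀ U, IsClosed (Ξ U) := by
      rintro ⟨U, hU⟩
      have hleft : ∀ u ∈ U, ∀ k, u * k ∈ Ξ ⟨U, hU⟩ ↔ k ∈ Ξ ⟨U, hU⟩ := by
        intro u hu k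
        have hLI := hLFA.linv G K U hK hU.1 f hf.rinv
        show (u * k ∈ K ∧ ∀ x, LAv U f₁ x = LAv U f (u * k * x)) ↔
          (k ∈ K ∧ ∀ x, LAv U f₁ x = LAv U f (k * x))
        have h1 : ∀ x, LAv U f (u * k * x) = LAv U f (k * x) := by
          intro x
          rw [mul_assoc]
          exact hLI (k * x) u hu
        simp only [h1]
        rw [Subgroup.mul_mem_cancel_left K (hU.2.1 hu)]
      rw [← isOpen_compl_iff, isOpen_iff_mem_nhds]
      intro k hk
      have h1 : (fun x => x * k⁻¹) ⁻¹' (U : Set G) ∈ 𝓝 k := by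
        refine (hU.1.1.preimage (by fun_prop)).mem_nhds ?_
        show k * k⁻¹ ∈ U
        rw [mul_inv_cancel]
        exact U.one_mem
      refine Filter.mem_of_superset h1 ?_
      intro y hy hy'
      refine hk ?_
      have h2 : y * k⁻¹ * k = y := by group
      have h3 := (hleft (y * k⁻¹) hy k)
      rw [h2] at h3
      exact h3.1 hy'
    have hcomp : ∀ U, IsCompact (Ξ U) := fun U =>
      hK.2.of_isClosed_subset (hclosed U) fun k hk => hk.1
    have hmono : ∀ U U' : {U : Subgroup G // Gd K U}, U'.1 ≤ U.1 → Ξ U' ⊆ Ξ U := by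
      rintro ⟨U, hU⟩ ⟨U', hU'⟩ hle k ⟨hk, hk'⟩
      refine ⟨hk, fun x => ?_⟩
      show LAv U f₁ x = LAv U f (k * x)
      have hk'' : ∀ x, LAv U' f₁ x = LAv U' f (k * x) := hk'
      have hr' : RInv K (LAv U' f) := hLFA.rinv G K U' f hf.rinv
      rw [← (hLFA.sub G K U U' hK hU.1 hU'.1 hle f₁ hf₁r x).1,
        ← (hLFA.sub G K U U' hK hU.1 hU'.1 hle f hf.rinv (k * x)).1]
      have hmap : U.map (MulAut.conj k).toMonoidHom = U := by
        refine map_conj_eq U k (hU.2.2 k hk) fun u hu => ?_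
        have := hU.2.2 k⁻¹ (K.inv_mem hk) u hu
        rwa [inv_inv] at this
      have h2 := hLFA.conj G K U hK hU.1 (LAv U' f) hr' k (k * x)
      rw [hmap] at h2
      rw [h2]
      show avg U (fun u => LAv U' f₁ (u * x)) = avg U (fun u => LAv U' f (k * u * k⁻¹ * (k * x)))
      congr 1
      funext u
      rw [hk'']
      congr 1
      group
    have hnon : Nonempty {U : Subgroup G // Gd K U} :=
      ⟨⟨K, hK, le_rfl, fun k hk u hu => K.mul_mem (K.mul_mem hk hu) (K.inv_mem hk)⟩⟩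
    have hdir : Directed (fun x1 x2 => x1 ⊇ x2) Ξ := by
      rintro ⟨U, hU⟩ ⟨U', hU'⟩
      exact ⟨⟨U ⊓ U', hU.inf hU'⟩, hmono _ _ inf_le_left, hmono _ _ inf_le_right⟩
    obtain ⟨k, hk⟩ := IsCompact.nonempty_iInter_of_directed_nonempty_isCompact_isClosed Ξ hdir hne
      hcomp hclosed
    rw [Set.mem_iInter] at hk
    obtain ⟨U₀⟩ := hnon
    have hkK : k ∈ K := (hk U₀).1
    have hkey : ∀ x, f₁ x = f (k * x) := by
      intro x
      obtain ⟨U, hU, hUK, hUO, hUn⟩ := hCOR G K (K.comap (MulAut.conj x⁻¹).toMonoidHom) hK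
        (open_comap hK.1 x⁻¹)
      have hUx : ∀ u ∈ U, x⁻¹ * u * x ∈ K := by
        intro u hu
        have h1 : (MulAut.conj x⁻¹).toMonoidHom u ∈ K := hUO hu
        have h2 : (MulAut.conj x⁻¹).toMonoidHom u = x⁻¹ * u * x⁻¹⁻¹ := rfl
        rw [h2, inv_inv] at h1
        exact h1
      have h1 := (hk ⟨U, hU, hUK, hUn⟩).2 x
      have h2 : LAv U f₁ x = f₁ x := by
        unfold LAv
        rw [(hAVG.congr G U (fun u => f₁ (u * x)) (fun _ => f₁ x) (fun u hu => by
          have h3 : u * x = x * (x⁻¹ * u * x) := by group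
          rw [h3]
          exact hf₁r x _ (hUx u hu))).2]
        exact hAVG.const G U _
      have h3 : LAv U f (k * x) = f (k * x) := by
        unfold LAv
        rw [(hAVG.congr G U (fun u => f (u * (k * x))) (fun _ => f (k * x)) (fun u hu => by
          have h5 : k⁻¹ * u * k ∈ U := by
            have := hUn k⁻¹ (K.inv_mem hkK) u hu
            rwa [inv_inv] at this
          have h4 : u * (k * x) = k * x * (x⁻¹ * (k⁻¹ * u * k) * x) := by group
          rw [h4]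
          exact hinv _ _ (hUx _ h5))).2]
        exact hAVG.const G U _
      have h4 : LAv U f₁ x = LAv U f (k * x) := h1
      rw [h2, h3] at h4
      exact h4
    have hkey2 : ∀ x, f (g * x) = f g * f (k * x) := by
      intro x
      rw [← hkey x, hf₁, hφ]
      show f (g * x) = f g * ((f g)⁻¹ * f (g * x))
      rw [← mul_assoc, mul_inv_cancel₀ hg0.ne', one_mul]
    refine ⟨k⁻¹, K.inv_mem hkK, fun x => ?_⟩
    rw [hinv g k⁻¹ (K.inv_mem hkK), mul_assoc, hkey2, ← mul_assoc k, mul_inv_cancel, one_mul]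
  · -- large values
    have h1 : T K S f 1 = l * f 1 := hCNF.teig G K S l χ f hχ hf 1
    unfold T at h1
    rw [hf1, mul_one] at h1
    have h2 : ∃ s ∈ S, 1 < M K s f 1 := by
      by_contra hcon
      push Not at hcon
      have h3 : ∑ s ∈ S, M K s f 1 ≤ ∑ s ∈ S, (1 : ℝ) := Finset.sum_le_sum hcon
      rw [h1, Finset.sum_const, nsmul_eq_mul, mul_one] at h3
      linarith
    obtain ⟨s, -, hs⟩ := h2
    by_contra hcon
    push Not at hcon
    have h3 : avg K (fun k => f (1 * k * s)) ≤ avg K (fun _ => 1) :=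
      hAVG.mono G K _ _ (hMFA.fi G K K hK hK f hf.rinv 1 s) (fi_const K 1) fun k _ => hcon _
    rw [hAVG.const] at h3
    unfold M at hs
    linarith

end Pool.Agent.Lib.MP7d449a.GP
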