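import Pool.Agent.Lib.MP_7d449a_al.GP.Spec

set_option autoImplicit false

open Filter Topology

namespace Pool.Agent.Lib.MP7d449a.GP

universe u

namespace KMWM

variable {G : Type u} [Group G]

/-- The finite average which computes `M K g v x`. -/
noncomputable def fm (K : Subgroup G) (g x : G) (v : G → ℝ) : ℝ :=
  (∑ᶠ q : K ⧸ ((Vg K K g).subgroupOf K), v (x * ((Quotient.out q : K) : G) * g)) /
    ((Vg K K g).relIndex K : ℝ)

theorem fm_eq [TopologicalSpace G] [IsTopologicalGroup G] (hAVG : SpecAVG.{u})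
    (hMFA : SpecMFA.{u}) (K : Subgroup G) (hK : CO K) (v : G → ℝ) (hv : RInv K v) (g x : G) :
    M K g v x = fm K g x v := by
  unfold M fm
  refine hAVG.form G K (Vg K K g) (fun k => v (x * k * g)) inf_le_left
    (hMFA.idx G K K hK hK g).1 ?_
  intro k hk w hw
  exact hMFA.inva G K K v hv x g k hk w hw

theorem fm_cont [TopologicalSpace G] [IsTopologicalGroup G]
    (hMFA : SpecMFA.{u}) (K : Subgroup G) (hK : CO K) (g x : G) :
    Continuous (fm K g x) := by
  have h0 := (hMFA.idx G K K hK hK g).1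
  have hfi : ((Vg K K g).subgroupOf K).FiniteIndex := ⟨h0⟩
  have hfin : Finite (K ⧸ ((Vg K K g).subgroupOf K)) := inferInstance
  have hft : Fintype (K ⧸ ((Vg K K g).subgroupOf K)) := Fintype.ofFinite _
  unfold fm
  refine Continuous.div_const ?_ _
  simp only [finsum_eq_sum_of_fintype]
  exact continuous_finsetSum _ fun q _ => continuous_apply _

end KMWM

theorem specKMW (hAVG : SpecAVG.{u}) (hMFA : SpecMFA.{u}) (hCNF : SpecCNF.{u}) :
    SpecKMW.{u} := by
  intro G _ _ _ K S l χ hK hχ U hU hUK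
  set B : Set (G → ℝ) := {v | Cn K χ v ∧ LInv U v ∧ v 1 = 1} with hB
  have hχB : χ ∈ B :=
    ⟨hCNF.self G K S l χ hχ, fun x k hk => hχ.linv x k (hUK hk), hχ.one⟩
  have hBeq : B = (⋂ x : G, {v | 0 ≤ v x}) ∩ (⋂ x : G, ⋂ k : K, {v | v (x * k) = v x}) ∩
      (⋂ g : G, ⋂ x : G, {v | KMWM.fm K g x v = χ g * v x}) ∩
      (⋂ x : G, ⋂ k : U, {v | v (k * x) = v x}) ∩ {v | v 1 = 1} := by
    ext v
    simp only [hB, Set.mem_inter_iff, Set.mem_iInter, Set.mem_ofPred_eq]
    constructor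
    · rintro ⟨h1, h2, h3⟩
      refine ⟨⟨⟨⟨h1.nonneg, fun x k => h1.rinv x k k.2⟩, fun g x => ?_⟩,
        fun x k => h2 x k k.2⟩, h3⟩
      rw [← KMWM.fm_eq hAVG hMFA K hK v h1.rinv g x]
      exact h1.eig g x
    · rintro ⟨⟨⟨⟨h1, h2⟩, h3⟩, h4⟩, h5⟩
      have hr : RInv K v := fun x k hk => h2 x ⟨k, hk⟩
      refine ⟨⟨h1, hr, fun g x => ?_⟩, fun x k hk => h4 x ⟨k, hk⟩, h5⟩
      rw [KMWM.fm_eq hAVG hMFA K hK v hr g x]
      exact h3 g x
  have hBcl : IsClosed B := by
    rw [hBeq]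
    refine ((((isClosed_iInter fun x => ?_).inter (isClosed_iInter fun x =>
      isClosed_iInter fun k => ?_)).inter (isClosed_iInter fun g => isClosed_iInter fun x => ?_)).inter
      (isClosed_iInter fun x => isClosed_iInter fun k => ?_)).inter ?_
    · exact isClosed_le continuous_const (continuous_apply x)
    · exact isClosed_eq (continuous_apply _) (continuous_apply _)
    · exact isClosed_eq (KMWM.fm_cont hMFA K hK g x) (continuous_const.mul (continuous_apply x))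
    · exact isClosed_eq (continuous_apply _) (continuous_apply _)
    · exact isClosed_eq (continuous_apply _) continuous_const
  have hBcomp : IsCompact B := by
    have h1 : IsCompact (Set.univ.pi fun x : G =>
        Set.Icc (0 : ℝ) (((Vg K K x).relIndex K : ℝ) * (χ x * 1))) :=
      isCompact_univ_pi fun x => isCompact_Icc
    refine h1.of_isClosed_subset hBcl ?_
    rintro v ⟨h2, -, h3⟩ x -
    refine ⟨h2.nonneg x, ?_⟩
    have h4 := hCNF.bound G K χ v hK h2 x
    rwa [h3] at h4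
  obtain ⟨w, hw⟩ := hBcomp.extremePoints_nonempty ⟨χ, hχB⟩
  rw [mem_extremePoints] at hw
  obtain ⟨⟨hwc, hwl, hw1⟩, hext⟩ := hw
  refine ⟨w, ⟨hwc, hwl, by rw [hw1]; exact one_pos, ?_⟩, hw1⟩
  intro a hac hal haw
  have hc0 : 0 ≤ a 1 := hac.nonneg 1
  have hc1 : a 1 ≤ 1 := by
    have := haw 1
    rwa [hw1] at this
  have hsub : Cn K χ (fun x => w x - a x) := hCNF.sub G K χ w a hK hwc hac haw
  rcases hc0.eq_or_lt with h0 | h0
  · refine ⟨0, fun x => ?_⟩
    rw [hCNF.zero G K χ a hK hac h0.symm x, zero_mul]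
  rcases hc1.eq_or_lt with h1 | h1
  · refine ⟨1, fun x => ?_⟩
    have h2 := hCNF.zero G K χ _ hK hsub (by simp only [hw1, h1, sub_self]) x
    linarith
  · have hpos : 0 < 1 - a 1 := by linarith
    have hx1 : (fun x => (a 1)⁻¹ * a x) ∈ B := by
      refine ⟨hCNF.smul G K χ a _ hK hac (inv_nonneg.2 hc0), fun x k hk => ?_, ?_⟩
      · change (a 1)⁻¹ * a (k * x) = (a 1)⁻¹ * a x
        rw [hal x k hk]
      · exact inv_mul_cancel₀ h0.ne'
    have hx2 : (fun x => (1 - a 1)⁻¹ * (w x - a x)) ∈ B := by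
      refine ⟨hCNF.smul G K χ _ _ hK hsub (inv_nonneg.2 hpos.le), fun x k hk => ?_, ?_⟩
      · change (1 - a 1)⁻¹ * (w (k * x) - a (k * x)) = (1 - a 1)⁻¹ * (w x - a x)
        rw [hal x k hk, hwl x k hk]
      · change (1 - a 1)⁻¹ * (w 1 - a 1) = 1
        rw [hw1]
        exact inv_mul_cancel₀ hpos.ne'
    have hseg : w ∈ openSegment ℝ (fun x => (a 1)⁻¹ * a x)
        (fun x => (1 - a 1)⁻¹ * (w x - a x)) := by
      refine ⟨a 1, 1 - a 1, h0, hpos, by ring, ?_⟩
      funext x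
      simp only [Pi.add_apply, Pi.smul_apply, smul_eq_mul]
      rw [← mul_assoc, ← mul_assoc, mul_inv_cancel₀ h0.ne', mul_inv_cancel₀ hpos.ne']
      ring
    have h2 := hext _ hx1 _ hx2 hseg
    refine ⟨a 1, fun x => ?_⟩
    have h3 : (a 1)⁻¹ * a x = w x := congrFun h2.1 x
    rw [← h3, ← mul_assoc, mul_inv_cancel₀ h0.ne', one_mul]

end Pool.Agent.Lib.MP7d449a.GP
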