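import Pool.Agent.Lib.MP_7d449a_al.GP.Spec

set_option autoImplicit false

open Filter Topology

namespace Pool.Agent.Lib.MP7d449a.GP

universe u

namespace LFAM

variable {G : Type u} [Group G]

theorem co_conj [TopologicalSpace G] [IsTopologicalGroup G] {U : Subgroup G} (hU : CO U) (g : G) :
    CO (U.map (MulAut.conj g).toMonoidHom) := by
  have h1 : ((U.map (MulAut.conj g).toMonoidHom : Subgroup G) : Set G) =
      (fun x => g * x * g⁻¹) '' (U : Set G) := by
    ext y
    simp
  have h2 : IsOpenMap (fun x : G => g * x * g⁻¹) := by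
    have := (isOpenMap_mul_right g⁻¹).comp (isOpenMap_mul_left g)
    exact this
  have h3 : Continuous (fun x : G => g * x * g⁻¹) := by fun_prop
  refine ⟨?_, ?_⟩
  · rw [h1]
    exact h2 _ hU.1
  · rw [h1]
    exact hU.2.image h3

theorem relIndex_ne [TopologicalSpace G] [IsTopologicalGroup G] (hMFA : SpecMFA.{u})
    {U V : Subgroup G} (hU : CO U) (hV : CO V) (hVU : V ≤ U) : V.relIndex U ≠ 0 := by
  have h := (hMFA.idx G V U hV hU 1).1
  have h2 : Vg V U 1 = V := by
    unfold Vg
    have h3 : V.map (MulAut.conj (1 : G)).toMonoidHom = V := by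
      ext y
      simp [Subgroup.mem_map]
    rw [h3]
    exact inf_eq_right.mpr hVU
  rwa [h2] at h

theorem fi (hMFA : SpecMFA.{u}) [TopologicalSpace G] [IsTopologicalGroup G] (K U : Subgroup G)
    (hK : CO K) (hU : CO U) (f : G → ℝ) (hf : RInv K f) (x : G) : FI U (fun u => f (u * x)) := by
  have h := hMFA.fi G K U hK hU f hf 1 x
  simpa only [one_mul] using h

theorem linv (hAVG : SpecAVG.{u}) (hMFA : SpecMFA.{u}) [TopologicalSpace G] [IsTopologicalGroup G]
    (K U : Subgroup G) (hK : CO K) (hU : CO U) (f : G → ℝ) (hf : RInv K f) :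
    LInv U (LAv U f) := by
  intro x k hk
  have h := (hAVG.right G U (fun u => f (u * x)) (fi hMFA K U hK hU f hf x) k hk).2
  unfold LAv
  simpa only [mul_assoc] using h

theorem fix (hAVG : SpecAVG.{u}) (U : Subgroup G) (f : G → ℝ) (hf : LInv U f) (x : G) :
    LAv U f x = f x := by
  unfold LAv
  rw [(hAVG.congr G U (fun u => f (u * x)) (fun _ => f x) (fun k hk => hf x k hk)).2]
  exact hAVG.const G U (f x)

theorem comm (hAVG : SpecAVG.{u}) (hMFA : SpecMFA.{u}) [TopologicalSpace G] [IsTopologicalGroup G]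
    (K U : Subgroup G) (hK : CO K) (hU : CO U) (f : G → ℝ) (hf : RInv K f) (g x : G) :
    M K g (LAv U f) x = LAv U (M K g f) x := by
  have hV := (hMFA.idx G K K hK hK g).1
  have hVK : Vg K K g ≤ K := inf_le_left
  have : ((Vg K K g).subgroupOf K).FiniteIndex := ⟨hV⟩
  have : Finite (K ⧸ ((Vg K K g).subgroupOf K)) := Subgroup.finite_quotient_of_finiteIndex
  set W : Subgroup G := U ⊓ ⨅ q : K ⧸ ((Vg K K g).subgroupOf K),
    Vg K U (x * ((Quotient.out q : K) : G) * g) with hW
  have hWi : W.relIndex U ≠ 0 := by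
    rw [hW]
    refine Subgroup.relIndex_inf_ne_zero ?_ ?_
    · rw [Subgroup.relIndex_self]
      exact one_ne_zero
    · exact Subgroup.relIndex_iInf_ne_zero fun q => (hMFA.idx G K U hK hU _).1
  have hWU : W ≤ U := inf_le_left
  have key : ∀ k ∈ K, ∀ v ∈ Vg K K g, ∀ u ∈ U, ∀ w ∈ W,
      f (u * w * (x * (k * v) * g)) = f (u * (x * k * g)) := by
    intro k hk v hv u hu w hw
    -- `v`
    have h1 : ∃ k' ∈ K, x * (k * v) * g = x * k * g * k' := by
      obtain ⟨y, hy, hyv⟩ := Subgroup.mem_map.mp hv.2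
      refine ⟨y, hy, ?_⟩
      have : v = g * y * g⁻¹ := by rw [← hyv]; simp
      rw [this]
      group
    obtain ⟨k', hk', e1⟩ := h1
    rw [e1]
    -- `w`
    set q : K ⧸ ((Vg K K g).subgroupOf K) := ((⟨k, hk⟩ : K) : K ⧸ ((Vg K K g).subgroupOf K))
      with hq
    have h2 : ∃ k'' ∈ K, ((Quotient.out q : K) : G) * g * k'' = k * g := by
      have h3 : (Quotient.out q : K)⁻¹ * (⟨k, hk⟩ : K) ∈ (Vg K K g).subgroupOf K := by
        rw [← QuotientGroup.eq]
        rw [← hq]
        exact Quotient.out_eq q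
      rw [Subgroup.mem_subgroupOf] at h3
      obtain ⟨y, hy, hyv⟩ := Subgroup.mem_map.mp h3.2
      refine ⟨y, hy, ?_⟩
      have h4 : g * y * g⁻¹ = ((Quotient.out q : K) : G)⁻¹ * k := by
        rw [← MulAut.conj_apply]
        exact hyv
      have h5 : g * y = ((Quotient.out q : K) : G)⁻¹ * k * g := by
        rw [← h4]; group
      rw [mul_assoc, h5]
      group
    obtain ⟨k'', hk'', e2⟩ := h2
    have h6 : w ∈ Vg K U (x * ((Quotient.out q : K) : G) * g) := by
      have := hw.2
      exact (Subgroup.mem_iInf.mp this) q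
    obtain ⟨y, hy, hyw⟩ := Subgroup.mem_map.mp h6.2
    have h7 : w * (x * ((Quotient.out q : K) : G) * g) =
        (x * ((Quotient.out q : K) : G) * g) * y := by
      rw [← hyw]
      show (x * ((Quotient.out q : K) : G) * g) * y * (x * ((Quotient.out q : K) : G) * g)⁻¹ *
        (x * ((Quotient.out q : K) : G) * g) = _
      rw [inv_mul_cancel_right]
    have h8 : x * k * g = (x * ((Quotient.out q : K) : G) * g) * k'' := by
      rw [mul_assoc x k g, ← e2]
      group
    have h9 : u * w * (x * k * g * k') =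
        (u * (x * ((Quotient.out q : K) : G) * g)) * (y * k'' * k') := by
      rw [h8]
      calc u * w * ((x * ((Quotient.out q : K) : G) * g) * k'' * k')
          = u * (w * (x * ((Quotient.out q : K) : G) * g)) * k'' * k' := by group
        _ = u * ((x * ((Quotient.out q : K) : G) * g) * y) * k'' * k' := by rw [h7]
        _ = _ := by group
    have h10 : u * (x * k * g) = (u * (x * ((Quotient.out q : K) : G) * g)) * k'' := by
      rw [h8]; group
    rw [h9, h10, hf _ _ (K.mul_mem (K.mul_mem hy hk'') hk'), hf _ _ hk'']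
  have h := hAVG.fub G K U (Vg K K g) W (fun k u => f (u * (x * k * g))) hVK hV hWU hWi key
  unfold M LAv
  rw [h]
  congr 1
  funext u
  show avg K (fun k => f (u * (x * k * g))) = avg K (fun k => f (u * x * k * g))
  congr 1
  funext k
  congr 1
  group

end LFAM

theorem specLFA (hAVG : SpecAVG.{u}) (hMFA : SpecMFA.{u}) : SpecLFA.{u} where
  fi := by
    intro G _ _ _ K U hK hU f hf x
    exact LFAM.fi hMFA K U hK hU f hf x
  rinv := by
    intro G _ K U f hf x k hk
    unfold LAv
    congr 1
    funext u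
    rw [← mul_assoc]
    exact hf _ k hk
  linv := by
    intro G _ _ _ K U hK hU f hf
    exact LFAM.linv hAVG hMFA K U hK hU f hf
  fix := by
    intro G _ U f hf x
    exact LFAM.fix hAVG U f hf x
  lform := by
    intro G _ _ _ K U V hK hU hV hVU f hf hfV
    have hr := LFAM.relIndex_ne hMFA hU hV hVU
    refine ⟨hr, fun x => ?_⟩
    have h1 := (hAVG.inv G U (fun u => f (u * x)) (LFAM.fi hMFA K U hK hU f hf x)).2
    have h2 := hAVG.form G U V (fun u => f (u⁻¹ * x)) hVU hr (by
      intro k hk v hv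
      show f ((k * v)⁻¹ * x) = f (k⁻¹ * x)
      rw [mul_inv_rev, mul_assoc]
      exact hfV _ _ (V.inv_mem hv))
    unfold LAv
    rw [← h1]
    exact h2
  comm := by
    intro G _ _ _ K U hK hU f hf g x
    exact LFAM.comm hAVG hMFA K U hK hU f hf g x
  add := by
    intro G _ _ _ K U hK hU f f' hf hf' x
    exact hAVG.add G U _ _ (LFAM.fi hMFA K U hK hU f hf x) (LFAM.fi hMFA K U hK hU f' hf' x)
  smul := by
    intro G _ _ _ K U hK hU f hf c x
    exact hAVG.smul G U _ c (LFAM.fi hMFA K U hK hU f hf x)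
  sum := by
    intro G _ _ _ K U hK hU ι s f hf x
    exact (hAVG.sum G U ι s (fun i u => f i (u * x))
      (fun i hi => LFAM.fi hMFA K U hK hU (f i) (hf i hi) x)).2
  mono := by
    intro G _ _ _ K U hK hU f f' hf hf' h x
    exact hAVG.mono G U _ _ (LFAM.fi hMFA K U hK hU f hf x) (LFAM.fi hMFA K U hK hU f' hf' x)
      (fun k _ => h _)
  sub := by
    intro G _ _ _ K U V hK hU hV hVU f hf x
    have hr := LFAM.relIndex_ne hMFA hU hV hVU
    refine ⟨?_, ?_⟩
    · have h := hAVG.sub2 G U V (fun u => f (u * x)) (LFAM.fi hMFA K U hK hU f hf x) hVU hr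
      unfold LAv
      simpa only [mul_assoc] using h
    · refine LFAM.fix hAVG V (LAv U f) ?_ x
      intro y v hv
      exact LFAM.linv hAVG hMFA K U hK hU f hf y v (hVU hv)
  kav := by
    intro G _ K f x
    unfold LAv M
    simp only [one_mul]
  conj := by
    intro G _ _ _ K U hK hU f hf g x
    have hc := LFAM.co_conj hU g
    have h := (hAVG.map G G (MulAut.conj g).toMonoidHom U (fun y => f (y * x))
      (LFAM.fi hMFA K _ hK hc f hf x)).2
    unfold LAv
    rw [← h]
    rfl

end Pool.Agent.Lib.MP7d449a.GP
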