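import Pool.Agent.Lib.MP_7d449a_al.GP.Spec

/-!
# MP_7d449a_al, Gelfand pairs: formal properties of the Hecke operators
-/

set_option autoImplicit false

open Filter Topology

namespace Pool.Agent.Lib.MP7d449a.GP

universe u

namespace MFAM

variable {G : Type u} [Group G]

theorem mem_Vg {K U : Subgroup G} {g v : G} : v ∈ Vg K U g ↔ v ∈ U ∧ g⁻¹ * v * g ∈ K := by
  unfold Vg
  rw [Subgroup.mem_inf, Subgroup.mem_map]
  constructor
  · rintro ⟨h1, k, hk, rfl⟩
    refine ⟨h1, ?_⟩
    simpa [MulAut.conj_apply, mul_assoc] using hk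
  · rintro ⟨h1, h2⟩
    exact ⟨h1, _, h2, by simp [MulAut.conj_apply, mul_assoc]⟩

/-- An open subgroup has finite index in a compact one. -/
theorem relIndex_ne_zero [TopologicalSpace G] [IsTopologicalGroup G] (V U : Subgroup G)
    (hV : IsOpen (V : Set G)) (hU : IsCompact (U : Set G)) : V.relIndex U ≠ 0 := by
  have : CompactSpace U := isCompact_iff_compactSpace.mp hU
  have ho : IsOpen ((V.subgroupOf U : Subgroup U) : Set U) := hV.preimage continuous_subtype_val
  have := Subgroup.quotient_finite_of_isOpen (V.subgroupOf U) ho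
  exact Subgroup.index_ne_zero_of_finite

/-- The elements of `K` whose conjugates by the elements of `S` lie in `K`. -/
def core (K : Subgroup G) (S : Set G) : Subgroup G where
  carrier := {v | v ∈ K ∧ ∀ a ∈ S, a⁻¹ * v * a ∈ K}
  one_mem' := ⟨K.one_mem, fun a _ => by simp⟩
  mul_mem' := by
    rintro v w ⟨hv, hv'⟩ ⟨hw, hw'⟩
    refine ⟨K.mul_mem hv hw, fun a ha => ?_⟩
    have := K.mul_mem (hv' a ha) (hw' a ha)
    simpa [mul_assoc] using this
  inv_mem' := by
    rintro v ⟨hv, hv'⟩
    refine ⟨K.inv_mem hv, fun a ha => ?_⟩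
    have := K.inv_mem (hv' a ha)
    simpa [mul_assoc] using this

theorem core_open [TopologicalSpace G] [IsTopologicalGroup G] (K : Subgroup G) (S : Set G)
    (hK : IsOpen (K : Set G)) (hS : IsCompact S) : IsOpen (core K S : Set G) := by
  apply Subgroup.isOpen_of_mem_nhds (g := 1)
  have h1 : ∀ᶠ v in 𝓝 (1 : G), v ∈ K := hK.mem_nhds K.one_mem
  have h2 : ∀ᶠ v in 𝓝 (1 : G), ∀ a ∈ S, a⁻¹ * v * a ∈ K := by
    apply hS.eventually_forall_of_forall_eventually
    intro a ha
    have hc : Continuous fun z : G × G => z.2⁻¹ * z.1 * z.2 := by fun_prop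
    have h3 := hc.continuousAt (x := ((1 : G), a))
    have h4 : (K : Set G) ∈ 𝓝 ((fun z : G × G => z.2⁻¹ * z.1 * z.2) ((1 : G), a)) := by
      apply hK.mem_nhds
      simp
    exact h3 h4
  filter_upwards [h1, h2] with v h h' using ⟨h, h'⟩

theorem idx [TopologicalSpace G] [IsTopologicalGroup G] (K U : Subgroup G)
    (hK : CO K) (hU : CO U) (g : G) : (Vg K U g).relIndex U ≠ 0 ∧ CO (Vg K U g) := by
  have h1 : IsOpen ((K.map (MulAut.conj g).toMonoidHom : Subgroup G) : Set G) := by
    have h2 : ((K.map (MulAut.conj g).toMonoidHom : Subgroup G) : Set G) =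
        (fun v => g⁻¹ * v * g) ⁻¹' (K : Set G) := by
      ext v
      simp only [Set.mem_preimage, SetLike.mem_coe, Subgroup.mem_map]
      constructor
      · rintro ⟨k, hk, rfl⟩
        simpa [MulAut.conj_apply, mul_assoc] using hk
      · intro h
        exact ⟨_, h, by simp [MulAut.conj_apply, mul_assoc]⟩
    rw [h2]
    exact hK.1.preimage (by fun_prop)
  have h3 : IsOpen ((Vg K U g : Subgroup G) : Set G) := by
    unfold Vg
    rw [Subgroup.coe_inf]
    exact hU.1.inter h1
  refine ⟨relIndex_ne_zero _ _ h3 hU.2, h3, ?_⟩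
  unfold Vg
  rw [Subgroup.coe_inf]
  exact hU.2.inter_right (Subgroup.isClosed_of_isOpen _ h1)

theorem inva (K U : Subgroup G) (f : G → ℝ) (hf : RInv K f) (x g u : G)
    {v : G} (hv : v ∈ Vg K U g) : f (x * (u * v) * g) = f (x * u * g) := by
  have h1 := hf (x * u * g) _ (mem_Vg.mp hv).2
  rw [← h1]
  congr 1
  group

theorem fi [TopologicalSpace G] [IsTopologicalGroup G] (K U : Subgroup G)
    (hK : CO K) (hU : CO U) (f : G → ℝ) (hf : RInv K f) (x g : G) :
    FI U (fun u => f (x * u * g)) :=
  ⟨Vg K U g, inf_le_left, (idx K U hK hU g).1, fun _ _ _ hv => inva K U f hf x g _ hv⟩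

end MFAM

open MFAM in
theorem specMFA (hA : SpecAVG.{u}) : SpecMFA.{u} where
  idx := fun G _ _ _ K U hK hU g => MFAM.idx K U hK hU g
  inva := fun G _ K U f hf x g u _ v hv => MFAM.inva K U f hf x g u hv
  fi := fun G _ _ _ K U hK hU f hf x g => MFAM.fi K U hK hU f hf x g
  rinv := by
    intro G _ _ _ K hK f hf g x k₀ hk₀
    have h1 := (hA.left G K _ (MFAM.fi K K hK hK f hf x g) k₀ hk₀).2
    show avg K (fun k => f (x * k₀ * k * g)) = avg K (fun k => f (x * k * g))
    rw [← h1]
    simp only [mul_assoc]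
  linv := by
    intro G _ _ _ K U hK f hf hl g x k hk
    show avg K (fun k' => f (k * x * k' * g)) = avg K (fun k' => f (x * k' * g))
    congr 1
    funext k'
    rw [← hl (x * k' * g) k hk]
    simp only [mul_assoc]
  bi := by
    intro G _ _ _ K hK f hf g x k hk k' hk'
    have h1 := (hA.right G K _ (MFAM.fi K K hK hK f hf x g) k hk).2
    show avg K (fun l => f (x * l * (k * g * k'))) = avg K (fun l => f (x * l * g))
    rw [← h1]
    congr 1
    funext l
    rw [← hf (x * (l * k) * g) k' hk']
    simp only [mul_assoc]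
  one := by
    intro G _ _ _ K hK f hf x
    have h1 := (hA.congr G K (fun k => f (x * k * 1)) (fun _ => f x)
      (fun k hk => by
        show f (x * k * 1) = f x
        rw [mul_one, hf x k hk])).2
    show avg K (fun k => f (x * k * 1)) = f x
    rw [h1, hA.const]
  add := by
    intro G _ _ _ K hK f f' hf hf' g x
    exact hA.add G K _ _ (MFAM.fi K K hK hK f hf x g) (MFAM.fi K K hK hK f' hf' x g)
  smul := by
    intro G _ _ _ K hK f hf c g x
    exact hA.smul G K _ c (MFAM.fi K K hK hK f hf x g)
  sum := by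
    intro G _ _ _ K hK ι s f hf g x
    exact (hA.sum G K ι s (fun i k => f i (x * k * g))
      (fun i hi => MFAM.fi K K hK hK (f i) (hf i hi) x g)).2
  mono := by
    intro G _ _ _ K hK f f' hf hf' hle g x
    exact hA.mono G K _ _ (MFAM.fi K K hK hK f hf x g) (MFAM.fi K K hK hK f' hf' x g)
      (fun k _ => hle _)
  lower := by
    intro G _ _ _ K hK f hf hpos g x k hk
    exact hA.lower G K (Vg K K g) (fun k => f (x * k * g)) inf_le_left (MFAM.idx K K hK hK g).1
      (fun _ _ _ hv => MFAM.inva K K f hf x g _ hv) (fun _ _ => hpos _) k hk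
  shift := by
    intro G _ K f y g x
    show avg K (fun k => f (y * (x * k * g))) = avg K (fun k => f (y * x * k * g))
    simp only [mul_assoc]
  fub := by
    intro G _ _ _ K hK f hf g h x
    have hS : IsCompact ((fun k => g * k * h) '' (K : Set G)) :=
      hK.2.image (by fun_prop)
    have hV : IsOpen ((MFAM.core K ((fun k => g * k * h) '' (K : Set G)) : Subgroup G) : Set G) :=
      MFAM.core_open K _ hK.1 hS
    have h1 := hA.fub G K K (MFAM.core K ((fun k => g * k * h) '' (K : Set G))) (Vg K K h)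
      (fun k' k => f (x * k' * (g * k * h))) (fun v hv => hv.1)
      (MFAM.relIndex_ne_zero _ _ hV hK.2) inf_le_left (MFAM.idx K K hK hK h).1
      (by
        intro k' hk' v hv k hk w hw
        have hw' := mem_Vg.mp hw
        have h2 : f (x * (k' * v) * (g * (k * w) * h)) = f (x * (k' * v) * (g * k * h)) := by
          rw [← hf (x * (k' * v) * (g * k * h)) _ hw'.2]
          congr 1
          group
        have h3 := hv.2 (g * k * h) ⟨k, hk, rfl⟩
        show f (x * (k' * v) * (g * (k * w) * h)) = f (x * k' * (g * k * h))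
        rw [h2, ← hf (x * k' * (g * k * h)) _ h3]
        congr 1
        group)
    show avg K (fun k' => avg K (fun k => f (x * k' * g * k * h))) =
      avg K (fun k => avg K (fun k' => f (x * k' * (g * k * h))))
    rw [← h1]
    simp only [mul_assoc]

end Pool.Agent.Lib.MP7d449a.GP
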