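import Pool.Agent.Lib.MP_7d449a_al.GP.Spec

/-!
# MP_7d449a_al, Gelfand pairs: module NOC

The main step: a group with a Gelfand pair, without proper open normal subgroups, all of whose
elements normalise small compact open subgroups, is compact.
-/

set_option autoImplicit false

open Filter Topology

namespace Pool.Agent.Lib.MP7d449a.GP

universe u

namespace NOCM

/-- A subset of a compact set is covered by finitely many cosets of an open subgroup. -/
theorem cover {G : Type u} [Group G] [TopologicalSpace G] [IsTopologicalGroup G] {K : Subgroup G}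
    (hK : IsOpen (K : Set G)) {C : Set G} (hC : IsCompact C) :
    ∃ S : Finset G, ∀ c ∈ C, ∃ s ∈ S, s⁻¹ * c ∈ K := by
  obtain ⟨t, ht⟩ := hC.elim_finite_subcover (fun s : G => {x : G | s⁻¹ * x ∈ K})
    (fun s => hK.preimage (continuous_const.mul continuous_id))
    (fun c _ => Set.mem_iUnion.2 ⟨c, by simp⟩)
  refine ⟨t, fun c hc => ?_⟩
  obtain ⟨s, hs, h⟩ := Set.mem_iUnion₂.1 (ht hc)
  exact ⟨s, hs, h⟩

/-- The normal core of an open subgroup of finite index is open. -/
theorem core_open {G : Type u} [Group G] [TopologicalSpace G] [IsTopologicalGroup G]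
    (L : Subgroup G) (hL : IsOpen (L : Set G)) [L.FiniteIndex] :
    IsOpen (L.normalCore : Set G) := by
  have hc : IsClosed (L.normalCore : Set G) := by
    have h1 : (L.normalCore : Set G) = ⋂ b : G, {a : G | b * a * b⁻¹ ∈ L} := by
      ext a
      simp only [Set.mem_iInter, Set.mem_setOf_eq]
      rfl
    rw [h1]
    refine isClosed_iInter fun b => ?_
    exact (L.isClosed_of_isOpen hL).preimage
      ((continuous_const.mul continuous_id).mul continuous_const)
  exact Subgroup.isOpen_of_isClosed_of_finiteIndex _ hc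

end NOCM

theorem specNOC (hSCM : SpecSCM.{u}) (hLSF : SpecLSF.{u}) (hUNI : SpecUNI.{u})
    (hEXT : SpecEXT.{u}) (hIWA : SpecIWA.{u}) (hHOM : SpecHOM.{u}) (hCON : SpecCON.{u}) :
    SpecNOC.{u} := by
  classical
  intro G _ _ _ K hCO hGC hTP hNor hgen
  by_contra hnc
  obtain ⟨C, hC, hcl⟩ := hgen
  obtain ⟨S0, hS0⟩ := NOCM.cover hCO.1 hC
  obtain ⟨S, hS1, hS2⟩ : ∃ S : Finset G, S0 ⊆ S ∧ ∀ s ∈ S, s⁻¹ ∈ S := by
    refine ⟨S0 ∪ S0.image (fun s => s⁻¹), Finset.subset_union_left, fun s hs => ?_⟩
    rcases Finset.mem_union.1 hs with h | h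
    · exact Finset.mem_union_right _ (Finset.mem_image_of_mem _ h)
    · obtain ⟨r, hr, rfl⟩ := Finset.mem_image.1 h
      rw [inv_inv]
      exact Finset.mem_union_left _ hr
  have hcl2 : Subgroup.closure ((K : Set G) ∪ (S : Set G)) = ⊤ := by
    rw [eq_top_iff, ← hcl]
    refine (Subgroup.closure_le _).2 fun c hc => ?_
    obtain ⟨s, hs, h⟩ := hS0 c hc
    have h1 : c = s * (s⁻¹ * c) := by group
    rw [h1]
    exact Subgroup.mul_mem _ (Subgroup.subset_closure (Or.inr (hS1 hs)))
      (Subgroup.subset_closure (Or.inl h))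
  obtain ⟨χ, hχ⟩ := hEXT G K S ((S.card : ℝ) + 1) hCO hGC hnc hS2 hcl2 (by linarith)
  obtain ⟨f, hf⟩ := hIWA G K S ((S.card : ℝ) + 1) χ hCO hχ (by linarith)
  obtain ⟨hmul, hker⟩ := hHOM G K f hTP hCO hf
  have hzero : ∀ g : G, avg K (fun k => Real.log (f (k * g))) = 0 := by
    let ρ : G →* Multiplicative ℝ := MonoidHom.mk'
      (fun g => Multiplicative.ofAdd (avg K (fun k => Real.log (f (k * g)))))
      (fun g h => by rw [← ofAdd_add, hmul g h])
    have hle : K ≤ ρ.ker := by
      intro k' hk'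
      rw [MonoidHom.mem_ker]
      change Multiplicative.ofAdd (avg K (fun k => Real.log (f (k * k')))) = 1
      rw [hker k' hk']
      rfl
    have hop : IsOpen (ρ.ker : Set G) := Subgroup.isOpen_mono hle hCO.1
    have htop : ρ.ker = ⊤ := hNor _ hop inferInstance
    intro g
    have hg : g ∈ ρ.ker := by rw [htop]; exact Subgroup.mem_top g
    rw [MonoidHom.mem_ker] at hg
    exact Multiplicative.ofAdd.injective hg
  refine hCON G K f hCO hf hzero fun s => ?_
  obtain ⟨L, hL1, hL2, hL3⟩ := hLSF G K hCO hTP (hSCM G K hCO hGC) s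
  have hcore : L.normalCore = ⊤ := hNor _ (NOCM.core_open L hL2) inferInstance
  have hLt : L = ⊤ := by
    rw [eq_top_iff, ← hcore]
    exact Subgroup.normalCore_le L
  refine hUNI G K hCO hTP s fun k _ => ?_
  rw [← hL1, hLt]
  exact Subgroup.mem_top k

end Pool.Agent.Lib.MP7d449a.GP
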