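import Pool.Agent.Lib.MP_7d449a_al.GP.Spec

/-!
# Module QUO (MP_7d449a_al, GP): the quotient by a normal subgroup containing all contraction groups (helper26)
-/

set_option autoImplicit false

open Filter Topology

namespace Pool.Agent.Lib.MP7d449a.GP

universe u

theorem specQUO : SpecQUO.{u} := by
  intro G _ _ _ _ _ _ N _ hN
  intro gq W hW
  obtain ⟨g, rfl⟩ := QuotientGroup.mk_surjective gq
  have hc : Continuous (QuotientGroup.mk : G → G ⧸ N) := continuous_quotient_mk'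
  have hW' : (QuotientGroup.mk : G → G ⧸ N) ⁻¹' W ∈ 𝓝 (1 : G) :=
    hc.continuousAt.preimage_mem_nhds (by
      rw [QuotientGroup.mk_one]
      exact hW)
  obtain ⟨U, hUo, hUc, hUW⟩ := vanDantzig hW'
  obtain ⟨V, hVU, hVo, hV⟩ := normalised (hN g) (hN g⁻¹) hUc hUo
  have hVc : IsCompact (V : Set G) :=
    hUc.of_isClosed_subset (Subgroup.isClosed_of_isOpen V hVo) hVU
  have himg : ((V.map (QuotientGroup.mk' N) : Subgroup (G ⧸ N)) : Set (G ⧸ N)) =
      (QuotientGroup.mk : G → G ⧸ N) '' (V : Set G) := rfl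
  have hsup : ∀ y ∈ V ⊔ N, (y : G ⧸ N) ∈ V.map (QuotientGroup.mk' N) := by
    intro y hy
    rw [Subgroup.mem_sup_of_normal_right] at hy
    obtain ⟨v, hv, n, hn, rfl⟩ := hy
    refine ⟨v, hv, ?_⟩
    show ((v : G) : G ⧸ N) = ((v * n : G) : G ⧸ N)
    rw [QuotientGroup.eq, ← mul_assoc, inv_mul_cancel, one_mul]
    exact hn
  refine ⟨V.map (QuotientGroup.mk' N), ⟨?_, ?_⟩, ?_, ?_⟩
  · rw [himg]
    exact QuotientGroup.isOpenMap_coe _ hVo
  · rw [himg]
    exact hVc.image hc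
  · rintro _ ⟨v, hv, rfl⟩
    exact hUW (hVU hv)
  · rintro _ ⟨v, hv, rfl⟩
    have hv' : v ∈ V ⊔ N := (le_sup_left : V ≤ V ⊔ N) hv
    constructor
    · have h1 := hsup _ (hV 1 v hv')
      rw [zpow_one] at h1
      exact h1
    · have h1 := hsup _ (hV (-1) v hv')
      rw [zpow_neg, zpow_one, inv_inv] at h1
      exact h1

end Pool.Agent.Lib.MP7d449a.GP
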