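import Pool.Agent.Lib.MP_7d449a_al.GP.Spec

/-!
# MP_7d449a_al, Gelfand pairs: module RIE

Riesz decomposition in the cone of joint eigenfunctions.
-/

set_option autoImplicit false

open Filter Topology

namespace Pool.Agent.Lib.MP7d449a.GP

universe u

namespace RIEM

/-- Averages are continuous for pointwise convergence. -/
theorem avg_tendsto (hAVG : SpecAVG.{u}) {G : Type u} [Group G] {K V : Subgroup G} (hV : V ≤ K)
    (hi : V.relIndex K ≠ 0) {α : Type*} {F : Filter α} (φ : α → G → ℝ) (ψ : G → ℝ)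
    (h1 : ∀ n, ∀ k ∈ K, ∀ v ∈ V, φ n (k * v) = φ n k) (h2 : ∀ k ∈ K, ∀ v ∈ V, ψ (k * v) = ψ k)
    (h : ∀ k ∈ K, Tendsto (fun n => φ n k) F (𝓝 (ψ k))) :
    Tendsto (fun n => avg K (φ n)) F (𝓝 (avg K ψ)) := by
  have hfin : Finite (K ⧸ (V.subgroupOf K)) := Subgroup.index_ne_zero_iff_finite.1 hi
  haveI : Fintype (K ⧸ (V.subgroupOf K)) := Fintype.ofFinite _
  rw [hAVG.form G K V ψ hV hi h2]
  simp_rw [fun n => hAVG.form G K V (φ n) hV hi (h1 n)]
  refine Tendsto.div_const ?_ _
  simp_rw [finsum_eq_sum_of_fintype]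
  exact tendsto_finset_sum _ fun q _ => h _ (Quotient.out q : K).2

theorem M_tendsto (hAVG : SpecAVG.{u}) (hMFA : SpecMFA.{u}) {G : Type u} [Group G]
    [TopologicalSpace G] [IsTopologicalGroup G] {K : Subgroup G} (hK : CO K) {α : Type*}
    {F : Filter α} (v : α → G → ℝ) (w : G → ℝ) (h1 : ∀ n, RInv K (v n)) (h2 : RInv K w)
    (h : ∀ x, Tendsto (fun n => v n x) F (𝓝 (w x))) (g x : G) :
    Tendsto (fun n => M K g (v n) x) F (𝓝 (M K g w x)) := by
  unfold M
  refine avg_tendsto hAVG (V := Vg K K g) inf_le_left (hMFA.idx G K K hK hK g).1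
    (fun n k => v n (x * k * g)) (fun k => w (x * k * g)) ?_ ?_ ?_
  · intro n k hk u hu
    exact hMFA.inva G K K (v n) (h1 n) x g k hk u hu
  · intro k hk u hu
    exact hMFA.inva G K K w h2 x g k hk u hu
  · intro k _
    exact h _

theorem T_tendsto (hAVG : SpecAVG.{u}) (hMFA : SpecMFA.{u}) {G : Type u} [Group G]
    [TopologicalSpace G] [IsTopologicalGroup G] {K : Subgroup G} (hK : CO K) (S : Finset G)
    {α : Type*} {F : Filter α} (v : α → G → ℝ) (w : G → ℝ) (h1 : ∀ n, RInv K (v n))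
    (h2 : RInv K w) (h : ∀ x, Tendsto (fun n => v n x) F (𝓝 (w x))) (x : G) :
    Tendsto (fun n => T K S (v n) x) F (𝓝 (T K S w x)) := by
  unfold T
  exact tendsto_finset_sum _ fun s _ => M_tendsto hAVG hMFA hK v w h1 h2 h s x

theorem T_rinv (hMFA : SpecMFA.{u}) {G : Type u} [Group G]
    [TopologicalSpace G] [IsTopologicalGroup G] {K : Subgroup G} (hK : CO K) (S : Finset G)
    (f : G → ℝ) (hf : RInv K f) : RInv K (T K S f) := by
  intro x k hk
  unfold T
  exact Finset.sum_congr rfl fun s _ => hMFA.rinv G K hK f hf s x k hk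

theorem T_mono (hMFA : SpecMFA.{u}) {G : Type u} [Group G]
    [TopologicalSpace G] [IsTopologicalGroup G] {K : Subgroup G} (hK : CO K) (S : Finset G)
    (f f' : G → ℝ) (hf : RInv K f) (hf' : RInv K f') (h : ∀ x, f x ≤ f' x) (x : G) :
    T K S f x ≤ T K S f' x := by
  unfold T
  exact Finset.sum_le_sum fun s _ => hMFA.mono G K hK f f' hf hf' h s x

theorem T_add (hMFA : SpecMFA.{u}) {G : Type u} [Group G]
    [TopologicalSpace G] [IsTopologicalGroup G] {K : Subgroup G} (hK : CO K) (S : Finset G)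
    (f f' : G → ℝ) (hf : RInv K f) (hf' : RInv K f') (x : G) :
    T K S (fun y => f y + f' y) x = T K S f x + T K S f' x := by
  unfold T
  rw [← Finset.sum_add_distrib]
  exact Finset.sum_congr rfl fun s _ => hMFA.add G K hK f f' hf hf' s x

theorem T_zero (hAVG : SpecAVG.{u}) {G : Type u} [Group G] (K : Subgroup G) (S : Finset G)
    (x : G) : T K S (fun _ => 0) x = 0 := by
  unfold T M
  exact Finset.sum_eq_zero fun s _ => hAVG.const G K 0

/-- Two summands. -/
theorem two (hAVG : SpecAVG.{u}) (hMFA : SpecMFA.{u}) (hCNF : SpecCNF.{u}) (hHER : SpecHER.{u})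
    {G : Type u} [Group G] [TopologicalSpace G] [IsTopologicalGroup G] {K : Subgroup G}
    {S : Finset G} {l : ℝ} {χ : G → ℝ} (hK : CO K) (hχ : Spher K S l χ) (a b₁ b₂ : G → ℝ)
    (ha : Cn K χ a) (hb₁ : Cn K χ b₁) (hb₂ : Cn K χ b₂) (hle : ∀ x, a x ≤ b₁ x + b₂ x) :
    ∃ a₁ a₂ : G → ℝ, Cn K χ a₁ ∧ Cn K χ a₂ ∧ (∀ x, a₁ x ≤ b₁ x) ∧ (∀ x, a₂ x ≤ b₂ x) ∧
      ∀ x, a x = a₁ x + a₂ x := by
  have hTa : ∀ x, T K S a x = l * a x := hCNF.teig G K S l χ a hχ ha
  have hTb₁ : ∀ x, T K S b₁ x = l * b₁ x := hCNF.teig G K S l χ b₁ hχ hb₁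
  have hTb₂ : ∀ x, T K S b₂ x = l * b₂ x := hCNF.teig G K S l χ b₂ hχ hb₂
  -- it is enough to find `a₁`
  suffices H : ∃ a₁ : G → ℝ, RInv K a₁ ∧ (∀ x, 0 ≤ a₁ x) ∧ (∀ x, a₁ x ≤ a x) ∧
      (∀ x, a₁ x ≤ b₁ x) ∧ (∀ x, a x ≤ b₂ x + a₁ x) ∧ ∀ x, T K S a₁ x = l * a₁ x by
    obtain ⟨a₁, h1, h2, h3, h4, h5, h6⟩ := H
    have hc : Cn K χ a₁ := hHER G K S l χ hK hχ a a₁ ha h1 h2 h3 h6
    refine ⟨a₁, fun x => a x - a₁ x, hc, hCNF.sub G K χ a a₁ hK ha hc h3, h4, fun x => ?_,
      fun x => ?_⟩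
    · have := h5 x
      linarith
    · ring
  have hl : l = ∑ s ∈ S, χ s := by
    have h1 := hχ.eig 1
    rw [hχ.one, mul_one] at h1
    rw [← h1]
    unfold T
    refine Finset.sum_congr rfl fun s _ => ?_
    rw [hχ.mul s 1, hχ.one, mul_one]
  set v0 : G → ℝ := fun x => min (a x) (b₁ x) with hv0
  have hv0r : RInv K v0 := by
    intro x k hk
    simp only [hv0]
    rw [ha.rinv x k hk, hb₁.rinv x k hk]
  have hv0n : ∀ x, 0 ≤ v0 x := fun x => le_min (ha.nonneg x) (hb₁.nonneg x)
  have hv0b : ∀ x, a x ≤ b₂ x + v0 x := by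
    intro x
    have h2 := hb₂.nonneg x
    have h3 := hle x
    simp only [hv0]
    rcases le_total (a x) (b₁ x) with h | h
    · rw [min_eq_left h]; linarith
    · rw [min_eq_right h]; linarith
  rcases S.eq_empty_or_nonempty with hS | hS
  · have hl0 : l = 0 := by rw [hl, hS]; simp
    refine ⟨v0, hv0r, hv0n, fun x => min_le_left _ _, fun x => min_le_right _ _, hv0b, ?_⟩
    intro x
    rw [hl0, zero_mul]
    unfold T
    rw [hS]
    simp
  have hlpos : 0 < l := by
    rw [hl]
    exact Finset.sum_pos (fun s _ => hχ.pos s) hS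
  set P : (G → ℝ) → G → ℝ := fun w x => l⁻¹ * T K S w x with hP
  have hPr : ∀ w, RInv K w → RInv K (P w) := by
    intro w hw x k hk
    simp only [hP]
    rw [T_rinv hMFA hK S w hw x k hk]
  have hPm : ∀ w w', RInv K w → RInv K w' → (∀ x, w x ≤ w' x) → ∀ x, P w x ≤ P w' x := by
    intro w w' hw hw' h x
    simp only [hP]
    exact mul_le_mul_of_nonneg_left (T_mono hMFA hK S w w' hw hw' h x) (inv_nonneg.2 hlpos.le)
  have hPfix : ∀ w : G → ℝ, (∀ x, T K S w x = l * w x) → ∀ x, P w x = w x := by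
    intro w hw x
    simp only [hP]
    rw [hw x]
    field_simp
  set v : ℕ → G → ℝ := fun n => P^[n] v0 with hv
  have hvs : ∀ n, v (n + 1) = P (v n) := fun n => Function.iterate_succ_apply' P n v0
  have hvr : ∀ n, RInv K (v n) := by
    intro n
    induction n with
    | zero => exact hv0r
    | succ n ih => rw [hvs]; exact hPr _ ih
  have hvn : ∀ n x, 0 ≤ v n x := by
    intro n
    induction n with
    | zero => exact hv0n
    | succ n ih =>
      intro x
      rw [hvs]
      simp only [hP]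
      refine mul_nonneg (inv_nonneg.2 hlpos.le) ?_
      rw [← T_zero hAVG K S x]
      exact T_mono hMFA hK S _ _ (fun _ _ _ => rfl) (hvr n) ih x
  have hvd : ∀ n x, v (n + 1) x ≤ v n x := by
    intro n
    induction n with
    | zero =>
      intro x
      rw [hvs]
      have e0 : v 0 = v0 := rfl
      rw [e0]
      refine le_min ?_ ?_
      · rw [← hPfix a hTa x]
        exact hPm _ _ hv0r ha.rinv (fun y => min_le_left _ _) x
      · rw [← hPfix b₁ hTb₁ x]
        exact hPm _ _ hv0r hb₁.rinv (fun y => min_le_right _ _) x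
    | succ n ih =>
      intro x
      rw [hvs (n + 1), hvs n]
      refine hPm _ _ ?_ (hvr n) ?_ x
      · rw [← hvs n]; exact hvr _
      · intro y
        rw [← hvs n]
        exact ih y
  have hva : ∀ n x, a x ≤ b₂ x + v n x := by
    intro n
    induction n with
    | zero => exact hv0b
    | succ n ih =>
      intro x
      have hr : RInv K (fun y => b₂ y + v n y) := by
        intro y k hk
        simp only []
        rw [hb₂.rinv y k hk, hvr n y k hk]
      have h1 := hPm a (fun y => b₂ y + v n y) ha.rinv hr ih x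
      rw [hPfix a hTa x] at h1
      refine h1.trans (le_of_eq ?_)
      rw [hvs]
      simp only [hP]
      rw [T_add hMFA hK S b₂ (v n) hb₂.rinv (hvr n) x, hTb₂ x]
      field_simp
  have hanti : ∀ x, Antitone fun n => v n x := fun x => antitone_nat_of_succ_le fun n => hvd n x
  have hlim : ∀ x, Tendsto (fun n => v n x) atTop (𝓝 (⨅ n, v n x)) := fun x =>
    tendsto_atTop_ciInf (hanti x) ⟨0, by rintro _ ⟨n, rfl⟩; exact hvn n x⟩
  set a₁ : G → ℝ := fun x => ⨅ n, v n x with ha₁
  have ha₁r : RInv K a₁ := by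
    intro x k hk
    simp only [ha₁]
    exact iInf_congr fun n => hvr n x k hk
  have ha₁le : ∀ x, a₁ x ≤ v0 x := fun x => (hanti x).le_of_tendsto (hlim x) 0
  refine ⟨a₁, ha₁r, fun x => ge_of_tendsto' (hlim x) fun n => hvn n x,
    fun x => (ha₁le x).trans (min_le_left _ _), fun x => (ha₁le x).trans (min_le_right _ _),
    fun x => ?_, fun x => ?_⟩
  · have h1 : Tendsto (fun n => b₂ x + v n x) atTop (𝓝 (b₂ x + a₁ x)) :=
      tendsto_const_nhds.add (hlim x)
    exact ge_of_tendsto' h1 fun n => hva n x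
  · have h1 := T_tendsto hAVG hMFA hK S v a₁ hvr ha₁r hlim x
    have h2 : Tendsto (fun n => T K S (v n) x) atTop (𝓝 (l * a₁ x)) := by
      have h3 : (fun n => T K S (v n) x) = fun n => l * v (n + 1) x := by
        funext n
        rw [hvs]
        simp only [hP]
        field_simp
      rw [h3]
      exact ((tendsto_add_atTop_iff_nat 1).2 (hlim x)).const_mul l
    exact tendsto_nhds_unique h1 h2

end RIEM

theorem specRIE (hAVG : SpecAVG.{u}) (hMFA : SpecMFA.{u}) (hCNF : SpecCNF.{u})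
    (hHER : SpecHER.{u}) : SpecRIE.{u} := by
  classical
  intro G _ _ _ K S l χ hK hχ ι s
  induction s using Finset.induction_on with
  | empty =>
    intro a b ha _ hle
    refine ⟨fun _ _ => 0, fun i hi => absurd hi (Finset.notMem_empty i), fun x => ?_⟩
    have h1 := hle x
    rw [Finset.sum_empty] at h1 ⊢
    exact le_antisymm h1 (ha.nonneg x)
  | insert i s hi ih =>
    intro a b ha hb hle
    have hbs : ∀ j ∈ s, Cn K χ (b j) := fun j hj => hb j (Finset.mem_insert_of_mem hj)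
    obtain ⟨a₁, a₂, h1, h2, h3, h4, h5⟩ := RIEM.two hAVG hMFA hCNF hHER hK hχ a (b i)
      (fun x => ∑ j ∈ s, b j x) ha (hb i (Finset.mem_insert_self i s))
      (hCNF.sum G K χ ι s b hK hbs) (fun x => by
        have := hle x
        rwa [Finset.sum_insert hi] at this)
    obtain ⟨c, hc1, hc2⟩ := ih a₂ b h2 hbs h4
    refine ⟨Function.update c i a₁, fun j hj => ?_, fun x => ?_⟩
    · rcases Finset.mem_insert.1 hj with rfl | hj
      · rw [Function.update_self]
        exact ⟨h1, h3⟩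
      · have hne : j ≠ i := fun h => hi (h ▸ hj)
        rw [Function.update_of_ne hne]
        exact hc1 j hj
    · rw [Finset.sum_insert hi, Function.update_self, h5 x, hc2 x]
      congr 1
      refine Finset.sum_congr rfl fun j hj => ?_
      have hne : j ≠ i := fun h => hi (h ▸ hj)
      rw [Function.update_of_ne hne]

end Pool.Agent.Lib.MP7d449a.GP
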