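import Pool.Agent.Lib.MP_7d449a_al.GP.Spec2

/-!
# MP_7d449a_al, Gelfand pairs, module RSD: compactly generated groups modulo an intersection of
closed normal subgroups
-/

set_option autoImplicit false

open Filter Topology
open scoped Pointwise

namespace Pool.Agent.Lib.MP7d449a.GP

universe u

namespace RSDM

variable {G : Type u} [Group G] [TopologicalSpace G] [IsTopologicalGroup G]

theorem sInf_normal {𝒩 : Set (Subgroup G)} (h : ∀ N ∈ 𝒩, N.Normal ∧ IsClosed (N : Set G)) :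
    (sInf 𝒩).Normal := by
  refine ⟨fun n hn g => ?_⟩
  rw [Subgroup.mem_sInf] at hn ⊢
  intro N hN
  exact (h N hN).1.conj_mem n (hn N hN) g

end RSDM

open RSDM in
theorem specRSD : SpecRSD.{u} := by
  intro G _ _ _ K S hK hS hgen 𝒩 hne hN hdir
  have hB : (sInf 𝒩).Normal := sInf_normal hN
  set B := sInf 𝒩 with hBdef
  obtain ⟨U, hU⟩ : ∃ U : Set G, U = {x | x ∈ K ∧ ∀ s ∈ S, s⁻¹ * x * s ∈ K} := ⟨_, rfl⟩
  have hUo : IsOpen U := by
    have h1 : U = (K : Set G) ∩ ⋂ s ∈ S, (fun x => s⁻¹ * x * s) ⁻¹' (K : Set G) := by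
      rw [hU]
      ext x
      simp
    rw [h1]
    refine hK.1.inter (isOpen_biInter_finset fun s _ => hK.1.preimage ?_)
    fun_prop
  have hOo : IsOpen (U * (B : Set G)) := hUo.mul_right
  have h1U : (1 : G) ∈ U := by
    rw [hU]
    refine ⟨K.one_mem, fun s _ => ?_⟩
    simp
  have : Nonempty 𝒩 := hne.to_subtype
  obtain ⟨⟨N, hNN⟩, hsub⟩ := (hK.2.diff hOo).elim_directed_cover
    (fun N : 𝒩 => ((N : Subgroup G) : Set G)ᶜ) (fun N => (hN N N.2).2.isOpen_compl)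
    (by
      rintro x ⟨-, hx⟩
      by_contra hcon
      apply hx
      have hxB : x ∈ B := by
        rw [hBdef, Subgroup.mem_sInf]
        intro N hNN
        by_contra hxN
        exact hcon (Set.mem_iUnion.2 ⟨⟨N, hNN⟩, hxN⟩)
      exact Set.mem_mul.2 ⟨1, h1U, x, hxB, one_mul x⟩)
    (by
      rintro ⟨N₁, h₁⟩ ⟨N₂, h₂⟩
      obtain ⟨N₃, h₃, h₃'⟩ := hdir N₁ h₁ N₂ h₂
      refine ⟨⟨N₃, h₃⟩, ?_, ?_⟩
      · intro x hx hx'
        exact hx (h₃' hx').1
      · intro x hx hx'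
        exact hx (h₃' hx').2)
  have hNn := (hN N hNN).1
  have hBN : B ≤ N := sInf_le hNN
  have hsup : ∀ x : G, x ∈ K ⊔ B ↔ ∃ k ∈ K, ∃ b ∈ B, k * b = x := by
    intro x
    rw [← SetLike.mem_coe, Subgroup.mul_normal, Set.mem_mul]
    rfl
  refine ⟨N, hNN, ?_⟩
  -- conjugation by the elements of `S`
  have hconj : ∀ s ∈ S, ∀ x ∈ N ⊓ (K ⊔ B), s⁻¹ * x * s ∈ N ⊓ (K ⊔ B) := by
    rintro s hs x ⟨hxN, hx⟩
    refine ⟨?_, ?_⟩
    · have h1 := hNn.conj_mem x hxN s⁻¹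
      rwa [inv_inv] at h1
    · obtain ⟨k, hk, b, hb, rfl⟩ := (hsup x).1 hx
      have hkN : k ∈ N := by
        have h1 := N.mul_mem hxN (N.inv_mem (hBN hb))
        rwa [mul_inv_cancel_right] at h1
      have hkO : k ∈ U * (B : Set G) := by
        by_contra hcon
        exact hsub ⟨hk, hcon⟩ hkN
      obtain ⟨u, hu, b', hb', hub⟩ := Set.mem_mul.1 hkO
      rw [hU] at hu
      refine (hsup _).2 ?_
      refine ⟨s⁻¹ * u * s, hu.2 s hs, s⁻¹ * (b' * b) * s, ?_, ?_⟩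
      · have h1 := hB.conj_mem (b' * b) (B.mul_mem hb' hb) s⁻¹
        rwa [inv_inv] at h1
      · rw [← hub]
        group
  have hall : ∀ g : G, ∀ x ∈ N ⊓ (K ⊔ B), g * x * g⁻¹ ∈ N ⊓ (K ⊔ B) ∧
      g⁻¹ * x * g ∈ N ⊓ (K ⊔ B) := by
    intro g
    have hg : g ∈ Subgroup.closure ((K : Set G) ∪ (S : Set G)) := by
      rw [hgen]
      trivial
    induction hg using Subgroup.closure_induction with
    | mem g hg =>
      intro x hx
      rcases hg with hg | hg
      · have hgK : g ∈ K ⊔ B := (le_sup_left : K ≤ K ⊔ B) hg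
        refine ⟨⟨hNn.conj_mem x hx.1 g, ?_⟩, ⟨?_, ?_⟩⟩
        · exact (K ⊔ B).mul_mem ((K ⊔ B).mul_mem hgK hx.2) ((K ⊔ B).inv_mem hgK)
        · have h1 := hNn.conj_mem x hx.1 g⁻¹
          rwa [inv_inv] at h1
        · exact (K ⊔ B).mul_mem ((K ⊔ B).mul_mem ((K ⊔ B).inv_mem hgK) hx.2) hgK
      · have hgS : g ∈ S := hg
        refine ⟨?_, hconj g hgS x hx⟩
        have h1 := hconj g⁻¹ (hS g hgS) x hx
        rwa [inv_inv] at h1
    | one =>
      intro x hx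
      simpa using hx
    | mul a b _ _ iha ihb =>
      intro x hx
      refine ⟨?_, ?_⟩
      · have h1 := (iha _ (ihb x hx).1).1
        have h2 : a * (b * x * b⁻¹) * a⁻¹ = a * b * x * (a * b)⁻¹ := by group
        rwa [h2] at h1
      · have h1 := (ihb _ (iha x hx).2).2
        have h2 : b⁻¹ * (a⁻¹ * x * a) * b = (a * b)⁻¹ * x * (a * b) := by group
        rwa [h2] at h1
    | inv a _ iha =>
      intro x hx
      rw [inv_inv]
      exact ⟨(iha x hx).2, (iha x hx).1⟩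
  exact ⟨fun x hx g => (hall g x hx).1⟩

end Pool.Agent.Lib.MP7d449a.GP
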