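import Pool.Agent.Lib.MP_7d449a_al.GP.Spec

/-! # MP_7d449a_al, Gelfand pairs: module SCM -/

set_option autoImplicit false

namespace Pool.Agent.Lib.MP7d449a.GP

universe u

theorem specSCM (hAVG : SpecAVG.{u}) (hMFA : SpecMFA.{u}) : SpecSCM.{u} := by
  classical
  intro G _ _ _ K hK hGC g h
  by_contra hcon
  set D : Set G := {x | ∃ k₁ ∈ K, ∃ k₂ ∈ K, ∃ k₃ ∈ K, x = k₁ * h * k₂ * g * k₃} with hD
  set F : G → ℝ := fun x => if x ∈ D then 0 else 1 with hF
  have hDr : ∀ x k, k ∈ K → (x * k ∈ D ↔ x ∈ D) := by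
    intro x k hk
    constructor
    · rintro ⟨k₁, h1, k₂, h2, k₃, h3, e⟩
      refine ⟨k₁, h1, k₂, h2, k₃ * k⁻¹, K.mul_mem h3 (K.inv_mem hk), ?_⟩
      rw [← mul_assoc, ← e]; group
    · rintro ⟨k₁, h1, k₂, h2, k₃, h3, e⟩
      refine ⟨k₁, h1, k₂, h2, k₃ * k, K.mul_mem h3 hk, ?_⟩
      rw [e]; group
  have hFr : RInv K F := by
    intro x k hk
    simp only [hF, hDr x k hk]
  have hF0 : ∀ x, 0 ≤ F x := by
    intro x
    simp only [hF]
    split_ifs <;> norm_num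
  have hM0 : ∀ (f : G → ℝ), RInv K f → (∀ x, 0 ≤ f x) → ∀ a x, 0 ≤ M K a f x := by
    intro f hf hf0 a x
    have h1 := hMFA.mono G K hK (fun _ => 0) f (fun _ _ _ => rfl) hf hf0 a x
    have h2 : M K a (fun _ => (0 : ℝ)) x = 0 := hAVG.const G K 0
    rw [h2] at h1
    exact h1
  have hz1 : M K h (M K g F) 1 = 0 := by
    have hin : ∀ k ∈ K, M K g F (1 * k * h) = 0 := by
      intro k hk
      have := (hAVG.congr G K (fun k' => F (1 * k * h * k' * g)) (fun _ => 0) (by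
        intro k' hk'
        simp only [hF]
        rw [if_pos]
        exact ⟨k, hk, k', hk', 1, K.one_mem, by group⟩)).2
      show avg K (fun k' => F (1 * k * h * k' * g)) = 0
      rw [this, hAVG.const]
    show avg K (fun k => M K g F (1 * k * h)) = 0
    rw [(hAVG.congr G K (fun k => M K g F (1 * k * h)) (fun _ => 0) hin).2, hAVG.const]
  have hz2 : M K g (M K h F) 1 = 0 := by
    rw [hGC g h F hFr 1, hz1]
  have hr := hMFA.rinv G K hK F hFr h
  have l1 := hMFA.lower G K hK (M K h F) hr (hM0 F hFr hF0 h) g 1 1 K.one_mem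
  rw [hz2, mul_zero] at l1
  have l2 := hMFA.lower G K hK F hFr hF0 h g 1 K.one_mem
  have e1 : (1 : G) * 1 * g = g := by group
  rw [e1] at l1
  have l3 : F (g * 1 * h) ≤ 0 :=
    l2.trans (mul_nonpos_of_nonneg_of_nonpos (Nat.cast_nonneg _) l1)
  have hmem : g * 1 * h ∈ D := by
    by_contra hn
    simp only [hF] at l3
    rw [if_neg hn] at l3
    norm_num at l3
  obtain ⟨k₁, h1, k₂, h2, k₃, h3, e⟩ := hmem
  exact hcon ⟨k₁, h1, k₂, h2, k₃, h3, by rw [← e, mul_one]⟩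

end Pool.Agent.Lib.MP7d449a.GP
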