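import Pool.Agent.Lib.MP_7d449a_al.GP.Spec2

/-!
# MP_7d449a_al, Gelfand pairs: module STA

The structure of the group modulo a compactly generated open normal subgroup.
-/

set_option autoImplicit false

open Filter Topology
open scoped Pointwise

namespace Pool.Agent.Lib.MP7d449a.GP

universe u

namespace STAM

/-- A subset of a compact set is covered by finitely many cosets of an open subgroup. -/
theorem cover {G : Type u} [Group G] [TopologicalSpace G] [IsTopologicalGroup G] {K : Subgroup G}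
    (hK : IsOpen (K : Set G)) {C : Set G} (hC : IsCompact C) :
    ∃ S : Finset G, ∀ c ∈ C, ∃ s ∈ S, s⁻¹ * c ∈ K := by
  obtain ⟨t, ht⟩ := hC.elim_finite_subcover (fun s : G => {x : G | s⁻¹ * x ∈ K})
    (fun s => hK.preimage (continuous_const.mul continuous_id))
    (fun c _ => Set.mem_iUnion.2 ⟨c, by simp⟩)
  refine ⟨t, fun c hc => ?_⟩
  obtain ⟨s, hs, h⟩ := Set.mem_iUnion₂.1 (ht hc)
  exact ⟨s, hs, h⟩

/-- The normal core of an open subgroup of finite index is open. -/
theorem core_open {G : Type u} [Group G] [TopologicalSpace G] [IsTopologicalGroup G]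
    (L : Subgroup G) (hL : IsOpen (L : Set G)) [L.FiniteIndex] :
    IsOpen (L.normalCore : Set G) := by
  have hc : IsClosed (L.normalCore : Set G) := by
    have h1 : (L.normalCore : Set G) = ⋂ b : G, {a : G | b * a * b⁻¹ ∈ L} := by
      ext a
      simp only [Set.mem_iInter, Set.mem_ofPred_eq]
      rfl
    rw [h1]
    refine isClosed_iInter fun b => ?_
    exact (L.isClosed_of_isOpen hL).preimage
      ((continuous_const.mul continuous_id).mul continuous_const)
  exact Subgroup.isOpen_of_isClosed_of_finiteIndex _ hc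

/-- A group generated by a compact set is generated by `K` and a finite symmetric set. -/
theorem gen {G : Type u} [Group G] [TopologicalSpace G] [IsTopologicalGroup G] {K : Subgroup G}
    (hK : IsOpen (K : Set G)) (hG : CG G) :
    ∃ S : Finset G, (∀ s ∈ S, s⁻¹ ∈ S) ∧ Subgroup.closure ((K : Set G) ∪ (S : Set G)) = ⊤ := by
  classical
  obtain ⟨C, hC, hcl⟩ := hG
  obtain ⟨S0, hS0⟩ := cover hK hC
  refine ⟨S0 ∪ S0.image (fun s => s⁻¹), fun s hs => ?_, ?_⟩
  · rcases Finset.mem_union.1 hs with h | h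
    · exact Finset.mem_union_right _ (Finset.mem_image_of_mem _ h)
    · obtain ⟨r, hr, rfl⟩ := Finset.mem_image.1 h
      rw [inv_inv]
      exact Finset.mem_union_left _ hr
  · rw [eq_top_iff, ← hcl]
    refine (Subgroup.closure_le _).2 fun c hc => ?_
    obtain ⟨s, hs, h⟩ := hS0 c hc
    have h1 : c = s * (s⁻¹ * c) := by group
    rw [h1]
    exact Subgroup.mul_mem _
      (Subgroup.subset_closure (Or.inr (Finset.mem_coe.2 (Finset.mem_union_left _ hs))))
      (Subgroup.subset_closure (Or.inl h))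

/-- preimages of subgroups of finite index -/
theorem comap_fi {G H : Type u} [Group G] [Group H] (f : G →* H) (L : Subgroup H)
    (hL : L.FiniteIndex) : (L.comap f).FiniteIndex := by
  constructor
  rw [Subgroup.index_comap]
  intro h
  exact hL.index_ne_zero (Subgroup.index_eq_zero_of_relIndex_eq_zero h)

/-- tuples -/
def toPi (r : ℕ) : Multiplicative (Fin r → ℤ) →* (Fin r → Multiplicative ℤ) where
  toFun n i := Multiplicative.ofAdd (Multiplicative.toAdd n i)
  map_one' := rfl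
  map_mul' _ _ := rfl

/-- tuples -/
def ofPi (r : ℕ) : (Fin r → Multiplicative ℤ) →* Multiplicative (Fin r → ℤ) where
  toFun v := Multiplicative.ofAdd (fun i => Multiplicative.toAdd (v i))
  map_one' := rfl
  map_mul' _ _ := rfl

theorem exists_hom {H : Type u} [Group H] {r : ℕ} (y : Fin r → H)
    (hy : ∀ i j, Commute (y i) (y j)) :
    ∃ φ : Multiplicative (Fin r → ℤ) →* H,
      ∀ i, φ (Multiplicative.ofAdd (Pi.single i 1)) = y i := by
  classical
  let ϕ : ∀ _ : Fin r, Multiplicative ℤ →* H := fun i => zpowersHom H (y i)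
  have hc : Pairwise fun i j => ∀ x y, Commute (ϕ i x) (ϕ j y) := by
    intro i j _ x z
    show Commute (zpowersHom H (y i) x) (zpowersHom H (y j) z)
    rw [zpowersHom_apply, zpowersHom_apply]
    exact (hy i j).zpow_zpow _ _
  refine ⟨(MonoidHom.noncommPiCoprod ϕ hc).comp (toPi r), fun i => ?_⟩
  rw [MonoidHom.comp_apply]
  have h : toPi r (Multiplicative.ofAdd (Pi.single i 1)) =
      Pi.mulSingle i (Multiplicative.ofAdd (1 : ℤ)) := by
    funext j
    show Multiplicative.ofAdd ((Pi.single i (1 : ℤ) : Fin r → ℤ) j) = _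
    by_cases hj : j = i
    · subst hj
      rw [Pi.single_eq_same, Pi.mulSingle_eq_same]
    · rw [Pi.single_eq_of_ne hj, Pi.mulSingle_eq_of_ne hj]
      rfl
  rw [h, MonoidHom.noncommPiCoprod_mulSingle]
  show zpowersHom H (y i) (Multiplicative.ofAdd (1 : ℤ)) = y i
  rw [zpowersHom_apply, toAdd_ofAdd, zpow_one]

theorem hom_ext {H : Type u} [Group H] {r : ℕ} (f g : Multiplicative (Fin r → ℤ) →* H)
    (h : ∀ i, f (Multiplicative.ofAdd (Pi.single i 1)) =
      g (Multiplicative.ofAdd (Pi.single i 1))) : f = g := by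
  classical
  have h1 : f.comp (ofPi r) = g.comp (ofPi r) := by
    refine MonoidHom.pi_ext fun i x => ?_
    have h2 : ofPi r (Pi.mulSingle i x) =
        (Multiplicative.ofAdd (Pi.single i (1 : ℤ))) ^ (Multiplicative.toAdd x) := by
      rw [← ofAdd_zsmul]
      show Multiplicative.ofAdd (fun j => Multiplicative.toAdd
        ((Pi.mulSingle i x : Fin r → Multiplicative ℤ) j)) = _
      congr 1
      funext j
      by_cases hj : j = i
      · subst hj
        rw [Pi.mulSingle_eq_same, Pi.smul_apply, Pi.single_eq_same, smul_eq_mul, mul_one]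
      · rw [Pi.mulSingle_eq_of_ne hj, Pi.smul_apply, Pi.single_eq_of_ne hj, smul_zero, toAdd_one]
    rw [MonoidHom.comp_apply, MonoidHom.comp_apply, h2, map_zpow, map_zpow, h i]
  ext n
  have h3 : n = ofPi r (toPi r n) := rfl
  rw [h3]
  exact DFunLike.congr_fun h1 (toPi r n)

/-- the `m`-th powers have finite index in `Z^r` -/
theorem pow_index (r m : ℕ) (hm : m ≠ 0) :
    ((powMonoidHom m : Multiplicative (Fin r → ℤ) →* Multiplicative (Fin r → ℤ)).range).FiniteIndex := by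
  have : NeZero m := ⟨hm⟩
  let κ : (Fin r → ℤ) →+ (Fin r → ZMod m) :=
    { toFun := fun n i => (n i : ZMod m)
      map_zero' := by funext i; simp
      map_add' := fun a b => by funext i; simp }
  have h1 : (AddMonoidHom.toMultiplicative κ).ker.FiniteIndex := inferInstance
  refine Subgroup.finiteIndex_of_le (H := (AddMonoidHom.toMultiplicative κ).ker) ?_
  intro n hn
  rw [MonoidHom.mem_ker] at hn
  have h2 : κ (Multiplicative.toAdd n) = 0 := hn
  have h3 : ∀ i, (m : ℤ) ∣ Multiplicative.toAdd n i := by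
    intro i
    have h4 : ((Multiplicative.toAdd n i : ℤ) : ZMod m) = 0 := congrFun h2 i
    exact (ZMod.intCast_zmod_eq_zero_iff_dvd _ _).mp h4
  choose k hk using h3
  refine ⟨Multiplicative.ofAdd k, ?_⟩
  show (Multiplicative.ofAdd k) ^ m = n
  rw [← ofAdd_nsmul]
  show Multiplicative.ofAdd (m • k) = Multiplicative.ofAdd (Multiplicative.toAdd n)
  congr 1
  funext i
  rw [Pi.smul_apply, nsmul_eq_mul, hk i]

theorem pow_inj (r m : ℕ) (hm : m ≠ 0) (n : Multiplicative (Fin r → ℤ)) (h : n ^ m = 1) :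
    n = 1 := by
  have h1 : m • (Multiplicative.toAdd n) = 0 := by
    have := congrArg Multiplicative.toAdd h
    rw [toAdd_pow, toAdd_one] at this
    exact this
  have h2 : Multiplicative.toAdd n = 0 := by
    funext i
    have h3 := congrFun h1 i
    rw [Pi.smul_apply, nsmul_eq_mul, Pi.zero_apply, mul_eq_zero] at h3
    rcases h3 with h3 | h3
    · exact absurd (by exact_mod_cast h3) hm
    · exact h3
  have h4 : Multiplicative.ofAdd (Multiplicative.toAdd n) = Multiplicative.ofAdd 0 := by rw [h2]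
  exact h4

theorem Lv_pow {G : Type u} [Group G] [TopologicalSpace G] (z : G) (m : ℕ) :
    Lv z ⊆ Lv (z ^ m) := by
  rintro x ⟨Q, hQ, h⟩
  refine ⟨Q, hQ, fun n => ?_⟩
  have := h ((m : ℤ) * n)
  rw [zpow_mul, zpow_natCast] at this
  exact this

end STAM

open STAM in
theorem specSTA (hLSF : SpecLSF.{u}) (hRSD : SpecRSD.{u}) (hVAQ : SpecVAQ.{u})
    (hCGU : SpecCGU.{u}) : SpecSTA.{u} := by
  classical
  intro G _ _ _ K hCO hSC hTP hCG
  obtain ⟨S, hS2, hcl2⟩ := gen hCO.1 hCG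
  -- the subgroup `U₀`
  obtain ⟨N, hN, hU0⟩ := hRSD G K S hCO hS2 hcl2 {H : Subgroup G | IsOpen (H : Set G) ∧ H.Normal}
    ⟨⊤, ⟨by rw [Subgroup.coe_top]; exact isOpen_univ, inferInstance⟩⟩
    (fun N hN => ⟨hN.2, N.isClosed_of_isOpen hN.1⟩)
    (fun N₁ h₁ N₂ h₂ => ⟨N₁ ⊓ N₂, by
      have := h₁.2
      have := h₂.2
      exact ⟨by rw [Subgroup.coe_inf]; exact h₁.1.inter h₂.1, inferInstance⟩, le_rfl⟩)
  obtain ⟨U₀, hU₀⟩ : ∃ U₀ : Subgroup G, U₀ = N ⊓ (K ⊔ discreteResidual G) := ⟨_, rfl⟩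
  have hU0' : U₀.Normal := by rw [hU₀]; exact hU0
  have hU0le : U₀ ≤ K ⊔ discreteResidual G := by rw [hU₀]; exact inf_le_right
  have hKB : IsOpen ((K ⊔ discreteResidual G : Subgroup G) : Set G) :=
    Subgroup.isOpen_mono le_sup_left hCO.1
  have hU0o : IsOpen (U₀ : Set G) := by
    rw [hU₀, Subgroup.coe_inf]
    exact hN.1.inter hKB
  clear hU₀ hU0 hKB hcl2 hS2
  -- virtually abelian quotient
  obtain ⟨r, φ₀, hφinj, hφn, hφf⟩ := hVAQ G K U₀ hCO hSC hCG hU0o
  have hz : ∀ i : Fin r, ∃ z : G, (z : G ⧸ U₀) = φ₀ (Multiplicative.ofAdd (Pi.single i 1)) :=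
    fun i => QuotientGroup.mk_surjective _
  choose z hz using hz
  obtain ⟨G₁, hG₁⟩ : ∃ G₁ : Subgroup G, G₁ = φ₀.range.comap (QuotientGroup.mk' U₀) := ⟨_, rfl⟩
  have hG1f : G₁.FiniteIndex := by rw [hG₁]; exact comap_fi _ _ hφf
  have hU0G1 : U₀ ≤ G₁ := by
    intro x hx
    rw [hG₁, Subgroup.mem_comap]
    have h1 : QuotientGroup.mk' U₀ x = 1 := (QuotientGroup.eq_one_iff x).2 hx
    rw [h1]
    exact one_mem _
  have hG1o : IsOpen (G₁ : Set G) := Subgroup.isOpen_mono hU0G1 hU0o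
  have hG1mem : ∀ a ∈ G₁, ∃ n, φ₀ n = (a : G ⧸ U₀) := by
    intro a ha
    rw [hG₁, Subgroup.mem_comap] at ha
    exact ha
  have hG1c : ∀ a ∈ G₁, ∀ b ∈ G₁, a * b * a⁻¹ * b⁻¹ ∈ U₀ := by
    intro a ha b hb
    obtain ⟨n, hn⟩ := hG1mem a ha
    obtain ⟨n', hn'⟩ := hG1mem b hb
    rw [← QuotientGroup.eq_one_iff]
    rw [QuotientGroup.mk_mul, QuotientGroup.mk_mul, QuotientGroup.mk_mul, QuotientGroup.mk_inv,
      QuotientGroup.mk_inv, ← hn, ← hn', ← map_mul, mul_comm n n', map_mul]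
    group
  -- the subgroup `A`
  have hL := fun i => hLSF G K hCO hTP hSC (z i)
  choose L hL1 hL2 hL3 using hL
  have : ∀ i, (L i).FiniteIndex := hL3
  obtain ⟨A0, hA0⟩ : ∃ A0 : Subgroup G, A0 = G₁ ⊓ ⨅ i, L i := ⟨_, rfl⟩
  have hA0f : A0.FiniteIndex := by
    rw [hA0]
    have := hG1f
    have : (⨅ i, L i).FiniteIndex := Subgroup.finiteIndex_iInf hL3
    infer_instance
  have hA0o : IsOpen (A0 : Set G) := by
    rw [hA0, Subgroup.coe_inf, Subgroup.coe_iInf]
    exact hG1o.inter (isOpen_iInter_of_finite hL2)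
  have := hA0f
  obtain ⟨A, hA⟩ : ∃ A : Subgroup G, A = A0.normalCore := ⟨_, rfl⟩
  have hAn : A.Normal := by rw [hA]; infer_instance
  have hAf : A.FiniteIndex := by rw [hA]; infer_instance
  have hAo : IsOpen (A : Set G) := by rw [hA]; exact STAM.core_open A0 hA0o
  have hAle : A ≤ A0 := by rw [hA]; exact Subgroup.normalCore_le _
  have hAG1 : A ≤ G₁ := hAle.trans (by rw [hA0]; exact inf_le_left)
  have hAL : ∀ i, A ≤ L i := fun i => hAle.trans (by
    rw [hA0]; exact inf_le_right.trans (iInf_le _ i))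
  -- the subgroup `U₂`
  obtain ⟨U, hU⟩ : ∃ U : Subgroup G, U = A ⊓ U₀ := ⟨_, rfl⟩
  have hUn : U.Normal := by
    rw [hU]
    infer_instance
  have hUo : IsOpen (U : Set G) := by
    rw [hU, Subgroup.coe_inf]
    exact hAo.inter hU0o
  have hUA : U ≤ A := by rw [hU]; exact inf_le_left
  have hUU0 : U ≤ U₀ := by rw [hU]; exact inf_le_right
  have hAc : ∀ a ∈ A, ∀ b ∈ A, a * b * a⁻¹ * b⁻¹ ∈ U := by
    intro a ha b hb
    rw [hU]
    exact ⟨A.mul_mem (A.mul_mem (A.mul_mem ha hb) (A.inv_mem ha)) (A.inv_mem hb),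
      hG1c a (hAG1 ha) b (hAG1 hb)⟩
  -- the elements `y i`
  obtain ⟨m, hm⟩ : ∃ m : ℕ, m = A.index := ⟨_, rfl⟩
  have hm0 : m ≠ 0 := by rw [hm]; exact hAf.index_ne_zero
  obtain ⟨y, hy⟩ : ∃ y : Fin r → G, ∀ i, y i = z i ^ m := ⟨_, fun _ => rfl⟩
  have hyA : ∀ i, y i ∈ A := by
    intro i
    rw [hy i, hm]
    exact A.pow_index_mem (z i)
  have hcomm : ∀ i j, Commute (y i : G ⧸ U) (y j : G ⧸ U) := by
    intro i j
    have h1 := hAc (y i) (hyA i) (y j) (hyA j)
    rw [← QuotientGroup.eq_one_iff, QuotientGroup.mk_mul, QuotientGroup.mk_mul,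
      QuotientGroup.mk_mul, QuotientGroup.mk_inv, QuotientGroup.mk_inv] at h1
    show (y i : G ⧸ U) * (y j : G ⧸ U) = (y j : G ⧸ U) * (y i : G ⧸ U)
    have h2 : (y i : G ⧸ U) * (y j : G ⧸ U) =
        (y i : G ⧸ U) * (y j : G ⧸ U) * (y i : G ⧸ U)⁻¹ * (y j : G ⧸ U)⁻¹ *
          ((y j : G ⧸ U) * (y i : G ⧸ U)) := by group
    rw [h2, h1, one_mul]
  obtain ⟨φ, hφ⟩ := exists_hom (fun i => (y i : G ⧸ U)) hcomm
  -- comparison with `φ₀`
  have hψ : U ≤ U₀.comap (MonoidHom.id G) := hUU0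
  obtain ⟨ψ, hψ1⟩ : ∃ ψ : G ⧸ U →* G ⧸ U₀, ∀ g : G, ψ (g : G ⧸ U) = (g : G ⧸ U₀) :=
    ⟨QuotientGroup.map U U₀ (MonoidHom.id G) hψ, fun g => rfl⟩
  have hcmp : ψ.comp φ = φ₀.comp (powMonoidHom m) := by
    refine hom_ext _ _ fun i => ?_
    rw [MonoidHom.comp_apply, MonoidHom.comp_apply, hφ i, hψ1, hy i, powMonoidHom_apply, map_pow,
      ← hz i, QuotientGroup.mk_pow]
  have hcmp' : ∀ n, ψ (φ n) = φ₀ (n ^ m) := fun n => DFunLike.congr_fun hcmp n
  have hinj : Function.Injective φ := by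
    rw [injective_iff_map_eq_one]
    intro n hn
    have h1 := hcmp' n
    rw [hn, map_one] at h1
    exact pow_inj r m hm0 n ((injective_iff_map_eq_one φ₀).1 hφinj _ h1.symm)
  have hφA : ∀ n, ∃ a ∈ A, (a : G ⧸ U) = φ n := by
    have h1 : φ.range ≤ A.map (QuotientGroup.mk' U) := by
      have h2 : ∀ n, φ n ∈ A.map (QuotientGroup.mk' U) := by
        intro n
        obtain ⟨φ', hφ'⟩ := exists_hom (H := A.map (QuotientGroup.mk' U))
          (fun i => ⟨(y i : G ⧸ U), ⟨y i, hyA i, rfl⟩⟩)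
          (fun i j => Subtype.ext (hcomm i j))
        have h3 : (A.map (QuotientGroup.mk' U)).subtype.comp φ' = φ := by
          refine hom_ext _ _ fun i => ?_
          rw [MonoidHom.comp_apply, hφ' i, hφ i]
          rfl
        rw [← h3]
        exact (φ' n).2
      rintro _ ⟨n, rfl⟩
      exact h2 n
    intro n
    obtain ⟨a, ha, hn⟩ := h1 ⟨n, rfl⟩
    exact ⟨a, ha, hn⟩
  have hfin : φ.range.FiniteIndex := by
    have h1 : ((powMonoidHom m : Multiplicative (Fin r → ℤ) →* _).range.map φ₀).FiniteIndex := by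
      constructor
      rw [Subgroup.index_map_of_injective _ hφinj]
      exact mul_ne_zero (pow_index r m hm0).index_ne_zero hφf.index_ne_zero
    have h2 : (((powMonoidHom m : Multiplicative (Fin r → ℤ) →* _).range.map φ₀).comap
      ψ).FiniteIndex := comap_fi _ _ h1
    have h3 : (A.map (QuotientGroup.mk' U)).FiniteIndex := by
      constructor
      rw [Subgroup.index_map_eq A (QuotientGroup.mk'_surjective U)
        (by rw [QuotientGroup.ker_mk']; exact hUA)]
      exact hAf.index_ne_zero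
    have h4 : (A.map (QuotientGroup.mk' U) ⊓
      ((powMonoidHom m : Multiplicative (Fin r → ℤ) →* _).range.map φ₀).comap ψ).FiniteIndex :=
      inferInstance
    refine Subgroup.finiteIndex_of_le (H := A.map (QuotientGroup.mk' U) ⊓
      ((powMonoidHom m : Multiplicative (Fin r → ℤ) →* _).range.map φ₀).comap ψ) ?_
    rintro x ⟨⟨a, ha, rfl⟩, hx⟩
    have hx' : ψ (a : G ⧸ U) ∈ (powMonoidHom m : Multiplicative (Fin r → ℤ) →* _).range.map φ₀ := hx
    obtain ⟨p, ⟨n, rfl⟩, hn⟩ := hx'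
    refine ⟨n, ?_⟩
    obtain ⟨b, hb, hbn⟩ := hφA n
    have h5 := hcmp' n
    rw [← hbn, hψ1] at h5
    have h6 : (b : G ⧸ U₀) = (a : G ⧸ U₀) := by
      rw [h5, ← hψ1]
      exact hn
    rw [← hbn]
    show (b : G ⧸ U) = (a : G ⧸ U)
    rw [QuotientGroup.eq] at h6 ⊢
    rw [hU]
    exact ⟨A.mul_mem (A.inv_mem hb) ha, h6⟩
  obtain ⟨D, hD1, hD2, hD3⟩ := hCGU G U r φ y hTP hCG hUo hinj hfin hφ (fun i => by
    intro x hx
    rw [hy i]
    apply Lv_pow (z i) m
    rw [← hL1 i]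
    exact hAL i (hUA hx))
  exact ⟨U, A, hUo, hUn, hUU0.trans hU0le, ⟨D, hD1, hD2, hD3⟩, hUA, hAf, hAc⟩

end Pool.Agent.Lib.MP7d449a.GP
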