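import Pool.Agent.Lib.MP_7d449a_al.GP.Spec2

/-!
# MP_7d449a_al, Gelfand pairs: module STB
-/

set_option autoImplicit false

open Filter Topology
open scoped Pointwise

namespace Pool.Agent.Lib.MP7d449a.GP

universe u

namespace STBM

/-- A finite symmetric set which generates together with a compact open subgroup. -/
theorem exists_S {G : Type u} [Group G] [TopologicalSpace G] [IsTopologicalGroup G]
    {K : Subgroup G} (hK : CO K) (hC : CG G) :
    ∃ S : Finset G, (∀ s ∈ S, s⁻¹ ∈ S) ∧ Subgroup.closure ((K : Set G) ∪ (S : Set G)) = ⊤ := by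
  classical
  obtain ⟨C, hC, hCt⟩ := hC
  obtain ⟨t, ht⟩ := hC.elim_finite_subcover (fun c : G => (fun x => c⁻¹ * x) ⁻¹' (K : Set G))
    (fun c => hK.1.preimage (by fun_prop)) (fun x _ => Set.mem_iUnion.2 ⟨x, by simp⟩)
  refine ⟨t ∪ t.image (fun x => x⁻¹), ?_, ?_⟩
  · intro s hs
    rw [Finset.mem_union, Finset.mem_image] at hs ⊢
    rcases hs with hs | ⟨a, ha, rfl⟩
    · exact Or.inr ⟨s, hs, rfl⟩
    · exact Or.inl (by simpa using ha)
  · rw [eq_top_iff, ← hCt, Subgroup.closure_le]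
    intro x hx
    obtain ⟨c, hc⟩ := Set.mem_iUnion.1 (ht hx)
    obtain ⟨hct, hcx⟩ := Set.mem_iUnion.1 hc
    have h1 : c ∈ Subgroup.closure ((K : Set G) ∪ ((t ∪ t.image (fun x => x⁻¹) : Finset G) : Set G)) :=
      Subgroup.subset_closure (Or.inr (by simp [hct]))
    have h2 : c⁻¹ * x ∈ Subgroup.closure
        ((K : Set G) ∪ ((t ∪ t.image (fun x => x⁻¹) : Finset G) : Set G)) :=
      Subgroup.subset_closure (Or.inl hcx)
    have := Subgroup.mul_mem _ h1 h2
    rwa [mul_inv_cancel_left] at this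

theorem image_prod {G H : Type u} [Group G] [Group H] (π : H →* G) (l : List (Set H)) :
    (l.map (fun X => π '' X)).prod = π '' l.prod := by
  induction l with
  | nil =>
    simp [Set.singleton_one]
  | cons a l ih =>
    rw [List.map_cons, List.prod_cons, List.prod_cons, ih, Set.image_mul]

theorem good_image {G H : Type u} [Group G] [Group H] [TopologicalSpace G] [TopologicalSpace H]
    (π : H →* G) (hπ : Continuous π) {l : List (Set H)} (hl : Good l) :
    Good (l.map (fun X => π '' X)) := by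
  intro Y hY
  obtain ⟨X, hX, rfl⟩ := List.mem_map.1 hY
  rcases hl X hX with h | ⟨C, hC, rfl⟩
  · exact Or.inl (h.image hπ)
  · refine Or.inr ⟨π '' C, hC.image hπ, ?_⟩
    ext y
    constructor
    · rintro ⟨x, ⟨c, hc, n, rfl⟩, rfl⟩
      exact ⟨π c, ⟨c, hc, rfl⟩, n, by simp⟩
    · rintro ⟨-, ⟨c, hc, rfl⟩, n, rfl⟩
      exact ⟨c ^ n, ⟨c, hc, n, rfl⟩, by simp⟩

/-- The subgroups of the intersection defining `R`. -/
def NU {G : Type u} [Group G] [TopologicalSpace G] (U : Subgroup G) : Set (Subgroup G) :=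
  {N | N ≤ U ∧ IsOpen (N : Set G) ∧ ∀ u ∈ U, ∀ x ∈ N, u * x * u⁻¹ ∈ N}

theorem normal_R {G : Type u} [Group G] [TopologicalSpace G] [IsTopologicalGroup G]
    {U : Subgroup G} (hU : U.Normal) : (sInf (NU U)).Normal := by
  constructor
  intro x hx g
  rw [Subgroup.mem_sInf] at hx ⊢
  rintro N ⟨hN, hNo, hNn⟩
  have h := hx (N.comap (MulAut.conj g).toMonoidHom) ⟨?_, ?_, ?_⟩
  · simpa using h
  · intro y hy
    have h1 : g * y * g⁻¹ ∈ U := hN (by simpa using hy)
    have h2 := hU.conj_mem _ h1 g⁻¹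
    have e : g⁻¹ * (g * y * g⁻¹) * g⁻¹⁻¹ = y := by group
    rwa [e] at h2
  · have : ((N.comap (MulAut.conj g).toMonoidHom : Subgroup G) : Set G)
        = (fun y => g * y * g⁻¹) ⁻¹' (N : Set G) := by
      ext y
      simp
    rw [this]
    exact hNo.preimage (by fun_prop)
  · intro u hu y hy
    have hy : g * y * g⁻¹ ∈ N := by simpa using hy
    have h1 := hNn _ (hU.conj_mem u hu g) _ hy
    have e : g * u * g⁻¹ * (g * y * g⁻¹) * (g * u * g⁻¹)⁻¹ = g * (u * y * u⁻¹) * g⁻¹ := by group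
    rw [e] at h1
    simpa using h1

/-- `R` is contained in every open normal subgroup of `H`, and conversely. -/
theorem R_le {G : Type u} [Group G] [TopologicalSpace G] [IsTopologicalGroup G]
    {U H : Subgroup G} (hUo : IsOpen (U : Set G)) (hHo : IsOpen (H : Set G)) (hUH : U ≤ H)
    (N : Subgroup H) (hN : N.Normal) (hNo : IsOpen (N : Set H)) {x : H}
    (hx : (x : G) ∈ sInf (NU U)) : x ∈ N := by
  rw [Subgroup.mem_sInf] at hx
  have h := hx (N.map H.subtype ⊓ U) ⟨inf_le_right, ?_, ?_⟩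
  · obtain ⟨y, hy, hyx⟩ := h.1
    have : y = x := Subtype.ext hyx
    rwa [← this]
  · rw [Subgroup.coe_inf, Subgroup.coe_map]
    exact (hHo.isOpenMap_subtype_val _ hNo).inter hUo
  · rintro u hu y ⟨⟨z, hz, rfl⟩, hyU⟩
    refine ⟨⟨⟨u, hUH hu⟩ * z * ⟨u, hUH hu⟩⁻¹, hN.conj_mem _ hz _, rfl⟩, ?_⟩
    exact U.mul_mem (U.mul_mem hu hyU) (U.inv_mem hu)

theorem le_R {G : Type u} [Group G] [TopologicalSpace G] [IsTopologicalGroup G]
    {K U : Subgroup G} (hK : CO K) (hU : U.Normal) (hUo : IsOpen (U : Set G)) {x : G}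
    (hx : ∀ N : Subgroup ↥(K ⊔ U), N.Normal → IsOpen (N : Set ↥(K ⊔ U)) →
      ∀ y : ↥(K ⊔ U), (y : G) = x → y ∈ N) (hxH : x ∈ K ⊔ U) : x ∈ sInf (NU U) := by
  rw [Subgroup.mem_sInf]
  rintro N ⟨hN, hNo, hNn⟩
  let N₁ : Subgroup G :=
    { carrier := {y | ∀ k ∈ K, k * y * k⁻¹ ∈ N}
      mul_mem' := by
        intro a b ha hb k hk
        have e : k * (a * b) * k⁻¹ = (k * a * k⁻¹) * (k * b * k⁻¹) := by group
        rw [e]
        exact N.mul_mem (ha k hk) (hb k hk)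
      one_mem' := by
        intro k _
        rw [mul_one, mul_inv_cancel]
        exact N.one_mem
      inv_mem' := by
        intro a ha k hk
        have e : k * a⁻¹ * k⁻¹ = (k * a * k⁻¹)⁻¹ := by group
        rw [e]
        exact N.inv_mem (ha k hk) }
  obtain ⟨t, htK, ht⟩ := hK.2.elim_nhds_subcover (fun k : G => (fun y => y * k⁻¹) ⁻¹' (U : Set G))
    (fun k _ => (hUo.preimage (by fun_prop)).mem_nhds (by simp))
  have hset : (N₁ : Set G) = ⋂ k ∈ t, (fun y => k * y * k⁻¹) ⁻¹' (N : Set G) := by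
    ext y
    simp only [Set.mem_iInter, Set.mem_preimage, SetLike.mem_coe]
    constructor
    · intro h k hk
      exact h k (htK k hk)
    · intro h k hk
      obtain ⟨k', hk'⟩ := Set.mem_iUnion.1 (ht hk)
      obtain ⟨hk't, hkk'⟩ := Set.mem_iUnion.1 hk'
      have h1 := hNn _ hkk' _ (h k' hk't)
      have e : k * k'⁻¹ * (k' * y * k'⁻¹) * (k * k'⁻¹)⁻¹ = k * y * k⁻¹ := by group
      rwa [e] at h1
  have hN₁o : IsOpen (N₁ : Set G) := by
    rw [hset]
    exact isOpen_biInter_finset fun k _ => hNo.preimage (by fun_prop)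
  have hnorm : K ⊔ U ≤ Subgroup.normalizer (N₁ : Set G) := by
    have key : ∀ h : G, (∀ y ∈ N₁, h * y * h⁻¹ ∈ N₁) → (∀ y ∈ N₁, h⁻¹ * y * h⁻¹⁻¹ ∈ N₁) →
        h ∈ Subgroup.normalizer (N₁ : Set G) := by
      intro h h1 h2
      rw [Subgroup.mem_normalizer_iff]
      intro y
      constructor
      · exact h1 y
      · intro hy
        have := h2 _ hy
        have e : h⁻¹ * (h * y * h⁻¹) * h⁻¹⁻¹ = y := by group
        rwa [e] at this
    have hKn : ∀ h ∈ K, ∀ y ∈ N₁, h * y * h⁻¹ ∈ N₁ := by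
      intro h hh y hy k hk
      have e : k * (h * y * h⁻¹) * k⁻¹ = (k * h) * y * (k * h)⁻¹ := by group
      rw [e]
      exact hy _ (K.mul_mem hk hh)
    have hUn : ∀ h ∈ U, ∀ y ∈ N₁, h * y * h⁻¹ ∈ N₁ := by
      intro h hh y hy k hk
      have e : k * (h * y * h⁻¹) * k⁻¹ = (k * h * k⁻¹) * (k * y * k⁻¹) * (k * h * k⁻¹)⁻¹ := by
        group
      rw [e]
      exact hNn _ (hU.conj_mem h hh k) _ (hy k hk)
    refine sup_le ?_ ?_
    · intro h hh
      exact key h (hKn h hh) (hKn _ (K.inv_mem hh))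
    · intro h hh
      exact key h (hUn h hh) (hUn _ (U.inv_mem hh))
  have h1 := hx (N₁.subgroupOf (K ⊔ U)) ?_ ?_ ⟨x, hxH⟩ rfl
  · have h2 : x ∈ N₁ := by simpa [Subgroup.mem_subgroupOf] using h1
    have h3 := h2 1 K.one_mem
    rwa [one_mul, inv_one, mul_one] at h3
  · constructor
    intro y hy h
    have hy : (y : G) ∈ N₁ := hy
    have h2 := (Subgroup.mem_normalizer_iff.1 (hnorm h.2)) (y : G)
    exact h2.1 hy
  · exact hN₁o.preimage continuous_subtype_val

end STBM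

open STBM

theorem specSTB (hSCM : SpecSCM.{u}) (hRSD : SpecRSD.{u}) (hVAQ : SpecVAQ.{u})
    (hBGQ : SpecBGQ.{u}) (hGCS : SpecGCS.{u}) (hBGM : SpecBGM.{u}) (hINF : SpecINF.{u}) :
    SpecSTB.{u} := by
  intro G _ _ _ K U D hK hG hT hC hUo hUn hUK hD hDU hDc
  by_contra hnc
  set H : Subgroup G := K ⊔ U with hHdef
  have hKH : K ≤ H := le_sup_left
  have hUH : U ≤ H := le_sup_right
  have hHo : IsOpen (H : Set G) := Subgroup.isOpen_mono hKH hK.1
  have hHc : IsClosed (H : Set G) := Subgroup.isClosed_of_isOpen H hHo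
  have hUc : IsClosed (U : Set G) := Subgroup.isClosed_of_isOpen U hUo
  obtain ⟨hKHco, hKHg⟩ := hGCS.op G K H hK hHo hKH
  have hKHg := hKHg hG
  have hTH : TP H := hGCS.tp G H hHc hT
  -- compact generation of `H`
  have hCH : CG H := by
    refine ⟨(Subtype.val : H → G) ⁻¹' ((K : Set G) ∪ D), ?_, ?_⟩
    · exact hHc.isClosedEmbedding_subtypeVal.isCompact_preimage (hK.2.union hD)
    · apply Subgroup.map_injective H.subtype_injective
      rw [MonoidHom.map_closure]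
      have e : (H.subtype : H → G) '' ((Subtype.val : H → G) ⁻¹' ((K : Set G) ∪ D))
          = (K : Set G) ∪ D := by
        rw [Subgroup.coe_subtype]
        apply Set.image_preimage_eq_of_subset
        rintro x (hx | hx)
        · exact ⟨⟨x, hKH hx⟩, rfl⟩
        · exact ⟨⟨x, hUH (hDU hx)⟩, rfl⟩
      rw [e, Subgroup.closure_union, Subgroup.closure_eq, hDc, ← hHdef]
      ext x
      simp
  have hHnc : ¬ CompactSpace H := by
    intro h
    have h1 : IsCompact (H : Set G) := isCompact_iff_compactSpace.2 h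
    exact hnc (h1.of_isClosed_subset hUc hUH)
  obtain ⟨J, hJn, hJo, hJi⟩ := hINF H (K.subgroupOf H) hKHco hKHg hTH hCH hHnc
  -- the subgroup `R`
  set R : Subgroup G := sInf (NU U) with hRdef
  have hUmem : U ∈ NU U :=
    ⟨le_rfl, hUo, fun u hu x hx => U.mul_mem (U.mul_mem hu hx) (U.inv_mem hu)⟩
  have hRU : R ≤ U := sInf_le hUmem
  have hRn : R.Normal := normal_R hUn
  have hRc : IsClosed (R : Set G) := by
    rw [hRdef, Subgroup.coe_sInf]
    exact isClosed_biInter fun N hN => Subgroup.isClosed_of_isOpen N hN.2.1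
  set 𝒩 : Set (Subgroup H) := {N | N.Normal ∧ IsOpen (N : Set H)} with h𝒩
  have hRH : ∀ x : H, x ∈ sInf 𝒩 ↔ (x : G) ∈ R := by
    intro x
    constructor
    · intro hx
      refine le_R hK hUn hUo ?_ x.2
      intro N hN hNo y hy
      have : y = x := Subtype.ext hy
      rw [this]
      exact (Subgroup.mem_sInf.1 hx) N ⟨hN, hNo⟩
    · intro hx
      rw [Subgroup.mem_sInf]
      rintro N ⟨hN, hNo⟩
      exact R_le hUo hHo hUH N hN hNo hx
  -- bounded generation of `H` modulo `R`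
  obtain ⟨S, hS, hSt⟩ := exists_S hKHco hCH
  obtain ⟨N', hN', hU₃⟩ := hRSD H (K.subgroupOf H) S hKHco hS hSt 𝒩
    ⟨⊤, ⟨inferInstance, isOpen_univ⟩⟩
    (fun N hN => ⟨hN.1, Subgroup.isClosed_of_isOpen N hN.2⟩)
    (fun N₁ h₁ N₂ h₂ => ⟨N₁ ⊓ N₂, ⟨by
      have := h₁.1
      have := h₂.1
      infer_instance, h₁.2.inter h₂.2⟩, le_rfl⟩)
  set U₃ : Subgroup H := N' ⊓ (K.subgroupOf H ⊔ sInf 𝒩) with hU₃def
  have hRHn : (sInf 𝒩).Normal := by
    constructor
    intro x hx g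
    rw [hRH] at hx ⊢
    exact hRn.conj_mem _ hx _
  have hU₃o : IsOpen (U₃ : Set H) :=
    Subgroup.isOpen_mono (H₁ := N' ⊓ K.subgroupOf H) (inf_le_inf_left _ le_sup_left)
      (hN'.2.inter hKHco.1)
  have hSCH : SC (K.subgroupOf H) := hSCM H (K.subgroupOf H) hKHco hKHg
  have hSCG : SC K := hSCM G K hK hG
  obtain ⟨l₁, hl₁, hl₁u⟩ := hBGQ H U₃ (hVAQ H (K.subgroupOf H) U₃ hKHco hSCH hCH hU₃o)
  obtain ⟨l₂, hl₂, hl₂u⟩ := hBGQ G U (hVAQ G K U hK hSCG hC hUo)
  set l : List (Set G) := l₂ ++ (l₁.map (fun X => H.subtype '' X) ++ [(K : Set G)]) with hldef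
  have hl : Good l := by
    intro Y hY
    rw [hldef, List.mem_append, List.mem_append, List.mem_singleton] at hY
    rcases hY with hY | hY | hY
    · exact hl₂ Y hY
    · exact good_image H.subtype continuous_subtype_val hl₁ Y hY
    · rw [hY]
      exact Or.inl hK.2
  have hlp : l.prod = l₂.prod * ((H.subtype '' l₁.prod) * (K : Set G)) := by
    rw [hldef, List.prod_append, List.prod_append, image_prod, List.prod_singleton]
  have hall : ∀ g : G, g ∈ l.prod * (R : Set G) := by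
    intro g
    obtain ⟨a, ha, u, hu, rfl⟩ := hl₂u (Set.mem_univ g)
    obtain ⟨b, hb, v, hv, hbv⟩ := hl₁u (Set.mem_univ (⟨u, hUH hu⟩ : H))
    have hv' : v ∈ K.subgroupOf H ⊔ sInf 𝒩 := hv.2
    rw [Subgroup.mem_sup_of_normal_right] at hv'
    obtain ⟨k, hk, ρ, hρ, rfl⟩ := hv'
    rw [hlp]
    have hbv : (b : G) * ((k : G) * (ρ : G)) = u := congrArg Subtype.val hbv
    refine ⟨a * ((b : G) * (k : G)), Set.mul_mem_mul ha
      (Set.mul_mem_mul ⟨b, hb, rfl⟩ hk), (ρ : G), (hRH ρ).1 hρ, ?_⟩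
    show a * ((b : G) * (k : G)) * (ρ : G) = a * u
    rw [← hbv]
    group
  have hres : discreteResidual G ≤ R := by
    refine hBGM.res G R l hRn hRc ?_ (hGCS.tpm G R hRn hT) hl ?_
    · intro W hW
      obtain ⟨V, hV, hVW, -⟩ := hT 1 W hW
      exact ⟨V, hV, hVW⟩
    · rw [Set.eq_univ_of_forall hall]
      exact dense_univ
  -- every element of `H` lies in `K R`
  have hRJ : ∀ x : H, (x : G) ∈ R → x ∈ J := fun x hx => R_le hUo hHo hUH J hJn hJo hx
  have hKR : ∀ x ∈ H, ∃ k ∈ K, ∃ ρ ∈ R, x = k * ρ := by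
    have h1 : H ≤ K ⊔ R := by
      rw [hHdef]
      exact sup_le le_sup_left (hUK.trans (sup_le_sup_left hres K))
    intro x hx
    have h2 := h1 hx
    rw [Subgroup.mem_sup_of_normal_right] at h2
    obtain ⟨k, hk, ρ, hρ, rfl⟩ := h2
    exact ⟨k, hk, ρ, hρ, rfl⟩
  apply hJi
  obtain ⟨t, htK, ht⟩ := hKHco.2.elim_nhds_subcover
    (fun k : H => (fun y => k⁻¹ * y) ⁻¹' (J : Set H))
    (fun k _ => (hJo.preimage (by fun_prop)).mem_nhds (by simp))
  have hfin : Finite (H ⧸ J) := by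
    have : (Set.univ : Set (H ⧸ J)) ⊆ (fun k : H => (k : H ⧸ J)) '' (t : Set H) := by
      intro q _
      obtain ⟨x, rfl⟩ := QuotientGroup.mk_surjective q
      obtain ⟨k, hk, ρ, hρ, hx⟩ := hKR x x.2
      have hkH : k ∈ H := hKH hk
      have hρH : ρ ∈ H := hUH (hRU hρ)
      obtain ⟨k', hk'⟩ := Set.mem_iUnion.1 (ht (show (⟨k, hkH⟩ : H) ∈ (K.subgroupOf H : Set H) from hk))
      obtain ⟨hk't, hkk'⟩ := Set.mem_iUnion.1 hk'
      refine ⟨k', hk't, ?_⟩
      show (k' : H ⧸ J) = (x : H ⧸ J)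
      rw [QuotientGroup.eq]
      have e : x = ⟨k, hkH⟩ * ⟨ρ, hρH⟩ := Subtype.ext hx
      rw [e, ← mul_assoc]
      exact J.mul_mem hkk' (hRJ _ hρ)
    have h2 : (Set.univ : Set (H ⧸ J)).Finite := (t.finite_toSet.image _).subset this
    exact Set.finite_univ_iff.1 h2
  exact Subgroup.finiteIndex_of_finite_quotient

end Pool.Agent.Lib.MP7d449a.GP
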