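import Pool.Agent.Lib.MP_7d449a_al.GP.Spec2

/-!
# MP_7d449a_al, Gelfand pairs: module STR (Theorem A)
-/

set_option autoImplicit false

open Filter Topology

namespace Pool.Agent.Lib.MP7d449a.GP

universe u

theorem specSTR (h1 : SpecSCM.{u}) (h2 : SpecSTA.{u}) (h3 : SpecSTB.{u}) : SpecSTR.{u} := by
  intro G _ _ _ K hK hG hT hC
  obtain ⟨U, A, hU, hUn, hUK, ⟨D, hD, hDU, hDc⟩, hUA, hA, hAc⟩ := h2 G K hK (h1 G K hK hG) hT hC
  exact ⟨U, A, ⟨hU, h3 G K U D hK hG hT hC hU hUn hUK hD hDU hDc⟩, hUn, hUA, hA, hAc⟩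

end Pool.Agent.Lib.MP7d449a.GP
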