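import Pool.Agent.Lib.MP_7d449a_al.GP.Spec

/-! # TRV: translates and multiples of extreme rays (helper4) -/

set_option autoImplicit false

namespace Pool.Agent.Lib.MP7d449a.GP

universe u

theorem specTRV (h : SpecCNF.{u}) : SpecTRV.{u} := by
  intro G _ _ _ K U χ w hK hw
  constructor
  · intro g
    refine ⟨h.trans G K χ w hw.cn g⁻¹, ?_, ?_, ?_⟩
    · rintro x _ ⟨v, hv, rfl⟩
      have h1 : g⁻¹ * ((MulAut.conj g).toMonoidHom v * x) = v * (g⁻¹ * x) := by
        show g⁻¹ * (g * v * g⁻¹ * x) = _
        group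
      show w (g⁻¹ * ((MulAut.conj g).toMonoidHom v * x)) = w (g⁻¹ * x)
      rw [h1]
      exact hw.linv _ v hv
    · exact h.pos G K χ w hK hw.cn hw.pos _
    · intro a ha hla hle
      obtain ⟨c, hc⟩ := hw.ext (fun x => a (g * x)) (h.trans G K χ a ha g) (by
        intro x v hv
        have h1 : g * (v * x) = (g * v * g⁻¹) * (g * x) := by group
        show a (g * (v * x)) = a (g * x)
        rw [h1]
        exact hla _ _ ⟨v, hv, rfl⟩) (by
        intro x
        have := hle (g * x)
        simpa only [inv_mul_cancel_left] using this)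
      refine ⟨c, fun x => ?_⟩
      have := hc (g⁻¹ * x)
      simpa only [mul_inv_cancel_left] using this
  · intro c hc
    refine ⟨h.smul G K χ w c hK hw.cn hc.le, ?_, mul_pos hc hw.pos, ?_⟩
    · intro x k hk
      show c * w (k * x) = c * w x
      rw [hw.linv x k hk]
    · intro a ha hla hle
      obtain ⟨c', hc'⟩ := hw.ext (fun x => c⁻¹ * a x)
        (h.smul G K χ a c⁻¹ hK ha (inv_pos.mpr hc).le) (by
        intro x k hk
        show c⁻¹ * a (k * x) = c⁻¹ * a x
        rw [hla x k hk]) (by
        intro x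
        have h1 := mul_le_mul_of_nonneg_left (hle x) (inv_pos.mpr hc).le
        simp only [inv_mul_cancel_left₀ hc.ne'] at h1
        exact h1)
      refine ⟨c', fun x => ?_⟩
      have h1 := hc' x
      have h2 : a x = c * (c⁻¹ * a x) := by rw [mul_inv_cancel_left₀ hc.ne']
      rw [h2, h1]
      ring

end Pool.Agent.Lib.MP7d449a.GP
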