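import Pool.Agent.Lib.MP_7d449a_al.GP.Spec

/-! # MP_7d449a_al, Gelfand pairs: module UNI -/

set_option autoImplicit false

open Filter Topology Pointwise

namespace Pool.Agent.Lib.MP7d449a.GP

universe u

namespace UNIM

theorem zpow_conj {G : Type u} [Group G] (V : Subgroup G) (s : G)
    (hV : ∀ x ∈ V, s * x * s⁻¹ ∈ V ∧ s⁻¹ * x * s ∈ V) (n : ℤ) :
    ∀ x ∈ V, s ^ n * x * (s ^ n)⁻¹ ∈ V := by
  induction n using Int.induction_on with
  | zero => intro x hx; simpa using hx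
  | succ i ih =>
    intro x hx
    have h := ih _ (hV x hx).1
    have e : s ^ ((i : ℤ) + 1) * x * (s ^ ((i : ℤ) + 1))⁻¹
        = s ^ (i : ℤ) * (s * x * s⁻¹) * (s ^ (i : ℤ))⁻¹ := by
      rw [zpow_add, zpow_one]; group
    rw [e]; exact h
  | pred i ih =>
    intro x hx
    have h := ih _ (hV x hx).2
    have e : s ^ (-(i : ℤ) - 1) * x * (s ^ (-(i : ℤ) - 1))⁻¹
        = s ^ (-(i : ℤ)) * (s⁻¹ * x * s) * (s ^ (-(i : ℤ)))⁻¹ := by
      rw [zpow_sub, zpow_one]; group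
    rw [e]; exact h

end UNIM

theorem specUNI : SpecUNI.{u} := by
  classical
  intro G _ _ _ K hK hTP s hLv
  obtain ⟨V, hV, hVK, hVc⟩ := hTP s (K : Set G) (hK.1.mem_nhds K.one_mem)
  have hcov : ∀ x ∈ (K : Set G), (fun y => x * y) '' (V : Set G) ∈ 𝓝 x := by
    intro x _
    have hop : IsOpen ((fun y => x * y) '' (V : Set G)) := (isOpenMap_mul_left x) _ hV.1
    exact hop.mem_nhds ⟨1, V.one_mem, mul_one x⟩
  obtain ⟨t, htK, ht⟩ := hK.2.elim_nhds_subcover (fun x => (fun y => x * y) '' (V : Set G)) hcov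
  choose! Q hQ hQs using (fun k (hk : k ∈ K) => hLv k hk)
  refine ⟨⋃ c ∈ t, Q c * (V : Set G), ?_, ?_⟩
  · refine t.finite_toSet.isCompact_biUnion ?_
    intro c hc
    exact (hQ c (htK c hc)).mul hV.2
  · intro k hk n
    obtain ⟨c, hc, v, hv, e⟩ : ∃ c ∈ t, ∃ v ∈ (V : Set G), c * v = k := by
      have := ht hk
      simp only [Set.mem_iUnion, Set.mem_image] at this
      obtain ⟨c, hc, v, hv, e⟩ := this
      exact ⟨c, hc, v, hv, e⟩
    simp only [Set.mem_iUnion]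
    refine ⟨c, hc, s ^ n * c * (s ^ n)⁻¹, hQs c (htK c hc) n, s ^ n * v * (s ^ n)⁻¹,
      UNIM.zpow_conj V s hVc n v hv, ?_⟩
    change s ^ n * c * (s ^ n)⁻¹ * (s ^ n * v * (s ^ n)⁻¹) = s ^ n * k * (s ^ n)⁻¹
    rw [← e]
    group

end Pool.Agent.Lib.MP7d449a.GP
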