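import Pool.Agent.Lib.MP_7d449a_al.GP.Spec2

/-!
# Module VAQ: discrete quotients are virtually abelian
-/

set_option autoImplicit false

open Filter Topology
open scoped Pointwise

namespace Pool.Agent.Lib.MP7d449a.GP

universe u

namespace VAQM

lemma finite_image {G : Type u} [Group G] [TopologicalSpace G] [IsTopologicalGroup G]
    (N : Subgroup G) (hN : IsOpen (N : Set G)) (C : Set G) (hC : IsCompact C) :
    ((QuotientGroup.mk : G → G ⧸ N) '' C).Finite := by
  haveI : DiscreteTopology (G ⧸ N) := QuotientGroup.discreteTopology hN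
  have h : IsCompact ((QuotientGroup.mk : G → G ⧸ N) '' C) :=
    hC.image QuotientGroup.continuous_mk
  exact isCompact_iff_finite.mp h

end VAQM

open VAQM in
/-- discrete quotients are virtually abelian -/
theorem specVAQ (hDIS : SpecDIS.{u}) (hVFA : SpecVFA.{u}) : SpecVAQ.{u} := by
  classical
  intro G _ _ _ K N _ hK hSC hCG hN
  set π : G →* G ⧸ N := QuotientGroup.mk' N with hπ
  have hsurj : Function.Surjective π := QuotientGroup.mk'_surjective N
  have hfinK : Finite (K.map π) := by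
    have h1 := finite_image N hN (K : Set G) hK.2
    have h2 : ((K.map π : Subgroup (G ⧸ N)) : Set (G ⧸ N)).Finite := by
      rw [Subgroup.coe_map]
      exact h1
    exact h2
  have hSC' : SC (K.map π) := by
    intro g h
    obtain ⟨g, rfl⟩ := hsurj g
    obtain ⟨h, rfl⟩ := hsurj h
    obtain ⟨k₁, hk₁, k₂, hk₂, k₃, hk₃, e⟩ := hSC g h
    refine ⟨π k₁, ⟨k₁, hk₁, rfl⟩, π k₂, ⟨k₂, hk₂, rfl⟩, π k₃, ⟨k₃, hk₃, rfl⟩, ?_⟩
    rw [← map_mul, e]
    simp only [map_mul]
  have hFG : Group.FG (G ⧸ N) := by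
    obtain ⟨C, hC, hgen⟩ := hCG
    have h1 := finite_image N hN C hC
    rw [Group.fg_def]
    refine ⟨h1.toFinset, ?_⟩
    rw [Set.Finite.coe_toFinset]
    have h2 : (Subgroup.closure C).map π = Subgroup.closure (π '' C) := MonoidHom.map_closure π C
    rw [hgen, ← MonoidHom.range_eq_map, MonoidHom.range_eq_top.mpr hsurj] at h2
    exact h2.symm
  exact hVFA (G ⧸ N) hFG (hDIS (G ⧸ N) (K.map π) hfinK hSC' hFG)

end Pool.Agent.Lib.MP7d449a.GP
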