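import Pool.Agent.Lib.MP_7d449a_al.GP.Spec2

set_option autoImplicit false

namespace Pool.Agent.Lib.MP7d449a.GP

universe u

namespace VFAM

open DirectSum

lemma kill {ι : Type} [Fintype ι] (q : ι → ℕ) (w : ⨁ i, ZMod (q i)) : (∏ i, q i) • w = 0 := by
  classical
  refine DFinsupp.ext fun i => ?_
  change ((∏ i, q i) • w : ⨁ i, ZMod (q i)) i = 0
  have h1 : ((∏ i, q i) • w : ⨁ i, ZMod (q i)) i = (∏ i, q i) • (w i) := by
    rw [DirectSum.smul_apply]
  rw [h1, nsmul_eq_mul]
  have h2 : ((∏ i, q i : ℕ) : ZMod (q i)) = 0 :=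
    (ZMod.natCast_eq_zero_iff _ _).2 (Finset.dvd_prod_of_mem q (Finset.mem_univ i))
  rw [h2, zero_mul]

/-- the commutative case -/
lemma comm (N : Type u) [CommGroup N] [Group.FG N] :
    ∃ (r m : ℕ) (ψ : Multiplicative (Fin r → ℤ) →* N), m ≠ 0 ∧ Function.Injective ψ ∧
      (∀ y, y ∈ ψ.range ↔ ∃ x, x ^ m = y) ∧ ψ.range.FiniteIndex := by
  obtain ⟨n, ι, _, p, hp, e, ⟨E⟩⟩ := AddCommGroup.equiv_free_prod_directSum_zmod (Additive N)
  obtain ⟨m, hm⟩ : ∃ m : ℕ, m = ∏ i, p i ^ e i := ⟨_, rfl⟩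
  have hm0 : m ≠ 0 := by
    rw [hm]
    exact Finset.prod_ne_zero_iff.2 fun i _ => pow_ne_zero _ (hp i).ne_zero
  have hkill : ∀ w : ⨁ i, ZMod (p i ^ e i), m • w = 0 := fun w => by
    rw [hm]
    exact kill _ w
  have key : ∀ x : Additive N, m • x = m • E.symm ((E x).1, 0) := by
    intro x
    apply E.injective
    rw [map_nsmul, map_nsmul, AddEquiv.apply_symm_apply]
    refine Prod.ext rfl ?_
    change m • (E x).2 = m • (0 : ⨁ i, ZMod (p i ^ e i))
    rw [hkill, hkill]
  let ψ : Multiplicative (Fin n → ℤ) →* N :=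
    { toFun := fun v => Additive.toMul
        (m • E.symm (Finsupp.equivFunOnFinite.symm (Multiplicative.toAdd v), 0))
      map_one' := by
        have h0 : (Finsupp.equivFunOnFinite.symm (Multiplicative.toAdd (1 : Multiplicative (Fin n → ℤ)))
            : Fin n →₀ ℤ) = 0 := by
          ext i
          rfl
        rw [h0]
        have h1 : ((0 : Fin n →₀ ℤ), (0 : ⨁ i, ZMod (p i ^ e i))) = 0 := rfl
        rw [h1, map_zero, smul_zero]
        rfl
      map_mul' := by
        intro v w
        have h0 : (Finsupp.equivFunOnFinite.symm (Multiplicative.toAdd (v * w)) : Fin n →₀ ℤ) =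
            Finsupp.equivFunOnFinite.symm (Multiplicative.toAdd v) +
              Finsupp.equivFunOnFinite.symm (Multiplicative.toAdd w) := by
          ext i
          rfl
        rw [h0]
        have h1 : (Finsupp.equivFunOnFinite.symm (Multiplicative.toAdd v) +
            Finsupp.equivFunOnFinite.symm (Multiplicative.toAdd w),
              (0 : ⨁ i, ZMod (p i ^ e i))) =
            (Finsupp.equivFunOnFinite.symm (Multiplicative.toAdd v), 0) +
            (Finsupp.equivFunOnFinite.symm (Multiplicative.toAdd w), 0) := by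
          rw [Prod.mk_add_mk, add_zero]
        rw [h1, map_add, smul_add]
        rfl }
  have hψ : ∀ v, ψ v = Additive.toMul
      (m • E.symm (Finsupp.equivFunOnFinite.symm (Multiplicative.toAdd v), 0)) := fun v => rfl
  have hrange : ∀ y, y ∈ ψ.range ↔ ∃ x, x ^ m = y := by
    intro y
    constructor
    · rintro ⟨v, rfl⟩
      refine ⟨Additive.toMul
        (E.symm (Finsupp.equivFunOnFinite.symm (Multiplicative.toAdd v), 0)), ?_⟩
      rw [hψ]
      rfl
    · rintro ⟨x, rfl⟩
      refine ⟨Multiplicative.ofAdd (Finsupp.equivFunOnFinite (E (Additive.ofMul x)).1), ?_⟩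
      rw [hψ]
      have h1 : Finsupp.equivFunOnFinite.symm (Multiplicative.toAdd (Multiplicative.ofAdd
          (Finsupp.equivFunOnFinite (E (Additive.ofMul x)).1))) = (E (Additive.ofMul x)).1 := by
        rw [toAdd_ofAdd, Equiv.symm_apply_apply]
      rw [h1, ← key]
      rfl
  refine ⟨n, m, ψ, hm0, ?_, hrange, ?_⟩
  · intro v w hvw
    rw [hψ, hψ] at hvw
    have h1 : m • E.symm (Finsupp.equivFunOnFinite.symm (Multiplicative.toAdd v), 0) =
        m • E.symm (Finsupp.equivFunOnFinite.symm (Multiplicative.toAdd w), 0) := hvw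
    rw [← map_nsmul, ← map_nsmul] at h1
    have h2 := congrArg Prod.fst (E.symm.injective h1)
    change m • (Finsupp.equivFunOnFinite.symm (Multiplicative.toAdd v) : Fin n →₀ ℤ) =
      m • (Finsupp.equivFunOnFinite.symm (Multiplicative.toAdd w) : Fin n →₀ ℤ) at h2
    have h3 : (Finsupp.equivFunOnFinite.symm (Multiplicative.toAdd v) : Fin n →₀ ℤ) =
        Finsupp.equivFunOnFinite.symm (Multiplicative.toAdd w) := by
      ext i
      have h4 := DFunLike.congr_fun h2 i
      rw [Finsupp.smul_apply, Finsupp.smul_apply, nsmul_eq_mul, nsmul_eq_mul] at h4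
      exact mul_left_cancel₀ (by exact_mod_cast hm0) h4
    exact Multiplicative.toAdd.injective (Finsupp.equivFunOnFinite.symm.injective h3)
  · have htors : Monoid.IsTorsion (N ⧸ ψ.range) := by
      intro q
      obtain ⟨x, rfl⟩ := QuotientGroup.mk_surjective q
      rw [isOfFinOrder_iff_pow_eq_one]
      refine ⟨m, Nat.pos_of_ne_zero hm0, ?_⟩
      rw [← QuotientGroup.mk_pow, QuotientGroup.eq_one_iff, hrange]
      exact ⟨x, rfl⟩
    have hfin : Finite (N ⧸ ψ.range) := CommGroup.finite_of_fg_torsion _ htors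
    exact Subgroup.finiteIndex_of_finite_quotient

end VFAM

theorem specVFA : SpecVFA.{u} := by
  intro Γ _ hfg ⟨A, hA, hab⟩
  have hNfi : A.normalCore.FiniteIndex := inferInstance
  have hNfg : Group.FG A.normalCore := inferInstance
  let _ : CommGroup A.normalCore :=
    { (inferInstance : Group A.normalCore) with
      mul_comm := fun a b => Subtype.ext (hab a (Subgroup.normalCore_le A a.2) b
        (Subgroup.normalCore_le A b.2)) }
  obtain ⟨r, m, ψ, hm0, hinj, hrange, hfi⟩ := VFAM.comm A.normalCore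
  refine ⟨r, A.normalCore.subtype.comp ψ, ?_, ?_, ?_⟩
  · exact (Subgroup.subtype_injective _).comp hinj
  · constructor
    rintro x ⟨v, rfl⟩ g
    obtain ⟨y, hy⟩ := (hrange (ψ v)).1 ⟨v, rfl⟩
    have hg : g * (y : Γ) * g⁻¹ ∈ A.normalCore := (Subgroup.normalCore_normal A).conj_mem _ y.2 g
    obtain ⟨w, hw⟩ := (hrange ((⟨g * y * g⁻¹, hg⟩ : A.normalCore) ^ m)).2 ⟨_, rfl⟩
    refine ⟨w, ?_⟩
    change ((ψ w : A.normalCore) : Γ) = g * ((ψ v : A.normalCore) : Γ) * g⁻¹
    rw [hw, ← hy]
    change (g * (y : Γ) * g⁻¹) ^ m = g * ((y : Γ) ^ m) * g⁻¹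
    rw [conj_pow]
  · rw [MonoidHom.range_comp]
    constructor
    rw [Subgroup.index_map_subtype]
    exact mul_ne_zero hfi.index_ne_zero hNfi.index_ne_zero

end Pool.Agent.Lib.MP7d449a.GP
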