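import Pool.Agent.Lib.MP_7d449a_al.GP.AVA
import Pool.Agent.Lib.MP_7d449a_al.GP.AVB
import Pool.Agent.Lib.MP_7d449a_al.GP.AVE
import Pool.Agent.Lib.MP_7d449a_al.GP.BGM
import Pool.Agent.Lib.MP_7d449a_al.GP.BGQ
import Pool.Agent.Lib.MP_7d449a_al.GP.BPS
import Pool.Agent.Lib.MP_7d449a_al.GP.CGB
import Pool.Agent.Lib.MP_7d449a_al.GP.CGU
import Pool.Agent.Lib.MP_7d449a_al.GP.CNF
import Pool.Agent.Lib.MP_7d449a_al.GP.COK
import Pool.Agent.Lib.MP_7d449a_al.GP.CONM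
import Pool.Agent.Lib.MP_7d449a_al.GP.COR
import Pool.Agent.Lib.MP_7d449a_al.GP.DIS
import Pool.Agent.Lib.MP_7d449a_al.GP.EXT
import Pool.Agent.Lib.MP_7d449a_al.GP.FIN
import Pool.Agent.Lib.MP_7d449a_al.GP.FN6
import Pool.Agent.Lib.MP_7d449a_al.GP.FN7
import Pool.Agent.Lib.MP_7d449a_al.GP.GCQ
import Pool.Agent.Lib.MP_7d449a_al.GP.GCS
import Pool.Agent.Lib.MP_7d449a_al.GP.GEL
import Pool.Agent.Lib.MP_7d449a_al.GP.GRN
import Pool.Agent.Lib.MP_7d449a_al.GP.HAR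
import Pool.Agent.Lib.MP_7d449a_al.GP.HB2
import Pool.Agent.Lib.MP_7d449a_al.GP.HER
import Pool.Agent.Lib.MP_7d449a_al.GP.HM2
import Pool.Agent.Lib.MP_7d449a_al.GP.HOM
import Pool.Agent.Lib.MP_7d449a_al.GP.INA
import Pool.Agent.Lib.MP_7d449a_al.GP.INF
import Pool.Agent.Lib.MP_7d449a_al.GP.INV
import Pool.Agent.Lib.MP_7d449a_al.GP.IWA
import Pool.Agent.Lib.MP_7d449a_al.GP.KMW
import Pool.Agent.Lib.MP_7d449a_al.GP.LFA
import Pool.Agent.Lib.MP_7d449a_al.GP.LIM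
import Pool.Agent.Lib.MP_7d449a_al.GP.LSF
import Pool.Agent.Lib.MP_7d449a_al.GP.MFA
import Pool.Agent.Lib.MP_7d449a_al.GP.NOC
import Pool.Agent.Lib.MP_7d449a_al.GP.QUO
import Pool.Agent.Lib.MP_7d449a_al.GP.RIE
import Pool.Agent.Lib.MP_7d449a_al.GP.RSD
import Pool.Agent.Lib.MP_7d449a_al.GP.SCM
import Pool.Agent.Lib.MP_7d449a_al.GP.STA
import Pool.Agent.Lib.MP_7d449a_al.GP.STB
import Pool.Agent.Lib.MP_7d449a_al.GP.STR
import Pool.Agent.Lib.MP_7d449a_al.GP.TRN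
import Pool.Agent.Lib.MP_7d449a_al.GP.TRV
import Pool.Agent.Lib.MP_7d449a_al.GP.UNI
import Pool.Agent.Lib.MP_7d449a_al.GP.VAQ
import Pool.Agent.Lib.MP_7d449a_al.GP.VFA

/-!
# MP_7d449a_al, Gelfand pairs: the modules put together
-/

set_option autoImplicit false

namespace Pool.Agent.Lib.MP7d449a.GP

universe u

theorem fAVG : SpecAVG.{u} := specAVG specAVA (specAVB specAVA)
theorem fMFA : SpecMFA.{u} := specMFA fAVG
theorem fLFA : SpecLFA.{u} := specLFA fAVG fMFA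
theorem fSCM : SpecSCM.{u} := specSCM fAVG fMFA
theorem fHAR : SpecHAR.{u} := specHAR fMFA
theorem fGRN : SpecGRN.{u} := specGRN fAVG fMFA fHAR
theorem fEXT : SpecEXT.{u} := specEXT fAVG fMFA fHAR fGRN
theorem fCNF : SpecCNF.{u} := specCNF fMFA fLFA
theorem fHER : SpecHER.{u} := specHER fMFA
theorem fRIE : SpecRIE.{u} := specRIE fAVG fMFA fCNF fHER
theorem fKMW : SpecKMW.{u} := specKMW fAVG fMFA fCNF
theorem fTRV : SpecTRV.{u} := specTRV fCNF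
theorem fAVE : SpecAVE.{u} := specAVE fAVG fLFA fCNF fRIE fTRV
theorem fTRN : SpecTRN.{u} := specTRN fAVG fLFA fCNF fRIE fTRV
theorem fLIM : SpecLIM.{u} := specLIM fAVG fMFA fLFA fCNF fKMW fAVE fTRN
theorem fIWA : SpecIWA.{u} := specIWA fAVG fMFA fLFA specCOR fCNF fTRV fAVE fTRN fLIM
theorem fINV : SpecINV.{u} := specINV fAVG specINA
theorem fHOM : SpecHOM.{u} := specHOM fAVG fMFA fINV
theorem fCON : SpecCON.{u} := specCON fAVG fMFA
theorem fNOC : SpecNOC.{u} := specNOC fSCM specLSF specUNI fEXT fIWA fHOM fCON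
theorem fGEL : SpecGEL.{u} := specGEL fAVG fMFA
theorem fGCQ : SpecGCQ.{u} := specGCQ fAVG fMFA

/-- Q1 for groups with a Gelfand pair. -/
theorem fFIN : SpecFIN.{u} := specFIN fNOC specCOK fGEL fGCQ specQUO

theorem fGCS : SpecGCS.{u} := specGCS fAVG fMFA
theorem fBPS : SpecBPS.{u} := specBPS fAVG fMFA fHOM
theorem fHM2 : SpecHM2.{u} := specHM2 fAVG fMFA specCGB
theorem fINF : SpecINF.{u} := specINF fSCM specLSF fEXT fIWA specRSD fBPS fHM2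
theorem fVAQ : SpecVAQ.{u} := specVAQ specDIS specVFA
theorem fCGU : SpecCGU.{u} := specCGU specCGB
theorem fSTA : SpecSTA.{u} := specSTA specLSF specRSD fVAQ fCGU
theorem fSTB : SpecSTB.{u} := specSTB fSCM specRSD fVAQ specBGQ fGCS specBGM fINF
theorem fSTR : SpecSTR.{u} := specSTR fSCM fSTA fSTB
theorem fHB2 : SpecHB2.{u} := specHB2 fSCM specCOK fGEL fGCQ specQUO fVAQ specBGQ fSTR

/-- Theorem B. -/
theorem fFN6 : SpecFN6.{u} := specFN6 fHB2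

/-- Theorem A. -/
theorem fFN7 : SpecFN7.{u} :=
  specFN7 fSCM specCOK fGEL fGCQ specQUO fVAQ specBGQ fGCS specBGM fSTR

end Pool.Agent.Lib.MP7d449a.GP
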