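import Pool.Agent.Lib.MP_7d449a_al.GP.Spec

/-!
# Module HAR (helper69): the Harnack inequality
-/

set_option autoImplicit false

open Filter Topology

namespace Pool.Agent.Lib.MP7d449a.GP

universe u

theorem specHAR (hMFA : SpecMFA.{u}) : SpecHAR.{u} := by
  intro G _ _ _ K S l hK hS hcl hl y
  have hy : y ∈ Submonoid.closure (((K : Set G) ∪ (S : Set G)) ∪ ((K : Set G) ∪ (S : Set G))⁻¹) := by
    rw [← Subgroup.closure_toSubmonoid, hcl]
    trivial
  refine Submonoid.closure_induction (motive := fun y _ => ∃ C : ℝ, 0 < C ∧ ∀ f : G → ℝ, RInv K f →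
    (∀ x, 0 ≤ f x) → (∀ x, T K S f x ≤ l * f x) → ∀ x, f (x * y) ≤ C * f x) ?_ ?_ ?_ hy
  · intro z hz
    have h1 : z ∈ K ∨ z ∈ S := by
      rcases hz with (h | h) | h
      · exact Or.inl h
      · exact Or.inr h
      · rw [Set.mem_inv] at h
        rcases h with h | h
        · exact Or.inl (by simpa using K.inv_mem h)
        · exact Or.inr (by simpa using hS _ h)
    rcases h1 with h1 | h1
    · refine ⟨1, one_pos, ?_⟩
      intro f hf _ _ x
      rw [hf x z h1, one_mul]
    · have hn := (hMFA.idx G K K hK hK z).1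
      have hn0 : (0 : ℝ) < ((Vg K K z).relIndex K : ℝ) := by
        exact_mod_cast Nat.pos_of_ne_zero hn
      refine ⟨((Vg K K z).relIndex K : ℝ) * l, by positivity, ?_⟩
      intro f hf hf0 hT x
      have h2 := hMFA.lower G K hK f hf hf0 z x 1 K.one_mem
      rw [mul_one] at h2
      have h3 : ∀ s : G, ∀ x, 0 ≤ M K s f x := by
        intro s x
        have h0 := hMFA.mono G K hK (fun _ => (0 : ℝ)) f (fun _ _ _ => rfl) hf hf0 s x
        have h01 := hMFA.smul G K hK (fun _ => (0 : ℝ)) (fun _ _ _ => rfl) 0 s x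
        simp only [zero_mul] at h01
        rw [h01] at h0
        exact h0
      have h4 : M K z f x ≤ T K S f x := by
        unfold T
        exact Finset.single_le_sum (f := fun s => M K s f x) (fun s _ => h3 s x) h1
      have h5 := hT x
      calc f (x * z) ≤ ((Vg K K z).relIndex K : ℝ) * M K z f x := h2
        _ ≤ ((Vg K K z).relIndex K : ℝ) * (l * f x) :=
          mul_le_mul_of_nonneg_left (h4.trans h5) hn0.le
        _ = ((Vg K K z).relIndex K : ℝ) * l * f x := by ring
  · refine ⟨1, one_pos, ?_⟩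
    intro f _ _ _ x
    rw [mul_one, one_mul]
  · intro a b _ _ ha hb
    obtain ⟨C, hC, h1⟩ := ha
    obtain ⟨D, hD, h2⟩ := hb
    refine ⟨D * C, by positivity, ?_⟩
    intro f hf hf0 hT x
    calc f (x * (a * b)) = f (x * a * b) := by rw [mul_assoc]
      _ ≤ D * f (x * a) := h2 f hf hf0 hT (x * a)
      _ ≤ D * (C * f x) := mul_le_mul_of_nonneg_left (h1 f hf hf0 hT x) hD.le
      _ = D * C * f x := by ring

end Pool.Agent.Lib.MP7d449a.GP
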