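import Pool.Agent.Lib.MP_7d449a_al.GP.Spec2

/-!
# MP_7d449a_al, Gelfand pairs: module HBG

A Gelfand subgroup is boundedly generated modulo a closed normal subgroup containing all contraction
groups.
-/

set_option autoImplicit false

open Filter Topology
open scoped Pointwise

namespace Pool.Agent.Lib.MP7d449a.GP

universe u

namespace HBGM

section Lift

variable {H Q G : Type u} [Group H] [TopologicalSpace H] [IsTopologicalGroup H] [Group Q]
  [TopologicalSpace Q] [Group G] [TopologicalSpace G]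

/-- A compact set lifts to a compact set. -/
theorem lift_compact (π : H →* Q) (hπo : IsOpenMap π) (hπs : Function.Surjective π)
    (v : H →* G) (hv : Continuous v) (K' : Subgroup H) (hK' : CO K') (Y : Set Q)
    (hY : IsCompact Y) : ∃ X : Set G, IsCompact X ∧ ∀ y ∈ Y, ∃ x : H, v x ∈ X ∧ π x = y := by
  obtain ⟨t, ht⟩ := hY.elim_finite_subcover (fun h : H => π '' {x : H | h⁻¹ * x ∈ K'})
    (fun h => hπo _ (hK'.1.preimage (continuous_const.mul continuous_id)))
    (fun y _ => by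
      obtain ⟨h, rfl⟩ := hπs y
      exact Set.mem_iUnion.2 ⟨h, ⟨h, by simp, rfl⟩⟩)
  refine ⟨⋃ h ∈ t, v '' {x : H | h⁻¹ * x ∈ K'}, ?_, ?_⟩
  · refine t.isCompact_biUnion fun h _ => IsCompact.image ?_ hv
    have h1 : {x : H | h⁻¹ * x ∈ K'} = (fun x => h * x) '' (K' : Set H) := by
      ext x
      constructor
      · intro hx
        exact ⟨h⁻¹ * x, hx, by simp⟩
      · rintro ⟨k, hk, rfl⟩
        change h⁻¹ * (h * k) ∈ K'
        rw [inv_mul_cancel_left]
        exact hk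
    rw [h1]
    exact hK'.2.image (continuous_const.mul continuous_id)
  · intro y hy
    obtain ⟨h, hh, x, hx, hxy⟩ := Set.mem_iUnion₂.1 (ht hy)
    exact ⟨x, Set.mem_iUnion₂.2 ⟨h, hh, x, hx, rfl⟩, hxy⟩

/-- A good set lifts to a good set. -/
theorem lift_good (π : H →* Q) (hπo : IsOpenMap π) (hπs : Function.Surjective π)
    (v : H →* G) (hv : Continuous v) (K' : Subgroup H) (hK' : CO K') (Y : Set Q)
    (hY : IsCompact Y ∨ ∃ C : Set Q, IsCompact C ∧ Y = Pw C) :
    ∃ X : Set G, (IsCompact X ∨ ∃ C : Set G, IsCompact C ∧ X = Pw C) ∧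
      ∀ y ∈ Y, ∃ x : H, v x ∈ X ∧ π x = y := by
  rcases hY with hY | ⟨C, hC, rfl⟩
  · obtain ⟨X, hX, h⟩ := lift_compact π hπo hπs v hv K' hK' Y hY
    exact ⟨X, Or.inl hX, h⟩
  · obtain ⟨X, hX, h⟩ := lift_compact π hπo hπs v hv K' hK' C hC
    refine ⟨Pw X, Or.inr ⟨X, hX, rfl⟩, ?_⟩
    rintro y ⟨c, hc, n, rfl⟩
    obtain ⟨x, hx, rfl⟩ := h c hc
    exact ⟨x ^ n, ⟨v x, hx, n, (map_zpow v x n).symm⟩, map_zpow π x n⟩

/-- A product of good sets lifts. -/
theorem lift_list (π : H →* Q) (hπo : IsOpenMap π) (hπs : Function.Surjective π)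
    (v : H →* G) (hv : Continuous v) (K' : Subgroup H) (hK' : CO K') (l : List (Set Q))
    (hl : Good l) : ∃ l' : List (Set G), Good l' ∧ ∀ y ∈ l.prod, ∃ x : H, v x ∈ l'.prod ∧
      π x = y := by
  induction l with
  | nil =>
    refine ⟨[], fun Y hY => by simp at hY, fun y hy => ⟨1, ?_, ?_⟩⟩
    · rw [List.prod_nil, map_one]
      exact Set.one_mem_one
    · rw [List.prod_nil, Set.mem_one] at hy
      rw [map_one, hy]
  | cons Y l ih =>
    obtain ⟨l', hl', h'⟩ := ih (fun Z hZ => hl Z (List.mem_cons_of_mem _ hZ))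
    obtain ⟨X, hX, h⟩ := lift_good π hπo hπs v hv K' hK' Y (hl Y List.mem_cons_self)
    refine ⟨X :: l', ?_, ?_⟩
    · intro Z hZ
      rcases List.mem_cons.1 hZ with rfl | hZ
      · exact hX
      · exact hl' Z hZ
    · intro y hy
      rw [List.prod_cons] at hy
      obtain ⟨y₁, hy₁, y₂, hy₂, rfl⟩ := hy
      obtain ⟨x₁, hx₁, rfl⟩ := h y₁ hy₁
      obtain ⟨x₂, hx₂, rfl⟩ := h' y₂ hy₂
      refine ⟨x₁ * x₂, ?_, map_mul π x₁ x₂⟩
      rw [List.prod_cons, map_mul]
      exact Set.mul_mem_mul hx₁ hx₂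

end Lift

/-- A closed subgroup generated by a compact set is generated by a compact set. -/
theorem cgH {G : Type u} [Group G] [TopologicalSpace G] (H : Subgroup G) (C : Set G)
    (hC : IsCompact C) (hcl : Subgroup.closure C = H) (hH : IsClosed (H : Set G)) : CG H := by
  subst hcl
  refine ⟨((↑) : Subgroup.closure C → G) ⁻¹' C, ?_, Subgroup.closure_closure_coe_preimage⟩
  exact hH.isClosedEmbedding_subtypeVal.isCompact_preimage hC

/-- A quotient of a compactly generated group is compactly generated. -/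
theorem cgQ {H : Type u} [Group H] [TopologicalSpace H] [IsTopologicalGroup H] (M : Subgroup H)
    [M.Normal] (hH : CG H) : CG (H ⧸ M) := by
  obtain ⟨C, hC, hcl⟩ := hH
  refine ⟨QuotientGroup.mk' M '' C, hC.image QuotientGroup.continuous_mk, ?_⟩
  rw [← MonoidHom.map_closure, hcl]
  exact Subgroup.map_top_of_surjective _ (QuotientGroup.mk'_surjective M)

end HBGM

/-- HBG: a Gelfand subgroup is boundedly generated modulo a closed normal subgroup containing all
contraction groups. -/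
theorem specHBG (hSCM : SpecSCM.{u}) (hCOK : SpecCOK.{u}) (hGEL : SpecGEL.{u})
    (hGCQ : SpecGCQ.{u}) (hQUO : SpecQUO.{u}) (hVAQ : SpecVAQ.{u}) (hBGQ : SpecBGQ.{u})
    (hSTR : SpecSTR.{u}) : SpecHBG.{u} := by
  intro G _ _ _ _ _ _ _ _ N H hN hNc hcon hGS
  obtain ⟨⟨C, hC, hcl⟩, hHc, hlc, K, hK⟩ := hGS
  have hM : (N.subgroupOf H).Normal := Subgroup.Normal.subgroupOf hN H
  have hconM : ∀ h : H, con h ⊆ (N.subgroupOf H : Set H) := by
    intro h x hx
    have h1 : (x : G) ∈ con (h : G) := by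
      have h2 : Tendsto (fun n : ℕ => h ^ n * x * (h ^ n)⁻¹) atTop (𝓝 1) := hx
      have h3 := (continuous_subtype_val.tendsto (1 : H)).comp h2
      change Tendsto (fun n : ℕ => (h : G) ^ n * (x : G) * ((h : G) ^ n)⁻¹) atTop (𝓝 1)
      exact h3
    exact hcon _ h1
  have hTP : TP (H ⧸ N.subgroupOf H) := hQUO H (N.subgroupOf H) hconM
  obtain ⟨K', hK', hKK'⟩ := hCOK H K hK.1
  have hGC : GC K' := hGEL H K K' hK hK' hKK'
  obtain ⟨hCOq, hGCq⟩ := hGCQ H (N.subgroupOf H) K' hK' hGC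
  have hCGH : CG H := HBGM.cgH H C hC hcl hHc
  have hCGq : CG (H ⧸ N.subgroupOf H) := HBGM.cgQ _ hCGH
  obtain ⟨U, A, hU, hUn, -⟩ := hSTR (H ⧸ N.subgroupOf H) _ hCOq hGCq hTP hCGq
  have hSC : SC (K'.map (QuotientGroup.mk' (N.subgroupOf H))) := hSCM _ _ hCOq hGCq
  obtain ⟨l, hl, hlU⟩ := hBGQ _ U (hVAQ _ _ U hCOq hSC hCGq hU.1)
  have hl2 : Good (l ++ [(U : Set (H ⧸ N.subgroupOf H))]) := by
    intro Y hY
    rcases List.mem_append.1 hY with hY | hY
    · exact hl Y hY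
    · rw [List.mem_singleton] at hY
      subst hY
      exact Or.inl hU.2
  obtain ⟨l', hl', h'⟩ := HBGM.lift_list (QuotientGroup.mk' (N.subgroupOf H))
    QuotientGroup.isOpenMap_coe (QuotientGroup.mk'_surjective _) H.subtype
    continuous_subtype_val K' hK' _ hl2
  refine ⟨l', hl', ?_⟩
  intro h hh
  have h1 : QuotientGroup.mk' (N.subgroupOf H) ⟨h, hh⟩ ∈
      (l ++ [(U : Set (H ⧸ N.subgroupOf H))]).prod := by
    rw [List.prod_append, List.prod_singleton]
    exact hlU (Set.mem_univ _)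
  obtain ⟨x, hx, hxh⟩ := h' _ h1
  have h2 : x⁻¹ * ⟨h, hh⟩ ∈ N.subgroupOf H := QuotientGroup.eq.1 hxh
  have h3 : (x : G)⁻¹ * h ∈ N := h2
  refine ⟨(x : G), hx, (x : G)⁻¹ * h, h3, ?_⟩
  exact mul_inv_cancel_left _ _

end Pool.Agent.Lib.MP7d449a.GP
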