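import Pool.Agent.Lib.MP_7d449a_al.GP.Spec

/-!
# MP_7d449a_al, Gelfand pairs: module LIM

An element of the cone all of whose averages over normal subgroups of `K` are extreme rays.
-/

set_option autoImplicit false

open Filter Topology

namespace Pool.Agent.Lib.MP7d449a.GP

universe u

namespace LIMM

/-- Averages are continuous for pointwise convergence. -/
theorem avg_tendsto (hAVG : SpecAVG.{u}) {G : Type u} [Group G] {K V : Subgroup G} (hV : V ≤ K)
    (hi : V.relIndex K ≠ 0) {α : Type*} {F : Filter α} (φ : α → G → ℝ) (ψ : G → ℝ)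
    (h1 : ∀ᶠ n in F, ∀ k ∈ K, ∀ v ∈ V, φ n (k * v) = φ n k)
    (h2 : ∀ k ∈ K, ∀ v ∈ V, ψ (k * v) = ψ k)
    (h : ∀ k ∈ K, Tendsto (fun n => φ n k) F (𝓝 (ψ k))) :
    Tendsto (fun n => avg K (φ n)) F (𝓝 (avg K ψ)) := by
  have hfin : Finite (K ⧸ (V.subgroupOf K)) := Subgroup.index_ne_zero_iff_finite.1 hi
  have : Fintype (K ⧸ (V.subgroupOf K)) := Fintype.ofFinite _
  rw [hAVG.form G K V ψ hV hi h2]
  have h3 : Tendsto (fun n => (∑ᶠ q : K ⧸ (V.subgroupOf K), φ n ((Quotient.out q : K) : G)) /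
      (V.relIndex K : ℝ)) F
      (𝓝 ((∑ᶠ q : K ⧸ (V.subgroupOf K), ψ ((Quotient.out q : K) : G)) /
        (V.relIndex K : ℝ))) := by
    refine Tendsto.div_const ?_ _
    simp_rw [finsum_eq_sum_of_fintype]
    exact tendsto_finsetSum _ fun q _ => h _ (Quotient.out q : K).2
  refine h3.congr' ?_
  filter_upwards [h1] with n hn
  exact (hAVG.form G K V (φ n) hV hi hn).symm

theorem M_tendsto (hAVG : SpecAVG.{u}) (hMFA : SpecMFA.{u}) {G : Type u} [Group G]
    [TopologicalSpace G] [IsTopologicalGroup G] {K : Subgroup G} (hK : CO K) {α : Type*}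
    {F : Filter α} (v : α → G → ℝ) (w : G → ℝ) (h1 : ∀ᶠ n in F, RInv K (v n)) (h2 : RInv K w)
    (h : ∀ x, Tendsto (fun n => v n x) F (𝓝 (w x))) (g x : G) :
    Tendsto (fun n => M K g (v n) x) F (𝓝 (M K g w x)) := by
  unfold M
  refine avg_tendsto hAVG (V := Vg K K g) inf_le_left (hMFA.idx G K K hK hK g).1
    (fun n k => v n (x * k * g)) (fun k => w (x * k * g)) ?_ ?_ ?_
  · filter_upwards [h1] with n hn k hk u hu
    exact hMFA.inva G K K (v n) hn x g k hk u hu
  · intro k hk u hu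
    exact hMFA.inva G K K w h2 x g k hk u hu
  · intro k _
    exact h _

theorem LAv_tendsto (hAVG : SpecAVG.{u}) (hMFA : SpecMFA.{u}) {G : Type u} [Group G]
    [TopologicalSpace G] [IsTopologicalGroup G] {K U : Subgroup G} (hK : CO K) (hU : CO U)
    {α : Type*} {F : Filter α} (v : α → G → ℝ) (w : G → ℝ) (h1 : ∀ᶠ n in F, RInv K (v n))
    (h2 : RInv K w) (h : ∀ x, Tendsto (fun n => v n x) F (𝓝 (w x))) (x : G) :
    Tendsto (fun n => LAv U (v n) x) F (𝓝 (LAv U w x)) := by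
  unfold LAv
  refine avg_tendsto hAVG (V := Vg K U x) inf_le_left (hMFA.idx G K U hK hU x).1
    (fun n u => v n (u * x)) (fun u => w (u * x)) ?_ ?_ ?_
  · filter_upwards [h1] with n hn u hu a ha
    have := hMFA.inva G K U (v n) hn 1 x u hu a ha
    simpa only [one_mul] using this
  · intro u hu a ha
    have := hMFA.inva G K U w h2 1 x u hu a ha
    simpa only [one_mul] using this
  · intro u _
    exact h _

/-- The average of a normalised function at `1` is `1`. -/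
theorem LAv_one (hAVG : SpecAVG.{u}) {G : Type u} [Group G] {K U : Subgroup G} (hUK : U ≤ K)
    (f : G → ℝ) (hf : RInv K f) (h1 : f 1 = 1) : LAv U f 1 = 1 := by
  unfold LAv
  rw [(hAVG.congr G U (fun u => f (u * 1)) (fun _ => 1) (fun u hu => ?_)).2]
  · exact hAVG.const G U 1
  · change f (u * 1) = 1
    have := hf 1 u (hUK hu)
    rw [one_mul] at this
    rw [mul_one, this, h1]

/-- Good subgroups. -/
def GoodK {G : Type u} [Group G] [TopologicalSpace G] (K U : Subgroup G) : Prop :=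
  CO U ∧ U ≤ K ∧ ∀ k ∈ K, ∀ u ∈ U, k * u * k⁻¹ ∈ U

theorem good_self {G : Type u} [Group G] [TopologicalSpace G] {K : Subgroup G} (hK : CO K) :
    GoodK K K := ⟨hK, le_rfl, fun k hk u hu => K.mul_mem (K.mul_mem hk hu) (K.inv_mem hk)⟩

theorem good_inf {G : Type u} [Group G] [TopologicalSpace G] [IsTopologicalGroup G]
    {K U V : Subgroup G} (hU : GoodK K U) (hV : GoodK K V) : GoodK K (U ⊓ V) := by
  refine ⟨⟨?_, ?_⟩, inf_le_left.trans hU.2.1, fun k hk u hu => ?_⟩
  · rw [Subgroup.coe_inf]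
    exact hU.1.1.inter hV.1.1
  · rw [Subgroup.coe_inf]
    exact hU.1.2.inter_right (V.isClosed_of_isOpen hV.1.1)
  · exact Subgroup.mem_inf.2 ⟨hU.2.2 k hk u (Subgroup.mem_inf.1 hu).1,
      hV.2.2 k hk u (Subgroup.mem_inf.1 hu).2⟩

theorem good_finset {G : Type u} [Group G] [TopologicalSpace G] [IsTopologicalGroup G]
    {K : Subgroup G} (hK : CO K) (t : Finset {U : Subgroup G // GoodK K U}) :
    ∃ U' : Subgroup G, GoodK K U' ∧ ∀ U ∈ t, U' ≤ U.1 := by
  classical
  induction t using Finset.induction_on with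
  | empty => exact ⟨K, good_self hK, fun U hU => absurd hU (Finset.notMem_empty U)⟩
  | insert U t _ ih =>
    obtain ⟨U', h1, h2⟩ := ih
    refine ⟨U' ⊓ U.1, good_inf h1 U.2, fun W hW => ?_⟩
    rcases Finset.mem_insert.1 hW with rfl | hW
    · exact inf_le_right
    · exact inf_le_left.trans (h2 W hW)

end LIMM

open LIMM in
theorem specLIM (hAVG : SpecAVG.{u}) (hMFA : SpecMFA.{u}) (hLFA : SpecLFA.{u})
    (hCNF : SpecCNF.{u}) (hKMW : SpecKMW.{u}) (hAVE : SpecAVE.{u}) (hTRN : SpecTRN.{u}) :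
    SpecLIM.{u} := by
  classical
  intro G _ _ _ K S l χ hK hχ
  -- finitely many normalised extreme rays
  have hfinite : ∀ U : Subgroup G, GoodK K U → {w : G → ℝ | ER K χ U w ∧ w 1 = 1}.Finite := by
    intro U hU
    obtain ⟨w₀, hw₀, hw₀1⟩ := hKMW G K S l χ hK hχ U hU.1 hU.2.1
    have hidx : U.relIndex K ≠ 0 := (hLFA.lform G K K U hK hK hU.1 hU.2.1 w₀ hw₀.cn.rinv
      hw₀.linv).1
    have hfin : Finite (K ⧸ (U.subgroupOf K)) := Subgroup.index_ne_zero_iff_finite.1 hidx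
    refine (Set.finite_range (fun q : K ⧸ (U.subgroupOf K) =>
      fun x : G => w₀ (((Quotient.out q : K) : G)⁻¹ * x))).subset ?_
    rintro w ⟨hw, hw1⟩
    obtain ⟨k, hk, hkx⟩ := hTRN G K S l χ hK hχ U w₀ w hU.1 hU.2.1 hU.2.2 hw₀ hw hw₀1 hw1
    refine ⟨QuotientGroup.mk (⟨k, hk⟩⁻¹ : K), ?_⟩
    funext x
    have hq : (Quotient.out (QuotientGroup.mk (⟨k, hk⟩⁻¹ : K) : K ⧸ (U.subgroupOf K)) : K)⁻¹ *
        (⟨k, hk⟩⁻¹ : K) ∈ U.subgroupOf K :=
      QuotientGroup.eq.1 (Quotient.out_eq _)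
    set o : K := Quotient.out (QuotientGroup.mk (⟨k, hk⟩⁻¹ : K) : K ⧸ (U.subgroupOf K)) with ho
    have hq2 : ((o : G)⁻¹ * k⁻¹) ∈ U := by
      have := Subgroup.mem_subgroupOf.1 hq
      simpa using this
    have h3 : (o : G)⁻¹ * x = ((o : G)⁻¹ * k⁻¹) * (k * x) := by group
    change w₀ ((o : G)⁻¹ * x) = w x
    rw [h3, hw₀.linv _ _ hq2, hkx x]
  -- the closed sets
  let Φ : {U : Subgroup G // GoodK K U} → Set (G → ℝ) := fun U =>
    {f | Cn K χ f ∧ f 1 = 1 ∧ ER K χ U.1 (LAv U.1 f)}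
  have hclosed : ∀ U, IsClosed (Φ U) := by
    intro U
    rw [isClosed_iff_ultrafilter]
    intro f₀ F hF hΦ
    have hev : ∀ᶠ f in (F : Filter (G → ℝ)), f ∈ Φ U := hΦ
    have hpt : ∀ x, Tendsto (fun f : G → ℝ => f x) (F : Filter (G → ℝ)) (𝓝 (f₀ x)) := fun x =>
      ((continuous_apply x).tendsto f₀).mono_left hF
    have hrinv : RInv K f₀ := by
      intro x k hk
      refine tendsto_nhds_unique_of_eventuallyEq (hpt (x * k)) (hpt x) ?_
      filter_upwards [hev] with f hf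
      exact hf.1.rinv x k hk
    have hr : ∀ᶠ f in (F : Filter (G → ℝ)), RInv K f := by
      filter_upwards [hev] with f hf
      exact hf.1.rinv
    have hcn : Cn K χ f₀ := by
      refine ⟨fun x => ?_, hrinv, fun g x => ?_⟩
      · refine ge_of_tendsto (hpt x) ?_
        filter_upwards [hev] with f hf
        exact hf.1.nonneg x
      · refine tendsto_nhds_unique_of_eventuallyEq
          (M_tendsto hAVG hMFA hK (fun f => f) f₀ hr hrinv hpt g x) ((hpt x).const_mul (χ g)) ?_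
        filter_upwards [hev] with f hf
        exact hf.1.eig g x
    have h1 : f₀ 1 = 1 := by
      refine tendsto_nhds_unique_of_eventuallyEq (hpt 1) tendsto_const_nhds ?_
      filter_upwards [hev] with f hf
      exact hf.2.1
    refine ⟨hcn, h1, ?_⟩
    -- the average is eventually constant along `F`
    have hev2 : (⋃ w ∈ {w : G → ℝ | ER K χ U.1 w ∧ w 1 = 1}, {f : G → ℝ | LAv U.1 f = w}) ∈ F := by
      filter_upwards [hev] with f hf
      exact Set.mem_iUnion₂.2 ⟨LAv U.1 f, ⟨hf.2.2,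
        LAv_one hAVG U.2.2.1 f hf.1.rinv hf.2.1⟩, rfl⟩
    obtain ⟨w, hw, hwF⟩ := (Ultrafilter.finite_biUnion_mem_iff (hfinite U.1 U.2)).1 hev2
    have hww : LAv U.1 f₀ = w := by
      funext x
      refine tendsto_nhds_unique_of_eventuallyEq
        (LAv_tendsto hAVG hMFA hK U.2.1 (fun f => f) f₀ hr hrinv hpt x) tendsto_const_nhds ?_
      filter_upwards [hwF] with f hf
      exact congrFun hf x
    rw [hww]
    exact hw.1
  -- compactness
  let B : Set (G → ℝ) := Set.pi Set.univ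
    fun x => Set.Icc (0 : ℝ) (((Vg K K x).relIndex K : ℝ) * (χ x * 1))
  have hB : IsCompact B := isCompact_univ_pi fun x => isCompact_Icc
  have hne : (B ∩ ⋂ U, Φ U).Nonempty := by
    refine hB.inter_iInter_nonempty Φ hclosed fun t => ?_
    obtain ⟨U', hU', hle⟩ := good_finset hK t
    obtain ⟨w, hw, hw1⟩ := hKMW G K S l χ hK hχ U' hU'.1 hU'.2.1
    refine ⟨w, fun x _ => ⟨hw.cn.nonneg x, ?_⟩, ?_⟩
    · have := hCNF.bound G K χ w hK hw.cn x
      rwa [hw1] at this
    · refine Set.mem_iInter₂.2 fun U hU => ⟨hw.cn, hw1, ?_⟩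
      exact hAVE G K S l χ hK hχ U.1 U' w U.2.1 hU'.1 (hle U hU) hw
  obtain ⟨f, _, hf⟩ := hne
  have hf' := Set.mem_iInter.1 hf
  refine ⟨f, (hf' ⟨K, good_self hK⟩).1, (hf' ⟨K, good_self hK⟩).2.1, fun U h1 h2 h3 => ?_⟩
  exact (hf' ⟨U, h1, h2, h3⟩).2.2

end Pool.Agent.Lib.MP7d449a.GP
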