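import Pool.Agent.Lib.MP_7d449a_al.GP.Defs
import Pool.Agent.Lib.MP_7d449a_al.Bdd

/-!
# MP_7d449a_al, the Tits core of groups with a Gelfand pair: specification, part 1

THEOREM.  Let `G` be a compactly generated t.d.l.c. group without proper open normal subgroups
which has a Gelfand pair `(G, K)`, `K` compact.  Then the Tits core of `G` is dense.

HOW TO WORK.  Module XXX: file `Pool/Agent/Lib/MP_7d449a_al/GP/XXX.lean`, import only
`Pool.Agent.Lib.MP_7d449a_al.GP.Spec`, namespace `Pool.Agent.Lib.MP7d449a.GP`, theorem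
`specXXX (h : SpecYYY.{u}) .. : SpecXXX.{u}` with the hypotheses listed as deps, in that order
(`universe u` at the top; every Spec has exactly one universe parameter).  Private helper lemmas in
a namespace `XXXM`.  `K`, `U`, `V` are compact open subgroups (`CO`).

Outline.  `AVA`, `AVB` (`AVG` = both), `MFA`, `LFA`, `CNF`: formal properties of averages, Hecke operators, cones.
`SCM`, `LSF`, `UNI`: if every element normalises small compact open subgroups then for every `s` the
elements with bounded conjugation orbit under `s` form an open subgroup of finite index.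
`HAR`, `GRN`, `EXT`: an extreme positive spherical function.  `HER`, `RIE`, `KMW`, `TRV`, `AVE`,
`TRN`, `LIM`, `IWA`: an Iwasawa type decomposition `G = P K` with a multiplicative function on `P`.
`INA`, `INV`, `HOM`, `CON`: an averaged logarithm is a homomorphism; contradiction.
`COK`, `GEL`, `GCQ`, `QUO`, `NOC`, `FIN`: reduction and assembly.
-/

set_option autoImplicit false

open Filter Topology

namespace Pool.Agent.Lib.MP7d449a.GP

universe u

/-- AVA (deps: none; about 130 lines).  Formal properties of `avg`, first part.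
Proof.  `FI K φ` only involves the values of `φ` on `K`.  Let `V ≤ K` have finite index with
`φ (k v) = φ k` for `k ∈ K`, `v ∈ V`; then `φ` induces a function on the finite set `K / V` (left
cosets) and `(∑_{q} φ q) / [K : V]` does not change if `V` is replaced by a smaller subgroup `V'` of
finite index (the fibres of `K/V' → K/V` all have `[V : V']` elements); comparing two subgroups with
their intersection gives `form`.  `addf`, `add`, `smul`, `mono`, `const`, `congr`, `sum`: use `form`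
with an intersection of the two (finitely many) subgroups.  `lower`: all terms of the sum are
nonnegative. -/
structure SpecAVA : Prop where
  form : ∀ (G : Type u) [Group G] (K V : Subgroup G) (φ : G → ℝ), V ≤ K → V.relIndex K ≠ 0 →
    (∀ k ∈ K, ∀ v ∈ V, φ (k * v) = φ k) →
    avg K φ = (∑ᶠ q : K ⧸ (V.subgroupOf K), φ ((Quotient.out q : K) : G)) / (V.relIndex K : ℝ)
  congr : ∀ (G : Type u) [Group G] (K : Subgroup G) (φ ψ : G → ℝ), (∀ k ∈ K, φ k = ψ k) →
    (FI K φ ↔ FI K ψ) ∧ avg K φ = avg K ψ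
  addf : ∀ (G : Type u) [Group G] (K : Subgroup G) (φ ψ : G → ℝ), FI K φ → FI K ψ →
    FI K (fun k => φ k + ψ k)
  add : ∀ (G : Type u) [Group G] (K : Subgroup G) (φ ψ : G → ℝ), FI K φ → FI K ψ →
    avg K (fun k => φ k + ψ k) = avg K φ + avg K ψ
  sum : ∀ (G : Type u) [Group G] (K : Subgroup G) (ι : Type u) (s : Finset ι) (φ : ι → G → ℝ),
    (∀ i ∈ s, FI K (φ i)) → FI K (fun k => ∑ i ∈ s, φ i k) ∧
      avg K (fun k => ∑ i ∈ s, φ i k) = ∑ i ∈ s, avg K (φ i)
  smul : ∀ (G : Type u) [Group G] (K : Subgroup G) (φ : G → ℝ) (c : ℝ), FI K φ →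
    avg K (fun k => c * φ k) = c * avg K φ
  mono : ∀ (G : Type u) [Group G] (K : Subgroup G) (φ ψ : G → ℝ), FI K φ → FI K ψ →
    (∀ k ∈ K, φ k ≤ ψ k) → avg K φ ≤ avg K ψ
  const : ∀ (G : Type u) [Group G] (K : Subgroup G) (c : ℝ), avg K (fun _ => c) = c
  lower : ∀ (G : Type u) [Group G] (K V : Subgroup G) (φ : G → ℝ), V ≤ K → V.relIndex K ≠ 0 →
    (∀ k ∈ K, ∀ v ∈ V, φ (k * v) = φ k) → (∀ k ∈ K, 0 ≤ φ k) →
    ∀ k ∈ K, φ k ≤ (V.relIndex K : ℝ) * avg K φ

/-- AVB (deps: AVA; about 150 lines).  Formal properties of `avg`, second part.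
Proof.  Replace `V` by its normal core in `K` (again of finite index): then left and right cosets
agree, `K / V` is a finite group and translations and the inversion are bijections of it.  `fub`:
`φ k u` induces a function on `K/V × U/W`; finite sums commute (the inner average is in the class
`FI`; use `AVA.form` twice).  `sub1`: apply `fub` and `right`: the average over `k` of `φ (k u)` is
`avg K φ` for every `u ∈ U`; for the hypothesis of `fub` take `V` normal in `K` with `φ` invariant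
under `V` on both sides and `W = V ⊓ U`.  `sub2`: same with `left`.  `map`: `φ ∘ π` is right invariant
under `π⁻¹(V) ⊓ K`, and `K / (π⁻¹ V ⊓ K) → π(K) / V` is a bijection. -/
structure SpecAVB : Prop where
  left : ∀ (G : Type u) [Group G] (K : Subgroup G) (φ : G → ℝ), FI K φ → ∀ k₀ ∈ K,
    FI K (fun k => φ (k₀ * k)) ∧ avg K (fun k => φ (k₀ * k)) = avg K φ
  right : ∀ (G : Type u) [Group G] (K : Subgroup G) (φ : G → ℝ), FI K φ → ∀ k₀ ∈ K,
    FI K (fun k => φ (k * k₀)) ∧ avg K (fun k => φ (k * k₀)) = avg K φ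
  inv : ∀ (G : Type u) [Group G] (K : Subgroup G) (φ : G → ℝ), FI K φ →
    FI K (fun k => φ k⁻¹) ∧ avg K (fun k => φ k⁻¹) = avg K φ
  fub : ∀ (G : Type u) [Group G] (K U V W : Subgroup G) (φ : G → G → ℝ), V ≤ K →
    V.relIndex K ≠ 0 → W ≤ U → W.relIndex U ≠ 0 →
    (∀ k ∈ K, ∀ v ∈ V, ∀ u ∈ U, ∀ w ∈ W, φ (k * v) (u * w) = φ k u) →
    avg K (fun k => avg U (fun u => φ k u)) = avg U (fun u => avg K (fun k => φ k u))
  sub1 : ∀ (G : Type u) [Group G] (K U : Subgroup G) (φ : G → ℝ), FI K φ → U ≤ K →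
    U.relIndex K ≠ 0 → avg K (fun k => avg U (fun u => φ (k * u))) = avg K φ
  sub2 : ∀ (G : Type u) [Group G] (K U : Subgroup G) (φ : G → ℝ), FI K φ → U ≤ K →
    U.relIndex K ≠ 0 → avg K (fun k => avg U (fun u => φ (u * k))) = avg K φ
  map : ∀ (G H : Type u) [Group G] [Group H] (π : G →* H) (K : Subgroup G) (ψ : H → ℝ),
    FI (K.map π) ψ → FI K (fun k => ψ (π k)) ∧ avg K (fun k => ψ (π k)) = avg (K.map π) ψ

/-- AVG (deps: AVA, AVB; proved below): all formal properties of `avg`. -/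
structure SpecAVG : Prop extends SpecAVA.{u}, SpecAVB.{u}

theorem specAVG (h1 : SpecAVA.{u}) (h2 : SpecAVB.{u}) : SpecAVG.{u} :=
  { toSpecAVA := h1, toSpecAVB := h2 }

/-- The subgroup `U ⊓ g K g⁻¹`. -/
def Vg {G : Type u} [Group G] (K U : Subgroup G) (g : G) : Subgroup G :=
  U ⊓ K.map (MulAut.conj g).toMonoidHom

/-- MFA (deps: AVG; about 150 lines).  Formal properties of the Hecke operators `M K g` for a
compact open subgroup `K` of a topological group.
Proof.  `idx`: `g K g⁻¹` is open and `U` compact.  `inva`: for `v ∈ U ⊓ g K g⁻¹`,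
`x (u v) g = x u g (g⁻¹ v g)` with `g⁻¹ v g ∈ K`.  Hence `fi`.  `rinv`: `M_g f (x k₀)` is the average of
`f (x (k₀ k) g)`: `AVG.left`.  `bi`: `M_{k g k'} f (x)` is the average of `f (x l k g k')`, use the right
invariance of `f` and `AVG.right`.  `one`: `f (x k 1) = f x`.  `linv`: clear.  `add`, `smul`, `mono`,
`sum`: clear from `AVG`.  `lower`: `AVG.lower` with `V = Vg K K g`.  `shift`: `rfl` up to `mul_assoc`.
`fub`: `M_g (M_h f) (x)` is the average over `k'` of the average over `k` of `f (x k' g k h)`;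
`AVG.fub` applies with `W = Vg K K h` (for `k`) and, for `k'`, a subgroup `V` of finite index of `K` such
that `v ∈ V` implies `(g k h)⁻¹ v (g k h) ∈ K` for all `k ∈ K` (take `V = K ⊓` the finite
intersection of the `(g k_i h) K (g k_i h)⁻¹`, `k_i` representatives of `K / Vg K K h`). -/
structure SpecMFA : Prop where
  idx : ∀ (G : Type u) [Group G] [TopologicalSpace G] [IsTopologicalGroup G] (K U : Subgroup G),
    CO K → CO U → ∀ g : G, (Vg K U g).relIndex U ≠ 0 ∧ CO (Vg K U g)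
  inva : ∀ (G : Type u) [Group G] (K U : Subgroup G) (f : G → ℝ), RInv K f → ∀ x g : G,
    ∀ u ∈ U, ∀ v ∈ Vg K U g, f (x * (u * v) * g) = f (x * u * g)
  fi : ∀ (G : Type u) [Group G] [TopologicalSpace G] [IsTopologicalGroup G] (K U : Subgroup G),
    CO K → CO U → ∀ f : G → ℝ, RInv K f → ∀ x g : G, FI U (fun u => f (x * u * g))
  rinv : ∀ (G : Type u) [Group G] [TopologicalSpace G] [IsTopologicalGroup G] (K : Subgroup G),
    CO K → ∀ f : G → ℝ, RInv K f → ∀ g : G, RInv K (M K g f)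
  linv : ∀ (G : Type u) [Group G] [TopologicalSpace G] [IsTopologicalGroup G] (K U : Subgroup G),
    CO K → ∀ f : G → ℝ, RInv K f → LInv U f → ∀ g : G, LInv U (M K g f)
  bi : ∀ (G : Type u) [Group G] [TopologicalSpace G] [IsTopologicalGroup G] (K : Subgroup G),
    CO K → ∀ f : G → ℝ, RInv K f → ∀ g x : G, ∀ k ∈ K, ∀ k' ∈ K,
      M K (k * g * k') f x = M K g f x
  one : ∀ (G : Type u) [Group G] [TopologicalSpace G] [IsTopologicalGroup G] (K : Subgroup G),
    CO K → ∀ f : G → ℝ, RInv K f → ∀ x : G, M K 1 f x = f x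
  add : ∀ (G : Type u) [Group G] [TopologicalSpace G] [IsTopologicalGroup G] (K : Subgroup G),
    CO K → ∀ f f' : G → ℝ, RInv K f → RInv K f' → ∀ g x : G,
      M K g (fun y => f y + f' y) x = M K g f x + M K g f' x
  smul : ∀ (G : Type u) [Group G] [TopologicalSpace G] [IsTopologicalGroup G] (K : Subgroup G),
    CO K → ∀ f : G → ℝ, RInv K f → ∀ (c : ℝ) (g x : G),
      M K g (fun y => c * f y) x = c * M K g f x
  sum : ∀ (G : Type u) [Group G] [TopologicalSpace G] [IsTopologicalGroup G] (K : Subgroup G),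
    CO K → ∀ (ι : Type u) (s : Finset ι) (f : ι → G → ℝ), (∀ i ∈ s, RInv K (f i)) → ∀ g x : G,
      M K g (fun y => ∑ i ∈ s, f i y) x = ∑ i ∈ s, M K g (f i) x
  mono : ∀ (G : Type u) [Group G] [TopologicalSpace G] [IsTopologicalGroup G] (K : Subgroup G),
    CO K → ∀ f f' : G → ℝ, RInv K f → RInv K f' → (∀ x, f x ≤ f' x) → ∀ g x : G,
      M K g f x ≤ M K g f' x
  lower : ∀ (G : Type u) [Group G] [TopologicalSpace G] [IsTopologicalGroup G] (K : Subgroup G),
    CO K → ∀ f : G → ℝ, RInv K f → (∀ x, 0 ≤ f x) → ∀ g x : G, ∀ k ∈ K,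
      f (x * k * g) ≤ ((Vg K K g).relIndex K : ℝ) * M K g f x
  shift : ∀ (G : Type u) [Group G] (K : Subgroup G) (f : G → ℝ) (y g x : G),
    M K g (fun z => f (y * z)) x = M K g f (y * x)
  fub : ∀ (G : Type u) [Group G] [TopologicalSpace G] [IsTopologicalGroup G] (K : Subgroup G),
    CO K → ∀ f : G → ℝ, RInv K f → ∀ g h x : G,
      M K g (M K h f) x = avg K (fun k => M K (g * k * h) f x)

/-- LFA (deps: AVG, MFA; about 150 lines).  Formal properties of the left averages `LAv U`,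
`U` compact open, on right `K`-invariant functions.
Proof.  `fi`: `MFA.fi` with `x = 1`.  `linv`: `AVG.right`.  `fix`: `AVG.const` and `AVG.congr`.
`lform`: by `AVG.inv` `LAv U f x` is the average of `f (u⁻¹ x)`, which is right `V`-invariant in `u`;
`AVG.form`.  `comm`: `AVG.fub` for `φ u k = f (u x k g)`: in `k` use `Vg K K g`, in `u` a subgroup `W` of
finite index of `U` with `W ≤ (x k g) K (x k g)⁻¹` for all `k ∈ K` (finitely many conditions).
`sub`: `V ≤ U`; `LAv U (LAv V f) x` is the average over `u` of the average over `v` of `f (v (u x))`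
resp. `f (u (v x))`: `AVG.sub2`, `AVG.sub1`.  `kav`: definition.  `conj`: apply `AVG.map` to the
automorphism `u ↦ g u g⁻¹`. -/
structure SpecLFA : Prop where
  fi : ∀ (G : Type u) [Group G] [TopologicalSpace G] [IsTopologicalGroup G] (K U : Subgroup G),
    CO K → CO U → ∀ f : G → ℝ, RInv K f → ∀ x : G, FI U (fun u => f (u * x))
  rinv : ∀ (G : Type u) [Group G] (K U : Subgroup G) (f : G → ℝ), RInv K f → RInv K (LAv U f)
  linv : ∀ (G : Type u) [Group G] [TopologicalSpace G] [IsTopologicalGroup G] (K U : Subgroup G),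
    CO K → CO U → ∀ f : G → ℝ, RInv K f → LInv U (LAv U f)
  fix : ∀ (G : Type u) [Group G] (U : Subgroup G) (f : G → ℝ), LInv U f → ∀ x, LAv U f x = f x
  lform : ∀ (G : Type u) [Group G] [TopologicalSpace G] [IsTopologicalGroup G]
    (K U V : Subgroup G), CO K → CO U → CO V → V ≤ U → ∀ f : G → ℝ, RInv K f → LInv V f →
      V.relIndex U ≠ 0 ∧ ∀ x, LAv U f x =
        (∑ᶠ q : U ⧸ (V.subgroupOf U), f (((Quotient.out q : U) : G)⁻¹ * x)) / (V.relIndex U : ℝ)
  comm : ∀ (G : Type u) [Group G] [TopologicalSpace G] [IsTopologicalGroup G] (K U : Subgroup G),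
    CO K → CO U → ∀ f : G → ℝ, RInv K f → ∀ g x : G,
      M K g (LAv U f) x = LAv U (M K g f) x
  add : ∀ (G : Type u) [Group G] [TopologicalSpace G] [IsTopologicalGroup G] (K U : Subgroup G),
    CO K → CO U → ∀ f f' : G → ℝ, RInv K f → RInv K f' → ∀ x : G,
      LAv U (fun y => f y + f' y) x = LAv U f x + LAv U f' x
  smul : ∀ (G : Type u) [Group G] [TopologicalSpace G] [IsTopologicalGroup G] (K U : Subgroup G),
    CO K → CO U → ∀ f : G → ℝ, RInv K f → ∀ (c : ℝ) (x : G),
      LAv U (fun y => c * f y) x = c * LAv U f x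
  sum : ∀ (G : Type u) [Group G] [TopologicalSpace G] [IsTopologicalGroup G] (K U : Subgroup G),
    CO K → CO U → ∀ (ι : Type u) (s : Finset ι) (f : ι → G → ℝ), (∀ i ∈ s, RInv K (f i)) →
      ∀ x : G, LAv U (fun y => ∑ i ∈ s, f i y) x = ∑ i ∈ s, LAv U (f i) x
  mono : ∀ (G : Type u) [Group G] [TopologicalSpace G] [IsTopologicalGroup G] (K U : Subgroup G),
    CO K → CO U → ∀ f f' : G → ℝ, RInv K f → RInv K f' → (∀ x, f x ≤ f' x) → ∀ x : G,
      LAv U f x ≤ LAv U f' x
  sub : ∀ (G : Type u) [Group G] [TopologicalSpace G] [IsTopologicalGroup G] (K U V : Subgroup G),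
    CO K → CO U → CO V → V ≤ U → ∀ f : G → ℝ, RInv K f → ∀ x : G,
      LAv U (LAv V f) x = LAv U f x ∧ LAv V (LAv U f) x = LAv U f x
  kav : ∀ (G : Type u) [Group G] (K : Subgroup G) (f : G → ℝ) (x : G), LAv K f x = M K x f 1
  conj : ∀ (G : Type u) [Group G] [TopologicalSpace G] [IsTopologicalGroup G]
    (K U : Subgroup G), CO K → CO U → ∀ f : G → ℝ, RInv K f → ∀ g x : G,
      LAv (U.map (MulAut.conj g).toMonoidHom) f x = avg U (fun u => f (g * u * g⁻¹ * x))

/-- COR (deps: none; about 60 lines).  Every open subgroup `O` contains a compact open subgroup of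
`K` which is normalised by `K`.
Proof.  `O ⊓ K` is open and has finite index in the compact group `K`, so `k (O ⊓ K) k⁻¹`, which only
depends on the coset `k (O ⊓ K)`, takes finitely many values for `k ∈ K`; `U` is their intersection:
open, closed in the compact `K`, normalised by `K`. -/
def SpecCOR : Prop :=
  ∀ (G : Type u) [Group G] [TopologicalSpace G] [IsTopologicalGroup G] (K O : Subgroup G),
    CO K → IsOpen (O : Set G) →
      ∃ U : Subgroup G, CO U ∧ U ≤ K ∧ U ≤ O ∧ ∀ k ∈ K, ∀ u ∈ U, k * u * k⁻¹ ∈ U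

/-- SCM (deps: AVG, MFA; about 60 lines).  If the Hecke operators commute then double cosets
commute as sets.
Proof.  Let `f` be the indicator function of `K h K g K`, which is right `K`-invariant.
`M_h (M_g f) (1)` is the average over `k` of the average over `k'` of `f (k h k' g) = 1`, so it is `1`.
Hence `M_g (M_h f) (1) = 1`, i.e. `M_g (M_h (1 - f)) (1) = 0`; `1 - f ≥ 0`, so `MFA.lower` twice gives
`(1 - f) (g h) ≤ c M_h (1 - f) (g) ≤ c c' M_g (M_h (1 - f)) (1) = 0`, i.e. `g h ∈ K h K g K`. -/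
def SpecSCM : Prop :=
  ∀ (G : Type u) [Group G] [TopologicalSpace G] [IsTopologicalGroup G] (K : Subgroup G),
    CO K → GC K → ∀ g h : G, ∃ k₁ ∈ K, ∃ k₂ ∈ K, ∃ k₃ ∈ K, g * h = k₁ * h * k₂ * g * k₃

/-- LSF (deps: none; about 150 lines).  Under `TP` and set commutation the elements with relatively
compact conjugation orbit under `s` form an open subgroup of finite index.
Proof.  `Lv s` is a subgroup (products and inverses of compact sets).  By `TP` (with the neighbourhood
`K`) there is a compact open `W ≤ K` normalised by `s` (hence by all `s ^ n`); `W ⊆ Lv s`, so `Lv s` is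
open.  Let `c_1, .., c_M` represent the left cosets of `W` in `K`.  Let `h ∈ G`.  For every natural `m`
write, by commutation, `s ^ m h = k_m h k'_m s ^ m k''_m` and `k'_m = c_{j(m)} w_m`, `w_m ∈ W`; since
`w_m s ^ m = s ^ m (s ^ (-m) w_m s ^ m)` we get `s ^ m h = y_m s ^ m κ_m` with `y_m = k_m h c_{j(m)}`,
`κ_m ∈ K`, i.e. `s ^ (-m) y_m s ^ m = h κ_m⁻¹ ∈ h K`.  The `y_m` lie in the compact set `⋃_j K h c_j`,
which is covered by finitely many left cosets of `W`, and so is `h K`.  By pigeonhole there are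
`m < m'` with `y_m W = y_{m'} W` and `s ^ (-m) y_m s ^ m W = s ^ (-m') y_{m'} s ^ m' W`.  As `s`
normalises `W`, also `s ^ (-m') y_{m'} s ^ m' W = s ^ (-m') y_m s ^ m' W`, so with `d = m' - m > 0`:
`s ^ (-d) y_m s ^ d ∈ y_m W`.  Then `s ^ n y_m s ^ (-n)` lies in the compact set
`⋃_{0 ≤ r < d} s ^ r y_m s ^ (-r) W` for all integers `n`, so `y := y_m ∈ Lv s`.  Thus
`h = k_m⁻¹ y c_j⁻¹`, `k_m⁻¹ = c_i w` with `w ∈ W ≤ Lv s`, so `h ∈ c_i (Lv s) c_j⁻¹`.  So `G` is the union of
the finitely many sets `c_i L c_j⁻¹ = (c_i c_j⁻¹) (c_j L c_j⁻¹)`, left cosets of conjugates of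
`L = Lv s`.  By B. H. Neumann's lemma (Mathlib: `Subgroup.exists_finiteIndex_of_leftCoset_cover`) one
of the conjugates has finite index, hence `L` does. -/
def SpecLSF : Prop :=
  ∀ (G : Type u) [Group G] [TopologicalSpace G] [IsTopologicalGroup G] (K : Subgroup G),
    CO K → TP G →
    (∀ g h : G, ∃ k₁ ∈ K, ∃ k₂ ∈ K, ∃ k₃ ∈ K, g * h = k₁ * h * k₂ * g * k₃) →
    ∀ s : G, ∃ L : Subgroup G, (L : Set G) = Lv s ∧ IsOpen (L : Set G) ∧ L.FiniteIndex

/-- UNI (deps: none; about 50 lines).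
Proof.  Take `W ≤ K` compact open and normalised by `s`; `K` is a finite union of `c_i W` with
`c_i ∈ K`, and `s ^ n c_i s ^ (-n) ∈ Q_i` compact.  `R = ⋃ Q_i W`. -/
def SpecUNI : Prop :=
  ∀ (G : Type u) [Group G] [TopologicalSpace G] [IsTopologicalGroup G] (K : Subgroup G),
    CO K → TP G → ∀ s : G, (∀ k ∈ K, k ∈ Lv s) →
    ∃ R : Set G, IsCompact R ∧ ∀ k ∈ K, ∀ n : ℤ, s ^ n * k * (s ^ n)⁻¹ ∈ R

/-- HAR (deps: MFA; about 70 lines).  Harnack inequality.
Proof.  The set of the `y` with such a `C > 0` is closed under products and contains `K` (`C = 1`).  For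
`s ∈ S`: `f (x s) ≤ n_s M_s f (x) ≤ n_s T f (x) ≤ n_s l f (x)` by `MFA.lower` with `k = 1` (all terms of
`T f` are nonnegative by `MFA.mono`).  As `S` is closed under inversion, the submonoid generated by
`K ∪ S` is the subgroup generated by it. -/
def SpecHAR : Prop :=
  ∀ (G : Type u) [Group G] [TopologicalSpace G] [IsTopologicalGroup G] (K : Subgroup G)
    (S : Finset G) (l : ℝ), CO K → (∀ s ∈ S, s⁻¹ ∈ S) →
    Subgroup.closure ((K : Set G) ∪ (S : Set G)) = ⊤ → 0 < l →
    ∀ y : G, ∃ C : ℝ, 0 < C ∧ ∀ f : G → ℝ, RInv K f → (∀ x, 0 ≤ f x) →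
      (∀ x, T K S f x ≤ l * f x) → ∀ x, f (x * y) ≤ C * f x

/-- GRN (deps: AVG, MFA, HAR; about 200 lines).  A bi-`K`-invariant positive eigenfunction, for
every `l > |S|`.
Proof.  Let `e_0` be the indicator of `K` and `e_{n+1} = T e_n`: bi-`K`-invariant (`MFA.rinv`,
`MFA.linv`), `0 ≤ e_n ≤ |S|^n`.  `g = ∑ l^(-n) e_n` converges (`l > |S|`), is bi-`K`-invariant, nonnegative,
and `T g = l (g - e_0)`: `M_s g (x)` is a finite average of values of `g` (`AVG.form` with `V = Vg K K s`),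
so it commutes with the sum.  `g > 0` everywhere: `g 1 ≥ e_0 1 = 1` and by `HAR` (`T g ≤ l g`)
`g (1) = g (x x⁻¹) ≤ C g (x)`.  For `z ∈ G` put `Φ_z (x) = M_x g (z) / g z`.  `Φ_z` is bi-`K`-invariant in
`x` (`MFA.bi`), nonnegative, `Φ_z 1 = 1` (`MFA.one`), and `Φ_z (x) ≤ C_x` with the constant of `HAR`
for `y = x` (`g (z k x) ≤ C_x g (z k) = C_x g z`).  Eigenvalue: for `s ∈ S`,
`M_s (Φ_z) (x)` is the average over `k` of `M_{x k s} g (z) / g z`, which is
`M_x (M_s g) (z) / g z` by `MFA.fub`; summing over `s`, `T Φ_z (x) = M_x (T g) (z) / g z =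
l Φ_z (x) - l M_x e_0 (z) / g z`, and `M_x e_0 (z)` is the average of `e_0 (z k x)`, which is zero unless
`z ∈ K x⁻¹ K`.  Since `G` is not compact the cocompact filter on `G` is nontrivial; take an ultrafilter
`F` finer than it.  By boundedness `Φ_z (x)` converges along `F` to some `w x` for every `x`
(compactness of `[0, C_x]`).  `w` is bi-`K`-invariant, nonnegative, `w 1 = 1`; for fixed `x` the set
`K x⁻¹ K` is compact, so `T Φ_z (x) = l Φ_z (x)` for `z` in a set of `F`, and `T Φ_z (x)` is a fixed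
finite linear combination of values of `Φ_z` (`AVG.form`), so `T w (x) = l w x`. -/
def SpecGRN : Prop :=
  ∀ (G : Type u) [Group G] [TopologicalSpace G] [IsTopologicalGroup G] (K : Subgroup G)
    (S : Finset G) (l : ℝ), CO K → ¬ CompactSpace G → (∀ s ∈ S, s⁻¹ ∈ S) →
    Subgroup.closure ((K : Set G) ∪ (S : Set G)) = ⊤ → (S.card : ℝ) < l →
    ∃ w : G → ℝ, RInv K w ∧ LInv K w ∧ (∀ x, 0 ≤ w x) ∧ w 1 = 1 ∧ ∀ x, T K S w x = l * w x

/-- EXT (deps: AVG, MFA, HAR, GRN; about 200 lines).  Existence of a positive spherical function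
which is extreme.
Proof.  `Q = {w : G → ℝ | bi-K-invariant, ≥ 0, w 1 = 1, T w = l w}` is convex, nonempty (`GRN`), and
compact for the product topology: `0 ≤ w y = w (1 y) ≤ C_y` by `HAR`, and all conditions are closed
(`T w x` is a finite linear combination of values of `w`, `AVG.form` with `V = Vg K K s`).  By
Krein-Milman (`IsCompact.extremePoints_nonempty`) `Q` has an extreme point `χ`.
`pos`: `1 = χ (x x⁻¹) ≤ C χ x`.  `ext`: let `w` be as in the statement, `w ≤ c χ`.  If `w 1 = 0` then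
`w y ≤ C_y w 1 = 0`.  Otherwise `c ≥ w 1 > 0`; `w' = w / w 1 ∈ Q`, `t = w 1 / (2 c) ∈ (0, 1/2]`,
`t w' ≤ χ / 2`, so `χ = t w' + (1 - t) χ'` with `χ' = (χ - t w') / (1 - t) ∈ Q`; as `χ` is extreme,
`w' = χ`.  `mul`: `w = M_g χ` is bi-`K`-invariant, nonnegative, `T w = M_g (T χ) = l w` by `GC`
(and linearity), and `M_g χ (x)` is the average of `χ (x k g) ≤ C_g χ (x k) = C_g χ x`.  So
`M_g χ = (M_g χ 1) χ`, and `M_g χ (1)` is the average of `χ (k g) = χ g`. -/
def SpecEXT : Prop :=
  ∀ (G : Type u) [Group G] [TopologicalSpace G] [IsTopologicalGroup G] (K : Subgroup G)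
    (S : Finset G) (l : ℝ), CO K → GC K → ¬ CompactSpace G → (∀ s ∈ S, s⁻¹ ∈ S) →
    Subgroup.closure ((K : Set G) ∪ (S : Set G)) = ⊤ → (S.card : ℝ) < l →
    ∃ χ : G → ℝ, Spher K S l χ

/-- CNF (deps: MFA, LFA; about 120 lines).  Formal properties of the cone.
Proof.  `bound`: `MFA.lower` at `x = 1`, `k = 1`: `v x ≤ n M_x v (1) = n χ x v 1`.  `zero`: `bound`.  `pos`:
if `v x = 0` then `v 1 = v (x 1 x⁻¹) ≤ n M_{x⁻¹} v (x) = n χ (x⁻¹) v x = 0`.  `self`: `Spher.mul`.
`kav`: `LFA.kav`.  `teig`: `T v x = (∑ χ s) v x`, and `l = l χ 1 = T χ 1 = ∑ χ s χ 1`.  `lav`: `LFA.comm`,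
`LFA.smul`, `LFA.rinv`; nonnegative by `LFA.mono`.  `trans`: `MFA.shift`. -/
structure SpecCNF : Prop where
  bound : ∀ (G : Type u) [Group G] [TopologicalSpace G] [IsTopologicalGroup G] (K : Subgroup G)
    (χ v : G → ℝ), CO K → Cn K χ v → ∀ x, v x ≤ ((Vg K K x).relIndex K : ℝ) * (χ x * v 1)
  zero : ∀ (G : Type u) [Group G] [TopologicalSpace G] [IsTopologicalGroup G] (K : Subgroup G)
    (χ v : G → ℝ), CO K → Cn K χ v → v 1 = 0 → ∀ x, v x = 0
  pos : ∀ (G : Type u) [Group G] [TopologicalSpace G] [IsTopologicalGroup G] (K : Subgroup G)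
    (χ v : G → ℝ), CO K → Cn K χ v → 0 < v 1 → ∀ x, 0 < v x
  self : ∀ (G : Type u) [Group G] (K : Subgroup G) (S : Finset G) (l : ℝ) (χ : G → ℝ),
    Spher K S l χ → Cn K χ χ
  add : ∀ (G : Type u) [Group G] [TopologicalSpace G] [IsTopologicalGroup G] (K : Subgroup G)
    (χ v w : G → ℝ), CO K → Cn K χ v → Cn K χ w → Cn K χ (fun x => v x + w x)
  sub : ∀ (G : Type u) [Group G] [TopologicalSpace G] [IsTopologicalGroup G] (K : Subgroup G)
    (χ v w : G → ℝ), CO K → Cn K χ v → Cn K χ w → (∀ x, w x ≤ v x) →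
      Cn K χ (fun x => v x - w x)
  smul : ∀ (G : Type u) [Group G] [TopologicalSpace G] [IsTopologicalGroup G] (K : Subgroup G)
    (χ v : G → ℝ) (c : ℝ), CO K → Cn K χ v → 0 ≤ c → Cn K χ (fun x => c * v x)
  sum : ∀ (G : Type u) [Group G] [TopologicalSpace G] [IsTopologicalGroup G] (K : Subgroup G)
    (χ : G → ℝ) (ι : Type u) (s : Finset ι) (v : ι → G → ℝ), CO K → (∀ i ∈ s, Cn K χ (v i)) →
      Cn K χ (fun x => ∑ i ∈ s, v i x)
  trans : ∀ (G : Type u) [Group G] (K : Subgroup G) (χ v : G → ℝ), Cn K χ v → ∀ g : G,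
    Cn K χ (fun x => v (g * x))
  lav : ∀ (G : Type u) [Group G] [TopologicalSpace G] [IsTopologicalGroup G] (K U : Subgroup G)
    (χ v : G → ℝ), CO K → CO U → Cn K χ v → Cn K χ (LAv U v)
  kav : ∀ (G : Type u) [Group G] (K : Subgroup G) (χ v : G → ℝ), Cn K χ v → ∀ x,
    LAv K v x = χ x * v 1
  teig : ∀ (G : Type u) [Group G] (K : Subgroup G) (S : Finset G) (l : ℝ) (χ v : G → ℝ),
    Spher K S l χ → Cn K χ v → ∀ x, T K S v x = l * v x

/-- HER (deps: MFA; about 60 lines).  The cone is hereditary.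
Proof.  Fix `x` and put `h (g) = M_g v (x)`.  `h` is bi-`K`-invariant (`MFA.bi`), nonnegative,
`h g ≤ M_g u (x) = χ g u x` (`MFA.mono`), so `h ≤ c χ` with `c = u x`.  `M_s h (g)` is the average over
`k` of `M_{g k s} v (x)`, which is `M_g (M_s v) (x)` by `MFA.fub`; summing over `s`,
`T h (g) = M_g (T v) (x) = l h g`.  By `Spher.ext`, `h g = h 1 χ g = v x χ g` (`MFA.one`). -/
def SpecHER : Prop :=
  ∀ (G : Type u) [Group G] [TopologicalSpace G] [IsTopologicalGroup G] (K : Subgroup G)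
    (S : Finset G) (l : ℝ) (χ : G → ℝ), CO K → Spher K S l χ →
    ∀ u v : G → ℝ, Cn K χ u → RInv K v → (∀ x, 0 ≤ v x) → (∀ x, v x ≤ u x) →
      (∀ x, T K S v x = l * v x) → Cn K χ v

/-- RIE (deps: AVG, MFA, CNF, HER; about 150 lines).  Riesz decomposition in the cone.
Proof.  Two summands: `a ≤ b₁ + b₂`.  Put `v_0 = min a b₁`, `v_{n+1} = l⁻¹ T v_n` (`l > 0`, as
`l = l χ 1 = ∑ χ s ≥ 0` and `l = 0` would give `S = ∅`; if `S = ∅` then `T = 0` and `l = 0`: in this case
take directly `a₁ = min a b₁`: then `T a₁ = 0 = l a₁`).  `T v_0 ≤ l v_0` since `T a = l a`, `T b₁ = l b₁`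
(`CNF.teig`) and `T` is monotone; so `v_n` decreases, `v_n ≥ 0`; let `a₁` be the limit.  `T a₁ = l a₁`
since `T` is a finite linear combination of evaluations (`AVG.form`).  `a₁ ≤ a`, `a₁ ≤ b₁`.
`a - v_0 = max 0 (a - b₁) ≤ b₂`, and applying `(l⁻¹ T)^n`: `a - v_n ≤ b₂`, so `a - a₁ ≤ b₂`.  By `HER`
(`a₁ ≤ a`) `a₁` is in the cone, and `a₂ = a - a₁` by `CNF.sub`.  General case: induction on the finite
set. -/
def SpecRIE : Prop :=
  ∀ (G : Type u) [Group G] [TopologicalSpace G] [IsTopologicalGroup G] (K : Subgroup G)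
    (S : Finset G) (l : ℝ) (χ : G → ℝ), CO K → Spher K S l χ →
    ∀ (ι : Type u) (s : Finset ι) (a : G → ℝ) (b : ι → G → ℝ), Cn K χ a →
      (∀ i ∈ s, Cn K χ (b i)) → (∀ x, a x ≤ ∑ i ∈ s, b i x) →
      ∃ c : ι → G → ℝ, (∀ i ∈ s, Cn K χ (c i) ∧ ∀ x, c i x ≤ b i x) ∧
        ∀ x, a x = ∑ i ∈ s, c i x

/-- KMW (deps: AVG, MFA, CNF; about 130 lines).  Existence of extreme rays.
Proof.  `B = {v | Cn K χ v, LInv U v, v 1 = 1}` is convex, contains `χ`, and is compact in the product
topology: `0 ≤ v x ≤ n_x χ x` by `CNF.bound`, all conditions are closed (`M_g v x` is a finite linear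
combination of values of `v`).  Let `w` be an extreme point (Krein-Milman).  Let `a` be in the cone,
`LInv U a`, `a ≤ w`, `c = a 1 ∈ [0, 1]`.  If `c = 0` then `a = 0` (`CNF.zero`).  If `c = 1` then `w - a` is
in the cone (`CNF.sub`) and vanishes at `1`, so `a = w`.  Otherwise `w = c (a / c) + (1 - c) ((w - a) / (1 - c))`
with both points in `B`, so `a / c = w`. -/
def SpecKMW : Prop :=
  ∀ (G : Type u) [Group G] [TopologicalSpace G] [IsTopologicalGroup G] (K : Subgroup G)
    (S : Finset G) (l : ℝ) (χ : G → ℝ), CO K → Spher K S l χ →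
    ∀ U : Subgroup G, CO U → U ≤ K → ∃ w : G → ℝ, ER K χ U w ∧ w 1 = 1

/-- TRV (deps: CNF; about 60 lines).  Translates and multiples of extreme rays.
Proof.  `x ↦ w (g⁻¹ x)` is in the cone (`CNF.trans`), positive at `1` (`CNF.pos`), left invariant under
`g U g⁻¹`.  If `a ≤ w (g⁻¹ ·)` is in the cone and left `g U g⁻¹`-invariant then `x ↦ a (g x)` is in the
cone, left `U`-invariant and `≤ w`, so a multiple of `w`. -/
def SpecTRV : Prop :=
  ∀ (G : Type u) [Group G] [TopologicalSpace G] [IsTopologicalGroup G] (K U : Subgroup G)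
    (χ w : G → ℝ), CO K → ER K χ U w →
    (∀ g : G, ER K χ (U.map (MulAut.conj g).toMonoidHom) (fun x => w (g⁻¹ * x))) ∧
    (∀ c : ℝ, 0 < c → ER K χ U (fun x => c * w x))

/-- AVE (deps: AVG, LFA, CNF, RIE, TRV; about 120 lines).  Averages of extreme rays are extreme rays.
Proof.  `w̄ = LAv U w` is in the cone, left `U`-invariant, `w̄ 1 > 0` (all values of `w` are positive,
`CNF.pos`, and `w̄ 1` is a finite average by `LFA.lform`).  By `LFA.lform`,
`w̄ = m⁻¹ ∑_{q ∈ U/V} w_q`, `w_q x = w (q⁻¹ x)`, `m = V.relIndex U`.  Let `a ≤ w̄` be in the cone, left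
`U`-invariant.  By `RIE`, `a = ∑ a_q`, `a_q ≤ m⁻¹ w_q`.  `V_q = q V q⁻¹ ≤ U`; `a'_q = LAv V_q a_q ≤
m⁻¹ w_q` (`w_q` is left `V_q`-invariant: `LFA.mono`, `LFA.fix`), in the cone, left `V_q`-invariant; by `TRV`
`w_q` is an extreme ray for `V_q`, so `m a'_q = c_q w_q`.  By `LFA.sub` (`V_q ≤ U`), `LAv U a_q = LAv U a'_q
= m⁻¹ c_q LAv U w_q` and `LAv U w_q = LAv U w` (`q ∈ U`: `w (q⁻¹ (u x))` averages over `u` like
`w (u x)`, `AVG.left`).  So `a = LAv U a = ∑ LAv U a_q` is a multiple of `w̄`. -/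
def SpecAVE : Prop :=
  ∀ (G : Type u) [Group G] [TopologicalSpace G] [IsTopologicalGroup G] (K : Subgroup G)
    (S : Finset G) (l : ℝ) (χ : G → ℝ), CO K → Spher K S l χ →
    ∀ (U V : Subgroup G) (w : G → ℝ), CO U → CO V → V ≤ U → ER K χ V w → ER K χ U (LAv U w)

/-- TRN (deps: AVG, LFA, CNF, RIE, TRV; about 130 lines).  `K` is transitive on the normalised extreme
rays of a normal subgroup `U` of `K`.
Proof.  By `CNF.kav` and `LFA.lform` (with `U := K`, `V := U`), with `n = U.relIndex K`,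
`χ x = n⁻¹ ∑_q w (q⁻¹ x) = n⁻¹ ∑_q w' (q⁻¹ x)`, sums over `q ∈ K / U`; the term of the trivial coset
(`q ∈ U`) of the second sum is `w' x`, so `w' x ≤ n χ x = ∑_q w_q x`, `w_q x = w (q⁻¹ x)`.  By `RIE`
`w' = ∑ a_q`, `a_q ≤ w_q`.  As `U` is normalised by `K`, `w_q` is left `U`-invariant and by `TRV`
(`q U q⁻¹ = U`) an extreme ray for `U`.  `LAv U a_q ≤ w_q` is in the cone and left `U`-invariant, so
`LAv U a_q = c_q w_q`, `c_q ≥ 0`, and `w' = LAv U w' = ∑ c_q w_q`.  At `1`: `w_q 1 = w (q⁻¹) = w 1 = 1` (right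
invariance), so `∑ c_q = 1` and some `c_q > 0`.  `c_q w_q ≤ w'`, so `c_q w_q = c w'` by `ER.ext` for `w'`, and
`c = c_q` at `1`.  So `w' x = w (q⁻¹ x)`. -/
def SpecTRN : Prop :=
  ∀ (G : Type u) [Group G] [TopologicalSpace G] [IsTopologicalGroup G] (K : Subgroup G)
    (S : Finset G) (l : ℝ) (χ : G → ℝ), CO K → Spher K S l χ →
    ∀ (U : Subgroup G) (w w' : G → ℝ), CO U → U ≤ K → (∀ k ∈ K, ∀ u ∈ U, k * u * k⁻¹ ∈ U) →
      ER K χ U w → ER K χ U w' → w 1 = 1 → w' 1 = 1 → ∃ k ∈ K, ∀ x, w' x = w (k * x)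

/-- LIM (deps: AVG, MFA, LFA, CNF, KMW, AVE, TRN; about 150 lines).  An element of the cone all of
whose averages over normal subgroups of `K` are extreme rays.
Proof.  Call `U` good if `CO U`, `U ≤ K` and `U` is normalised by `K`; finite intersections of good
subgroups are good.  `Z = {f | Cn K χ f, f 1 = 1}` is compact (`CNF.bound`).  For good `U` let
`Φ_U = {f ∈ Z | ER K χ U (LAv U f)}`.  `f ↦ LAv U f` is continuous (for each `x` a finite linear
combination of values: `AVG.form` with `V = Vg K U x`), `LAv U f 1 = f 1 = 1` (average of `f u`, `u ∈ K`),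
and the set of the extreme rays `w` for `U` with `w 1 = 1` is finite: by `TRN` it consists of the
functions `x ↦ w₀ (k x)`, which only depend on `k` modulo `U` (`U` normal in `K`, `w₀` left
`U`-invariant).  So `Φ_U` is closed.  Given good `U_1, .., U_n` let `U'` be their intersection (and `K`)
and `w` an extreme ray for `U'` with `w 1 = 1` (`KMW`); by `AVE` `w ∈ Φ_{U_i}` for all `i`.  By
compactness the intersection of all `Φ_U` is nonempty. -/
def SpecLIM : Prop :=
  ∀ (G : Type u) [Group G] [TopologicalSpace G] [IsTopologicalGroup G] (K : Subgroup G)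
    (S : Finset G) (l : ℝ) (χ : G → ℝ), CO K → Spher K S l χ →
    ∃ f : G → ℝ, Cn K χ f ∧ f 1 = 1 ∧ ∀ U : Subgroup G, CO U → U ≤ K →
      (∀ k ∈ K, ∀ u ∈ U, k * u * k⁻¹ ∈ U) → ER K χ U (LAv U f)

/-- IWA (deps: AVG, MFA, LFA, COR, CNF, TRV, AVE, TRN, LIM; about 200 lines).
Proof.  Let `f` be as in `LIM`.  `f` is positive (`CNF.pos`).  `big`: `l = ∑ χ s > |S|` (`CNF.teig`), so
`χ s > 1` for some `s`, `M_s f (1) = χ s > 1` and some `f (k s) > 1`.  `dec`: let `g ∈ G` (replace `g` by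
its inverse below).  Put `f₁ x = f (g⁻¹ x) / f (g⁻¹)`, in the cone, `f₁ 1 = 1`.  Claim: for every good
`U` (see `LIM`) `LAv U f₁` is an extreme ray for `U`.  By `COR` choose a good `V` with `g V g⁻¹ ≤ U`
(`V ≤ g⁻¹ U g`).  By `LFA.sub`, `LAv U (f (g⁻¹ ·)) = LAv U (LAv (g V g⁻¹) (f (g⁻¹ ·)))` and by `LFA.conj`
the inner average at `x` is the average over `v` of `f (g⁻¹ g v g⁻¹ x) = f (v g⁻¹ x)`, i.e.
`(LAv V f) (g⁻¹ x)`.  `LAv V f` is an extreme ray for `V`, by `TRV` its translate is one for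
`g V g⁻¹`, by `AVE` the average is one for `U`; scale by `1 / f (g⁻¹)` (`TRV`).  The value at `1` is `1`.
By `TRN` there is `k ∈ K` with `LAv U f₁ x = LAv U f (k x)` for all `x`.  The set `Ξ_U` of these `k ∈ K` is
invariant under left multiplication by `U`, hence a finite union of cosets `U k`, compact and closed.
If `U' ≤ U` are good then `Ξ_{U'} ⊆ Ξ_U`: apply `LAv U` (`LFA.sub`; `u ↦ k u k⁻¹` is an automorphism of
`U`, `LFA.conj` with `g := k` and `U.map (conj k) = U`).  Good subgroups are directed downwards, so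
some `k ∈ K` lies in all `Ξ_U`.  Given `x`, by `COR` choose a good `U ≤ x K x⁻¹`; then `f₁ (u x) = f₁ x`
for `u ∈ U`, so `LAv U f₁ x = f₁ x`, and `f (u k x) = f (k (k⁻¹ u k) x) = f (k x)`, so
`LAv U f (k x) = f (k x)`.  So `f (g⁻¹ x) = f (g⁻¹) f (k x)` for all `x`; with `x = k⁻¹ y`:
`f (g⁻¹ k⁻¹ y) = f (g⁻¹) f y`, and `f (g⁻¹ k⁻¹) = f (g⁻¹)`. -/
def SpecIWA : Prop :=
  ∀ (G : Type u) [Group G] [TopologicalSpace G] [IsTopologicalGroup G] (K : Subgroup G)
    (S : Finset G) (l : ℝ) (χ : G → ℝ), CO K → Spher K S l χ → (S.card : ℝ) < l →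
    ∃ f : G → ℝ, Iwa K f

/-- INA (deps: none; about 80 lines).  Conjugate subgroups of `P ⊓ K` have the same index.
Proof.  By `TP` choose a compact open `W ≤ A` with `r W r⁻¹ = W`; then `W ≤ B`.  Put `Q = P ⊓ K`.
`[Q : P ⊓ W] = [Q : P ⊓ A] [P ⊓ A : P ⊓ W] = [Q : P ⊓ B] [P ⊓ B : P ⊓ W]` (all finite: `W` is open and
`K` compact) and conjugation by `r ∈ P` maps `P ⊓ A` onto `P ⊓ B` and `P ⊓ W` onto itself, so
`[P ⊓ A : P ⊓ W] = [P ⊓ B : P ⊓ W] ≠ 0`. -/
def SpecINA : Prop :=
  ∀ (G : Type u) [Group G] [TopologicalSpace G] [IsTopologicalGroup G] (P K A B : Subgroup G),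
    TP G → CO K → CO A → CO B → A ≤ K → B ≤ K → ∀ r ∈ P,
    B = A.map (MulAut.conj r).toMonoidHom →
    (P ⊓ A).relIndex (P ⊓ K) = (P ⊓ B).relIndex (P ⊓ K)

/-- INV (deps: AVG, INA; about 200 lines).  The invariant measure on `P \ G = (P ⊓ K) \ K`.
Proof.  Replacing `U` by `U ⊓ K ⊓ g⁻¹ K g` we may assume `CO U`, `U ≤ K` and `U' = g U g⁻¹ ≤ K`.  `φ` is
right `U`-invariant, so a function on the set `G / U` of left cosets, invariant under the left action
of `P`.  Let `A` and `B` be the (finite) sets of the cosets `k U`, resp. `k g U`, `k ∈ K`.  By `AVG.form`,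
`avg K φ = |A|⁻¹ ∑_A φ`; the map `k U' ↦ k g U` is a bijection `K / U' → B` and `k ↦ φ (k g)` is right
`U'`-invariant, so `avg K (φ (· g)) = |B|⁻¹ ∑_B φ`.  CLAIM: every orbit `O` of `P` on `G / U` has
`|O ∩ A| = |O ∩ B|`.  Since `φ` is constant on orbits, and (taking `φ = 1`) `|A| = |B|`, the two averages
agree.  Proof of the claim: `O = P x U`.  Write `x⁻¹ = k₁ p₁` and `g x⁻¹ = k₂ p₂` with `k_i ∈ K`,
`p_i ∈ P` (apply the hypothesis to the inverses).  For `p ∈ P`: `p x U ∈ A` iff `p x ∈ K` iff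
`p ∈ K x⁻¹ = K p₁` iff `p ∈ (P ⊓ K) p₁`.  So `O ∩ A` is the orbit of the point `p₁ x U` under `P ⊓ K`; its
stabiliser in `P` is `P ⊓ p₁ x U x⁻¹ p₁⁻¹`, and `p₁ x = k₁⁻¹`, so `|O ∩ A| = (P ⊓ A₁).relIndex (P ⊓ K)` with
`A₁ = p₁ x U (p₁ x)⁻¹ ≤ K`.  Likewise `p x U ∈ B` iff `p x ∈ K g` iff `p ∈ K g x⁻¹ = K p₂` iff
`p ∈ (P ⊓ K) p₂`, and `p₂ x = k₂⁻¹ g`, so `|O ∩ B| = (P ⊓ B₁).relIndex (P ⊓ K)` with
`B₁ = p₂ x U (p₂ x)⁻¹ = k₂⁻¹ U' k₂ ≤ K`.  `B₁ = r A₁ r⁻¹` with `r = p₂ p₁⁻¹ ∈ P`; `INA`. -/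
def SpecINV : Prop :=
  ∀ (G : Type u) [Group G] [TopologicalSpace G] [IsTopologicalGroup G] (P K U : Subgroup G),
    TP G → CO K → (∀ g : G, ∃ k ∈ K, g * k ∈ P) → IsOpen (U : Set G) →
    ∀ φ : G → ℝ, (∀ p ∈ P, ∀ x, φ (p * x) = φ x) → (∀ x, ∀ u ∈ U, φ (x * u) = φ x) →
    ∀ g : G, avg K (fun k => φ (k * g)) = avg K φ

/-- HOM (deps: AVG, MFA, INV; about 90 lines).
Proof.  `P = stab f` is (the carrier of) a subgroup on which `f` is multiplicative: `1 ∈ P`; if
`p, q ∈ P` then `f (p q x) = f p f (q x) = f p f q f x` and `f (p q) = f p f q`; `f (p⁻¹ x) = f x / f p`.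
Fix `h` and put `φ x = log f (x h) - log f x`: left `P`-invariant, right invariant under
`Vg K K h = K ⊓ h K h⁻¹` (open).  `INV`: the average over `K` of `log f (k g h) - log f (k g)` equals that
of `log f (k h) - log f k`, and `f k = f 1 = 1`.  All functions are in the class `FI K` (`MFA.fi` applied
to `log ∘ f`).  The second claim: `f (k k') = f 1 = 1`. -/
def SpecHOM : Prop :=
  ∀ (G : Type u) [Group G] [TopologicalSpace G] [IsTopologicalGroup G] (K : Subgroup G)
    (f : G → ℝ), TP G → CO K → Iwa K f →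
    (∀ g h : G, avg K (fun k => Real.log (f (k * (g * h)))) =
      avg K (fun k => Real.log (f (k * g))) + avg K (fun k => Real.log (f (k * h)))) ∧
    ∀ k' ∈ K, avg K (fun k => Real.log (f (k * k'))) = 0

/-- CON (deps: AVG, MFA; about 90 lines).  The contradiction.
Proof.  Choose `g` with `f g > 1` (`Iwa.big`) and `k₀ ∈ K` with `p = g k₀ ∈ stab f` (`Iwa.dec`);
`f p = f g > 1`, `f (p ^ n) = (f p) ^ n` and `f (p ^ n x) = (f p) ^ n f x`.  Let `R` be compact with
`p ^ m k p ^ (-m) ∈ R` for all `k ∈ K`, `m ∈ ℤ`.  `f` is locally constant (right `K`-invariant, `K` open)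
and positive, so `f ≥ c > 0` on `R`.  For `k ∈ K`, `f (k p ^ n) = f (p ^ n (p ^ (-n) k p ^ n)) ≥
(f p) ^ n c`.  So `0 = avg K (log f (k p ^ n)) ≥ n log (f p) + log c` for all `n`, a contradiction. -/
def SpecCON : Prop :=
  ∀ (G : Type u) [Group G] [TopologicalSpace G] [IsTopologicalGroup G] (K : Subgroup G)
    (f : G → ℝ), CO K → Iwa K f → (∀ g : G, avg K (fun k => Real.log (f (k * g))) = 0) →
    (∀ s : G, ∃ R : Set G, IsCompact R ∧ ∀ k ∈ K, ∀ n : ℤ, s ^ n * k * (s ^ n)⁻¹ ∈ R) → False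

/-- NOC (deps: SCM, LSF, UNI, EXT, IWA, HOM, CON; about 120 lines).  The main step.
Proof.  Suppose that `G` is not compact.  A compact generating set is covered by finitely many cosets
`s K`; let `S` be the finite set of these `s` and their inverses: `K ∪ S` generates `G`.  Let
`l = |S| + 1` and let `χ` be as in `EXT`, `f` as in `IWA`.  By `HOM` `g ↦ avg K (log f (k g))` is a
homomorphism `G → ℝ` whose kernel contains `K`, so it is an open normal subgroup, hence everything.
For every `s`, the subgroup `L` of `LSF` (with `SCM`) is open of finite index; its normal core is a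
finite intersection of conjugates, hence open, so it is `⊤`; so `Lv s` is everything and `UNI` gives
the sets `R`.  `CON`. -/
def SpecNOC : Prop :=
  ∀ (G : Type u) [Group G] [TopologicalSpace G] [IsTopologicalGroup G] (K : Subgroup G),
    CO K → GC K → TP G → (∀ H : Subgroup G, IsOpen (H : Set G) → H.Normal → H = ⊤) →
    (∃ C : Set G, IsCompact C ∧ Subgroup.closure C = ⊤) → CompactSpace G

/-- COK (deps: none; about 60 lines).  A compact subgroup is contained in a compact open one.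
Proof.  Let `U` be a compact open subgroup (`vanDantzig`).  `K ⊓ U` has finite index in `K`, so
`U' = ⋂_{k ∈ K} k U k⁻¹` is a finite intersection, compact open and normalised by `K`; `K' = K U'`. -/
def SpecCOK : Prop :=
  ∀ (G : Type u) [Group G] [TopologicalSpace G] [IsTopologicalGroup G] [LocallyCompactSpace G]
    [TotallyDisconnectedSpace G] [T2Space G] (K : Subgroup G), IsCompact (K : Set G) →
    ∃ K' : Subgroup G, CO K' ∧ K ≤ K'

/-- GEL (deps: AVG, MFA; about 200 lines).  The Hecke operators of a compact open subgroup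
containing `K` commute.
Proof.  Write `μ` for Haar measure, `c = μ K'` (positive and finite), `F_a` for the indicator function
of `K' a K'`: continuous with compact support, bi-`K`-invariant.  Let `y_1, .., y_m` represent the left
cosets of `K'` in `K' a K'` and `z_1, .., z_n` those in `K' b K'` (finite: compact/open).  The set
`{y ∈ K' a K' | y⁻¹ w ∈ K' b K'}` is right `K'`-invariant, so
`∫ F_a y F_b (y⁻¹ w) = c #{i | y_i⁻¹ w ∈ K' b K'} = c #{(i, j) | y_i z_j K' = w K'}`
(for given `i` there is at most one `j`).  Let `f` be right `K'`-invariant.  For a right `K'`-invariant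
`ψ` the average of `ψ (k a)` over `k ∈ K'` is `m⁻¹ ∑ ψ (y_i)` (`k ↦ k a K'` induces a bijection of
`K' / Vg K' K' a` with the cosets in `K' a K'`: `AVG.form`); so
`M_a (M_b f) (1) = (m n)⁻¹ ∑_{i,j} f (y_i z_j) = (m n)⁻¹ ∑_w f w #{(i, j) | y_i z_j K' = w K'}`, sum over
the cosets `w K'`.  By the hypothesis (with `x = w`) this is symmetric in `a` and `b`.  For general `x`
apply this to `f (x ·)` (`MFA.shift`). -/
def SpecGEL : Prop :=
  ∀ (G : Type u) [Group G] [TopologicalSpace G] [IsTopologicalGroup G] [LocallyCompactSpace G]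
    [T2Space G] [MeasurableSpace G] [BorelSpace G] (K K' : Subgroup G), IsGel K → CO K' →
    K ≤ K' → GC K'

/-- GCQ (deps: AVG, MFA; about 80 lines).  Passage to a quotient.
Proof.  `π : G → G / N` is open and continuous.  If `f̄` on `G / N` is right `π(K)`-invariant then
`f = f̄ ∘ π` is right `K`-invariant and `M_g f = (M_{π g} f̄) ∘ π` by `AVG.map`; `π` is onto. -/
def SpecGCQ : Prop :=
  ∀ (G : Type u) [Group G] [TopologicalSpace G] [IsTopologicalGroup G] (N K : Subgroup G)
    [N.Normal], CO K → GC K →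
    CO (K.map (QuotientGroup.mk' N)) ∧ GC (K.map (QuotientGroup.mk' N))

/-- QUO (deps: none; about 60 lines).  The quotient by a closed normal subgroup containing all
contraction groups.
Proof.  Given `π g` and a neighbourhood `W` of `1`, choose a compact open `U ⊆ π⁻¹ W` (`vanDantzig`)
and apply `normalised` (file `Contr`): `V ≤ U` open with `V ⊔ N` invariant under conjugation by `g` and
`g⁻¹`.  `V` is closed in `U`, so compact; `π(V) = π(V ⊔ N)` is compact open. -/
def SpecQUO : Prop :=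
  ∀ (G : Type u) [Group G] [TopologicalSpace G] [IsTopologicalGroup G] [LocallyCompactSpace G]
    [TotallyDisconnectedSpace G] [T2Space G] (N : Subgroup G) [N.Normal],
    (∀ g : G, con g ⊆ N) → TP (G ⧸ N)

/-- FIN (deps: NOC, COK, GEL, GCQ, QUO; about 120 lines).  The theorem.
Proof.  Let `N` be the closure of the Tits core: closed and normal (`titsCore_normal`).  `G / N` is a
Hausdorff topological group generated by the image of a compact set, without proper open normal
subgroups, `TP` by `QUO`, `GC` for the image of a compact open `K' ≥ K` (`COK`, `GEL`, `GCQ`).  By `NOC` it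
is compact.  By `TP` (for `g = 1`) every neighbourhood of `1` contains an open subgroup, of finite index
by compactness; its normal core is open and normal, hence `⊤`.  So the only neighbourhood of `1` is
everything, and `G / N` is trivial as it is Hausdorff.  So `N = G`. -/
def SpecFIN : Prop :=
  ∀ (G : Type u) [Group G] [TopologicalSpace G] [IsTopologicalGroup G] [LocallyCompactSpace G]
    [TotallyDisconnectedSpace G] [T2Space G] [MeasurableSpace G] [BorelSpace G] (K : Subgroup G),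
    (∃ C : Set G, IsCompact C ∧ Subgroup.closure C = ⊤) →
    (∀ H : Subgroup G, IsOpen (H : Set G) → H.Normal → H = ⊤) → IsGel K →
    Dense (titsCore G : Set G)

end Pool.Agent.Lib.MP7d449a.GP
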