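import Pool.Agent.Lib.MP_7d449a_al.GP.Spec

/-!
# MP_7d449a_al, groups with a Gelfand pair: specification, part 2 (strong form)

THEOREM A.  Let `G` be a compactly generated t.d.l.c. group with a Gelfand pair `(G, K)` and without
nontrivial contraction groups.  Then `G` has a compact open normal subgroup with virtually abelian
quotient.

THEOREM B.  Let `G` be a t.d.l.c. group in which a product of finitely many sets `X_i` is dense, each
`X_i` being compact, or the set of all powers of the elements of a compact set, or a closed compactly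
generated subgroup with a Gelfand pair.  Then the discrete residual of `G` is the closure of the Tits
core.

HOW TO WORK: as in part 1 (`Spec.lean`): module XXX: file `Pool/Agent/Lib/MP_7d449a_al/GP/XXX.lean`,
import only `Pool.Agent.Lib.MP_7d449a_al.GP.Spec2`, namespace `Pool.Agent.Lib.MP7d449a.GP`,
`universe u`, theorem `specXXX (h : SpecYYY.{u}) .. : SpecXXX.{u}`, hypotheses in the order of deps.

Outline.  `RSD`: compactly generated residually discrete groups.  `DIS`, `VFA`, `VAQ`, `BGQ`: discrete
quotients are virtually abelian and boundedly generated.  `CGB`, `CGU`: compact generation of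
subgroups.  `GCS`: passage to subgroups.  `BPS`, `HM2`, `INF`: a noncompact group has an infinite discrete
quotient.  `BGM`: bounded generation modulo `N`.  `STA`, `STB`, `STR`: Theorem A.  `HBG`, `FN2`:
Theorem B.
-/

set_option autoImplicit false

open Filter Topology
open scoped Pointwise

namespace Pool.Agent.Lib.MP7d449a.GP

universe u

/-- `G` is generated by a compact set. -/
def CG (G : Type u) [Group G] [TopologicalSpace G] : Prop :=
  ∃ C : Set G, IsCompact C ∧ Subgroup.closure C = ⊤

/-- The set of all integer powers of the elements of `C`. -/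
def Pw {G : Type u} [Group G] (C : Set G) : Set G := {x | ∃ c ∈ C, ∃ n : ℤ, c ^ n = x}

/-- A list of sets each of which is compact or consists of the powers of the elements of a
compact set. -/
def Good {G : Type u} [Group G] [TopologicalSpace G] (l : List (Set G)) : Prop :=
  ∀ Y ∈ l, IsCompact Y ∨ ∃ C : Set G, IsCompact C ∧ Y = Pw C

/-- `X` is boundedly generated modulo `N`. -/
def BG {G : Type u} [Group G] [TopologicalSpace G] (N : Subgroup G) (X : Set G) : Prop :=
  ∃ l : List (Set G), Good l ∧ X ⊆ l.prod * (N : Set G)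

/-- Every element normalises arbitrarily small open subgroups containing `N`. -/
def TPm {G : Type u} [Group G] [TopologicalSpace G] (N : Subgroup G) : Prop :=
  ∀ (g : G) (O : Subgroup G), IsOpen (O : Set G) → N ≤ O →
    ∃ V : Subgroup G, IsOpen (V : Set G) ∧ N ≤ V ∧ V ≤ O ∧
      ∀ x ∈ V, g * x * g⁻¹ ∈ V ∧ g⁻¹ * x * g ∈ V

/-- Set commutation of double cosets. -/
def SC {G : Type u} [Group G] (K : Subgroup G) : Prop :=
  ∀ g h : G, ∃ k₁ ∈ K, ∃ k₂ ∈ K, ∃ k₃ ∈ K, g * h = k₁ * h * k₂ * g * k₃

/-- `G / N` contains a free abelian normal subgroup of finite index and finite rank. -/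
def VA {G : Type u} [Group G] (N : Subgroup G) [N.Normal] : Prop :=
  ∃ (r : ℕ) (φ : Multiplicative (Fin r → ℤ) →* G ⧸ N), Function.Injective φ ∧ φ.range.Normal ∧
    φ.range.FiniteIndex

/-- `H` is a closed compactly generated subgroup which has a Gelfand pair. -/
def GelSub {G : Type u} [Group G] [TopologicalSpace G] [IsTopologicalGroup G]
    [LocallyCompactSpace G] [MeasurableSpace G] [BorelSpace G] (H : Subgroup G) : Prop :=
  (∃ C : Set G, IsCompact C ∧ Subgroup.closure C = H) ∧ IsClosed (H : Set G) ∧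
    ∃ (_ : LocallyCompactSpace H) (K : Subgroup H), IsGel K

/-- RSD (deps: none; about 100 lines).  Compactly generated groups modulo an intersection of closed
normal subgroups (Caprace-Monod).
Proof.  Let `B = sInf 𝒩` and `U = K ⊓ ⨅_{s ∈ S} s K s⁻¹`, an open subgroup.  The sets `N ∩ K`, `N ∈ 𝒩`, are
compact, directed downwards, and their intersection `B ∩ K` lies in the open set `U B`.  So there is
`N ∈ 𝒩` with `N ∩ K ⊆ U B`.  Put `N₁ = N ⊓ (K ⊔ B)`.  As `B` is normal and `B ≤ N`, every element of `N₁` is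
`k b` with `b ∈ B`, `k ∈ N ∩ K ⊆ U B`, so `N₁ ⊆ U B ⊆ s (K B) s⁻¹` for `s ∈ S`; hence
`N₁ ≤ N ⊓ s (K ⊔ B) s⁻¹ = s N₁ s⁻¹`.  The same for `s⁻¹ ∈ S`, so `s` normalises `N₁`; `K` normalises `N₁`
(it normalises `N` and `K ⊔ B`).  As `K ∪ S` generates `G`, `N₁` is normal. -/
def SpecRSD : Prop :=
  ∀ (G : Type u) [Group G] [TopologicalSpace G] [IsTopologicalGroup G] (K : Subgroup G)
    (S : Finset G), CO K → (∀ s ∈ S, s⁻¹ ∈ S) →
    Subgroup.closure ((K : Set G) ∪ (S : Set G)) = ⊤ → ∀ 𝒩 : Set (Subgroup G), 𝒩.Nonempty →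
    (∀ N ∈ 𝒩, N.Normal ∧ IsClosed (N : Set G)) →
    (∀ N₁ ∈ 𝒩, ∀ N₂ ∈ 𝒩, ∃ N₃ ∈ 𝒩, N₃ ≤ N₁ ⊓ N₂) → ∃ N ∈ 𝒩, (N ⊓ (K ⊔ sInf 𝒩)).Normal

/-- DIS (deps: none; about 120 lines).  A finitely generated group with a finite subgroup whose
double cosets commute is virtually abelian.
Proof.  Fix `h`.  For every `g` there are `k₁, k₂, k₃ ∈ K` with `g h = k₁ h k₂ g k₃`, i.e.
`g⁻¹ (k₁ h k₂) g = h k₃⁻¹`.  For given `k₁, k₂, k₃` the set of these `g` is empty or a left coset
`g₀ C(h k₃⁻¹)` of the centraliser of `h k₃⁻¹` (if `g₀⁻¹ x g₀ = y = g⁻¹ x g` then `g₀⁻¹ g ∈ C(y)`: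
`(g₀⁻¹ g) y (g₀⁻¹ g)⁻¹ = g₀⁻¹ x g₀ = y`).  So `Γ` is a finite union of left cosets of centralisers of
elements of `h K`; by Neumann's lemma (`Subgroup.exists_finiteIndex_of_leftCoset_cover`) some
`h k` has a centraliser of finite index.  Let `D` be the set of all elements whose centraliser has
finite index, a subgroup (FC centre).  Every coset `h K` meets `D`, so `Γ = D K` and `D` has finite
index.  `D` is finitely generated (`Subgroup.fg_of_index_ne_zero`), so its centre, the intersection of
`D` with the centralisers of finitely many elements of `D`, has finite index. -/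
def SpecDIS : Prop :=
  ∀ (Γ : Type u) [Group Γ] (K : Subgroup Γ), Finite K → SC K → Group.FG Γ →
    ∃ A : Subgroup Γ, A.FiniteIndex ∧ ∀ a ∈ A, ∀ b ∈ A, a * b = b * a

/-- VFA (deps: none; about 100 lines).  A finitely generated virtually abelian group contains a free
abelian normal subgroup of finite rank and finite index.
Proof.  The normal core `A'` of `A` is normal, abelian, of finite index, finitely generated
(`Subgroup.fg_of_index_ne_zero`).  Let `m ≥ 1` kill its (finite) torsion subgroup; the set of the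
`m`-th powers `a ^ m`, `a ∈ A'`, is a subgroup, normal in `Γ`, of finite index in `A'` (a finitely
generated abelian group of exponent `m` is finite), finitely generated and torsion free (`(a ^ m) ^ n = 1`
implies that `a` is torsion, so `a ^ m = 1`); so it is free of finite rank
(`Module.Free`/`AddCommGroup.equiv_free_prod_directSum_zmod` or similar). -/
def SpecVFA : Prop :=
  ∀ (Γ : Type u) [Group Γ], Group.FG Γ →
    (∃ A : Subgroup Γ, A.FiniteIndex ∧ ∀ a ∈ A, ∀ b ∈ A, a * b = b * a) →
    ∃ (r : ℕ) (φ : Multiplicative (Fin r → ℤ) →* Γ), Function.Injective φ ∧ φ.range.Normal ∧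
      φ.range.FiniteIndex

/-- VAQ (deps: DIS, VFA; about 60 lines).  Discrete quotients.
Proof.  `Γ = G / N`.  The image of `K` is finite (`K ⊓ N` is open in the compact `K`), it satisfies `SC`.
`Γ` is finitely generated: a compact generating set of `G` meets finitely many cosets of the open
subgroup `N`. -/
def SpecVAQ : Prop :=
  ∀ (G : Type u) [Group G] [TopologicalSpace G] [IsTopologicalGroup G] (K N : Subgroup G)
    [N.Normal], CO K → SC K → CG G → IsOpen (N : Set G) → VA N

/-- BGQ (deps: none; about 80 lines).  Bounded generation modulo `N`.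
Proof.  Let `z_i ∈ G` lift `φ (e_i)`.  Let `F` be a finite set of representatives of `(G / N) / φ.range` in
`G`.  The image in `G / N` of an element `g` is `f φ (m)` for some `f` in the image of `F`, and
`φ m = ∏ φ(e_i)^{m_i}`, so `g ∈ F ⟨z_1⟩ ⋯ ⟨z_r⟩ N`.  The list is `F, Pw {z_1}, .., Pw {z_r}`. -/
def SpecBGQ : Prop :=
  ∀ (G : Type u) [Group G] [TopologicalSpace G] [IsTopologicalGroup G] (N : Subgroup G)
    [N.Normal], VA N → BG N (Set.univ : Set G)

/-- CGB (deps: none; about 60 lines).  A closed cocompact subgroup of a compactly generated group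
is compactly generated.
Proof.  Let `C₀ = C₀⁻¹` be compact and generating (union of `C` and `C⁻¹`), `Q' = Q ∪ {1}`, and
`D = B ∩ Q' C₀ Q'⁻¹`, compact.  Let `b = c_1 ⋯ c_n ∈ B`, `c_i ∈ C₀`.  Write `c_1 ⋯ c_i = b_i q_i` with
`b_i ∈ B`, `q_i ∈ Q'`, `q_0 = q_n = 1`, `b_0 = 1`, `b_n = b`.  Then `b_{i-1}⁻¹ b_i = q_{i-1} c_i q_i⁻¹ ∈ D`, so
`b ∈ ⟨D⟩`. -/
def SpecCGB : Prop :=
  ∀ (G : Type u) [Group G] [TopologicalSpace G] [IsTopologicalGroup G] (B : Subgroup G)
    (Q : Set G), CG G → IsClosed (B : Set G) → IsCompact Q → (∀ g : G, ∃ b ∈ B, ∃ q ∈ Q, g = b * q) →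
    ∃ D : Set G, IsCompact D ∧ D ⊆ B ∧ Subgroup.closure D = B

/-- GCS (deps: AVG, MFA; about 120 lines).  Passage to subgroups.
Proof.  `op`: `H` open, `K ≤ H`.  For a right `K.subgroupOf H`-invariant `f` on `H` let `F` be its
extension by zero to `G`, right `K`-invariant.  For `g, x ∈ H`, `M K g F x = M (K.subgroupOf H) g f x`
by `AVG.map` for the inclusion `H → G` (`(K.subgroupOf H).map H.subtype = K`); and `M K g F` is the
extension by zero of `M (K.subgroupOf H) g f` (for `x ∉ H` also `x k g ∉ H`).  So `GC K` gives the claim.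
`tp`: intersect the normalised compact open subgroup with `H`.  `tpm`: for `N` normal, `O ≥ N` open, take
a compact open `V₀ ⊆ O` normalised by `g` and `V = V₀ ⊔ N`. -/
structure SpecGCS : Prop where
  op : ∀ (G : Type u) [Group G] [TopologicalSpace G] [IsTopologicalGroup G] (K H : Subgroup G),
    CO K → IsOpen (H : Set G) → K ≤ H → CO (K.subgroupOf H) ∧ (GC K → GC (K.subgroupOf H))
  tp : ∀ (G : Type u) [Group G] [TopologicalSpace G] [IsTopologicalGroup G] (H : Subgroup G),
    IsClosed (H : Set G) → TP G → TP H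
  tpm : ∀ (G : Type u) [Group G] [TopologicalSpace G] [IsTopologicalGroup G] (N : Subgroup G),
    N.Normal → TP G → TPm N

/-- BGM (deps: none; about 120 lines).  Bounded generation modulo `N`.
Proof.  CLAIM: for every set `Y` of the list and every open subgroup `O ≥ N` there is an open subgroup
`O' ≥ N`, `O' ≤ O`, with `y x y⁻¹ ∈ O` for `y ∈ Y`, `x ∈ O'`.  If `Y` is compact: cover `Y` by finitely many
`O y_i` and let `O' = O ⊓ ⨅ y_i⁻¹ O y_i` (contains `N` as `N` is normal; for `y = o y_i`:
`y x y⁻¹ = o (y_i x y_i⁻¹) o⁻¹ ∈ O`).  If `Y = Pw C`: for `c ∈ C` let `V_c` be as in `TPm` for `O`; every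
element of the open set `c V_c` normalises `V_c`, hence so do its powers; cover `C` by finitely many
`c_i V_{c_i}` and let `O' = ⨅ V_{c_i} ⊓ O`.  By induction on the list there is an open `O' ≥ N` with
`p x p⁻¹ ∈ O` for all `p ∈ l.prod`, `x ∈ O'`; then `(p n) x (p n)⁻¹ ∈ O` also for `n ∈ N ≤ O'`.  Let `b ∈ G`;
as `l.prod * N` is dense there is `p n = o b` with `o ∈ O`; so `b x b⁻¹ = o⁻¹ (p n) x (p n)⁻¹ o ∈ O`.  So `O'`
lies in the normal core of `O`, which is therefore open: this is `core`.
`res`: let `x ∉ N`; `N` is closed, so there is a compact open `V` with `V x` disjoint from `N`, i.e.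
`x ∉ V N = V ⊔ N`; the normal core of `V ⊔ N` is open and does not contain `x`. -/
structure SpecBGM : Prop where
  core : ∀ (G : Type u) [Group G] [TopologicalSpace G] [IsTopologicalGroup G] (N : Subgroup G)
    (l : List (Set G)), N.Normal → TPm N → Good l → Dense (l.prod * (N : Set G)) →
    ∀ O : Subgroup G, IsOpen (O : Set G) → N ≤ O → IsOpen (O.normalCore : Set G)
  res : ∀ (G : Type u) [Group G] [TopologicalSpace G] [IsTopologicalGroup G] (N : Subgroup G)
    (l : List (Set G)), N.Normal → IsClosed (N : Set G) →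
    (∀ W ∈ 𝓝 (1 : G), ∃ V : Subgroup G, CO V ∧ (V : Set G) ⊆ W) → TPm N → Good l →
    Dense (l.prod * (N : Set G)) → discreteResidual G ≤ N

/-- BPS (deps: AVG, MFA, HOM; about 250 lines).  A closed normal subgroup `B` with bounded
conjugation orbits lies in `stab f`.
Proof.  `F = log f`.  `P = stab f` is a closed subgroup (`f` is locally constant), `f` is
multiplicative on `P`, and `G = P K = K P` (`Iwa.dec`).  HARNACK: for a compact set `R` there is `C` with
`|F (x r) - F x| ≤ C` for all `x ∈ G`, `r ∈ R`: write `x = p k`; then `F (x r) = F p + F (k r)` and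
`F x = F p`, and `F` is bounded on the compact set `K R`.  Let `N₁` be the closure of `B P`, a closed
subgroup, `K₁ = K ⊓ N₁`; `N₁ = P K₁` (as `P ≤ N₁`).  Then the group `N₁`, its compact open subgroup
`K₁`, and the restriction of `f` satisfy `Iwa` (`big`: an element `g k` with `f (g k) > 1` of `P` exists by
`Iwa.big` and `Iwa.dec`) and `TP` (intersect with `N₁`).  By `HOM` `A (n) = avg K₁ (k ↦ F (k n))` is a
homomorphism `N₁ → ℝ` vanishing on `K₁`.  CLAIM: for `p ∈ P` there is `C` with `|F (k p ^ n) - n F p| ≤ C` for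
all `k ∈ K₁` and natural `n`.  Proof: let `L` be the open subgroup `Lv p`, of finite index; `K₁` is a
finite union of cosets `c (L ⊓ K₁)`, which are open in `N₁`, so they meet the dense subset `B P`: we may
take the representatives `c = b q`, `b ∈ B`, `q ∈ P`.  For `ℓ ∈ L ⊓ K₁`,
`c ℓ p ^ n = (c p ^ n) (p ^ (-n) ℓ p ^ n)` with the second factor in a compact set independent of `n` and
`ℓ` (as in `UNI`: take `W` compact open normalised by `p`, `L ⊓ K₁` is a finite union of cosets
`d (W ⊓ L ⊓ K₁)`, `d ∈ Lv p`), so by Harnack `F (c ℓ p ^ n) = F (c p ^ n) + O(1)`.  And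
`c p ^ n = b (q p ^ n) = (q p ^ n) (p ^ (-n) (q⁻¹ b q) p ^ n)`, `q⁻¹ b q ∈ B ⊆ Lv p`, so again by Harnack
`F (c p ^ n) = F (q p ^ n) + O(1) = F q + n F p + O(1)`.  This proves the claim.  Averaging,
`|n A p - n F p| = |A (p ^ n) - n F p| ≤ C` for all `n`, so `A p = F p` for `p ∈ P`.  For `n = p k ∈ P K₁ = N₁`:
`A n = A p = F p = F n`.  So `F = A` is a homomorphism on `N₁`.  For `b ∈ B` and `x = p k ∈ G = P K`:
`F (b x) = F (b p) = F b + F p = F b + F x`. -/
def SpecBPS : Prop :=
  ∀ (G : Type u) [Group G] [TopologicalSpace G] [IsTopologicalGroup G] (K B : Subgroup G)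
    (f : G → ℝ), CO K → TP G → Iwa K f → B.Normal → IsClosed (B : Set G) →
    (∀ s : G, ∃ L : Subgroup G, (L : Set G) = Lv s ∧ IsOpen (L : Set G) ∧ L.FiniteIndex) →
    (∀ s : G, (B : Set G) ⊆ Lv s) → ∀ b ∈ B, ∀ x, f (b * x) = f b * f x

/-- HM2 (deps: AVG, MFA, CGB; about 250 lines).
Proof.  As `G = B Q` with `Q` compact, an open subgroup containing `B` has finite index.  Choose
`p ∈ stab f` with `f p > 1` (`Iwa.big`, `Iwa.dec`).  `K ⊔ B` has finite index, so `p ^ m = b k` with
`m ≥ 1`, `b ∈ B`, `k ∈ K`, and `f b = f (b k) = (f p) ^ m > 1`.  By `CGB` `B` is generated by a compact set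
`D`.  Cover `D` by finitely many `d_i K` and put `V = K ⊓ ⨅ d_i K d_i⁻¹`: open, and `d⁻¹ v d ∈ K` for
`v ∈ V`, `d ∈ D`; so `f (v d v⁻¹) = f (v d) = f (d (d⁻¹ v d)) = f d`.  Both `b ↦ f (v b v⁻¹)` and `f` are
multiplicative on `B` (hypothesis), so they agree on `B`.  Hence the subgroup
`G₂ = {g | ∀ b ∈ B, f (g b g⁻¹) = f b}` contains `V` and `B` (multiplicativity), so it is open of finite
index.  For `g ∈ G₂` let `φ_g x = log f (x g) - log f x`.  For `x ∈ G₂`, `b ∈ B`:
`φ_g (x b) = φ_g ((x b x⁻¹) x) = φ_g x`, and `φ_g (x v) = φ_g x` for `v ∈ Vg K K g`; so `φ_g` is right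
invariant under `W = B ⊔ (Vg K K g ⊓ G₂) ≤ G₂`, which has finite index: `FI G₂ φ_g`.  Let
`A g = avg G₂ φ_g`.  By `AVG.right`, `A (g h) = avg (log f (x g h) - log f (x g)) + avg φ_g = A h + A g`.
`A k = 0` for `k ∈ K ⊓ G₂`.  For `b ∈ B`: `φ_b x = log f ((x b x⁻¹) x) - log f x = log f (x b x⁻¹) = log f b`
for `x ∈ G₂`, so `A b = log f b`, nonzero for the `b` above.  So `N₂ = {g ∈ G₂ | A g = 0}` is open, normal in
`G₂` and of infinite index.  Its conjugate `g N₂ g⁻¹` only depends on the coset `g G₂`, so the normal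
core of `N₂` in `G` is open, and it has infinite index. -/
def SpecHM2 : Prop :=
  ∀ (G : Type u) [Group G] [TopologicalSpace G] [IsTopologicalGroup G] (K B : Subgroup G)
    (f : G → ℝ) (Q : Set G), CO K → Iwa K f → B.Normal → IsClosed (B : Set G) →
    (∀ b ∈ B, ∀ x, f (b * x) = f b * f x) → CG G → IsCompact Q →
    (∀ g : G, ∃ b ∈ B, ∃ q ∈ Q, g = b * q) →
    ∃ N : Subgroup G, N.Normal ∧ IsOpen (N : Set G) ∧ ¬ N.FiniteIndex

/-- INF (deps: SCM, LSF, EXT, IWA, RSD, BPS, HM2; about 150 lines).  A noncompact group has an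
infinite discrete quotient.
Proof.  Suppose that all open normal subgroups have finite index and let `B` be their intersection
(closed, normal).  Let `S` be a finite symmetric set with `K ∪ S` generating (cover a compact
generating set by cosets `s K`).  By `RSD` for the set of all open normal subgroups there is an open
normal `N` with `U₀ = N ⊓ (K ⊔ B)` normal; `U₀` is open, so of finite index: `G = U₀ F ⊆ B K F` with `F`
finite; `Q = K F` is compact.  By `EXT` (`l = |S| + 1`) and `IWA` there is `f` with `Iwa K f`.  By `LSF` (and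
`SCM`) `Lv s` is an open subgroup of finite index; its normal core is open normal, so it contains `B`.
`BPS` and `HM2` give a contradiction. -/
def SpecINF : Prop :=
  ∀ (G : Type u) [Group G] [TopologicalSpace G] [IsTopologicalGroup G] (K : Subgroup G),
    CO K → GC K → TP G → CG G → ¬ CompactSpace G →
    ∃ N : Subgroup G, N.Normal ∧ IsOpen (N : Set G) ∧ ¬ N.FiniteIndex

/-- CGU (deps: CGB; about 250 lines).  Compact generation of an open normal subgroup.
Proof.  Let `y_i ∈ G` be the given lifts of the basis.  `G₃`, the preimage of `φ.range`, is an open subgroup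
of finite index containing `U` and the `y_i`; by `CGB` it is generated by a compact set `C₃`, which meets
finitely many cosets of `U`; each coset in `G₃` contains a product `y ^ m = y_1 ^ {m_1} ⋯ y_r ^ {m_r}`, so
`C₃ ⊆ ⋃_m y ^ m C'_m` with `C'_m ⊆ U` compact (finitely many `m`).  Let `C₀ ⊆ U` be compact and contain all
`C'_m`, a compact open subgroup of `U`, and the commutators `y_i ^ ε y_j ^ δ y_i ^ (-ε) y_j ^ (-δ)`,
`ε, δ = ±1` (they are in `U`).  So `G₃` is generated by `C₀` and the `y_i`.  For compact `C ⊆ U` and given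
`i` the closure `C^(i)` of `⋃_n y_i ^ n C y_i ^ (-n)` is a compact subset of `U` (choose by `TP` a compact
open `W ≤ U` normalised by `y_i`; `C` is covered by finitely many `c W`, `c ∈ C ⊆ Lv (y_i)`; `U` is
closed), invariant under conjugation by `y_i ^ ±1`.  Put `D_0 = C₀`, `D_j = (D_{j-1})^(j)`,
`H_j = ⟨D_j⟩`: an open, hence closed subgroup.  CLAIM: `y_i ^ ±1` normalises `H_j` for `i ≤ j`.  For `i = j`
clear.  For `i < j`, `ε = ±1`, `y = y_i ^ ε`, `d ∈ D_{j-1}`:
`y y_j ^ n d y_j ^ (-n) y⁻¹ = u_n y_j ^ n (y d y⁻¹) y_j ^ (-n) u_n⁻¹` with `u_n = y y_j ^ n y⁻¹ y_j ^ (-n)`;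
`y d y⁻¹ ∈ H_{j-1}` by induction, so the middle factor is in `y_j ^ n H_{j-1} y_j ^ (-n) ≤ H_j`; and
`u_n` is a product of conjugates by powers of `y_j` of the commutators of `y` and `y_j ^ ±1`, which are in
`C₀`, so `u_n ∈ H_j`.  As `H_j` is closed, `y D_j y⁻¹ ⊆ H_j`.  So `H = H_r` is normalised by all `y_i` and
contains `C₀`, hence it is normal in `G₃`, and in `G₃ / H` the images of the `y_i` commute and generate; so
every `u ∈ U` is `h y_1 ^ {m_1} ⋯ y_r ^ {m_r}`, `h ∈ H ≤ U`; then `φ (m) = 1`, `m = 0` and `u = h`.  So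
`U = H = ⟨D_r⟩`. -/
def SpecCGU : Prop :=
  ∀ (G : Type u) [Group G] [TopologicalSpace G] [IsTopologicalGroup G] (U : Subgroup G)
    [U.Normal] (r : ℕ) (φ : Multiplicative (Fin r → ℤ) →* G ⧸ U) (y : Fin r → G),
    TP G → CG G → IsOpen (U : Set G) → Function.Injective φ → φ.range.FiniteIndex →
    (∀ i, φ (Multiplicative.ofAdd (Pi.single i 1)) = (y i : G ⧸ U)) →
    (∀ i, (U : Set G) ⊆ Lv (y i)) →
    ∃ D : Set G, IsCompact D ∧ D ⊆ U ∧ Subgroup.closure D = U

/-- STA (deps: LSF, RSD, VAQ, CGU; about 250 lines).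
Proof.  `B = discreteResidual G`; `S` as in `INF`.  By `RSD` (all open normal subgroups) there is an open
normal subgroup `U₀` with `B ≤ U₀ ≤ K ⊔ B`.  By `VAQ` there is `φ₀ : ℤ^r → G / U₀`, injective, range
normal of finite index; let `z_i` lift the `φ₀ (e_i)` and `G₁` be the preimage of the range: normal, open,
`G₁ / U₀` abelian.  By `LSF` the `Lv (z_i)` are open subgroups of finite index.  Let `A` be the normal core
of `G₁ ⊓ ⨅ Lv (z_i)`: open normal of finite index.  `U₂ = A ⊓ U₀` is open and normal, `U₂ ≤ K ⊔ B`, and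
commutators of elements of `A ≤ G₁` lie in `A ⊓ U₀ = U₂`.  Choose `m ≥ 1` with `y_i = z_i ^ m ∈ A` for all `i`.
The `y_i` commute modulo `U₂`, and `∏ y_i ^ {n_i} ∈ U₂ ≤ U₀` implies `m n = 0`; this gives an injective
`φ : ℤ^r → G / U₂` with `φ (e_i) = y_i`.  Its range has finite index: `A / U₂` embeds in `φ₀ (ℤ^r)` and the
range of `φ` corresponds to `φ₀ (m ℤ^r)`.  `U₂ ≤ A ⊆ Lv (z_i) ⊆ Lv (y_i)` (powers of `y_i` are powers of
`z_i`).  `CGU` gives the compact generating set of `U₂`. -/
def SpecSTA : Prop :=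
  ∀ (G : Type u) [Group G] [TopologicalSpace G] [IsTopologicalGroup G] (K : Subgroup G),
    CO K → SC K → TP G → CG G →
    ∃ U A : Subgroup G, IsOpen (U : Set G) ∧ U.Normal ∧ U ≤ K ⊔ discreteResidual G ∧
      (∃ D : Set G, IsCompact D ∧ D ⊆ U ∧ Subgroup.closure D = U) ∧ U ≤ A ∧ A.FiniteIndex ∧
      ∀ a ∈ A, ∀ b ∈ A, a * b * a⁻¹ * b⁻¹ ∈ U

/-- STB (deps: SCM, RSD, VAQ, BGQ, GCS, BGM, INF; about 250 lines).  The subgroup `U` of `STA` is
compact.
Proof.  `H = K ⊔ U = K U` is an open subgroup, `[H : U] ≤ [K : K ⊓ U]` is finite.  `K_H = K.subgroupOf H`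
is compact open in `H`, `GC K_H`, `TP H` (`GCS`), `CG H` (generated by `K` and `D`).  Suppose that `U` is not
compact; then `H` is not compact.  By `INF` there is an open normal subgroup `J` of `H` of infinite
index.  Let `R` be the intersection of all subgroups `N ≤ U` which are open and normalised by `U`.
(a) `R` is closed and normal in `G`: conjugation by `g ∈ G` permutes these `N` as `U` is normal.
(b) `R` is the intersection of all open normal subgroups of `H`: if `N` is one of them then `N ⊓ U` is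
open and normalised by `U`; conversely for `N ≤ U` open and normalised by `U` the conjugates `k N k⁻¹`,
`k ∈ K`, are finitely many (`K ⊓ U` normalises `N`), each normalised by `U`, and their intersection is
open and normal in `H = K U`.
(c) By `RSD` in `H` (all open normal subgroups) there is an open normal subgroup `U₃` of `H` with
`R ≤ U₃ ≤ K R`; `SC K_H` by `SCM`, so by `VAQ` and `BGQ` `H` is boundedly generated modulo `U₃`, hence
modulo `R` (add the compact set `K` to the list).  By `VAQ` and `BGQ` in `G`, `G` is boundedly generated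
modulo `U ≤ H`.  Together `G = l.prod * R` for a good list `l` of subsets of `G` (map the sets of the
list for `H` to `G`).
(d) `TPm R` by `GCS.tpm`; by `BGM.res` `discreteResidual G ≤ R`.  (Small compact open subgroups exist by
`TP`.)
(e) `J ⊓ U` is open and normalised by `U`, so `R ≤ J`.  By hypothesis `U ≤ K ⊔ discreteResidual G ≤ K R`,
so every element of `U` is `k ρ`, `k ∈ K ⊓ U`, `ρ ∈ R ≤ J`; so `[U : J ⊓ U] ≤ [K : K ⊓ J] < ∞`, and `J` has
finite index in `H`, a contradiction. -/
def SpecSTB : Prop :=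
  ∀ (G : Type u) [Group G] [TopologicalSpace G] [IsTopologicalGroup G] (K U : Subgroup G)
    (D : Set G), CO K → GC K → TP G → CG G → IsOpen (U : Set G) → U.Normal →
    U ≤ K ⊔ discreteResidual G → IsCompact D → D ⊆ U → Subgroup.closure D = U →
    IsCompact (U : Set G)

/-- STR (deps: SCM, STA, STB; about 30 lines).  Theorem A. -/
def SpecSTR : Prop :=
  ∀ (G : Type u) [Group G] [TopologicalSpace G] [IsTopologicalGroup G] (K : Subgroup G),
    CO K → GC K → TP G → CG G →
    ∃ U A : Subgroup G, CO U ∧ U.Normal ∧ U ≤ A ∧ A.FiniteIndex ∧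
      ∀ a ∈ A, ∀ b ∈ A, a * b * a⁻¹ * b⁻¹ ∈ U

/-- HBG (deps: SCM, COK, GEL, GCQ, QUO, VAQ, BGQ, STR; about 200 lines).  A Gelfand subgroup is
boundedly generated modulo a closed normal subgroup containing all contraction groups.
Proof.  Let `M = N.subgroupOf H`, closed and normal in `H`; `con h ⊆ M` for `h ∈ H` (a contraction in `H` is
one in `G`).  `H` is locally compact, totally disconnected and Hausdorff.  By `QUO` `TP (H / M)`.  By `COK`
and `GEL` `H` has a compact open subgroup `K'` with `GC K'`; by `GCQ` its image `K̄` in `H / M` is compact open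
with `GC K̄`.  `H / M` is compactly generated.  By `STR` `H / M` has a compact open normal subgroup `Ū`;
by `SCM`, `VAQ`, `BGQ` `H / M` is boundedly generated modulo `Ū`, and adding the compact set `Ū` to the
list, modulo the trivial group.  Lift the sets of the list to `H`: a compact subset of `H / M` is covered
by finitely many images of sets `h K'`, so it lies in the image of a compact set; `Pw C̄` lies in the image
of `Pw C` if `C` is compact with image containing `C̄`.  So `H ⊆ l.prod * M` in `H`; map to `G`. -/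
def SpecHBG : Prop :=
  ∀ (G : Type u) [Group G] [TopologicalSpace G] [IsTopologicalGroup G] [LocallyCompactSpace G]
    [TotallyDisconnectedSpace G] [T2Space G] [MeasurableSpace G] [BorelSpace G]
    (N H : Subgroup G), N.Normal → IsClosed (N : Set G) → (∀ g : G, con g ⊆ N) → GelSub H →
    BG N (H : Set G)

/-- FN2 (deps: BGM, HBG; about 120 lines).  Theorem B.
Proof.  `N` = closure of the Tits core, closed and normal (`titsCore_normal`), `con g ⊆ N`.  `TPm N`:
given `g` and an open `O ≥ N`, choose a compact open `U ≤ O` (`vanDantzig`) and `V ≤ U` as in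
`normalised`; `V ⊔ N`.  Every set `X` of the list is contained in `l_X.prod * N` for a good list `l_X`
(`[X]` in the first two cases, `HBG` in the third), and as `N` is normal the product of the list is
contained in `l.prod * N` with `l` the concatenation.  By `BGM.res` `discreteResidual G ≤ N`; the other
inclusion is `titsCore_le_residual` and `residual_closed`.  The second claim: choose a compact open
`V ⊆ W`; by `BGM.core` the normal core of `V ⊔ N` is open, and `V ⊔ N = V N`. -/
def SpecFN2 : Prop :=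
  ∀ (G : Type u) [Group G] [TopologicalSpace G] [IsTopologicalGroup G] [LocallyCompactSpace G]
    [TotallyDisconnectedSpace G] [T2Space G] [MeasurableSpace G] [BorelSpace G]
    (l : List (Set G)), (∀ X ∈ l, IsCompact X ∨ (∃ C : Set G, IsCompact C ∧ X = Pw C) ∨
      ∃ H : Subgroup G, X = (H : Set G) ∧ GelSub H) → Dense (l.prod : Set G) →
    (discreteResidual G : Set G) = closure (titsCore G : Set G) ∧
    ∀ W ∈ 𝓝 (1 : G), ∃ H : Subgroup G, H.Normal ∧ IsOpen (H : Set G) ∧
      (H : Set G) ⊆ W * (discreteResidual G : Set G)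

/-- FN3 (deps: COK, GEL, STR; about 50 lines).  Theorem A for groups with trivial contraction groups.
Proof.  `TP G`: given `g` and `W` choose a compact open `U ⊆ W` (`vanDantzig`) and apply `normalised`
with the trivial subgroup as `N`: `V ≤ U` open (so closed in `U`, compact) and `V ⊔ ⊥ = V` is normalised
by `g`.  `COK`, `GEL` give a compact open `K'` with `GC K'`; `STR`. -/
def SpecFN3 : Prop :=
  ∀ (G : Type u) [Group G] [TopologicalSpace G] [IsTopologicalGroup G] [LocallyCompactSpace G]
    [TotallyDisconnectedSpace G] [T2Space G] [MeasurableSpace G] [BorelSpace G] (K : Subgroup G),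
    CG G → IsGel K → (∀ g x : G, x ∈ con g → x = 1) →
    ∃ U A : Subgroup G, CO U ∧ U.Normal ∧ U ≤ A ∧ A.FiniteIndex ∧
      ∀ a ∈ A, ∀ b ∈ A, a * b * a⁻¹ * b⁻¹ ∈ U

end Pool.Agent.Lib.MP7d449a.GP
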