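import Pool.Agent.Lib.MP_7d449a_al.GP.Spec2

/-!
# MP_7d449a_al, groups with a Gelfand pair: specification, part 3 (final form of Theorem B)

Same rules; import only `Pool.Agent.Lib.MP_7d449a_al.GP.Spec3`.  Theorem B with the contraction groups
of the noncompact pieces only, so that it contains `BoundedGeneration` completely.
-/

set_option autoImplicit false

open Filter Topology
open scoped Pointwise

namespace Pool.Agent.Lib.MP7d449a.GP

universe u

/-- A list of sets each of which is compact or consists of the powers of the elements of a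
compact set of elements whose contraction groups (and those of the inverses) lie in `N`. -/
def GoodN {G : Type u} [Group G] [TopologicalSpace G] (N : Subgroup G) (l : List (Set G)) : Prop :=
  ∀ Y ∈ l, IsCompact Y ∨ ∃ C : Set G, IsCompact C ∧
    (∀ c ∈ C, con c ⊆ N ∧ con c⁻¹ ⊆ N) ∧ Y = Pw C

/-- BM2 (deps: none; about 120 lines).
Proof.  As `BGM.core`: for a compact `Y` of the list as there; for `Y = Pw C` use `one_step` (file
`Bdd`): there is an open `O'` with `N ≤ O' ≤ O` and `c ^ k x c ^ (-k) ∈ O` for `c ∈ C`, `x ∈ O'`.  By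
induction on the list there is an open `O' ≥ N` with `p x p⁻¹ ∈ O` for `p ∈ l.prod`, `x ∈ O'`; conclude
by density as in `BGM.core`. -/
def SpecBM2 : Prop :=
  ∀ (G : Type u) [Group G] [TopologicalSpace G] [IsTopologicalGroup G] [LocallyCompactSpace G]
    [TotallyDisconnectedSpace G] [T2Space G] (N : Subgroup G) (l : List (Set G)), N.Normal →
    GoodN N l → Dense (l.prod * (N : Set G)) →
    ∀ O : Subgroup G, IsOpen (O : Set G) → N ≤ O → IsOpen (O.normalCore : Set G)

/-- HB2 (deps: SCM, COK, GEL, GCQ, QUO, VAQ, BGQ, STR; about 200 lines).  `HBG` with contraction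
groups of elements of `H` only.
Proof.  Literally the proof of `HBG`: the lifts of the sets `Pw C̄` are `Pw C` with `C ⊆ H` compact, and
`con c, con c⁻¹ ⊆ N` for `c ∈ H` by hypothesis; `QUO` for `H` only needs `con h ⊆ M` for `h ∈ H`. -/
def SpecHB2 : Prop :=
  ∀ (G : Type u) [Group G] [TopologicalSpace G] [IsTopologicalGroup G] [LocallyCompactSpace G]
    [TotallyDisconnectedSpace G] [T2Space G] [MeasurableSpace G] [BorelSpace G]
    (N H : Subgroup G), N.Normal → IsClosed (N : Set G) → (∀ h ∈ H, con h ⊆ N) → GelSub H →
    ∃ l : List (Set G), GoodN N l ∧ (H : Set G) ⊆ l.prod * (N : Set G)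

/-- FN4 (deps: BM2, HB2; about 150 lines).  Theorem B, final form.
Proof.  STEP.  Let `N` be closed and normal and suppose that every `X` of the list is compact or
satisfies `con x ⊆ N` for all `x ∈ X`.  Then every open subgroup `O ≥ N` has an open normal core: every
`X` is contained in `l_X.prod * N` with `GoodN N l_X`: if `X` is compact take `[X]`; if `X = Pw C` is
not compact then `C ⊆ X`, `C⁻¹ ⊆ X`, take `[X]`; if `X = H` is not compact use `HB2`.  As `N` is
normal `l.prod ⊆ l'.prod * N` with the concatenation `l'` of the `l_X`; `BM2`.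
Second claim: let `x ∈ discreteResidual G`, `x ∉ N`; as `N` is closed there is a compact open `V`
(`vanDantzig`) with `x ∉ V N`; the normal core of `V ⊔ N = V N` is open and normal, so it contains
`discreteResidual G`, a contradiction (see `residual_le` in file `Bdd`).  First claim: the second one
for `N = (titsCore G).topologicalClosure` and `titsCore_le_residual`, `residual_closed`,
`titsCore_normal`.  Third claim: `STEP` for `N = discreteResidual G` (`con_sub_residual`) and
`O = V ⊔ N` with a compact open `V ⊆ W` (see `small_normal` in file `Bdd`). -/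
def SpecFN4 : Prop :=
  ∀ (G : Type u) [Group G] [TopologicalSpace G] [IsTopologicalGroup G] [LocallyCompactSpace G]
    [TotallyDisconnectedSpace G] [T2Space G] [MeasurableSpace G] [BorelSpace G]
    (l : List (Set G)), (∀ X ∈ l, IsCompact X ∨ (∃ C : Set G, IsCompact C ∧ X = Pw C) ∨
      ∃ H : Subgroup G, X = (H : Set G) ∧ GelSub H) → Dense (l.prod : Set G) →
    (discreteResidual G : Set G) = closure (titsCore G : Set G) ∧
    (∀ N : Subgroup G, N.Normal → IsClosed (N : Set G) →
      (∀ X ∈ l, IsCompact X ∨ ∀ x ∈ X, con x ⊆ N) → discreteResidual G ≤ N) ∧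
    ∀ W ∈ 𝓝 (1 : G), ∃ H : Subgroup G, H.Normal ∧ IsOpen (H : Set G) ∧
      (H : Set G) ⊆ W * (discreteResidual G : Set G)

end Pool.Agent.Lib.MP7d449a.GP
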