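import Pool.Agent.Lib.MP_7d449a_al.GP.Spec

/-!
# MP_7d449a_al, Gelfand pairs: module TRN

`K` is transitive on the normalised extreme rays of a normal subgroup `U` of `K`.
-/

set_option autoImplicit false

open Filter Topology

namespace Pool.Agent.Lib.MP7d449a.GP

universe u

namespace TRNM

lemma map_conj_eq {G : Type u} [Group G] {K U : Subgroup G}
    (hn : ∀ k ∈ K, ∀ u ∈ U, k * u * k⁻¹ ∈ U) {k : G} (hk : k ∈ K) :
    U.map (MulAut.conj k).toMonoidHom = U := by
  ext x
  rw [Subgroup.mem_map]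
  constructor
  · rintro ⟨u, hu, rfl⟩
    exact hn k hk u hu
  · intro hx
    refine ⟨k⁻¹ * x * k, ?_, ?_⟩
    · have := hn k⁻¹ (K.inv_mem hk) x hx
      rwa [inv_inv] at this
    · change k * (k⁻¹ * x * k) * k⁻¹ = x
      group

end TRNM

open TRNM

theorem specTRN (h1 : SpecAVG.{u}) (h2 : SpecLFA.{u}) (h3 : SpecCNF.{u}) (h4 : SpecRIE.{u})
    (h5 : SpecTRV.{u}) : SpecTRN.{u} := by
  classical
  intro G _ _ _ K S l χ hK hχ U w w' hU hUK hn hw hw' hw1 hw'1
  obtain ⟨hidx, hform⟩ := h2.lform G K K U hK hK hU hUK w hw.cn.rinv hw.linv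
  obtain ⟨-, hform'⟩ := h2.lform G K K U hK hK hU hUK w' hw'.cn.rinv hw'.linv
  have : (U.subgroupOf K).FiniteIndex := ⟨hidx⟩
  have : Fintype (K ⧸ U.subgroupOf K) := Subgroup.fintypeQuotientOfFiniteIndex
  have hn0 : (0 : ℝ) < (U.relIndex K : ℝ) := by exact_mod_cast Nat.pos_of_ne_zero hidx
  -- the two sums
  have hsum : ∀ x, ∑ q : K ⧸ U.subgroupOf K, w (((Quotient.out q : K) : G)⁻¹ * x) =
      (U.relIndex K : ℝ) * χ x := by
    intro x
    have e1 := hform x
    rw [h3.kav G K χ w hw.cn x, hw1, mul_one, eq_div_iff hn0.ne', finsum_eq_sum_of_fintype] at e1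
    rw [← e1]; ring
  have hsum' : ∀ x, ∑ q : K ⧸ U.subgroupOf K, w' (((Quotient.out q : K) : G)⁻¹ * x) =
      (U.relIndex K : ℝ) * χ x := by
    intro x
    have e1 := hform' x
    rw [h3.kav G K χ w' hw'.cn x, hw'1, mul_one, eq_div_iff hn0.ne', finsum_eq_sum_of_fintype] at e1
    rw [← e1]; ring
  have hle : ∀ x, w' x ≤ ∑ q : K ⧸ U.subgroupOf K, w (((Quotient.out q : K) : G)⁻¹ * x) := by
    intro x
    rw [hsum x, ← hsum' x]
    have h0 : w' (((Quotient.out (QuotientGroup.mk (1 : K) : K ⧸ U.subgroupOf K) : K) : G)⁻¹ * x) =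
        w' x := by
      apply hw'.linv
      have h6 : (QuotientGroup.mk (1 : K) : K ⧸ U.subgroupOf K) =
          QuotientGroup.mk (Quotient.out (QuotientGroup.mk (1 : K) : K ⧸ U.subgroupOf K) : K) :=
        (QuotientGroup.out_eq' _).symm
      rw [QuotientGroup.eq] at h6
      rw [Subgroup.mem_subgroupOf] at h6
      simp only [inv_one, one_mul] at h6
      exact U.inv_mem h6
    calc w' x = w' (((Quotient.out (QuotientGroup.mk (1 : K) : K ⧸ U.subgroupOf K) : K) : G)⁻¹ * x) :=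
          h0.symm
      _ ≤ _ := Finset.single_le_sum
          (f := fun q : K ⧸ U.subgroupOf K => w' (((Quotient.out q : K) : G)⁻¹ * x))
          (fun q _ => hw'.cn.nonneg _) (Finset.mem_univ _)
  -- the translates
  set wq : (K ⧸ U.subgroupOf K) → G → ℝ := fun q x => w (((Quotient.out q : K) : G)⁻¹ * x)
    with hwq
  have hER : ∀ q, ER K χ U (wq q) := by
    intro q
    have h6 := (h5 G K U χ w hK hw).1 ((Quotient.out q : K) : G)
    rwa [map_conj_eq hn (Quotient.out q : K).2] at h6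
  have hq1 : ∀ q, wq q 1 = 1 := by
    intro q
    have h6 := hw.cn.rinv 1 (((Quotient.out q : K) : G)⁻¹) (K.inv_mem (Quotient.out q : K).2)
    simp only [hwq, mul_one]
    rw [one_mul] at h6
    rw [h6, hw1]
  obtain ⟨c, hc, hca⟩ := h4 G K S l χ hK hχ (K ⧸ U.subgroupOf K) Finset.univ w' wq hw'.cn
    (fun q _ => (hER q).cn) hle
  have hcoef : ∀ q, ∃ t : ℝ, 0 ≤ t ∧ ∀ x, LAv U (c q) x = t * wq q x := by
    intro q
    obtain ⟨hcq, hcle⟩ := hc q (Finset.mem_univ q)
    have hL : Cn K χ (LAv U (c q)) := h3.lav G K U χ (c q) hK hU hcq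
    obtain ⟨t, ht⟩ := (hER q).ext (LAv U (c q)) hL (h2.linv G K U hK hU (c q) hcq.rinv) (by
      intro x
      calc LAv U (c q) x ≤ LAv U (wq q) x :=
            h2.mono G K U hK hU (c q) (wq q) hcq.rinv (hER q).cn.rinv hcle x
        _ = wq q x := h2.fix G U (wq q) (hER q).linv x)
    refine ⟨t, ?_, ht⟩
    have h6 := ht 1
    rw [hq1, mul_one] at h6
    rw [← h6]
    exact hL.nonneg 1
  choose t ht0 ht using hcoef
  have hdec : ∀ x, w' x = ∑ q : K ⧸ U.subgroupOf K, t q * wq q x := by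
    intro x
    have e1 : w' = fun y => ∑ q : K ⧸ U.subgroupOf K, c q y := funext hca
    calc w' x = LAv U w' x := (h2.fix G U w' hw'.linv x).symm
      _ = LAv U (fun y => ∑ q : K ⧸ U.subgroupOf K, c q y) x := by rw [← e1]
      _ = ∑ q : K ⧸ U.subgroupOf K, LAv U (c q) x :=
          h2.sum G K U hK hU (K ⧸ U.subgroupOf K) Finset.univ c
            (fun q hq => (hc q hq).1.rinv) x
      _ = _ := Finset.sum_congr rfl fun q _ => ht q x
  have hone : ∑ q : K ⧸ U.subgroupOf K, t q = 1 := by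
    have h6 := hdec 1
    rw [hw'1] at h6
    rw [h6]
    exact Finset.sum_congr rfl fun q _ => by rw [hq1, mul_one]
  obtain ⟨q, hq⟩ : ∃ q, 0 < t q := by
    by_contra hcon
    push Not at hcon
    have h6 : ∑ q : K ⧸ U.subgroupOf K, t q ≤ 0 := Finset.sum_nonpos fun q _ => hcon q
    linarith
  obtain ⟨d, hd⟩ := hw'.ext (fun x => t q * wq q x)
    (h3.smul G K χ (wq q) (t q) hK (hER q).cn (ht0 q))
    (fun x k hk => by
      change t q * wq q (k * x) = t q * wq q x
      rw [(hER q).linv x k hk])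
    (fun x => by
      rw [hdec x]
      exact Finset.single_le_sum (f := fun q => t q * wq q x)
        (fun q _ => mul_nonneg (ht0 q) ((hER q).cn.nonneg x)) (Finset.mem_univ q))
  have hdt : t q = d := by
    have h6 := hd 1
    simp only [hq1, mul_one, hw'1] at h6
    exact h6
  refine ⟨((Quotient.out q : K) : G)⁻¹, K.inv_mem (Quotient.out q : K).2, fun x => ?_⟩
  have h6 := hd x
  rw [← hdt] at h6
  exact (mul_left_cancel₀ hq.ne' h6).symm

end Pool.Agent.Lib.MP7d449a.GP
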